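import Pool.Agent.LSCM.StA

/-!
# ADD: adding prime divisors

Project LSC (architect helper87): the function `G0` grows by at most one when the valuation of a prime
divisor is added, and its change under the shift by the line is known.
-/

set_option autoImplicit false

namespace LSCM

open MldTv MldGap Finset

noncomputable section

namespace M_ADD

variable {m c : ℕ} {X : TVar m c}

theorem ordE_mono_inC {A : Set (Mon X)} (hA : ∀ f ∈ A, X.IsMon f) (hne : A.Nonempty) {w w' : Amb X}
    (hw : inC w) (h : ∀ f ∈ A, evE f w ≤ evE f w') : ordE A w ≤ ordE A w' := by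
  apply le_csInf (hne.image _)
  rintro _ ⟨f, hf, rfl⟩
  refine le_trans ?_ (h f hf)
  refine csInf_le ⟨0, ?_⟩ ⟨f, hf, rfl⟩
  rintro _ ⟨f', hf', rfl⟩
  exact evE_nonneg (hA f' hf') hw

theorem evE_sum_nonneg {f : Mon X} (hf : X.IsMon f) (J : Finset (Gen X)) :
    0 ≤ evE f (∑ g ∈ J, gen g) := by
  rw [map_sum]
  refine sum_nonneg fun g _ => ?_
  obtain ⟨a, ha⟩ := evE_gen hf g
  rw [ha]
  exact Nat.cast_nonneg _

theorem PE_sum_le (B : Bdry X) (J : Finset (Gen X)) : PE B (∑ g ∈ J, gen g) ≤ J.card := by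
  rw [map_sum]
  calc ∑ g ∈ J, PE B (gen g) ≤ ∑ _g ∈ J, (1 : ℝ) := by
        refine sum_le_sum fun g _ => ?_
        rw [PE_gen]
        linarith [bG_nonneg B g]
    _ = J.card := by simp

theorem snd_sum_nonneg (J : Finset (Gen X)) (y : X.Y) : 0 ≤ (∑ g ∈ J, gen g : Amb X).2 y := by
  rw [Prod.snd_sum, Finset.sum_apply]
  refine sum_nonneg fun g _ => ?_
  rw [gen_snd]
  exact Nat.cast_nonneg _

end M_ADD

open M_ADD in
theorem t_ADD : Stmt_ADD := by
  intro m c X T w hw0 hw
  have hmin : ∑ y, min (w.2 y) 0 = 0 := sum_eq_zero fun y _ => min_eq_right (hw0 y)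
  refine ⟨fun J => ?_, fun hdeg => ?_⟩
  · have h1 : ∑ y, min ((w + ∑ g ∈ J, gen g).2 y) 0 = 0 := by
      refine sum_eq_zero fun y _ => min_eq_right ?_
      have := snd_sum_nonneg J y
      rw [Prod.snd_add, Pi.add_apply]
      linarith [hw0 y]
    have h2 : ∑ j, T.r j * ordE (T.A j) w ≤ ∑ j, T.r j * ordE (T.A j) (w + ∑ g ∈ J, gen g) := by
      refine sum_le_sum fun j _ => mul_le_mul_of_nonneg_left ?_ (T.r_nonneg j)
      refine ordE_mono_inC (T.A_mon j) (T.A_nonempty j) hw fun f hf => ?_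
      rw [map_add]
      linarith [evE_sum_nonneg (T.A_mon j f hf) J]
    have h3 := PE_sum_le T.toBdry J
    unfold G0
    rw [h1, hmin, map_add]
    linarith
  · have h1 : ∑ y, min ((w - T1 X).2 y) 0 = 0 := by
      refine sum_eq_zero fun y _ => min_eq_right ?_
      have := hdeg y
      rw [Prod.snd_sub, Pi.sub_apply]
      change 0 ≤ w.2 y - (X.deg y : ℝ)
      linarith
    have h2 : ∀ j, ordE (T.A j) (w - T1 X) = ordE (T.A j) w := by
      intro j
      have e1 : w - T1 X = w + (-1 : ℝ) • T1 X := by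
        rw [neg_smul, one_smul, sub_eq_add_neg]
      rw [e1, ordE_T1 (T.A_mon j)]
    unfold G0
    rw [h1, hmin, map_sub, PE_T1]
    simp only [h2]
    ring

end

end LSCM
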