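import Pool.Agent.LSCM.StD
import Pool.Agent.MldG.AF1

/-!
# Lower semicontinuity in complexity one: replacing a factor `ℂ^*` by the affine line, one step
-/

set_option autoImplicit false

namespace LSCM

open MldGap MldGeo MldG MvPolynomial

noncomputable section

namespace M_APP

/-- The dimension of the centre does not grow if `j` maps regular functions to regular functions. -/
theorem dimLE_comap {n : ℕ} {X X' : Germ n} (j : X'.K ≃ₐ[ℂ] X.K)
    (h : ∀ a' : X'.R, j (a' : X'.K) ∈ X.R) (v : DivVal n X.K) (d : ℕ) (hd : DimLE X v d) :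
    DimLE X' (comap j v) d := by
  intro r hr
  obtain ⟨p, hp, hp2⟩ := hd (fun i => j (r i)) fun i => h ⟨r i, hr i⟩
  refine ⟨p, hp, ?_⟩
  have e : aeval (fun i => j (r i)) p = j (aeval r p) := by
    exact (MvPolynomial.comp_aeval_apply (R := ℂ) (f := r) j.toAlgHom p).symm
  rw [e] at hp2
  rcases hp2 with h2 | h2
  · left
    exact j.injective (by rw [h2, map_zero])
  · right
    exact h2

end M_APP

theorem t_APP (hAXP : Stmt_AXP) (hTRF : Stmt_TRF) (hISO : Stmt_ISO) (hHOU : Stmt_HOU)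
    (hATH : Stmt_ATH) : Stmt_APP := by
  intro n m X A T S hn hG hCO hSat φ u hUW hφ
  obtain ⟨g, hg, hgu⟩ := hUW
  obtain ⟨X', j, A', h1, h2, h3, h4, h5, h6, h7, h8⟩ := hAXP A φ u g hn hgu hg hφ hCO hSat
  obtain ⟨ω', hω0, hω⟩ := hISO j T.ω T.ω_ne
  let T' : Triple X' :=
    { ω := ω'
      ω_ne := hω0
      I := T.I
      finI := T.finI
      f := fun i => j.symm (T.f i)
      f_ne := fun i => by simpa using T.f_ne i
      c := T.c
      J := T.J
      finJ := T.finJ
      a := fun i => Ideal.span (AF1.gens j A φ (T.a i))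
      a_ne := fun i => AF1.gens_ne j A A' φ hHOU hg hgu hφ h4 (hG.inv.2 i) (T.a_ne i)
      r := T.r
      r_nonneg := T.r_nonneg }
  have hlog : ∀ v : DivVal n X.K, T'.logDisc (comap j v) = T.logDisc v := by
    intro v
    show 1 + ((comap j v).formOrd ω' : ℝ) +
      ∑ i, T.c i * ((v.ord (j (j.symm (T.f i))) : ℤ) : ℝ) = _
    rw [hω v]
    simp only [AlgEquiv.apply_symm_apply]
    rfl
  obtain ⟨k1, k2⟩ := hTRF j A A' T T' S hn h1 h2 (hATH X).2
    (fun v hv => by
      refine ⟨hlog v, ?_⟩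
      show T'.logDisc (comap j v) - ∑ i, T.r i *
        ((idealOrd (comap j v) (Ideal.span (AF1.gens j A φ (T.a i))) : ℤ) : ℝ) = _
      rw [hlog v]
      show _ = T.logDisc v - ∑ i, T.r i * ((idealOrd v (T.a i) : ℤ) : ℝ)
      congr 1
      refine Finset.sum_congr rfl fun i _ => ?_
      rw [AF1.ord_eq j A A' φ hHOU hg hgu hφ h4 (hG.inv.2 i) (T.a_ne i) hv ((h1 v).1 hv)])
    (fun i => ⟨i, rfl⟩) (fun i => AF1.gens_inv j A A' φ h4 (T.a i))
    (fun v P' hv hP' => by
      obtain ⟨P, hP⟩ := h3 v P' hv hP'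
      refine ⟨P, hP, fun hInv => ?_⟩
      have hPne : P ≠ ⊥ := by
        rintro rfl
        have h8 := hP.2.1
        rw [Ideal.height_bot] at h8
        exact zero_ne_one h8
      obtain ⟨s, hs, rfl⟩ := hInv
      obtain ⟨a, ha, ha0⟩ : ∃ a ∈ s, a ≠ 0 := by
        by_contra hno
        push Not at hno
        apply hPne
        rw [Ideal.span_eq_bot]
        exact hno
      obtain ⟨w, hw⟩ := hs a ha
      obtain ⟨h, a', w', k1, k2, -, k4, k5⟩ := AF1.exists_gen j A A' φ hHOU hg hgu hφ h4 hw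
        (Ideal.subset_span ha) ha0
      have hpos : 0 < v.ord (a : X.K) :=
        ((hP.2.2.2 a).1 (Ideal.subset_span ha)).resolve_left ha0
      refine (hHOU A').2.2.2.2 P' (comap j v) hP' ⟨w', a', k5, k4, ?_⟩
      refine (hP'.2.2.2 a').2 (Or.inr ?_)
      show 0 < v.ord (j (a' : X'.K))
      rw [k2, AF1.ord_mul_unit hv ha0 k1]
      exact hpos) hG
  refine ⟨X', A', T', k1, k2, ?_, h5, h6, h7⟩
  intro hAmb
  refine amb_of_iso j T T' (fun v hv => (h1 v).1 hv) (fun v hv => ?_)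
    (fun v d _ hd => M_APP.dimLE_comap j h8 v d hd) k2 hAmb
  show T'.logDisc (comap j v) - ∑ i, T.r i *
    ((idealOrd (comap j v) (Ideal.span (AF1.gens j A φ (T.a i))) : ℤ) : ℝ) = _
  rw [hlog v]
  show _ = T.logDisc v - ∑ i, T.r i * ((idealOrd v (T.a i) : ℤ) : ℝ)
  congr 1
  refine Finset.sum_congr rfl fun i _ => ?_
  rw [AF1.ord_eq j A A' φ hHOU hg hgu hφ h4 (hG.inv.2 i) (T.a_ne i) hv ((h1 v).1 hv)]

end

end LSCM
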