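import Pool.Agent.LSCM.StN
import Pool.Agent.LSCM.APP

/-!
# Lower semicontinuity in complexity one: replacing a factor `ℂ^*` by the affine line, one step,
with neighbourhoods
-/

set_option autoImplicit false

namespace LSCM

open MldGap MldGeo MldG MvPolynomial

noncomputable section

namespace M_APN

variable {n m : ℕ} {X : Germ n}

theorem ord_one (v : DivVal n X.K) : v.ord 1 = 0 := by
  have h := v.ord_const 1
  rwa [map_one] at h

theorem ord_unit {v : DivVal n X.K} (hv : ∀ a : X.R, 0 ≤ v.ord (a : X.K)) {h : X.R}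
    (hh : IsUnit h) : v.ord (h : X.K) = 0 := by
  obtain ⟨h', e⟩ := hh.exists_right_inv
  have h0 : h ≠ 0 := hh.ne_zero
  have h0' : h' ≠ 0 := by
    rintro rfl
    rw [mul_zero] at e
    exact zero_ne_one e
  have h1 : (h : X.K) ≠ 0 := fun h2 => h0 (Subtype.ext h2)
  have h1' : (h' : X.K) ≠ 0 := fun h2 => h0' (Subtype.ext h2)
  have e1 : (h : X.K) * (h' : X.K) = 1 := congrArg Subtype.val e
  have e2 := v.ord_mul _ _ h1 h1'
  rw [e1, ord_one] at e2
  have h3 := hv h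
  have h4 := hv h'
  omega

theorem ord_mul_unit {v : DivVal n X.K} (hv : ∀ a : X.R, 0 ≤ v.ord (a : X.K)) {a h : X.R}
    (ha : a ≠ 0) (hh : IsUnit h) : v.ord ((a * h : X.R) : X.K) = v.ord (a : X.K) := by
  have h0 : h ≠ 0 := hh.ne_zero
  have ha' : (a : X.K) ≠ 0 := fun h' => ha (Subtype.ext h')
  have hh' : (h : X.K) ≠ 0 := fun h' => h0 (Subtype.ext h')
  push_cast
  rw [v.ord_mul _ _ ha' hh', ord_unit hv hh, add_zero]

/-- The orders of the ideals, for valuations which are nonnegative on the regular functions. -/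
theorem ord_eq {X' : Germ n} (j : X'.K ≃ₐ[ℂ] X.K) (A : MldG.TorusAction X m) (A' : MldG.TorusAction X' m)
    (φ : (Fin m → ℤ) →+ ℤ) {u : Fin m → ℤ} {g : X.R} (hHOU : Stmt_HOU) (hg : g ∈ A.gr u)
    (hu : IsUnit g) (hφ : φ u = 1)
    (h4 : ∀ (w : Fin m → ℤ) (a : X.R), φ w = 0 → a ∈ A.gr w →
      ∃ h : j.symm (a : X.K) ∈ X'.R, (⟨j.symm (a : X.K), h⟩ : X'.R) ∈ A'.gr w)
    {I : Ideal X.R} (hI : A.Inv I) (h0 : I ≠ ⊥) {v : DivVal n X.K}
    (hv : ∀ a : X.R, 0 ≤ v.ord (a : X.K)) (hv' : ∀ a : X'.R, 0 ≤ (comap j v).ord (a : X'.K)) :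
    idealOrd (comap j v) (Ideal.span (AF1.gens j A φ I)) = idealOrd v I := by
  have hne := AF1.gens_ne j A A' φ hHOU hg hu hφ h4 hI h0
  obtain ⟨-, -, i3, -⟩ := t_IDO v hv
  obtain ⟨-, -, j3, j4⟩ := t_IDO (comap j v) hv'
  apply le_antisymm
  · obtain ⟨s, hs, rfl⟩ := hI
    obtain ⟨-, -, -, i4⟩ := t_IDO v hv
    obtain ⟨a, ha, ha0, e, -⟩ := i4 s h0
    obtain ⟨w, hw⟩ := hs a ha
    obtain ⟨h, a', w', h1, h2, h5, h6, -⟩ := AF1.exists_gen j A A' φ hHOU hg hu hφ h4 hw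
      (Ideal.subset_span ha) ha0
    have h7 := j3 _ a' (Ideal.subset_span h5) h6
    have h8 : (comap j v).ord (a' : X'.K) = v.ord (a : X.K) := by
      show v.ord (j (a' : X'.K)) = _
      rw [h2, ord_mul_unit hv ha0 h1]
    rw [h8, e] at h7
    exact h7
  · obtain ⟨b', ⟨w, a, hw, haI, ha, e⟩, hb0, e', -⟩ := j4 _ hne
    rw [← e']
    show _ ≤ v.ord (j (b' : X'.K))
    rw [e]
    refine i3 _ a haI ?_
    rintro rfl
    apply hb0
    apply Subtype.ext
    apply j.injective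
    rw [e]
    simp

end M_APN

theorem t_APN (hAXP : Stmt_AXP) (hTRF : Stmt_TRF) (hISO : Stmt_ISO) (hHOU : Stmt_HOU)
    (hATH : Stmt_ATH) (hEXP : Stmt_EXP) : Stmt_APN := by
  intro n m X A T S hn hG hCO hSat φ u hUW hφ
  obtain ⟨g, hg, hgu⟩ := hUW
  obtain ⟨X', j, A', h1, h2, h3, h4, h5, h6, h7, h8⟩ := hAXP A φ u g hn hgu hg hφ hCO hSat
  obtain ⟨ω', hω0, hω⟩ := hISO j T.ω T.ω_ne
  let T' : Triple X' :=
    { ω := ω'
      ω_ne := hω0
      I := T.I
      finI := T.finI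
      f := fun i => j.symm (T.f i)
      f_ne := fun i => by simpa using T.f_ne i
      c := T.c
      J := T.J
      finJ := T.finJ
      a := fun i => Ideal.span (AF1.gens j A φ (T.a i))
      a_ne := fun i => AF1.gens_ne j A A' φ hHOU hg hgu hφ h4 (hG.inv.2 i) (T.a_ne i)
      r := T.r
      r_nonneg := T.r_nonneg }
  have hlog : ∀ v : DivVal n X.K, T'.logDisc (comap j v) = T.logDisc v := by
    intro v
    show 1 + ((comap j v).formOrd ω' : ℝ) +
      ∑ i, T.c i * ((v.ord (j (j.symm (T.f i))) : ℤ) : ℝ) = _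
    rw [hω v]
    simp only [AlgEquiv.apply_symm_apply]
    rfl
  obtain ⟨k1, k2⟩ := hTRF j A A' T T' S hn h1 h2 (hATH X).2
    (fun v hv => by
      refine ⟨hlog v, ?_⟩
      show T'.logDisc (comap j v) - ∑ i, T.r i *
        ((idealOrd (comap j v) (Ideal.span (AF1.gens j A φ (T.a i))) : ℤ) : ℝ) = _
      rw [hlog v]
      show _ = T.logDisc v - ∑ i, T.r i * ((idealOrd v (T.a i) : ℤ) : ℝ)
      congr 1
      refine Finset.sum_congr rfl fun i _ => ?_
      rw [AF1.ord_eq j A A' φ hHOU hg hgu hφ h4 (hG.inv.2 i) (T.a_ne i) hv ((h1 v).1 hv)])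
    (fun i => ⟨i, rfl⟩) (fun i => AF1.gens_inv j A A' φ h4 (T.a i))
    (fun v P' hv hP' => by
      obtain ⟨P, hP⟩ := h3 v P' hv hP'
      refine ⟨P, hP, fun hInv => ?_⟩
      have hPne : P ≠ ⊥ := by
        rintro rfl
        have h8 := hP.2.1
        rw [Ideal.height_bot] at h8
        exact zero_ne_one h8
      obtain ⟨s, hs, rfl⟩ := hInv
      obtain ⟨a, ha, ha0⟩ : ∃ a ∈ s, a ≠ 0 := by
        by_contra hno
        push Not at hno
        apply hPne
        rw [Ideal.span_eq_bot]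
        exact hno
      obtain ⟨w, hw⟩ := hs a ha
      obtain ⟨h, a', w', k1, k2, -, k4, k5⟩ := AF1.exists_gen j A A' φ hHOU hg hgu hφ h4 hw
        (Ideal.subset_span ha) ha0
      have hpos : 0 < v.ord (a : X.K) :=
        ((hP.2.2.2 a).1 (Ideal.subset_span ha)).resolve_left ha0
      refine (hHOU A').2.2.2.2 P' (comap j v) hP' ⟨w', a', k5, k4, ?_⟩
      refine (hP'.2.2.2 a').2 (Or.inr ?_)
      show 0 < v.ord (j (a' : X'.K))
      rw [k2, AF1.ord_mul_unit hv ha0 k1]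
      exact hpos) hG
  have hdisc : ∀ v : DivVal n X.K, (∀ a : X.R, 0 ≤ v.ord (a : X.K)) →
      T'.disc (comap j v) = T.disc v := by
    intro v hv
    have hv' : ∀ a : X'.R, 0 ≤ (comap j v).ord (a : X'.K) := fun a' => hv ⟨_, h8 a'⟩
    show T'.logDisc (comap j v) - ∑ i, T.r i *
      ((idealOrd (comap j v) (Ideal.span (AF1.gens j A φ (T.a i))) : ℤ) : ℝ) = _
    rw [hlog v]
    show _ = T.logDisc v - ∑ i, T.r i * ((idealOrd v (T.a i) : ℤ) : ℝ)
    congr 1
    refine Finset.sum_congr rfl fun i _ => ?_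
    rw [M_APN.ord_eq j A A' φ hHOU hg hgu hφ h4 (hG.inv.2 i) (T.a_ne i) hv hv']
  refine ⟨X', A', T', k1, k2, ?_, h5, h6, h7⟩
  rintro ⟨g', hg', hA⟩
  have hg'0 : g' ≠ 0 := by
    rintro rfl
    exact hg' X'.m.zero_mem
  have hjg : j (g' : X'.K) ≠ 0 := fun h0 => hg'0 (Subtype.ext (j.injective (by
    rw [h0]
    exact (map_zero j).symm)))
  refine ⟨⟨j (g' : X'.K), h8 g'⟩, ?_, ?_⟩
  · by_cases hm : X.m = ⊥
    · rw [hm]
      intro h0
      exact hjg (congrArg Subtype.val (Ideal.mem_bot.1 h0))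
    · obtain ⟨v, hv1, hv2⟩ := hEXP X X.m X.max.isPrime hm
      have hAt : X.At v := ⟨hv1, fun a ha ha0 => ((hv2 a).1 ha).resolve_left ha0⟩
      have hTh := (hATH X').2 _ ((h2 v).1 hAt)
      have h9 : v.ord (j (g' : X'.K)) = 0 := hTh.2 g' hg'
      intro hmem
      rcases (hv2 _).1 hmem with h10 | h10
      · exact hjg (congrArg Subtype.val h10)
      · exact absurd h10 (by
          show ¬ 0 < v.ord (j (g' : X'.K))
          rw [h9]
          exact lt_irrefl _)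
  · intro v hv d hd
    rw [← k2, ← hdisc v hv.1]
    exact hA _ ⟨fun a' => hv.1 ⟨_, h8 a'⟩, hv.2⟩ d (M_APP.dimLE_comap j h8 v d hd)

end

end LSCM
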