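import Pool.Agent.LSCM.StN
import Pool.Agent.MldG.TAG

/-!
# Lower semicontinuity in complexity one: assembly
-/

set_option autoImplicit false

namespace LSCM

open MldGap MldGeo MldG

noncomputable section

namespace ASM

theorem rkI_le {m N : ℕ} (u : Fin N → Fin m → ℤ) (I : Set (Fin N)) : rkI u I ≤ m := by
  unfold rkI
  have h := Submodule.finrank_le (Submodule.span ℝ ((fun i => toR (u i)) '' I))
  simpa using h

theorem ip_zero_left {m : ℕ} (u : Fin m → ℤ) : ip (0 : Fin m → ℤ) u = 0 := by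
  simp [ip]

theorem DD_zero {m : ℕ} {X : Germ (m + 1)} {T : Triple X} (d : Dat T) (y : d.Y) :
    CMB.DD d 0 0 y = 0 := by
  unfold CMB.DD minv
  have h1 : ∀ j, (sInf (Set.range fun k => ((0 * d.c j k y + ip (0 : Fin m → ℤ) (d.z j k) : ℤ) : ℝ))) = 0 := by
    intro j
    have h2 : (fun k => ((0 * d.c j k y + ip (0 : Fin m → ℤ) (d.z j k) : ℤ) : ℝ)) = fun _ => 0 := by
      funext k
      rw [ip_zero_left]
      simp
    rw [h2]
    have : Nonempty (Fin (d.M j)) := ⟨⟨0, d.M_pos j⟩⟩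
    rw [Set.range_const, csInf_singleton]
  simp only [h1]
  simp

theorem DZ_zero {m : ℕ} {X : Germ (m + 1)} {T : Triple X} (d : MldG.Daz T) : DZ d 0 = 0 := by
  unfold DZ MldG.minz
  have h1 : ∀ j, (sInf (Set.range fun k => ((ip (0 : Fin (m + 1) → ℤ) (d.z j k) : ℤ) : ℝ))) = 0 := by
    intro j
    have h2 : (fun k => ((ip (0 : Fin (m + 1) → ℤ) (d.z j k) : ℤ) : ℝ)) = fun _ => 0 := by
      funext k
      rw [ip_zero_left]
      simp
    rw [h2]
    have : Nonempty (Fin (d.M j)) := ⟨⟨0, d.M_pos j⟩⟩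
    rw [Set.range_const, csInf_singleton]
  simp only [h1]
  simp

/-- attractive fixed points -/
theorem of_datN (hCLA : Stmt_CLA) {m : ℕ} {X : Germ (m + 1)} {T : Triple X} (d : DatN T)
    (hE : T.Effective) (hL : T.LC) : AmbN T ∧ T.mld ≤ (m + 1 : ℕ) := by
  constructor
  · obtain ⟨g, hg, h⟩ := d.lown
    refine ⟨g, hg, fun v hv k hk => ?_⟩
    obtain ⟨w, l, y, hl, hw, h1, h2⟩ := h v hv k hk
    obtain ⟨h3, h4⟩ := hCLA d.dat hE hL w l y hl hw
    by_cases hc : 0 < l ∨ LinOn d.dat (I0 d.dat w l y)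
    · exact (h3 hc).trans h1
    · exact h4.trans (h2 hc)
  · let _ := d.dat.finY
    have hy : 0 < Fintype.card d.dat.Y := lt_of_lt_of_le (show 0 < 2 by norm_num) d.dat.two
    obtain ⟨y⟩ := Fintype.card_pos_iff.1 hy
    have h := (hCLA d.dat hE hL 0 0 y le_rfl (fun i => by rw [ip_zero_left]; simp)).2
    rw [DD_zero] at h
    have h1 : (rkI d.dat.u (I0 d.dat 0 0 y) : ℝ) ≤ m := by exact_mod_cast rkI_le _ _
    push_cast
    linarith

/-- nonconstant invariant functions -/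
theorem of_dazN (hCLZ : Stmt_CLZ) {m : ℕ} {X : Germ (m + 1)} {T : Triple X} (d : DazN T)
    (hE : T.Effective) (hL : T.LC) : AmbN T ∧ T.mld ≤ (m + 1 : ℕ) := by
  constructor
  · obtain ⟨g, hg, h⟩ := d.lown
    refine ⟨g, hg, fun v hv k hk => ?_⟩
    obtain ⟨w, hw, h1⟩ := h v hv k hk
    exact (hCLZ d.dat hE hL w hw).trans h1
  · have h := hCLZ d.dat hE hL 0 (fun i => by rw [ip_zero_left])
    rw [DZ_zero] at h
    have h1 : (rkI d.dat.U {i | ip (0 : Fin (m + 1) → ℤ) (d.dat.U i) = 0} : ℝ) ≤ (m + 1 : ℕ) := by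
      exact_mod_cast rkI_le _ _
    linarith

end ASM

theorem t_LSN (hFXN : Stmt_FXN) (hTRD : MldG.Stmt_TRD) (hCRS : MldGeo.Stmt_CRS)
    (hDTN : Stmt_DTN) (hCLA : Stmt_CLA) (hDZN : Stmt_DZN) (hCLZ : Stmt_CLZ) (hONN : Stmt_ONN) :
    Stmt_LSN := by
  intro n m X A T hm hI hE hL
  rcases n with _ | _ | n
  · refine ⟨⟨1, fun h => X.max.ne_top ((Ideal.eq_top_iff_one _).2 h), fun v => ?_⟩, ?_⟩
    · exact (TAC.no_val v).elim
    · rw [TAC.mld_zero]
      simp
  · obtain ⟨A', hF, hc, hI'⟩ := hONN X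
    obtain ⟨d⟩ := hDZN A' T (hI' T) hF hc
    exact ASM.of_dazN hCLZ d hE hL
  · have h5 : m = n + 1 ∨ m = n + 1 + 1 := by
      have h1 : m ≤ n + 1 + 1 := by
        have h2 := hTRD A
        have h3 : ((m : ℕ) : Cardinal) ≤ ((n + 1 + 1 : ℕ) : Cardinal) := by
          rw [← h2]
          exact le_add_self
        exact_mod_cast h3
      omega
    obtain ⟨X', A', T', hG, hmld, hamb, hF⟩ := hFXN A T Set.univ (Nat.succ_pos _)
      ⟨hI, hE, hL, ⟨fun _ _ _ _ => Set.mem_univ _, fun _ _ => Set.mem_univ _⟩⟩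
    suffices h : AmbN T' ∧ T'.mld ≤ (n + 1 + 1 : ℕ) by
      exact ⟨hamb h.1, hmld ▸ h.2⟩
    by_cases hc : ∀ a ∈ A'.gr 0, ∃ c : ℂ, a = algebraMap ℂ X'.R c
    · obtain ⟨A1, hA1⟩ : ∃ A1 : MldGeo.TorusAction X' (n + 1), A1.InvTriple T' := by
        have hB := TAG.inv_toGeo A' hc hF hG.inv
        revert hB
        generalize TAG.toGeo A' hc hF = B
        revert B
        rcases h5 with h5 | h5
        · rw [h5]
          intro B hB
          exact ⟨B, hB⟩
        · rw [h5]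
          intro B hB
          obtain ⟨B', hB'⟩ := hCRS (Nat.succ_pos n) B
          exact ⟨B', fun P b hP hb => hB' P (hB.1 P b hP hb), fun j => hB' _ (hB.2 j)⟩
      obtain ⟨d⟩ := hDTN A1 T' hA1
      exact ASM.of_datN hCLA d hG.eff hG.lc
    · rcases h5 with h5 | h5
      · subst h5
        have h6 : ∃ a ∈ A'.gr 0, ∀ c : ℂ, a ≠ algebraMap ℂ X'.R c := by
          by_contra h7
          apply hc
          intro a ha
          by_contra h8
          exact h7 ⟨a, ha, fun c h9 => h8 ⟨c, h9⟩⟩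
        obtain ⟨d⟩ := hDZN A' T' hG.inv hF h6
        exact ASM.of_dazN hCLZ d hG.eff hG.lc
      · subst h5
        exact absurd (TAG.const_of_full hTRD A') hc

end

end LSCM
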