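import Pool.Agent.LSCM.StN

/-!
# AVO: avoiding finitely many points of the curve of the invariants
-/

set_option autoImplicit false

namespace LSCM

open MldGap MldGeo MldG MvPolynomial

noncomputable section

namespace AVO

theorem one_notMem {n : ℕ} {X : Germ n} : (1 : X.R) ∉ X.m :=
  fun h => X.max.ne_top ((Ideal.eq_top_iff_one _).2 h)

theorem ord_along {m : ℕ} {X : Germ (m + 1)} {A : MldG.TorusAction X m} (S : MldG.Splitting A)
    {v : DivVal (m + 1) X.K} {w : Fin m → ℤ} {l : ℤ} {y : DivVal 1 A.K0}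
    (h : MldG.Along S v w l y) {b : A.K0} (hb : b ≠ 0) : v.ord (b : X.K) = l * y.ord b := by
  have h1 := h b 0 hb
  rw [S.zero, mul_one] at h1
  rw [h1]
  simp [ip]

/-- One point can be avoided. -/
theorem one_point {m : ℕ} {X : Germ (m + 1)} (A : MldG.TorusAction X m) (S : MldG.Splitting A)
    (y₀ : DivVal 1 A.K0) (hc : MldG.Centre A y₀) (y' : DivVal 1 A.K0) :
    ∃ g : X.R, g ∉ X.m ∧ ∀ (v : DivVal (m + 1) X.K) (w : Fin m → ℤ) (l : ℤ),
      0 < l → MldG.Along S v w l y' → Near X g v → y' = y₀ := by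
  by_cases h1 : ∀ b : A.K0, (b : X.K) ∈ X.R → 0 ≤ y'.ord b
  · by_cases h2 : ∀ (b : A.K0) (h : (b : X.K) ∈ X.R), (⟨(b : X.K), h⟩ : X.R) ∉ X.m → y'.ord b = 0
    · exact ⟨1, one_notMem, fun _ _ _ _ _ _ => hc.unique y' h1 h2⟩
    · push Not at h2
      obtain ⟨b, hb, hbm, hb0⟩ := h2
      refine ⟨⟨(b : X.K), hb⟩, hbm, fun v w l hl hA hN => ?_⟩
      exfalso
      have hbz : b ≠ 0 := by
        rintro rfl
        exact hb0 y'.ord_zero
      have h3 := ord_along S hA hbz
      have h4 : v.ord (b : X.K) = 0 := hN.2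
      rw [h4] at h3
      have h5 : l * y'.ord b = 0 := h3.symm
      rcases mul_eq_zero.1 h5 with h6 | h6
      · omega
      · exact hb0 h6
  · push Not at h1
    obtain ⟨b, hb, hb0⟩ := h1
    refine ⟨1, one_notMem, fun v w l hl hA hN => ?_⟩
    exfalso
    have hbz : b ≠ 0 := by
      rintro rfl
      rw [y'.ord_zero] at hb0
      exact lt_irrefl _ hb0
    have h3 := ord_along S hA hbz
    have h4 : 0 ≤ v.ord (b : X.K) := hN.1 ⟨(b : X.K), hb⟩
    rw [h3] at h4
    have h5 : l * y'.ord b < 0 := mul_neg_of_pos_of_neg hl hb0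
    omega

end AVO

open AVO in
theorem t_AVO : Stmt_AVO := by
  classical
  intro m X A S y₀ hc Q
  induction Q using Finset.induction_on with
  | empty =>
    exact ⟨1, one_notMem, fun v w l y _ _ _ hy => absurd hy (Finset.notMem_empty y)⟩
  | insert y' Q _ ih =>
    obtain ⟨g, hg, h⟩ := ih
    obtain ⟨g', hg', h'⟩ := one_point A S y₀ hc y'
    refine ⟨g * g', mul_notMem hg hg', fun v w l y hl hA hN hy => ?_⟩
    obtain ⟨hN1, hN2⟩ := near_mul hg hg' hN
    rcases Finset.mem_insert.1 hy with rfl | hy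
    · exact h' v w l hl hA hN2
    · exact h v w l y hl hA hN1 hy

end

end LSCM
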