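import Pool.Agent.LSCM.StD
import Pool.Agent.MldG.AFX

/-!
# Lower semicontinuity in complexity one, module AXP: replacing a factor `ℂ^*` by the affine line
-/

set_option autoImplicit false

namespace LSCM

open MldGap MldGeo MldG DirectSum Polynomial

noncomputable section

open MldG.AFX

theorem t_AXP (hATH : Stmt_ATH) (hHOU : Stmt_HOU) (hOLI : Stmt_OLI) : Stmt_AXP := by
  intro n m X A φ u g0 _ hgu hg hφ hcl hsat
  obtain ⟨g, rfl⟩ := hgu
  have H : GU A φ g u := ⟨hg, (hHOU A).2.2.1 u g _ hg g.mul_inv, hφ⟩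
  obtain ⟨c, hc⟩ := (hATH X).1 g
  obtain ⟨σ, h1, h2, h3, h4⟩ := exists_shift H c
  let τ : (polK A φ g).range →ₐ[ℂ] X.R :=
    ((σ : X.K →ₐ[ℂ] X.K).comp (polK A φ g).range.val).codRestrict X.R
      fun a => range_le (h1 a a.2)
  have hτ : ∀ a, (τ a : X.K) = σ (a : X.K) := fun _ => rfl
  have hmp : X.m.IsPrime := X.max.isPrime
  have hgm : ∀ N : ℕ, (g : X.R) ^ N ∉ X.m := fun N h =>
    X.max.ne_top (Ideal.eq_top_of_isUnit_mem _ h (g.isUnit.pow N))
  have hgK : ((g : X.R) : X.K) ≠ 0 := fun h => g.ne_zero (Subtype.ext h)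
  -- every element of `R0[g]` is a value of `τ`
  have hsurj : ∀ b : X.R, b ∈ sub A (pos0 φ) → ∃ a, τ a = b := by
    intro b hb
    obtain ⟨a, ha⟩ := exists_inc H hb
    refine ⟨⟨σ.symm (a : X.K), h2 a a.2⟩, ?_⟩
    apply Subtype.ext
    rw [hτ]
    change σ (σ.symm (a : X.K)) = b
    rw [AlgEquiv.apply_symm_apply, ← ha]
    rfl
  have key : ∀ (v : DivVal n X.K), v.ord ((g : X.R) : X.K) = 0 → ∀ b : X.R,
      ∃ (a : (polK A φ g).range) (N : ℕ), τ a = b * (g : X.R) ^ N ∧
        v.ord (b : X.K) = v.ord (τ a : X.K) := by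
    intro v hv b
    obtain ⟨N, hN⟩ := exists_mul H b
    obtain ⟨a, ha⟩ := hsurj _ hN
    refine ⟨a, N, ha, ?_⟩
    rw [ha]
    change v.ord (b : X.K) = v.ord ((b : X.K) * ((g : X.R) : X.K) ^ N)
    by_cases hb : (b : X.K) = 0
    · rw [hb, zero_mul]
    · rw [v.ord_mul _ _ hb (pow_ne_zero _ hgK), v.ord_pow, hv, mul_zero, add_zero]
  have hgx : ∃ a, τ a = (g : X.R) := hsurj _ (sub_hom H.mem (show u ∈ pos0 φ from by
    rw [mem_pos0, H.one]; norm_num))
  have hth : ∀ v : DivVal n X.K, (newGerm hATH H τ).Through (comap σ v) →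
      v.ord ((g : X.R) : X.K) = 0 := by
    intro v hv
    obtain ⟨a, ha⟩ := hgx
    have h5 := hv.2 a (fun h => hgm 1 (by
      rw [pow_one, ← ha]
      exact h))
    change v.ord (τ a : X.K) = 0 at h5
    rwa [ha] at h5
  refine ⟨newGerm hATH H τ, σ, newAct hATH H τ, ?_, ?_, ?_, ?_, ?_, ?_,
    unitWt_iff hATH hHOU H τ, fun a => (τ a).2⟩
  · intro v
    constructor
    · intro hv
      exact ⟨fun a => hv.1 (τ a), fun a ha => hv.2 (τ a) ha⟩
    · intro hv
      have hg0 := hth v hv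
      refine ⟨fun b => ?_, fun b hb => ?_⟩
      · obtain ⟨a, N, -, h⟩ := key v hg0 b
        rw [h]
        exact hv.1 a
      · obtain ⟨a, N, h, h'⟩ := key v hg0 b
        rw [h']
        refine hv.2 a fun h6 => ?_
        have h7 : τ a ∈ X.m := h6
        rw [h] at h7
        exact (hmp.mem_or_mem h7).elim hb (hgm N)
  · intro v
    constructor
    · intro hv
      refine ⟨fun a => hv.1 (τ a), fun a ha ha0 => hv.2 (τ a) ha fun h => ha0 ?_⟩
      have h5 : σ (a : X.K) = 0 := congrArg Subtype.val h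
      apply Subtype.ext
      exact (map_eq_zero σ).1 h5
    · intro hv
      have hg0 := hth v ((hATH (newGerm hATH H τ)).2 _ hv)
      refine ⟨fun b => ?_, fun b hb hb0 => ?_⟩
      · obtain ⟨a, N, -, h⟩ := key v hg0 b
        rw [h]
        exact hv.1 a
      · obtain ⟨a, N, h, h'⟩ := key v hg0 b
        rw [h']
        refine hv.2 a ?_ ?_
        · change τ a ∈ X.m
          rw [h]
          exact Ideal.mul_mem_right _ _ hb
        · rintro rfl
          rw [map_zero] at h
          exact mul_ne_zero hb0 (pow_ne_zero _ g.ne_zero) h.symm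
  · intro v P' hv hP'
    refine hOLI X v hv.1 fun a ha => ?_
    have ha' : (comap σ v).Ge 0 (σ.symm a) := by
      rcases ha with rfl | ha
      · exact Or.inl (map_zero _)
      · refine Or.inr ?_
        change 0 ≤ v.ord (σ (σ.symm a))
        rwa [AlgEquiv.apply_symm_apply]
    obtain ⟨r, s, hs, h⟩ := t_OLC (newGerm hATH H τ) P' (comap σ v) hP' _ ha'
    have hs0 : s ≠ 0 := by
      rintro rfl
      exact hs P'.zero_mem
    refine ⟨τ r, τ s, ?_, ?_, ?_⟩
    · intro h5
      have h6 : σ (s : X.K) = 0 := congrArg Subtype.val h5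
      exact hs0 (Subtype.ext ((map_eq_zero σ).1 h6))
    · have h5 : 0 ≤ v.ord (τ s : X.K) := hP'.2.2.1 s
      have h6 : ¬ 0 < v.ord (τ s : X.K) := fun h6 => hs ((hP'.2.2.2 s).2 (Or.inr h6))
      omega
    · rw [hτ, hτ]
      have h5 : σ (σ.symm a * (s : X.K)) = σ (r : X.K) := congrArg σ h
      rwa [map_mul, AlgEquiv.apply_symm_apply] at h5
  · intro w a hw ha
    have hk : a ∈ sub A (ker0 φ) := sub_hom ha hw
    have h5 : σ.symm (a : X.K) = a := by
      rw [AlgEquiv.symm_apply_eq]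
      exact (h3 a hk).symm
    have h6 : (a : X.K) ∈ (polK A φ g).range := (mem_range H).2 ⟨a, ker0_le φ hk, rfl⟩
    refine ⟨by rw [h5]; exact h6, ?_⟩
    change inc A φ g _ ∈ A.gr w
    have h7 : inc A φ g ⟨σ.symm (a : X.K), by rw [h5]; exact h6⟩ = a := Subtype.ext h5
    rw [h7]
    exact ha
  · rintro w ⟨a, haw, ham⟩
    rw [unitWt_iff hATH hHOU]
    have haw' : inc A φ g a ∈ A.gr w := haw
    have ham' : τ a ∉ X.m := ham
    have ha0 : inc A φ g a ≠ 0 := by
      intro h
      have h5 : a = 0 := inc_inj (h.trans (map_zero _).symm)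
      rw [h5, map_zero] at ham'
      exact ham' X.m.zero_mem
    have hw := wt_nonneg H a haw' ha0
    have hr := retr_mem H haw'
    have hτa : τ a = (inc A φ g a * ((g ^ (-φ w) : X.Rˣ) : X.R)) *
        ((g : X.R) - algebraMap ℂ X.R c) ^ (φ w).toNat := by
      apply Subtype.ext
      rw [hτ]
      have h5 : (a : X.K) = ((inc A φ g a * ((g ^ (-φ w) : X.Rˣ) : X.R) : X.R) : X.K) *
          ((g : X.R) : X.K) ^ (φ w).toNat := by
        have h6 : (g : X.R) ^ (φ w).toNat = ((g ^ (φ w) : X.Rˣ) : X.R) := by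
          rw [← Units.val_pow_eq_pow_val, ← zpow_natCast, Int.toNat_of_nonneg hw]
        have h7 : inc A φ g a = (inc A φ g a * ((g ^ (-φ w) : X.Rˣ) : X.R)) *
            (g : X.R) ^ (φ w).toNat := by
          rw [h6, mul_assoc, ← Units.val_mul, ← zpow_add, neg_add_cancel, zpow_zero,
            Units.val_one, mul_one]
        exact congrArg (Subtype.val : X.R → X.K) h7
      conv_lhs => rw [h5]
      rw [map_mul, map_pow, h3 _ hr, h4]
      rfl
    have hφ0 : φ w = 0 := by
      by_contra hne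
      refine ham' ?_
      rw [hτa]
      exact Ideal.mul_mem_left _ _ (Ideal.pow_mem_of_mem _ hc _ (by omega))
    refine ⟨hcl w ⟨inc A φ g a, haw', ?_⟩, hφ0⟩
    rw [hφ0] at hτa
    simp only [neg_zero, zpow_zero, Units.val_one, mul_one, Int.toNat_zero, pow_zero] at hτa
    rw [← hτa]
    exact ham'
  · intro w k hk h
    rw [unitWt_iff hATH hHOU] at h ⊢
    refine ⟨hsat w k hk h.1, ?_⟩
    have h5 := h.2
    rw [map_zsmul, smul_eq_mul] at h5
    exact (mul_eq_zero.1 h5).resolve_left (by exact_mod_cast hk.ne')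

end

end LSCM
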