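import Pool.Agent.LSCM.StN

/-!
# Module DML: the dimension of the centre
-/

set_option autoImplicit false

namespace LSCM

open MldGap MldGeo MldG MvPolynomial

noncomputable section

theorem t_DML : Stmt_DML := by
  intro n X P v d hP htr r hr
  let r' : Fin (d + 1) → X.R := fun i => ⟨r i, hr i⟩
  have hnot : ¬ AlgebraicIndependent ℂ (fun i => Ideal.Quotient.mkₐ ℂ P (r' i)) := by
    intro h
    have h1 := h.lift_cardinalMk_le_trdeg
    rw [htr] at h1
    simp only [Cardinal.mk_fin, Cardinal.lift_natCast, Nat.cast_le] at h1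
    omega
  rw [algebraicIndependent_iff] at hnot
  push Not at hnot
  obtain ⟨p, hp0, hp⟩ := hnot
  have h2 : aeval r' p ∈ P := by
    rw [← Ideal.Quotient.eq_zero_iff_mem, ← hp0]
    exact comp_aeval_apply (f := r') (Ideal.Quotient.mkₐ ℂ P) p
  have h3 : aeval r p = ((aeval r' p : X.R) : X.K) :=
    (comp_aeval_apply (f := r') X.R.val p).symm
  refine ⟨p, hp, ?_⟩
  rw [h3]
  rcases hP _ h2 with h | h
  · left
    rw [h]
    rfl
  · exact Or.inr h

end

end LSCM
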