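import Pool.Agent.LSCM.StN
import Pool.Agent.MldGeo.DIV
import Pool.Agent.MldGeo.AFF
import Pool.Agent.CUB.R_FIN

/-!
# Module EXP: every subvariety is the centre of a divisorial valuation
-/

set_option autoImplicit false

namespace LSCM

open MldGap MldGeo MldG MvPolynomial

namespace EXP

open IsLocalRing

/-- a valuation ring which dominates the local ring of a prime -/
theorem exists_V {K : Type} [Field K] (A : Subring K) (P : Ideal A) [P.IsPrime] :
    ∃ V : ValuationSubring K, (∀ a : A, (a : K) ∈ V) ∧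
      ∀ a : A, a ∈ P ↔ V.valuation (a : K) < 1 := by
  obtain ⟨V, hV, hloc⟩ := (LocalSubring.ofPrime A P).exists_le_valuationSubring
  have hA : ∀ a : A, (a : K) ∈ (LocalSubring.ofPrime A P).toSubring := fun a =>
    LocalSubring.le_ofPrime A P a.2
  have hmem : ∀ a : A, (a : K) ∈ V := fun a => hV (hA a)
  refine ⟨V, hmem, fun a => ?_⟩
  have h1 : a ∈ P ↔ algebraMap A (LocalSubring.ofPrime A P).toSubring a ∈
      maximalIdeal (LocalSubring.ofPrime A P).toSubring :=
    (IsLocalization.AtPrime.to_map_mem_maximal_iff (LocalSubring.ofPrime A P).toSubring P a).symm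
  have h2 : V.valuation (a : K) < 1 ↔ (⟨(a : K), hmem a⟩ : V) ∈ maximalIdeal V := by
    rw [V.valuation_lt_one_iff]
  rw [h1, h2, mem_maximalIdeal, mem_maximalIdeal, mem_nonunits_iff, mem_nonunits_iff, not_iff_not]
  constructor
  · intro h
    exact h.map (Subring.inclusion hV)
  · intro h
    exact hloc.map_nonunit _ h

/-- a valuation ring which contains `X.R` and whose centre is `P` -/
theorem exists_V' {n : ℕ} (X : Germ n) (P : Ideal X.R) [P.IsPrime] :
    ∃ V : ValuationSubring X.K, (∀ a : X.R, (a : X.K) ∈ V) ∧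
      ∀ a : X.R, a ∈ P ↔ V.valuation (a : X.K) < 1 :=
  exists_V X.R.toSubring P

/-- the normalization of a finitely generated algebra, as a germ -/
theorem exists_germ {n : ℕ} (X : Germ n) (B : Subalgebra ℂ X.K) (hB : B.FG) (hXB : X.R ≤ B) :
    ∃ (S : Subalgebra ℂ X.K) (m : Ideal S), m.IsMaximal ∧ S.FG ∧
      (∀ a : X.K, ∃ r ∈ S, ∃ s ∈ S, s ≠ 0 ∧ a * s = r) ∧
      (∀ a : X.K, IsIntegral S a → a ∈ S) ∧ B ≤ S ∧ ∀ a ∈ S, IsIntegral B a := by
  have hfr0 : ∀ a : X.K, ∃ r ∈ B, ∃ s ∈ B, s ≠ 0 ∧ a * s = r := by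
    intro a
    obtain ⟨r, hr, s, hs, h0, h1⟩ := X.frac a
    exact ⟨r, hXB hr, s, hXB hs, h0, h1⟩
  have hfrac : IsFractionRing B X.K := by
    refine IsFractionRing.of_field B X.K fun a => ?_
    obtain ⟨r, hr, s, hs, h0, h1⟩ := hfr0 a
    refine ⟨⟨r, hr⟩, ⟨s, hs⟩, ?_⟩
    show a = r / s
    rw [eq_div_iff h0]
    exact h1
  have hft : Algebra.FiniteType ℂ B := (Subalgebra.fg_iff_finiteType B).1 hB
  have hfin : Module.Finite B (integralClosure B X.K) := CUB.t_FIN ℂ B X.K
  let S : Subalgebra ℂ X.K := (integralClosure B X.K).restrictScalars ℂ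
  have hmem : ∀ a : X.K, a ∈ S ↔ IsIntegral B a := fun a => Iff.rfl
  have hBS : B ≤ S := fun a ha => (hmem a).2 (isIntegral_algebraMap (R := B) (A := X.K) (x := ⟨a, ha⟩))
  obtain ⟨m, hm⟩ := Ideal.exists_maximal S
  refine ⟨S, m, hm, AFF.fg_rs B _ hB hfin, ?_, ?_, hBS, fun a ha => ha⟩
  · intro a
    obtain ⟨r, hr, s, hs, h0, h1⟩ := hfr0 a
    exact ⟨r, hBS hr, s, hBS hs, h0, h1⟩
  · intro a ha
    have h1 : IsIntegral (integralClosure B X.K) a := ha
    exact isIntegral_trans (R := B) (A := integralClosure B X.K) a h1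

end EXP

/-- EXP: every subvariety `≠ X` is the centre of a divisorial valuation. -/
theorem t_EXP : Stmt_EXP := by
  intro n X P hP hP0
  obtain ⟨V, hV1, hV2⟩ := EXP.exists_V' X P
  have hN : IsNoetherianRing X.R := DIV.noeth X
  obtain ⟨T, hT⟩ := (isNoetherianRing_iff_ideal_fg X.R).1 hN P
  classical
  -- a generator with the largest value
  have hTP : ∀ t ∈ T, t ∈ P := fun t ht => hT ▸ Ideal.subset_span ht
  obtain ⟨t₀, ht₀, ht₀0⟩ : ∃ t ∈ T, t ≠ 0 := by
    by_contra hc
    push Not at hc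
    apply hP0
    rw [← hT, Ideal.span_eq_bot]
    exact hc
  obtain ⟨s, hs, hmax⟩ := T.exists_max_image (fun t : X.R => V.valuation (t : X.K)) ⟨t₀, ht₀⟩
  have hs0 : (s : X.K) ≠ 0 := by
    intro h0
    have h1 := hmax t₀ ht₀
    rw [h0, map_zero] at h1
    have h2 : V.valuation (t₀ : X.K) = 0 := le_antisymm h1 zero_le
    rw [map_eq_zero] at h2
    exact ht₀0 (Subtype.ext h2)
  -- the algebra
  obtain ⟨u, hu⟩ := X.fg
  let B : Subalgebra ℂ X.K :=
    Algebra.adjoin ℂ ((u ∪ T.image fun t : X.R => (t : X.K) / (s : X.K) : Finset X.K) : Set X.K)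
  have hBfg : B.FG := ⟨_, rfl⟩
  have hXB : X.R ≤ B := by
    rw [← hu]
    refine Algebra.adjoin_mono ?_
    intro a ha
    rw [Finset.coe_union]
    exact Or.inl ha
  have hdB : ∀ t ∈ T, (t : X.K) / (s : X.K) ∈ B := by
    intro t ht
    refine Algebra.subset_adjoin ?_
    rw [Finset.coe_union]
    refine Or.inr ?_
    rw [Finset.mem_coe, Finset.mem_image]
    exact ⟨t, ht, rfl⟩
  have hBV : ∀ a ∈ B, a ∈ V := by
    intro a ha
    induction ha using Algebra.adjoin_induction with
    | mem x hx =>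
      rw [Finset.mem_coe, Finset.mem_union] at hx
      rcases hx with hx | hx
      · have h1 : x ∈ X.R := by
          rw [← hu]
          exact Algebra.subset_adjoin hx
        exact hV1 ⟨x, h1⟩
      · obtain ⟨t, ht, rfl⟩ := Finset.mem_image.1 hx
        rw [← V.valuation_le_one_iff, map_div₀]
        exact div_le_one_of_le₀ (hmax t ht) zero_le
    | algebraMap c => exact hV1 (algebraMap ℂ X.R c)
    | add x y _ _ hx hy => exact V.add_mem _ _ hx hy
    | mul x y _ _ hx hy => exact V.mul_mem _ _ hx hy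
  obtain ⟨S, m, hm, hfg, hfr, hn, hBS, hint⟩ := EXP.exists_germ X B hBfg hXB
  have hSV : ∀ a ∈ S, a ∈ V := by
    intro a ha
    let ι : B →+* V := (B.toSubring.subtype.codRestrict V.toSubring fun b => hBV b b.2)
    obtain ⟨p, hp1, hp2⟩ := hint a ha
    have h1 : IsIntegral V a := by
      refine ⟨p.map ι, hp1.map ι, ?_⟩
      rw [Polynomial.eval₂_map]
      exact hp2
    obtain ⟨b, rfl⟩ := (IsIntegrallyClosed.isIntegral_iff (R := V) (K := X.K)).1 h1
    exact b.2
  let Y : Germ n :=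
    { K := X.K
      fieldK := X.fieldK
      algK := X.algK
      R := S
      fg := hfg
      frac := hfr
      normal := hn
      trdeg := X.trdeg
      m := m
      max := hm }
  have hNS : IsNoetherianRing S := DIV.noeth Y
  -- the centre of `V`
  let M : Ideal S :=
    { carrier := {a | V.valuation (a : X.K) < 1}
      add_mem' := fun {a b} ha hb => lt_of_le_of_lt (V.valuation.map_add _ _) (max_lt ha hb)
      zero_mem' := by
        show V.valuation (0 : X.K) < 1
        rw [map_zero]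
        exact zero_lt_one
      smul_mem' := fun c a ha => by
        show V.valuation ((c : X.K) * (a : X.K)) < 1
        rw [map_mul]
        exact lt_of_le_of_lt (mul_le_of_le_one_left' ((V.valuation_le_one_iff _).2 (hSV c c.2))) ha }
  have hM : ∀ a : S, a ∈ M ↔ V.valuation (a : X.K) < 1 := fun a => Iff.rfl
  have hMp : M.IsPrime := by
    refine ⟨?_, ?_⟩
    · rw [Ideal.ne_top_iff_one, hM]
      show ¬ V.valuation (1 : X.K) < 1
      rw [map_one]
      exact lt_irrefl 1
    · intro a b hab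
      by_contra hc
      push Not at hc
      rw [hM, hM, not_lt, not_lt] at hc
      rw [hM] at hab
      have h1 : V.valuation ((a : X.K) * (b : X.K)) < 1 := hab
      rw [map_mul] at h1
      exact absurd h1 (not_lt.2 (one_le_mul hc.1 hc.2))
  have hXS : X.R ≤ S := hXB.trans hBS
  let s' : S := ⟨s, hXS s.2⟩
  have hsM : s' ∈ M := (hV2 s).1 (hTP s hs)
  obtain ⟨Q, hQ, hQM⟩ := Ideal.exists_minimalPrimes_le (I := Ideal.span {s'}) (J := M)
    ((Ideal.span_singleton_le_iff_mem _).2 hsM)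
  have hQp : Q.IsPrime := hQ.1.1
  have hsQ : s' ∈ Q := hQ.1.2 (Ideal.mem_span_singleton_self s')
  have hQ1 : Q.height = 1 := by
    refine le_antisymm (Ideal.height_le_one_of_isPrincipal_of_mem_minimalPrimes _ Q hQ) ?_
    rw [Order.one_le_iff_ne_zero]
    intro h0
    rw [Ideal.height_eq_zero_iff_eq_bot] at h0
    rw [h0, Ideal.mem_bot] at hsQ
    exact hs0 (congrArg Subtype.val hsQ)
  obtain ⟨v, hv, -⟩ := t_DIV Y Q hQp hQ1
  refine ⟨v, fun a => hv.2.2.1 ⟨a, hXS a.2⟩, fun a => ?_⟩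
  have h1 : a ∈ P ↔ (⟨a, hXS a.2⟩ : S) ∈ Q := by
    constructor
    · intro ha
      rw [← hT] at ha
      have h2 : Ideal.span (T : Set X.R) ≤ Ideal.comap (Subalgebra.inclusion hXS).toRingHom Q := by
        rw [Ideal.span_le]
        intro t ht
        show (⟨t, hXS t.2⟩ : S) ∈ Q
        have h3 : (⟨t, hXS t.2⟩ : S) = ⟨(t : X.K) / (s : X.K), hBS (hdB t ht)⟩ * s' := by
          apply Subtype.ext
          show (t : X.K) = (t : X.K) / (s : X.K) * (s : X.K)
          rw [div_mul_cancel₀ _ hs0]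
        rw [h3]
        exact Q.mul_mem_left _ hsQ
      exact h2 ha
    · intro ha
      exact (hV2 a).2 ((hM _).1 (hQM ha))
  rw [h1]
  have h2 := hv.2.2.2 ⟨a, hXS a.2⟩
  refine h2.trans ?_
  have h3 : (⟨a, hXS a.2⟩ : S) = 0 ↔ a = 0 :=
    ⟨fun h => Subtype.ext (congrArg (fun z : S => (z : X.K)) h),
      fun h => Subtype.ext (congrArg (fun z : X.R => (z : X.K)) h)⟩
  exact or_congr_left h3

end LSCM
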