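import Pool.Agent.LSCM.StN
import Pool.Agent.MldX.Bridge
import Pool.Agent.MldX.Along
import Pool.Agent.MldGeo.DIV
import Pool.Agent.MldG.ATH
import Pool.Agent.LSCM.EXP
import Pool.Agent.LSCM.DML

/-!
# Lower semicontinuity in complexity one: the final form of the statement
-/

set_option autoImplicit false

namespace MldX

noncomputable section

variable {n : ℕ} {X : Germ n}

theorem coe_eq_zero (a : X.R) : (a : X.K) = 0 ↔ a = 0 :=
  ⟨fun h => Subtype.ext h, fun h => by rw [h]; rfl⟩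

open Algebra in
/-- the dimension of `X` -/
theorem trdegR {n : ℕ} (X : MldGeo.Germ n) : Algebra.trdeg ℂ (X.R ⧸ (⊥ : Ideal X.R)) = n := by
  have h1 : Algebra.trdeg ℂ (X.R ⧸ (⊥ : Ideal X.R)) = Algebra.trdeg ℂ X.R :=
    (AlgEquiv.quotientBot ℂ X.R).trdeg_eq
  have h4 : Algebra.IsAlgebraic X.R X.K := IsLocalization.isAlgebraic X.K (nonZeroDivisors X.R)
  have h5 : Algebra.trdeg X.R X.K = 0 := trdeg_eq_zero
  have h6 := trdeg_add_eq ℂ X.R (A := X.K)
  rw [h5, add_zero, X.trdeg] at h6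
  rw [h1, h6]

open Algebra in
/-- closed points have dimension zero -/
theorem trdeg_max {n : ℕ} (X : MldGeo.Germ n) (P : Ideal X.R) (hP : P.IsMaximal) :
    Algebra.trdeg ℂ (X.R ⧸ P) = 0 := by
  have h1 : Algebra.FiniteType ℂ X.R := (Subalgebra.fg_iff_finiteType _).1 X.fg
  have h2 : Algebra.FiniteType ℂ (X.R ⧸ P) :=
    h1.of_surjective (Ideal.Quotient.mkₐ ℂ P) (Ideal.Quotient.mkₐ_surjective ℂ P)
  let _ : Field (X.R ⧸ P) := Ideal.Quotient.field P
  have h3 : Module.Finite ℂ (X.R ⧸ P) := finite_of_finite_type_of_isJacobsonRing ℂ (X.R ⧸ P)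
  have h4 : Algebra.IsAlgebraic ℂ (X.R ⧸ P) := Algebra.IsAlgebraic.of_finite ℂ (X.R ⧸ P)
  exact trdeg_eq_zero

/-- the minimal log discrepancy at the point `x` -/
theorem mldAlong_max (T : Triple X) : T.mldAlong X.m = T.mld := by
  unfold Triple.mldAlong Triple.mld
  congr 1
  ext a
  constructor
  · rintro ⟨v, ⟨h1, h2⟩, h3⟩
    exact ⟨v, ⟨h1, fun b hb h0 => ((h2 b).1 hb).resolve_left h0⟩, h3⟩
  · rintro ⟨v, hv, h3⟩
    refine ⟨v, ⟨hv.1, fun b => ⟨fun hb => ?_, fun hb => ?_⟩⟩, h3⟩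
    · by_cases h0 : (b : X.K) = 0
      · exact Or.inl h0
      · exact Or.inr (hv.2 b hb h0)
    · by_contra hbm
      have h4 := ((MldG.t_ATH X.old).2 v.old ((at_iff v).2 hv)).2 b hbm
      rcases hb with h0 | h0
      · rw [coe_eq_zero] at h0
        exact hbm (h0 ▸ X.m.zero_mem)
      · exact absurd h4 h0.ne'

/-- the final form -/
theorem form_of_ambN {n : ℕ} (X : Germ n) (T : Triple X) (h1 : LSCM.AmbN T.old)
    (h2 : T.old.mld ≤ n) :
    T.mldAlong X.m = T.mld ∧ T.mld ≤ n ∧ ∃ g : X.R, g ∉ X.m ∧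
      (∀ P : Ideal X.R, P.IsMaximal → g ∉ P → T.mld ≤ T.mldAlong P) ∧
      ∀ (P : Ideal X.R) (d : ℕ), P.IsPrime → g ∉ P → Algebra.trdeg ℂ (X.R ⧸ P) = d →
        T.mld ≤ T.mldAlong P + d ∧ ∀ v, X.HasCentre v P → T.mld ≤ T.disc v + d := by
  obtain ⟨g, hg, h⟩ := h1
  rw [T.old_mld] at h2
  have main : ∀ (P : Ideal X.R) (d : ℕ), P.IsPrime → g ∉ P → Algebra.trdeg ℂ (X.R ⧸ P) = d →
        T.mld ≤ T.mldAlong P + d ∧ ∀ v, X.HasCentre v P → T.mld ≤ T.disc v + d := by
    intro P d hP hgP hd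
    have key : ∀ v, X.HasCentre v P → T.mld ≤ T.disc v + d := by
      intro v hv
      rw [← T.old_mld, ← T.old_disc]
      refine h v.old ⟨hv.1, ?_⟩ d (LSCM.t_DML X.old P v.old d ?_ hd)
      · have h3 := mt (hv.2 g).2 hgP
        push Not at h3
        exact le_antisymm h3.2 (hv.1 g)
      · intro a ha
        rcases (hv.2 a).1 ha with h3 | h3
        · exact Or.inl ((coe_eq_zero a).1 h3)
        · exact Or.inr h3
    refine ⟨?_, key⟩
    by_cases hP0 : P = ⊥
    · subst hP0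
      have h3 : T.mldAlong ⊥ = 0 := by
        unfold Triple.mldAlong
        have h4 : {a : ℝ | ∃ v, X.HasCentre v ⊥ ∧ T.disc v = a} = ∅ := by
          rw [Set.eq_empty_iff_forall_notMem]
          rintro a ⟨v, hv, -⟩
          -- all nonzero functions have order zero
          have h5 : ∀ b : X.R, (b : X.K) ≠ 0 → v.ord b = 0 := by
            intro b hb
            have h6 := mt (hv.2 b).2 (by
              rw [Ideal.mem_bot]
              intro h7
              exact hb ((coe_eq_zero b).2 h7))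
            push Not at h6
            exact le_antisymm h6.2 (hv.1 b)
          obtain ⟨t, ht, h6⟩ := v.unif
          obtain ⟨r, hr, s, hs, hs0, h7⟩ := X.frac t
          have h8 : r ≠ 0 := by
            rw [← h7]
            exact mul_ne_zero ht hs0
          have h9 := v.ord_mul t s ht hs0
          rw [h7, h5 ⟨r, hr⟩ h8, h5 ⟨s, hs⟩ hs0, h6] at h9
          omega
        rw [h4, Real.sInf_empty]
      rw [h3, zero_add]
      refine h2.trans ?_
      have h4 : Algebra.trdeg ℂ (X.R ⧸ (⊥ : Ideal X.R)) = n := trdegR X.old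
      rw [hd] at h4
      have h5 : d = n := by exact_mod_cast h4
      rw [h5]
    · obtain ⟨v, hv, hv'⟩ := LSCM.t_EXP X.old P hP hP0
      have hne : {a : ℝ | ∃ v, X.HasCentre v P ∧ T.disc v = a}.Nonempty := by
        refine ⟨_, ofOld v, ⟨hv, fun a => ?_⟩, rfl⟩
        rw [coe_eq_zero]
        exact hv' a
      have h3 : T.mld - d ≤ T.mldAlong P := by
        refine le_csInf hne ?_
        rintro a ⟨v, hv, rfl⟩
        have := key v hv
        linarith
      linarith
  refine ⟨mldAlong_max T, h2, g, hg, fun P hP hgP => ?_, main⟩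
  have h3 := (main P 0 hP.isPrime hgP (by
    rw [Nat.cast_zero]
    exact trdeg_max X.old P hP)).1
  simpa using h3

/-- torus actions of complexity at most one -/
theorem semicontinuity (hLSN : LSCM.Stmt_LSN) {n m : ℕ} (X : Germ n) (A : TorusAction X m)
    (hm : n ≤ m + 1) (T : Triple X) (hI : A.InvTriple T) (hE : T.Effective) (hL : T.LC) :
    T.mldAlong X.m = T.mld ∧ T.mld ≤ n ∧ ∃ g : X.R, g ∉ X.m ∧
      (∀ P : Ideal X.R, P.IsMaximal → g ∉ P → T.mld ≤ T.mldAlong P) ∧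
      ∀ (P : Ideal X.R) (d : ℕ), P.IsPrime → g ∉ P → Algebra.trdeg ℂ (X.R ⧸ P) = d →
        T.mld ≤ T.mldAlong P + d ∧ ∀ v, X.HasCentre v P → T.mld ≤ T.disc v + d := by
  obtain ⟨h1, h2⟩ := hLSN A.old T.old hm ((A.old_invTriple T).2 hI)
    (T.old_effective.2 hE) (T.old_lc.2 hL)
  exact form_of_ambN X T h1 h2

end

end MldX
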