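import Pool.Agent.LSCM.StA

/-!
# The first case
-/

set_option autoImplicit false

namespace LSCM

open MldTv MldGap Finset

namespace M_CI

variable {m c : ℕ} {X : TVar m c}

/-- the members of the span -/
lemma gen_mem {S : Finset (Gen X)} {g : Gen X} (hg : g ∈ S) : gen g ∈ Wsp S :=
  Submodule.mem_sup_left (Submodule.subset_span ⟨g, hg, rfl⟩)

lemma sup_top {S J : Finset (Gen X)} [DecidableEq (Gen X)]
    (h : Wsp S ⊔ Submodule.span ℝ (gen '' (J : Set (Gen X))) = ⊤) : Wsp (S ∪ J) = ⊤ := by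
  rw [eq_top_iff, ← h]
  unfold Wsp
  refine sup_le (sup_le (le_sup_of_le_left (Submodule.span_mono (Set.image_mono ?_)))
    le_sup_right) (le_sup_of_le_left (Submodule.span_mono (Set.image_mono ?_)))
  · intro g hg
    exact_mod_cast Finset.mem_union_left J (by exact_mod_cast hg)
  · intro g hg
    exact_mod_cast Finset.mem_union_right S (by exact_mod_cast hg)

/-- the support meets every fibre with positive second coordinate -/
lemma fibre {S : Finset (Gen X)} {a : Gen X → ℝ} {y : X.Y}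
    (h : 0 < (∑ g ∈ S, a g • gen g).2 y) : ∃ i, (Sum.inl ⟨y, i⟩ : Gen X) ∈ S := by
  rw [sum_snd] at h
  by_contra hne
  push Not at hne
  refine h.ne' (sum_eq_zero fun g hg => ?_)
  rcases g with ⟨z, i⟩ | j
  · have hz : y ≠ z := by
      rintro rfl
      exact hne i hg
    simp [genN, hz]
  · simp [genN]

lemma gen_fst_mem (g : Gen X) : (gen g).1 ∈ X.N := by
  rcases g with ⟨y, i⟩ | j
  · exact mu_mem y i
  · exact X.ray_mem j

/-- the span contains the directions -/
lemma dir_mem (W : Submodule ℝ (Amb X)) (D : Submodule ℝ (Fin m → ℝ)) {r : ℕ}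
    (b : Module.Basis (Fin r) ℝ D) (h : ∀ i, (((b i : Fin m → ℝ), 0) : Amb X) ∈ W) :
    ∀ d ∈ D, ((d, 0) : Amb X) ∈ W := by
  intro d hd
  have h1 : d = ∑ i, (b.repr ⟨d, hd⟩ i) • (b i : Fin m → ℝ) := by
    have h2 := congrArg (Subtype.val : D → Fin m → ℝ) (b.sum_repr ⟨d, hd⟩)
    refine h2.symm.trans ?_
    rw [AddSubmonoidClass.coe_finsetSum]
    rfl
  have h3 : ((d, 0) : Amb X) = ∑ i, (b.repr ⟨d, hd⟩ i) • (((b i : Fin m → ℝ), 0) : Amb X) := by
    apply Prod.ext
    · rw [Prod.fst_sum]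
      exact h1
    · rw [Prod.snd_sum]
      simp
  rw [h3]
  exact sum_mem fun i _ => W.smul_mem _ (h i)

end M_CI

open M_CI

theorem t_CI (hSPN : Stmt_SPN) (hGSP : Stmt_GSP) (hINC : Stmt_INC) (hREP : Stmt_REP)
    (hDIM : Stmt_DIM) (hADD : Stmt_ADD) (hPI1 : Stmt_PI1) : Stmt_CI := by
  classical
  intro m c X T hLC p hp v l hV D k hD hk ε hε hv
  obtain ⟨r, hr⟩ : ∃ r, r = Module.finrank ℝ D := ⟨_, rfl⟩
  obtain ⟨b⟩ : Nonempty (Module.Basis (Fin r) ℝ D) := by
    rw [hr]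
    exact ⟨Module.finBasis ℝ D⟩
  choose e he0 he using fun i => hD _ (b i).2
  choose e' he0' he' using fun i => hD _ (D.neg_mem (b i).2)
  obtain ⟨w, hw⟩ : ∃ w : Amb X, w = (v, fun y => (l y : ℝ)) := ⟨_, rfl⟩
  -- the total weight
  obtain ⟨K, hK⟩ : ∃ K : ℝ, K = 1 + ∑ i, ((e i)⁻¹ + (e' i)⁻¹) := ⟨_, rfl⟩
  have hK0 : 0 < K := by
    have h1 : 0 ≤ ∑ i, ((e i)⁻¹ + (e' i)⁻¹) :=
      sum_nonneg fun i _ => (add_pos (inv_pos.2 (he0 i)) (inv_pos.2 (he0' i))).le
    linarith
  let pt : Option (Fin r ⊕ Fin r) → Amb X := fun x => match x with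
    | none => (v, fun y => (l y : ℝ) + ε * X.deg y)
    | some (Sum.inl i) => (v + e i • (b i : Fin m → ℝ), fun y => (l y : ℝ))
    | some (Sum.inr i) => (v + e' i • (-(b i : Fin m → ℝ)), fun y => (l y : ℝ))
  let cf : Option (Fin r ⊕ Fin r) → ℝ := fun x => match x with
    | none => K⁻¹
    | some (Sum.inl i) => K⁻¹ * (e i)⁻¹
    | some (Sum.inr i) => K⁻¹ * (e' i)⁻¹
  have hcf : ∀ x, 0 < cf x := by
    rintro (_ | i | i)
    · exact inv_pos.2 hK0
    · exact mul_pos (inv_pos.2 hK0) (inv_pos.2 (he0 i))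
    · exact mul_pos (inv_pos.2 hK0) (inv_pos.2 (he0' i))
  have hpt : ∀ x, inC (pt x) := by
    rintro (_ | i | i)
    · exact inC_of_poly hv
    · exact inC_of_poly (he i)
    · exact inC_of_poly (he' i)
  have hsum : w + (K⁻¹ * ε) • T1 X = ∑ x, cf x • pt x := by
    rw [Fintype.sum_option, Fintype.sum_sum_type]
    have hKK : K⁻¹ * K = 1 := inv_mul_cancel₀ hK0.ne'
    have h1 : ∀ i, cf (some (Sum.inl i)) • pt (some (Sum.inl i)) +
        cf (some (Sum.inr i)) • pt (some (Sum.inr i)) =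
        (K⁻¹ * ((e i)⁻¹ + (e' i)⁻¹)) • w := by
      intro i
      apply Prod.ext
      · change (K⁻¹ * (e i)⁻¹) • (v + e i • (b i : Fin m → ℝ)) +
          (K⁻¹ * (e' i)⁻¹) • (v + e' i • (-(b i : Fin m → ℝ))) =
          (K⁻¹ * ((e i)⁻¹ + (e' i)⁻¹)) • w.1
        rw [hw, smul_add, smul_add, smul_smul, smul_smul, mul_assoc, mul_assoc,
          inv_mul_cancel₀ (he0 i).ne', inv_mul_cancel₀ (he0' i).ne']
        module
      · funext y
        change (K⁻¹ * (e i)⁻¹) * (l y : ℝ) + (K⁻¹ * (e' i)⁻¹) * (l y : ℝ) =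
          (K⁻¹ * ((e i)⁻¹ + (e' i)⁻¹)) * w.2 y
        rw [hw]
        ring
    rw [← sum_add_distrib, sum_congr rfl fun i _ => h1 i, ← sum_smul, ← mul_sum]
    have h2 : cf none • pt none = K⁻¹ • w + (K⁻¹ * ε) • T1 X := by
      apply Prod.ext
      · change K⁻¹ • v = K⁻¹ • w.1 + (K⁻¹ * ε) • (0 : Fin m → ℝ)
        rw [hw, smul_zero, add_zero]
      · funext y
        change K⁻¹ * ((l y : ℝ) + ε * X.deg y) = K⁻¹ * w.2 y + (K⁻¹ * ε) * X.deg y
        rw [hw]
        ring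
    rw [h2, add_right_comm, ← add_smul]
    have h3 : K⁻¹ + K⁻¹ * ∑ i, ((e i)⁻¹ + (e' i)⁻¹) = 1 := by
      rw [← hKK, hK]
      ring
    rw [h3, one_smul]
  obtain ⟨S, a, t, ha, ht, hwS, hSp⟩ := hREP X _ pt cf hcf hpt hsum
  -- all fibres are met
  have hfib : ∀ y, ∃ i, (Sum.inl ⟨y, i⟩ : Gen X) ∈ S := by
    intro y
    refine fibre (a := a) ?_
    have h1 : ∑ g ∈ S, a g • gen g = w + (K⁻¹ * ε) • T1 X + t • T1 X := by
      rw [hwS]
      abel
    rw [h1]
    change 0 < w.2 y + (K⁻¹ * ε) * X.deg y + t * X.deg y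
    have h2 : 0 ≤ w.2 y := by
      rw [hw]
      exact Nat.cast_nonneg _
    have h3 := deg_pos' (X := X) y
    have h4 : 0 < (K⁻¹ * ε) * X.deg y := mul_pos (mul_pos (inv_pos.2 hK0) hε) h3
    have h5 : 0 ≤ t * X.deg y := mul_nonneg ht h3.le
    linarith
  choose q hq using hfib
  -- the directions
  have hdir : ∀ d ∈ D, ((d, 0) : Amb X) ∈ Wsp S := by
    refine dir_mem _ D b fun i => ?_
    have h1 : pt (some (Sum.inl i)) - pt (some (Sum.inr i)) =
        (e i + e' i) • (((b i : Fin m → ℝ), 0) : Amb X) := by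
      apply Prod.ext
      · change v + e i • (b i : Fin m → ℝ) - (v + e' i • (-(b i : Fin m → ℝ))) =
          (e i + e' i) • (b i : Fin m → ℝ)
        module
      · funext y
        change (l y : ℝ) - (l y : ℝ) = (e i + e' i) * 0
        ring
    have h2 : (((b i : Fin m → ℝ), 0) : Amb X) =
        (e i + e' i)⁻¹ • (pt (some (Sum.inl i)) - pt (some (Sum.inr i))) := by
      rw [h1, smul_smul, inv_mul_cancel₀ (add_pos (he0 i) (he0' i)).ne', one_smul]
    rw [h2]
    exact (Wsp S).smul_mem _ ((Wsp S).sub_mem (hSp (some (Sum.inl i))) (hSp (some (Sum.inr i))))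
  have hfin : Module.finrank ℝ (Amb X) = m + Fintype.card X.Y := by
    rw [Module.finrank_prod, Module.finrank_fin_fun, Module.finrank_fintype_fun_eq_card]
  have hdim := (hDIM X D (Wsp S) q hdir fun y => gen_mem (hq y)).1
  -- completing the span
  have hall : Wsp S ⊔ Submodule.span ℝ (Set.range (gen : Gen X → Amb X)) = ⊤ := by
    rw [eq_top_iff, ← hGSP X]
    unfold Wsp
    refine sup_le (le_sup_of_le_right (Submodule.span_mono ?_)) (le_sup_of_le_left le_sup_right)
    rintro _ ⟨g, _, rfl⟩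
    exact ⟨g, rfl⟩
  obtain ⟨J, hJk, hJ⟩ := hSPN (gen : Gen X → Amb X) (Wsp S) hall k (by omega)
  have htop : Wsp (S ∪ J) = ⊤ := sup_top hJ
  obtain ⟨w', hw'⟩ : ∃ w' : Amb X, w' = w + ∑ g ∈ J, gen g := ⟨_, rfl⟩
  have hQE : QE w' := by
    refine hINC X (S ∪ J) (fun g => (if g ∈ S then a g else 0) + (if g ∈ J then 1 else 0))
      (-(t + K⁻¹ * ε)) w' ?_ (fun y => ⟨q y, mem_union_left _ (hq y)⟩) ?_ htop
    · intro g hg
      by_cases h1 : g ∈ S
      · have h2 := ha g h1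
        by_cases h3 : g ∈ J
        · simp only [h1, h3, if_true]
          linarith
        · simp only [h1, h3, if_true, if_false]
          linarith
      · have h3 : g ∈ J := (mem_union.1 hg).resolve_left h1
        simp only [h1, h3, if_true, if_false]
        norm_num
    · have h1 : ∑ g ∈ S ∪ J, ((if g ∈ S then a g else 0) + (if g ∈ J then (1 : ℝ) else 0)) • gen g =
          ∑ g ∈ S, a g • gen g + ∑ g ∈ J, gen g := by
        simp only [add_smul, sum_add_distrib, ite_smul, zero_smul, one_smul]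
        rw [sum_ite_mem, sum_ite_mem, union_inter_cancel_left, union_inter_cancel_right]
      rw [h1, hw']
      have h2 : w = ∑ g ∈ S, a g • gen g - t • T1 X - (K⁻¹ * ε) • T1 X := by
        rw [← hwS]
        abel
      rw [h2]
      module
  have hN : w'.1 ∈ X.N := by
    rw [hw', Prod.fst_add, Prod.fst_sum]
    refine X.N.add_mem ?_ (sum_mem fun g _ => gen_fst_mem g)
    rw [hw]
    exact hV.1
  have hZ : ∀ y, ∃ n : ℤ, w'.2 y = n := by
    intro y
    refine ⟨(l y : ℤ) + ∑ g ∈ J, (genN g y : ℤ), ?_⟩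
    rw [hw', Prod.snd_add, Prod.snd_sum, Pi.add_apply, Finset.sum_apply, hw]
    push_cast
    congr 1
    exact sum_congr rfl fun g _ => gen_snd g y
  have h1 := hPI1 X T hLC p hp w' hN hZ hQE
  have h2 := (hADD X T w (fun y => by rw [hw]; exact Nat.cast_nonneg _)
    (by rw [hw]; exact inC_of_poly hV.2.2)).1 J
  have h3 : G0 T w = T.ldisc v l := by
    rw [hw]
    exact G0_central T v l
  have h4 : (J.card : ℝ) ≤ k := by exact_mod_cast hJk
  rw [← hw', h3] at h2
  linarith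

end LSCM
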