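import Pool.Agent.LSCM.StA

/-!
# LSCM, module CII: the second case
-/

set_option autoImplicit false

namespace LSCM

open MldTv MldGap Finset

noncomputable section

namespace M_CII

variable {m c : ℕ} {X : TVar m c}

theorem wsp_mono {S S' : Finset (Gen X)} (h : S ⊆ S') : Wsp S ≤ Wsp S' :=
  sup_le_sup (Submodule.span_mono (Set.image_mono (by exact_mod_cast h))) le_rfl

theorem gen_mem {S : Finset (Gen X)} {g : Gen X} (h : g ∈ S) : gen g ∈ Wsp S :=
  Submodule.mem_sup_left (Submodule.subset_span ⟨g, h, rfl⟩)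

theorem T1_mem (S : Finset (Gen X)) : T1 X ∈ Wsp S :=
  Submodule.mem_sup_right (Submodule.mem_span_singleton_self _)

theorem wsp_union [DecidableEq (Gen X)] (S J : Finset (Gen X)) :
    Wsp (S ∪ J) = Wsp S ⊔ Submodule.span ℝ (gen '' (J : Set (Gen X))) := by
  unfold Wsp
  rw [coe_union, Set.image_union, Submodule.span_union, sup_right_comm]

theorem finrank_amb : Module.finrank ℝ (Amb X) = m + Fintype.card X.Y := by
  rw [Module.finrank_prod, Module.finrank_fin_fun, Module.finrank_fintype_fun_eq_card]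

/-- the representation of a point, with a span that contains the directions of its face -/
theorem rep (hREP : Stmt_REP) {v : Fin m → ℝ} {l : X.Y → ℝ} (hv : v ∈ X.poly l)
    {D : Submodule ℝ (Fin m → ℝ)} (hD : Dir X v l D) :
    ∃ (S : Finset (Gen X)) (a : Gen X → ℝ) (t : ℝ), (∀ g ∈ S, 0 < a g) ∧ 0 ≤ t ∧
      ((v, l) : Amb X) = ∑ g ∈ S, a g • gen g - t • T1 X ∧
      ∀ d ∈ D, ((d, 0) : Amb X) ∈ Wsp S := by
  classical
  let b := Module.finBasis ℝ D
  choose ε hε hp using fun i => hD (b i) (b i).2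
  choose ε' hε' hp' using fun i => hD (-(b i : Fin m → ℝ)) (D.neg_mem (b i).2)
  obtain ⟨w, hw⟩ : ∃ w : Amb X, w = (v, l) := ⟨_, rfl⟩
  obtain ⟨B, hB⟩ : ∃ B : Fin (Module.finrank ℝ D) → Amb X,
      ∀ i, B i = ((b i : Fin m → ℝ), 0) := ⟨_, fun _ => rfl⟩
  have hwC : inC w := by
    rw [hw]
    exact inC_of_poly hv
  have h1 : ∀ i, inC (w + ε i • B i) := by
    intro i
    have h2 : w + ε i • B i = ((v + ε i • (b i : Fin m → ℝ), l) : Amb X) := by
      rw [hw, hB]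
      apply Prod.ext
      · rfl
      · change l + ε i • (0 : X.Y → ℝ) = l
        rw [smul_zero, add_zero]
    rw [h2]
    exact inC_of_poly (hp i)
  have h1' : ∀ i, inC (w - ε' i • B i) := by
    intro i
    have h2 : w - ε' i • B i = ((v + ε' i • (-(b i : Fin m → ℝ)), l) : Amb X) := by
      rw [hw, hB]
      apply Prod.ext
      · change v - ε' i • (b i : Fin m → ℝ) = v + ε' i • (-(b i : Fin m → ℝ))
        rw [smul_neg, sub_eq_add_neg]
      · change l - ε' i • (0 : X.Y → ℝ) = l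
        rw [smul_zero, sub_zero]
    rw [h2]
    exact inC_of_poly (hp' i)
  obtain ⟨K, hK⟩ : ∃ K : ℝ, K = 1 + (∑ i, (ε i)⁻¹ + ∑ i, (ε' i)⁻¹) := ⟨_, rfl⟩
  have hK0 : 0 < K := by
    have e1 : 0 ≤ ∑ i, (ε i)⁻¹ := sum_nonneg fun i _ => (inv_pos.2 (hε i)).le
    have e2 : 0 ≤ ∑ i, (ε' i)⁻¹ := sum_nonneg fun i _ => (inv_pos.2 (hε' i)).le
    linarith
  let ι := Option (Fin (Module.finrank ℝ D) ⊕ Fin (Module.finrank ℝ D))
  let P : ι → Amb X := fun i => match i with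
    | none => w
    | some (Sum.inl i) => w + ε i • B i
    | some (Sum.inr i) => w - ε' i • B i
  let q : ι → ℝ := fun i => match i with
    | none => K⁻¹
    | some (Sum.inl i) => K⁻¹ * (ε i)⁻¹
    | some (Sum.inr i) => K⁻¹ * (ε' i)⁻¹
  have hq : ∀ i, 0 < q i := by
    rintro (_ | i | i)
    · exact inv_pos.2 hK0
    · exact mul_pos (inv_pos.2 hK0) (inv_pos.2 (hε i))
    · exact mul_pos (inv_pos.2 hK0) (inv_pos.2 (hε' i))
  have hPC : ∀ i, inC (P i) := by
    rintro (_ | i | i)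
    · exact hwC
    · exact h1 i
    · exact h1' i
  have hsum : w = ∑ i, q i • P i := by
    have e0 : ∑ i, q i • P i = K⁻¹ • w + (∑ i, (K⁻¹ * (ε i)⁻¹) • (w + ε i • B i) +
        ∑ i, (K⁻¹ * (ε' i)⁻¹) • (w - ε' i • B i)) := by
      rw [Fintype.sum_option, Fintype.sum_sum_type]
    have e1 : ∀ i, (K⁻¹ * (ε i)⁻¹) • (w + ε i • B i) =
        (K⁻¹ * (ε i)⁻¹) • w + K⁻¹ • B i := by
      intro i
      rw [smul_add, smul_smul, mul_assoc, inv_mul_cancel₀ (hε i).ne', mul_one]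
    have e2 : ∀ i, (K⁻¹ * (ε' i)⁻¹) • (w - ε' i • B i) =
        (K⁻¹ * (ε' i)⁻¹) • w - K⁻¹ • B i := by
      intro i
      rw [smul_sub, smul_smul, mul_assoc, inv_mul_cancel₀ (hε' i).ne', mul_one]
    rw [e0]
    simp only [e1, e2, sum_add_distrib, sum_sub_distrib, ← sum_smul, ← mul_sum]
    have e3 : K⁻¹ • w + ((K⁻¹ * ∑ i, (ε i)⁻¹) • w + ∑ i, K⁻¹ • B i +
        ((K⁻¹ * ∑ i, (ε' i)⁻¹) • w - ∑ i, K⁻¹ • B i)) =
        (K⁻¹ * (1 + (∑ i, (ε i)⁻¹ + ∑ i, (ε' i)⁻¹))) • w := by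
      module
    rw [e3, ← hK, inv_mul_cancel₀ hK0.ne', one_smul]
  obtain ⟨S, a, t, ha, ht, hwS, hPS⟩ := hREP X w P q hq hPC hsum
  refine ⟨S, a, t, ha, ht, ?_, ?_⟩
  · rw [← hw]
    exact hwS
  · have hBS : ∀ i, B i ∈ Wsp S := by
      intro i
      have e1 : P none ∈ Wsp S := hPS none
      have e2 : P (some (Sum.inl i)) ∈ Wsp S := hPS (some (Sum.inl i))
      have e3 : ε i • B i ∈ Wsp S := by
        have e4 := (Wsp S).sub_mem e2 e1
        have e5 : P (some (Sum.inl i)) - P none = ε i • B i := by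
          change w + ε i • B i - w = _
          rw [add_sub_cancel_left]
        rwa [e5] at e4
      have e6 := (Wsp S).smul_mem (ε i)⁻¹ e3
      rwa [smul_smul, inv_mul_cancel₀ (hε i).ne', one_smul] at e6
    intro d hd
    have e1 := congrArg Subtype.val (b.sum_repr ⟨d, hd⟩)
    have e2 : ((d, 0) : Amb X) = ∑ i, (b.repr ⟨d, hd⟩ i) • B i := by
      have e3 : d = ∑ i, (b.repr ⟨d, hd⟩ i) • (b i : Fin m → ℝ) := by
        have e4 : ((∑ i, (b.repr ⟨d, hd⟩ i) • b i : D) : Fin m → ℝ) =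
            ∑ i, (b.repr ⟨d, hd⟩ i) • (b i : Fin m → ℝ) := by
          push_cast
          rfl
        rw [← e4]
        exact e1.symm
      apply Prod.ext
      · rw [Prod.fst_sum]
        simp only [hB, Prod.smul_fst]
        exact e3
      · rw [Prod.snd_sum]
        simp only [hB, Prod.smul_snd, smul_zero, sum_const_zero]
    rw [e2]
    exact sum_mem fun i _ => (Wsp S).smul_mem _ (hBS i)

theorem sum_ite {S U : Finset (Gen X)} [DecidableEq (Gen X)] (h : S ⊆ U) (a : Gen X → ℝ) :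
    ∑ g ∈ U, (if g ∈ S then a g else 0) • gen g = ∑ g ∈ S, a g • gen g := by
  rw [← sum_subset h]
  · exact sum_congr rfl fun g hg => by rw [if_pos hg]
  · intro g _ hg
    rw [if_neg hg, zero_smul]

theorem sum_gen_snd (J : Finset (Gen X)) (y : X.Y) :
    (∑ g ∈ J, gen g : Amb X).2 y = ∑ g ∈ J, (genN g y : ℝ) := by
  rw [Prod.snd_sum, Finset.sum_apply]
  exact sum_congr rfl fun g _ => gen_snd g y

theorem sum_gen_fst (J : Finset (Gen X)) : (∑ g ∈ J, gen g : Amb X).1 ∈ X.N := by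
  rw [Prod.fst_sum]
  exact sum_mem fun g _ => (gen_lat g).1

/-- the number of generators needed -/
theorem core (hSPN : Stmt_SPN) (hGSP : Stmt_GSP) (hINC : Stmt_INC) (hDIM : Stmt_DIM)
    (hADD : Stmt_ADD) (hPI1 : Stmt_PI1) {m : ℕ} (X : TVar m 1) (T : Triple X)
    (hdeg : ∀ y, X.deg y = 1) (hLC : T.LC) (p : ∀ y, X.I y)
    (hp : 0 < T.ψ (∑ y, (X.deg y : ℝ) • X.vert y (p y))) (v : Fin m → ℝ) (l : X.Y → ℕ)
    (hV : IsV X v l) (D : Submodule ℝ (Fin m → ℝ)) (k : ℕ)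
    (hD : Dir X v (fun y => (l y : ℝ)) D) (hk : m ≤ Module.finrank ℝ D + k)
    (hε : ∀ ε : ℝ, 0 < ε → v ∉ X.poly (fun y => (l y : ℝ) + ε)) (S : Finset (Gen X))
    (a : Gen X → ℝ) (ha : ∀ g ∈ S, 0 < a g)
    (hw : ((v, fun y => (l y : ℝ)) : Amb X) = ∑ g ∈ S, a g • gen g)
    (hDS : ∀ d ∈ D, ((d, 0) : Amb X) ∈ Wsp S) (q0 : ∀ y, X.I y) (Y1 : Finset X.Y)
    (hY1 : ∀ y, y ∉ Y1 → (Sum.inl ⟨y, q0 y⟩ : Gen X) ∈ S ∧ l y ≠ 0) :
    T.mld ≤ T.ldisc v l + (Y1.card + k + 1 - Fintype.card X.Y) := by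
  classical
  obtain ⟨w, hwd⟩ : ∃ w : Amb X, w = (v, fun y => (l y : ℝ)) := ⟨_, rfl⟩
  rw [← hwd] at hw
  obtain ⟨V0, hV0⟩ : ∃ V0 : Finset (Gen X),
      V0 = Y1.image (fun y => (Sum.inl ⟨y, q0 y⟩ : Gen X)) := ⟨_, rfl⟩
  have hV0c : V0.card ≤ Y1.card := by
    rw [hV0]
    exact card_image_le
  have hV0m : ∀ y ∈ Y1, (Sum.inl ⟨y, q0 y⟩ : Gen X) ∈ V0 := by
    intro y hy
    rw [hV0]
    exact mem_image_of_mem _ hy
  have hSV : ∀ y, (Sum.inl ⟨y, q0 y⟩ : Gen X) ∈ S ∪ V0 := by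
    intro y
    by_cases hy : y ∈ Y1
    · exact mem_union_right _ (hV0m y hy)
    · exact mem_union_left _ (hY1 y hy).1
  -- the sum of the vertices is not in `D`
  have hq : ∑ y, (X.deg y : ℝ) • X.vert y (q0 y) ∉ D := by
    intro hq
    obtain ⟨ε, hε0, h1⟩ := hD _ (D.neg_mem hq)
    have h2 : ε • ∑ y, (X.deg y : ℝ) • X.vert y (q0 y) ∈ X.poly (fun _ => ε) := by
      refine ⟨fun y i => if i = q0 y then ε else 0, fun _ => 0, fun y i => ?_, fun _ => le_rfl,
        fun y => ?_, ?_⟩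
      · dsimp only
        split_ifs
        · exact hε0.le
        · exact le_rfl
      · rw [sum_ite_eq' univ (q0 y), if_pos (mem_univ _)]
      · simp only [ite_smul, zero_smul, sum_const_zero, add_zero, smul_sum]
        refine sum_congr rfl fun y _ => ?_
        rw [sum_ite_eq' univ (q0 y), if_pos (mem_univ _), hdeg, Nat.cast_one, one_smul]
    have h3 := poly_add h1 h2
    refine hε ε hε0 ?_
    have h4 : v + ε • -∑ y, (X.deg y : ℝ) • X.vert y (q0 y) +
        ε • ∑ y, (X.deg y : ℝ) • X.vert y (q0 y) = v := by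
      rw [smul_neg, neg_add_cancel_right]
    rw [h4] at h3
    exact h3
  -- dimensions
  have h5 := (hDIM X D (Wsp (S ∪ V0)) q0 (fun d hd => wsp_mono subset_union_left (hDS d hd))
    (fun y => gen_mem (hSV y))).2 (T1_mem _) hq
  have hfin : Module.finrank ℝ (Amb X) = m + Fintype.card X.Y := finrank_amb
  have hle : Module.finrank ℝ (Wsp (S ∪ V0)) ≤ Module.finrank ℝ (Amb X) :=
    Submodule.finrank_le _
  obtain ⟨k', rfl⟩ : ∃ k', k = k' + 1 := ⟨k - 1, by omega⟩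
  obtain ⟨J, hJ, hJtop⟩ := hSPN (gen : Gen X → Amb X) (Wsp (S ∪ V0)) (by
    rw [eq_top_iff, ← hGSP X]
    unfold Wsp
    refine sup_le (le_trans (Submodule.span_mono ?_) le_sup_right)
      (le_trans le_sup_right le_sup_left)
    exact Set.image_subset_range _ _) k' (by omega)
  have htop : Wsp (S ∪ V0 ∪ J) = ⊤ := by
    rw [wsp_union]
    exact hJtop
  -- the points
  obtain ⟨w1, hw1⟩ : ∃ w1 : Amb X, w1 = w + ∑ g ∈ V0, gen g := ⟨_, rfl⟩
  obtain ⟨w2, hw2⟩ : ∃ w2 : Amb X, w2 = w1 + ∑ g ∈ J, gen g := ⟨_, rfl⟩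
  obtain ⟨A, hA⟩ : ∃ A : Gen X → ℝ, A = fun g => (if g ∈ S then a g else 0) +
      (if g ∈ V0 then 1 else 0) + (if g ∈ J then 1 else 0) := ⟨_, rfl⟩
  have hA0 : ∀ g ∈ S ∪ V0 ∪ J, 0 < A g := by
    intro g hg
    have e1 : (0 : ℝ) ≤ if g ∈ S then a g else 0 := by
      split_ifs with h
      · exact (ha g h).le
      · exact le_rfl
    have e2 : (0 : ℝ) ≤ if g ∈ V0 then 1 else 0 := by
      split_ifs
      · exact zero_le_one
      · exact le_rfl
    have e3 : (0 : ℝ) ≤ if g ∈ J then 1 else 0 := by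
      split_ifs
      · exact zero_le_one
      · exact le_rfl
    rw [hA]
    dsimp only
    rw [mem_union, mem_union] at hg
    rcases hg with (hg | hg) | hg
    · have := ha g hg
      rw [if_pos hg]
      linarith
    · rw [if_pos hg]
      linarith
    · rw [if_pos hg]
      linarith
  have hsum : w2 = ∑ g ∈ S ∪ V0 ∪ J, A g • gen g + (0 : ℝ) • T1 X := by
    rw [zero_smul, add_zero, hA]
    simp only [add_smul, sum_add_distrib]
    have e1 := sum_ite (S := S) (U := S ∪ V0 ∪ J)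
      ((subset_union_left).trans subset_union_left) a
    have e2 := sum_ite (S := V0) (U := S ∪ V0 ∪ J)
      ((subset_union_right).trans subset_union_left) (fun _ => 1)
    have e3 := sum_ite (S := J) (U := S ∪ V0 ∪ J) subset_union_right (fun _ => 1)
    simp only [one_smul] at e2 e3
    rw [e1, e2, e3, hw2, hw1, hw]
  have hQE : QE w2 := hINC X (S ∪ V0 ∪ J) A 0 w2 hA0
    (fun y => ⟨q0 y, mem_union_left _ (hSV y)⟩) hsum htop
  have hQE' : QE (w2 - T1 X) := by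
    have := hQE.shift 1
    rwa [one_smul] at this
  have hw2y : ∀ y, w2.2 y = l y + ∑ g ∈ V0, (genN g y : ℝ) + ∑ g ∈ J, (genN g y : ℝ) := by
    intro y
    rw [← sum_gen_snd, ← sum_gen_snd, hw2, hw1, hwd]
    rfl
  have hw1y : ∀ y, w1.2 y = l y + ∑ g ∈ V0, (genN g y : ℝ) := by
    intro y
    rw [← sum_gen_snd, hw1, hwd]
    rfl
  have hmld : T.mld ≤ G0 T (w2 - T1 X) := by
    refine hPI1 X T hLC p hp _ ?_ (fun y => ?_) hQE'
    · have e1 : (w2 - T1 X).1 = w.1 + (∑ g ∈ V0, gen g : Amb X).1 +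
          (∑ g ∈ J, gen g : Amb X).1 := by
        rw [hw2, hw1]
        change w.1 + _ + _ - (0 : Fin m → ℝ) = _
        rw [sub_zero]
      rw [e1, hwd]
      exact X.N.add_mem (X.N.add_mem hV.1 (sum_gen_fst V0)) (sum_gen_fst J)
    · refine ⟨(l y : ℤ) + ∑ g ∈ V0, (genN g y : ℤ) + ∑ g ∈ J, (genN g y : ℤ) - X.deg y, ?_⟩
      change w2.2 y - (X.deg y : ℝ) = _
      rw [hw2y]
      push_cast
      ring
  have hwC : inC w := by
    rw [hwd]
    exact inC_of_poly hV.2.2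
  have hgC : ∀ J : Finset (Gen X), inC (∑ g ∈ J, gen g) := fun J =>
    inC_sum J _ fun g _ => inC_gen (some g)
  have hw1C : inC w1 := by
    rw [hw1]
    exact inC_add hwC (hgC V0)
  have hw2C : inC w2 := by
    rw [hw2]
    exact inC_add hw1C (hgC J)
  have hw0 : ∀ y, 0 ≤ w.2 y := by
    intro y
    rw [hwd]
    exact Nat.cast_nonneg _
  have hs0 : ∀ (J : Finset (Gen X)) (y : X.Y), (0 : ℝ) ≤ ∑ g ∈ J, (genN g y : ℝ) :=
    fun J y => sum_nonneg fun g _ => Nat.cast_nonneg _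
  have hl0 : ∀ y, (0 : ℝ) ≤ l y := fun y => Nat.cast_nonneg _
  have hw10 : ∀ y, 0 ≤ w1.2 y := by
    intro y
    rw [hw1y]
    linarith [hs0 V0 y, hl0 y]
  have hw21 : ∀ y, (X.deg y : ℝ) ≤ w2.2 y := by
    intro y
    rw [hw2y, hdeg, Nat.cast_one]
    by_cases hy : y ∈ Y1
    · have e1 : (genN (Sum.inl ⟨y, q0 y⟩ : Gen X) y : ℝ) ≤ ∑ g ∈ V0, (genN g y : ℝ) :=
        single_le_sum (f := fun g => (genN g y : ℝ)) (fun g _ => Nat.cast_nonneg _) (hV0m y hy)
      have e2 : genN (Sum.inl ⟨y, q0 y⟩ : Gen X) y = X.mu y (q0 y) := by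
        simp [genN]
      have e3 : (1 : ℝ) ≤ (genN (Sum.inl ⟨y, q0 y⟩ : Gen X) y : ℝ) := by
        rw [e2]
        exact_mod_cast mu_pos y (q0 y)
      linarith [hs0 J y, hl0 y]
    · have e1 : (1 : ℝ) ≤ l y := by
        exact_mod_cast Nat.one_le_iff_ne_zero.2 (hY1 y hy).2
      linarith [hs0 J y, hs0 V0 y]
  have hw20 : ∀ y, 0 ≤ w2.2 y := fun y => le_trans (Nat.cast_nonneg _) (hw21 y)
  have g1 := (hADD X T w hw0 hwC).1 V0
  have g2 := (hADD X T w1 hw10 hw1C).1 J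
  have g3 := (hADD X T w2 hw20 hw2C).2 hw21
  rw [← hw1] at g1
  rw [← hw2] at g2
  have g4 : G0 T w = T.ldisc v l := by
    rw [hwd]
    exact G0_central T v l
  have g5 : ∑ y, (X.deg y : ℝ) = Fintype.card X.Y := by
    simp [hdeg]
  have g6 : (X.idx : ℝ) ≤ 2 := by
    have := X.idx_le
    exact_mod_cast this
  have g7 : (J.card : ℝ) ≤ k' := by exact_mod_cast hJ
  have g8 : (V0.card : ℝ) ≤ Y1.card := by exact_mod_cast hV0c
  rw [g5] at g3
  push_cast
  linarith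

end M_CII

open M_CII in
theorem t_CII (hSPN : Stmt_SPN) (hGSP : Stmt_GSP) (hINC : Stmt_INC) (hREP : Stmt_REP)
    (hDIM : Stmt_DIM) (hADD : Stmt_ADD) (hPI1 : Stmt_PI1) : Stmt_CII := by
  classical
  intro m X T hdeg hLC p hp v l hV D k hD hk hε
  obtain ⟨S, a, t, ha, ht, hw, hDS⟩ := rep hREP hV.2.2 hD
  have ht0 : t = 0 := by
    by_contra hne
    have htpos : 0 < t := lt_of_le_of_ne ht (Ne.symm hne)
    have h1 : ((v, fun y => (l y : ℝ)) : Amb X) + t • T1 X = ∑ g ∈ S, a g • gen g := by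
      rw [hw, sub_add_cancel]
    have h2 := inP_sum S a (fun g hg => (ha g hg).le)
    rw [← h1] at h2
    have h3 : v + t • (0 : Fin m → ℝ) ∈ X.poly (fun y => (l y : ℝ) + t * (X.deg y : ℝ)) := h2
    rw [smul_zero, add_zero] at h3
    simp only [hdeg, Nat.cast_one, mul_one] at h3
    exact hε t htpos h3
  rw [ht0, zero_smul, sub_zero] at hw
  have hfirst : (∃ y, l y ≠ 0) → T.mld ≤ T.ldisc v l + k := by
    rintro ⟨y₀, hy₀⟩
    have h1 : (l y₀ : ℝ) = ∑ g ∈ S, a g * genN g y₀ := by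
      rw [← sum_snd, ← hw]
    obtain ⟨g, hg, hgn⟩ : ∃ g ∈ S, a g * (genN g y₀ : ℝ) ≠ 0 := by
      by_contra hcon
      push Not at hcon
      rw [sum_eq_zero hcon] at h1
      exact hy₀ (by exact_mod_cast h1)
    have hgn' : genN g y₀ ≠ 0 := fun h => hgn (by rw [h, Nat.cast_zero, mul_zero])
    obtain ⟨i, rfl⟩ : ∃ i, g = Sum.inl ⟨y₀, i⟩ := by
      rcases g with ⟨y, i⟩ | j
      · by_cases h : y₀ = y
        · subst h
          exact ⟨i, rfl⟩
        · exact absurd (by simp [genN, h]) hgn'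
      · exact absurd (by simp [genN]) hgn'
    have h2 := core hSPN hGSP hINC hDIM hADD hPI1 X T hdeg hLC p hp v l hV D k hD hk hε S a ha hw
      hDS (Function.update p y₀ i) (univ.erase y₀) (fun y hy => by
        have hyy : y = y₀ := by
          by_contra hne
          exact hy (mem_erase.2 ⟨hne, mem_univ _⟩)
        subst hyy
        rw [Function.update_self]
        exact ⟨hg, hy₀⟩)
    have h3 : ((univ.erase y₀).card : ℝ) = Fintype.card X.Y - 1 := by
      rw [card_erase_of_mem (mem_univ _), card_univ, Nat.cast_sub, Nat.cast_one]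
      exact Fintype.card_pos_iff.2 ⟨y₀⟩
    rw [h3] at h2
    linarith
  refine ⟨hfirst, ?_⟩
  by_cases hl : ∃ y, l y ≠ 0
  · have := hfirst hl
    linarith
  · have h2 := core hSPN hGSP hINC hDIM hADD hPI1 X T hdeg hLC p hp v l hV D k hD hk hε S a ha hw
      hDS p univ (fun y hy => absurd (mem_univ y) hy)
    rw [card_univ] at h2
    linarith

end

end LSCM
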