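import Pool.Agent.LSCM.StB

/-!
# Lower semicontinuity in complexity one, module CLA: the combinatorial inequality for the data
-/

set_option autoImplicit false

namespace LSCM

open MldGap MldGeo

noncomputable section

namespace M_CLA

open Filter Topology in
theorem small {ι : Type} [Finite ι] (a b : ι → ℝ) (h : ∀ i, 0 < a i ∨ (a i = 0 ∧ 0 ≤ b i)) :
    ∃ ε : ℝ, 0 < ε ∧ ∀ i, 0 ≤ a i + ε * b i := by
  have h1 : ∀ i, ∀ᶠ ε : ℝ in 𝓝[>] 0, 0 ≤ a i + ε * b i := by
    intro i
    rcases h i with h2 | ⟨h2, h3⟩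
    · have h4 : Tendsto (fun ε : ℝ => a i + ε * b i) (𝓝 0) (𝓝 (a i + 0 * b i)) :=
        (continuous_const.add (continuous_id.mul continuous_const)).tendsto 0
      rw [zero_mul, add_zero] at h4
      exact ((h4.mono_left nhdsWithin_le_nhds).eventually (lt_mem_nhds h2)).mono fun _ h => h.le
    · filter_upwards [self_mem_nhdsWithin] with ε hε
      rw [h2, zero_add]
      exact mul_nonneg (le_of_lt hε) h3
  have h2 : ∀ᶠ ε : ℝ in 𝓝[>] 0, (∀ i, 0 ≤ a i + ε * b i) ∧ ε ∈ Set.Ioi (0 : ℝ) :=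
    (eventually_all.2 h1).and self_mem_nhdsWithin
  obtain ⟨ε, h3, h4⟩ := h2.exists
  exact ⟨ε, h4, h3⟩

open Filter in
theorem large {ι : Type} [Finite ι] (a b : ι → ℝ) (h : ∀ i, 0 < b i ∨ (b i = 0 ∧ 0 ≤ a i)) :
    ∃ c : ℝ, ∀ i, 0 ≤ a i + c * b i := by
  have h1 : ∀ i, ∀ᶠ c : ℝ in atTop, 0 ≤ a i + c * b i := by
    intro i
    rcases h i with h2 | ⟨h2, h3⟩
    · filter_upwards [eventually_ge_atTop (-a i / b i)] with c hc
      rw [div_le_iff₀ h2] at hc
      linarith
    · filter_upwards with c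
      rw [h2, mul_zero, add_zero]
      exact h3
  exact (eventually_all.2 h1).exists

theorem pr_add {m : ℕ} (x x' : Fin m → ℝ) (u : Fin m → ℤ) : pr (x + x') u = pr x u + pr x' u := by
  rw [← CMB.lin_apply, ← CMB.lin_apply, ← CMB.lin_apply, map_add]

theorem pr_smul {m : ℕ} (r : ℝ) (x : Fin m → ℝ) (u : Fin m → ℤ) : pr (r • x) u = r * pr x u := by
  rw [← CMB.lin_apply, ← CMB.lin_apply, map_smul, smul_eq_mul]

theorem pr_sum {m : ℕ} {ι : Type} [Fintype ι] (x : ι → Fin m → ℝ) (u : Fin m → ℤ) :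
    pr (∑ i, x i) u = ∑ i, pr (x i) u := by
  rw [← CMB.lin_apply, map_sum]
  exact Finset.sum_congr rfl fun i _ => CMB.lin_apply _ _

/-- the orthogonal space -/
def orth {m N : ℕ} (u : Fin N → Fin m → ℤ) (I : Set (Fin N)) : Submodule ℝ (Fin m → ℝ) where
  carrier := {x | ∀ i ∈ I, pr x (u i) = 0}
  add_mem' := fun {a b} ha hb i hi => by
    rw [pr_add, ha i hi, hb i hi, add_zero]
  zero_mem' := fun i _ => by
    rw [← CMB.lin_apply, map_zero]
  smul_mem' := fun r x hx i hi => by
    rw [pr_smul, hx i hi, mul_zero]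

theorem finrank_orth {m N : ℕ} (u : Fin N → Fin m → ℤ) (I : Set (Fin N)) :
    m ≤ Module.finrank ℝ (orth u I) + rkI u I := by
  classical
  let M : Matrix I (Fin m) ℝ := fun i j => (u i j : ℝ)
  have h1 : M.rank = rkI u I := by
    rw [Matrix.rank_eq_finrank_span_row]
    unfold rkI
    rw [Set.image_eq_range]
    rfl
  have h2 : LinearMap.ker M.mulVecLin = orth u I := by
    ext x
    rw [LinearMap.mem_ker]
    constructor
    · intro h i hi
      have h3 := congrFun h ⟨i, hi⟩
      have h4 : (M.mulVecLin x) ⟨i, hi⟩ = pr x (u i) := by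
        show ∑ j, M ⟨i, hi⟩ j * x j = ∑ j, x j * u i j
        exact Finset.sum_congr rfl fun j _ => mul_comm _ _
      rw [← h4, h3]
      rfl
    · intro h
      funext i
      have h4 : (M.mulVecLin x) i = pr x (u i) := by
        show ∑ j, M i j * x j = ∑ j, x j * u i j
        exact Finset.sum_congr rfl fun j _ => mul_comm _ _
      rw [h4, h i i.2]
      rfl
  have h3 := LinearMap.finrank_range_add_finrank_ker M.mulVecLin
  rw [h2, Module.finrank_fintype_fun_eq_card, Fintype.card_fin] at h3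
  have h4 : Module.finrank ℝ (LinearMap.range M.mulVecLin) = rkI u I := by
    rw [← h1]
    rfl
  omega

theorem poly_sum {m c : ℕ} {X : MldTv.TVar m c} {ι : Type} (s : Finset ι) (l : ι → X.Y → ℝ)
    (v : ι → Fin m → ℝ) (h : ∀ i, v i ∈ X.poly (l i)) :
    ∑ i ∈ s, v i ∈ X.poly (fun y => ∑ i ∈ s, l i y) := by
  classical
  induction s using Finset.induction_on with
  | empty =>
    simp only [Finset.sum_empty]
    exact MldTv.poly_zero.2 ⟨fun _ => 0, fun _ => le_rfl, by simp⟩
  | insert a s ha ih =>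
    rw [Finset.sum_insert ha]
    have h1 : (fun y => ∑ i ∈ insert a s, l i y) = fun y => l a y + ∑ i ∈ s, l i y := by
      funext y
      rw [Finset.sum_insert ha]
    rw [h1]
    exact MldTv.poly_add (h a) ih

end M_CLA

open M_CLA in
theorem t_CLA (hCM2 : Stmt_CM2) (hCBA : Stmt_CBA) : Stmt_CLA := by
  classical
  intro m X T d hEff hLC w l y hl hw
  obtain ⟨k, rfl⟩ := Int.eq_ofNat_of_zero_le hl
  obtain ⟨X', φ, T', hdeg, hN, hpoly, hLC', hmld, hld⟩ := hCM2 d hEff hLC
  obtain ⟨I, hI⟩ : ∃ I : Set (Fin d.N), I = I0 d w k y := ⟨_, rfl⟩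
  have hI0 : ∀ i, i ∈ I ↔ pr (toR w) (d.u i) + k * d.e i y = 0 := by
    intro i
    rw [hI, CMB.pr_toR]
    show (k : ℤ) * d.e i y + ip w (d.u i) = 0 ↔ _
    rw [← Int.cast_inj (α := ℝ)]
    push_cast
    rw [add_comm]
  have hpos : ∀ i, i ∉ I → 0 < pr (toR w) (d.u i) + k * d.e i y := by
    intro i hi
    rw [hI0] at hi
    exact lt_of_le_of_ne ((CMB.cast_nonneg d w k y i).2 (hw i)) (Ne.symm hi)
  have h1 : IsV X' (toR w) (CMB.sg d φ k y) :=
    ⟨(hN _).2 ⟨w, rfl⟩, CMB.card_sg d φ k y,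
      (CMB.mem_poly d φ hpoly _ k y).2 fun i => (CMB.cast_nonneg d w k y i).2 (hw i)⟩
  have h2 : Dir X' (toR w) (fun y' => ((CMB.sg d φ k y y' : ℕ) : ℝ)) (orth d.u I) := by
    intro x hx
    obtain ⟨ε, h3, h4⟩ := small (fun i => pr (toR w) (d.u i) + k * d.e i y)
      (fun i => pr x (d.u i)) fun i => by
        by_cases hi : i ∈ I
        · exact Or.inr ⟨(hI0 i).1 hi, (hx i hi).ge⟩
        · exact Or.inl (hpos i hi)
    refine ⟨ε, h3, (CMB.mem_poly d φ hpoly _ k y).2 fun i => ?_⟩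
    rw [pr_add, pr_smul]
    have := h4 i
    linarith
  obtain ⟨h4, h5⟩ := hCBA X' T' hdeg hLC' (toR w) (CMB.sg d φ k y) h1 (orth d.u I)
    (rkI d.u I) h2 (finrank_orth d.u I)
  rw [hmld, hld] at h4 h5
  rw [← hI]
  refine ⟨fun h => h4 ?_, by linarith⟩
  by_cases hk : k = 0
  · right
    subst hk
    rcases h with h | ⟨L, hL⟩
    · exact absurd h (by simp)
    -- large multiples of `w`
    have hwI : ∀ i, i ∈ I → pr (toR w) (d.u i) = 0 := by
      intro i hi
      have := (hI0 i).1 hi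
      simpa using this
    have hwp : ∀ i, i ∉ I → 0 < pr (toR w) (d.u i) := by
      intro i hi
      have := hpos i hi
      simpa using this
    obtain ⟨c, hc⟩ := large (ι := Fin d.N × d.Y)
      (fun q => pr (L q.2) (d.u q.1) + d.e q.1 q.2) (fun q => pr (toR w) (d.u q.1)) fun q => by
        by_cases hi : q.1 ∈ I
        · refine Or.inr ⟨hwI _ hi, ?_⟩
          rw [hL _ hi]
          simp
        · exact Or.inl (hwp _ hi)
    obtain ⟨p, hp⟩ : ∃ p : d.Y → Fin m → ℝ, p = fun y' => L y' + c • toR w := ⟨_, rfl⟩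
    have hp1 : ∀ y', p y' ∈ X'.poly (fun y'' => if φ y'' = y' then 1 else 0) := by
      intro y'
      rw [hpoly y' 1 zero_le_one]
      intro i
      rw [hp, pr_add, pr_smul]
      have := hc (i, y')
      simp only at this
      linarith
    -- small multiples
    obtain ⟨ε, hε, h6⟩ := small (fun i => pr (toR w) (d.u i))
      (fun i => -pr (∑ y', p y') (d.u i)) fun i => by
        by_cases hi : i ∈ I
        · refine Or.inr ⟨hwI _ hi, ?_⟩
          rw [pr_sum]
          have h7 : ∀ y', pr (p y') (d.u i) = -(d.e i y' : ℝ) := by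
            intro y'
            rw [hp, pr_add, pr_smul, hwI _ hi, mul_zero, add_zero]
            exact hL i hi y'
          have h8 : ∑ y', (d.e i y' : ℝ) = 0 := by exact_mod_cast d.sum_e i
          simp only [h7, Finset.sum_neg_distrib, h8]
          simp
        · exact Or.inl (hwp _ hi)
    refine ⟨ε, hε, ?_⟩
    have h7 : toR w + (-ε) • ∑ y', p y' ∈ X'.poly (fun y'' => if φ y'' = y then 0 else 0) := by
      rw [hpoly y 0 le_rfl]
      intro i
      rw [pr_add, pr_smul, zero_mul, add_zero]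
      have := h6 i
      linarith
    have h8 : ∑ y', ε • p y' ∈
        X'.poly (fun y'' => ∑ y' : d.Y, ε * if φ y'' = y' then 1 else 0) :=
      poly_sum Finset.univ (fun y' y'' => ε * if φ y'' = y' then 1 else 0) (fun y' => ε • p y')
        fun y' => MldTv.poly_smul (hp1 y') hε.le
    have h9 := MldTv.poly_add h7 h8
    rw [← Finset.smul_sum] at h9
    have h10 : toR w + (-ε) • ∑ y', p y' + ε • ∑ y', p y' = toR w := by
      rw [neg_smul, neg_add_cancel_right]
    rw [h10] at h9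
    convert h9 using 2
    funext y''
    rw [ite_self, zero_add]
    have h11 : ∑ y' : d.Y, ε * (if φ y'' = y' then (1 : ℝ) else 0) = ε := by
      rw [← Finset.mul_sum, Finset.sum_ite_eq]
      simp
    rw [h11]
    unfold CMB.sg
    simp
  · left
    refine ⟨φ.symm y, ?_⟩
    unfold CMB.sg
    rw [Equiv.apply_symm_apply, if_pos rfl]
    exact hk

end

end LSCM
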