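import Pool.Agent.LSCM.StB
import Pool.Agent.MldG.CMZ
import Pool.Agent.MldG.NRG

/-!
# The combinatorial inequality of lower semicontinuity, toric case
-/

set_option autoImplicit false

namespace LSCM

open MldGap MldGeo

noncomputable section

namespace CLZ

theorem ip_comm {n : ℕ} (w u : Fin n → ℤ) : ip w u = ip u w := by
  unfold ip
  exact Finset.sum_congr rfl fun _ _ => mul_comm _ _

theorem ip_add_sum {n k : ℕ} (w u : Fin n → ℤ) (J : Finset (Fin k)) (r : Fin k → Fin n → ℤ) :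
    ip (w + ∑ j ∈ J, r j) u = ip w u + ∑ j ∈ J, ip (r j) u := by
  unfold ip
  rw [Finset.sum_comm, ← Finset.sum_add_distrib]
  refine Finset.sum_congr rfl fun i _ => ?_
  rw [Pi.add_apply, Finset.sum_apply, add_mul, Finset.sum_mul]

/-- few of the vectors `r j` are enough to detect the vectors in a subspace -/
theorem exists_rays {n N k : ℕ} (U : Fin N → Fin n → ℤ) (r : Fin k → Fin n → ℤ)
    (h : ∀ i, ∃ j, ip (r j) (U i) ≠ 0) : ∀ (c : ℕ) (V : Submodule ℝ (Fin n → ℝ)),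
    Module.finrank ℝ V ≤ c → ∃ J : Finset (Fin k), J.card ≤ c ∧
      ∀ i, toR (U i) ∈ V → ∃ j ∈ J, ip (r j) (U i) ≠ 0 := by
  classical
  intro c
  induction c with
  | zero =>
    intro V hV
    refine ⟨∅, le_rfl, fun i hi => ?_⟩
    have h0 : V = ⊥ := Submodule.finrank_eq_zero.1 (Nat.le_zero.1 hV)
    rw [h0, Submodule.mem_bot] at hi
    obtain ⟨j, hj⟩ := h i
    exfalso
    apply hj
    have h1 : U i = 0 := by
      funext a
      have := congrFun hi a
      simpa [toR] using this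
    rw [h1]
    simp [ip]
  | succ c ih =>
    intro V hV
    by_cases h0 : ∃ i, toR (U i) ∈ V
    · obtain ⟨i, hi⟩ := h0
      obtain ⟨j, hj⟩ := h i
      set V' := V ⊓ LinearMap.ker (TVC.prL (r j)) with hV'
      have hlt : V' < V := by
        refine lt_of_le_of_ne inf_le_left fun he => hj ?_
        have h1 : toR (U i) ∈ V' := by
          rw [he]
          exact hi
        have h2 : TVC.prL (r j) (toR (U i)) = 0 := h1.2
        rw [TVC.prL_apply, BDR.pr_toR] at h2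
        rw [ip_comm]
        exact_mod_cast h2
      have h3 := Submodule.finrank_lt_finrank_of_lt hlt
      obtain ⟨J, hJ, hJ2⟩ := ih V' (by omega)
      refine ⟨insert j J, (Finset.card_insert_le _ _).trans (by omega), fun i' hi' => ?_⟩
      by_cases h4 : ip (r j) (U i') = 0
      · have h5 : TVC.prL (r j) (toR (U i')) = 0 := by
          rw [TVC.prL_apply, BDR.pr_toR, ip_comm, h4, Int.cast_zero]
        obtain ⟨j', hj', hj2⟩ := hJ2 i' ⟨hi', h5⟩
        exact ⟨j', Finset.mem_insert_of_mem hj', hj2⟩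
      · exact ⟨j, Finset.mem_insert_self _ _, h4⟩
    · exact ⟨∅, Nat.zero_le _, fun i hi => absurd ⟨i, hi⟩ h0⟩

variable {m : ℕ} {X : Germ (m + 1)} {T : Triple X} (d : MldG.Daz T)

/-- the rays of the cone: copy of the first part of `MldG.t_CMZ` -/
theorem exists_cone (hEff : T.Effective) :
    ∃ (k : ℕ) (r : Fin k → Fin (m + 1) → ℤ), (∀ j i, 0 ≤ ip (r j) (d.U i)) ∧
      (∀ j, ∑ i, d.ψ i * r j i ≤ 1) ∧ ∀ i, ∃ j, ip (r j) (d.U i) ≠ 0 := by
  classical
  obtain ⟨k0, q, hq⟩ := t_MWC d.U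
  set f : (Fin (m + 1) → ℝ) →ₗ[ℝ] ℝ := ∑ i, TVC.prL (d.U i) with hf
  have hfa : ∀ w, f w = ∑ i, pr w (d.U i) := fun w => by
    simp [hf, LinearMap.sum_apply, TVC.prL_apply]
  have hqσ : ∀ j i, 0 ≤ pr (toR (q j)) (d.U i) := fun j => (hq _).mpr
    ⟨Pi.single j 1, fun j' => by
      rw [Pi.single_apply]
      split_ifs <;> norm_num, by
      rw [Finset.sum_eq_single j]
      · simp
      · intro j' _ hj'
        simp [hj']
      · simp⟩
  have hfpos : ∀ j, q j ≠ 0 → 0 < f (toR (q j)) := by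
    intro j hj
    rw [hfa]
    refine lt_of_le_of_ne (Finset.sum_nonneg fun i _ => hqσ j i) fun h0 => hj ?_
    have h1 := (Finset.sum_eq_zero_iff_of_nonneg fun i _ => hqσ j i).mp h0.symm
    have h2 := d.span _ fun i => h1 i (Finset.mem_univ i)
    funext i
    have h3 := congrFun h2 i
    simpa [toR] using h3
  obtain ⟨k, r, hprim, hrpos, hrext, hreq⟩ := t_MNR q f hfpos
  have hσ : ∀ w : Fin (m + 1) → ℝ,
      (∀ i, 0 ≤ pr w (d.U i)) ↔ w ∈ coneOf (fun j => toR (r j)) := by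
    intro w
    rw [hreq]
    exact hq w
  have hrσ : ∀ j i, 0 ≤ ip (r j) (d.U i) := by
    intro j i
    rw [← MldG.CMZ.cast_nonneg]
    revert i
    rw [hσ]
    refine ⟨Pi.single j 1, fun j' => ?_, ?_⟩
    · rw [Pi.single_apply]
      split_ifs <;> norm_num
    · rw [Finset.sum_eq_single j]
      · simp
      · intro j' _ hj'
        simp [hj']
      · simp
  have hrne : ∀ j, r j ≠ 0 := by
    intro j h
    have h1 := hrpos j
    rw [h] at h1
    have h2 : toR (0 : Fin (m + 1) → ℤ) = 0 := by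
      funext i
      simp [toR]
    rw [h2, map_zero] at h1
    exact lt_irrefl _ h1
  have hrprim : ∀ j, ∃ u, ip (r j) u = 1 := fun j =>
    MldG.CMZ.exists_ip (r j) (hrne j) (hprim j)
  -- the coefficients
  have hcoef : ∀ j, ∃ P : Ideal X.R, T.Coeff P (1 - ∑ i, d.ψ i * r j i) := by
    intro j
    obtain ⟨Z, hZ, hZ2⟩ := MldG.t_NRG r f hrpos hrext j
    refine d.ray (r j) (hrprim j) (hrσ j) Z hZ (fun i w' hw' => ?_) (fun i => (hZ2 i).1)
    have h1 : toR w' ∈ coneOf (fun j => toR (r j)) := (hσ _).1 fun i => by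
      rw [MldG.CMZ.cast_nonneg]
      exact hw' i
    obtain ⟨c, hc, hc2⟩ := h1
    have h2 : 0 ≤ pr (toR w') (Z i) := by
      rw [hc2, BDR.pr_comb]
      refine Finset.sum_nonneg fun j' _ => mul_nonneg (hc j') ?_
      rw [BDR.pr_toR]
      by_cases h3 : j' = j
      · rw [h3, (hZ2 i).1]
        simp
      · exact_mod_cast ((hZ2 i).2 j' h3).le
    rw [BDR.pr_toR] at h2
    exact_mod_cast h2
  refine ⟨k, r, hrσ, fun j => ?_, fun i => ?_⟩
  · obtain ⟨P, hP⟩ := hcoef j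
    have := hEff P _ hP
    linarith
  · obtain ⟨w, hw⟩ := d.int
    obtain ⟨c, -, hc2⟩ := (hσ (toR w)).1 fun i => by
      rw [MldG.CMZ.cast_nonneg]
      exact (hw i).le
    by_contra hcon
    push Not at hcon
    have h1 : pr (toR w) (d.U i) = 0 := by
      rw [hc2, BDR.pr_comb]
      refine Finset.sum_eq_zero fun j _ => ?_
      rw [BDR.pr_toR, hcon j]
      simp
    rw [BDR.pr_toR] at h1
    have h2 : ip w (d.U i) = 0 := by exact_mod_cast h1
    exact absurd h2 (hw i).ne'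

theorem minz_mono (j : T.J) (w w' : Fin (m + 1) → ℤ)
    (h : ∀ k, ip w (d.z j k) ≤ ip w' (d.z j k)) : MldG.minz (d.z j) w ≤ MldG.minz (d.z j) w' := by
  unfold MldG.minz
  refine le_csInf ⟨_, ⟨⟨0, d.M_pos j⟩, rfl⟩⟩ ?_
  rintro b ⟨k, rfl⟩
  exact (csInf_le (Set.finite_range _).bddBelow ⟨k, rfl⟩).trans (Int.cast_le.2 (h k))

end CLZ

open CLZ in
/-- CLZ. -/
theorem t_CLZ : Stmt_CLZ := by
  classical
  intro m X T d hEff hLC w hw
  obtain ⟨k, r, hr, hψ, hne⟩ := exists_cone d hEff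
  obtain ⟨J, hJ, hJ2⟩ := exists_rays d.U r hne (rkI d.U {i | ip w (d.U i) = 0})
    (Submodule.span ℝ ((fun i => toR (d.U i)) '' {i | ip w (d.U i) = 0})) le_rfl
  have hpos : ∀ i, 0 < ip (w + ∑ j ∈ J, r j) (d.U i) := by
    intro i
    rw [ip_add_sum]
    have h1 : 0 ≤ ∑ j ∈ J, ip (r j) (d.U i) := Finset.sum_nonneg fun j _ => hr j i
    by_cases h0 : ip w (d.U i) = 0
    · obtain ⟨j, hj, hj2⟩ := hJ2 i (Submodule.subset_span ⟨i, h0, rfl⟩)
      have h2 : ip (r j) (d.U i) ≤ ∑ j ∈ J, ip (r j) (d.U i) :=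
        Finset.single_le_sum (f := fun j => ip (r j) (d.U i)) (fun j _ => hr j i) hj
      have h3 := lt_of_le_of_ne (hr j i) hj2.symm
      omega
    · have h2 := lt_of_le_of_ne (hw i) (Ne.symm h0)
      omega
  have hw0 : w + ∑ j ∈ J, r j ≠ 0 := by
    intro h
    obtain ⟨i⟩ := MldG.CMZ.N_pos d
    have h7 := hpos i
    rw [h] at h7
    simp [ip] at h7
  obtain ⟨v, -, hv2, hv3⟩ := MldG.CMZ.exists_val d hLC _ (fun i => (hpos i).le) hw0
  have h1 : T.mld ≤ T.disc v := by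
    refine csInf_le ⟨0, ?_⟩ ⟨v, hv3 hpos, rfl⟩
    rintro a ⟨v', h1, rfl⟩
    exact hLC v' (d.ath v' h1)
  have h2 : MldG.CMZ.DD d (w + ∑ j ∈ J, r j) ≤ DZ d w + J.card := by
    unfold MldG.CMZ.DD DZ
    have h3 : ∑ i, d.ψ i * ((w + ∑ j ∈ J, r j) i : ℤ) =
        ∑ i, d.ψ i * (w i : ℤ) + ∑ j ∈ J, ∑ i, d.ψ i * (r j i : ℤ) := by
      rw [Finset.sum_comm, ← Finset.sum_add_distrib]
      refine Finset.sum_congr rfl fun i _ => ?_
      rw [Pi.add_apply, Finset.sum_apply]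
      push_cast
      rw [mul_add, Finset.mul_sum]
    have h4 : ∑ j ∈ J, ∑ i, d.ψ i * (r j i : ℤ) ≤ (J.card : ℝ) := by
      refine (Finset.sum_le_sum fun j _ => hψ j).trans ?_
      simp
    have h5 : ∑ j, T.r j * MldG.minz (d.z j) w ≤
        ∑ j, T.r j * MldG.minz (d.z j) (w + ∑ j ∈ J, r j) := by
      refine Finset.sum_le_sum fun j _ => mul_le_mul_of_nonneg_left ?_ (T.r_nonneg j)
      refine minz_mono d j _ _ fun k' => ?_
      rw [ip_add_sum]
      have : 0 ≤ ∑ j' ∈ J, ip (r j') (d.z j k') :=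
        Finset.sum_nonneg fun j' _ => d.reg j k' (r j') (hr j')
      omega
    rw [h3]
    linarith
  have h6 : (J.card : ℝ) ≤ (rkI d.U {i | ip w (d.U i) = 0} : ℕ) := by exact_mod_cast hJ
  linarith

end

end LSCM
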