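import Pool.Agent.LSCM.StB

/-!
# The triple of the combinatorial data
-/

set_option autoImplicit false

namespace LSCM

open MldTv MldGap MldGeo CMB

theorem t_CM2 (hBDR : MldGeo.Stmt_BDR) (hINT : MldGeo.Stmt_INT) : Stmt_CM2 := by
  classical
  intro m X T d hEff hLC
  have hS : T.CoeffIn Set.univ := ⟨fun _ _ _ _ => trivial, fun _ _ => trivial⟩
  obtain ⟨X', φ, B, hdeg, hN, hpoly, hψ, hα, hbH, hbV⟩ := hBDR d hEff hLC Set.univ hS
  have hmon : ∀ j k, X'.IsMon (lin (d.z j k), fun y => (d.c j k (φ y) : ℝ)) := by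
    intro j k
    refine ⟨?_, fun y i => ?_, fun j' _ => ?_⟩
    · have h1 : ∑ y, (X'.deg y : ℝ) * (d.c j k (φ y) : ℝ) = ∑ y, (d.c j k y : ℝ) := by
        rw [← Equiv.sum_comp φ fun y => (d.c j k y : ℝ)]
        exact Finset.sum_congr rfl fun y _ => by rw [hdeg, Nat.cast_one, one_mul]
      refine h1.trans ?_
      exact_mod_cast d.sum_c j k
    · obtain ⟨hmu0, hmu⟩ := (X'.mu_least y i).1
      obtain ⟨w, hw⟩ := (hN _).1 hmu
      have h1 := (hpoly (φ y) 1 zero_le_one _).1 (vert_mem d φ y i)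
      have h2 : ∀ i', 0 ≤ (X'.mu y i : ℤ) * d.e i' (φ y) + ip w (d.u i') := by
        intro i'
        rw [← cast_nonneg, ← hw]
        have h3 : pr ((X'.mu y i : ℝ) • X'.vert y i) (d.u i') =
            X'.mu y i * pr (X'.vert y i) (d.u i') := by
          unfold pr
          rw [Finset.mul_sum]
          refine Finset.sum_congr rfl fun j _ => ?_
          rw [Pi.smul_apply, smul_eq_mul]
          ring
        rw [h3]
        have h4 := mul_nonneg (Nat.cast_nonneg (α := ℝ) (X'.mu y i)) (h1 i')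
        linarith
      have h3 := d.reg j k w (X'.mu y i) (φ y) (Int.natCast_nonneg _) h2
      obtain ⟨a, ha⟩ := Int.eq_ofNat_of_zero_le h3
      refine ⟨a, ?_⟩
      show lin (d.z j k) ((X'.mu y i : ℝ) • X'.vert y i) + (d.c j k (φ y) : ℝ) * X'.mu y i = a
      rw [hw, lin_apply, pr_toR]
      have h5 : (((X'.mu y i : ℤ) * d.c j k (φ y) + ip w (d.z j k) : ℤ) : ℝ) = ((a : ℤ) : ℝ) := by
        rw [ha]
      push_cast at h5
      rw [← h5]
      ring
    · obtain ⟨w, hw⟩ := (hN _).1 (X'.ray_mem j')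
      obtain ⟨y⟩ := Y_ne d
      have h1 := (hpoly y 0 le_rfl _).1 (ray_mem d φ j' y)
      have h2 : ∀ i', 0 ≤ (0 : ℤ) * d.e i' y + ip w (d.u i') := by
        intro i'
        have h3 := cast_nonneg d w 0 y i'
        push_cast at h3
        rw [← h3, ← hw]
        exact h1 i'
      have h3 := d.reg j k w 0 y le_rfl h2
      obtain ⟨a, ha⟩ := Int.eq_ofNat_of_zero_le h3
      refine ⟨a, ?_⟩
      show lin (d.z j k) (X'.ray j') = a
      rw [hw, lin_apply, pr_toR]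
      rw [zero_mul, zero_add] at ha
      have h5 : ((ip w (d.z j k) : ℤ) : ℝ) = ((a : ℤ) : ℝ) := by
        rw [ha]
      exact_mod_cast h5
  -- valuations
  have hval : ∀ v l, v ∈ X'.N → (Finset.univ.filter fun y => l y ≠ 0).card ≤ 1 →
      ∃ (w : Fin m → ℤ) (k : ℕ) (y : d.Y), v = toR w ∧ l = sg d φ k y := by
    intro v l hv hl
    obtain ⟨w, hw⟩ := (hN v).1 hv
    obtain ⟨k, y, hk⟩ := exists_sg d φ l hl
    exact ⟨w, k, y, hw, hk⟩
  have hLC' : (tri d φ B hmon).LC := by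
    intro v l ⟨hv, hl, hvl⟩
    obtain ⟨w, k, y, rfl, rfl⟩ := hval v l hv hl
    rw [ldisc_sg d φ B hψ hα hmon]
    refine DD_nonneg d hLC w k y (Int.natCast_nonneg k) fun i => ?_
    rw [← cast_nonneg]
    exact (mem_poly d φ hpoly _ k y).1 hvl i
  have hmld : (tri d φ B hmon).mld = T.mld := by
    unfold MldTv.Triple.mld MldGeo.Triple.mld
    obtain ⟨C, hC⟩ : ∃ C : Set ℝ, C = {a : ℝ | ∃ v l, X'.Central v l ∧
      (tri d φ B hmon).ldisc v l = a} := ⟨_, rfl⟩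
    obtain ⟨G, hG⟩ : ∃ G : Set ℝ, G = {a : ℝ | ∃ v, X.At v ∧ T.disc v = a} := ⟨_, rfl⟩
    rw [← hC, ← hG]
    have hC0 : ∀ a ∈ C, 0 ≤ a := by
      rw [hC]
      rintro a ⟨v, l, ⟨h1, h2, h3⟩, rfl⟩
      exact hLC' v l ⟨h1, h2, interior_subset h3⟩
    have hG0 : ∀ a ∈ G, 0 ≤ a := by
      rw [hG]
      rintro a ⟨v, h1, rfl⟩
      exact hLC v (d.ath v h1)
    have hCG : ∀ a ∈ C, ∃ b ∈ G, b ≤ a := by
      rw [hC]
      rintro a ⟨v, l, ⟨h1, h2, h3⟩, rfl⟩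
      obtain ⟨w, k, y, rfl, rfl⟩ := hval v l h1 h2
      have h4 : ∀ i, 0 < (k : ℤ) * d.e i y + ip w (d.u i) := by
        intro i
        rw [← cast_pos]
        exact (mem_int d φ hpoly hINT _ k y).1 h3 i
      have h5 : ¬ (w = 0 ∧ (k : ℤ) = 0) := by
        rintro ⟨rfl, h6⟩
        obtain ⟨i⟩ := N_pos d
        have h7 := h4 i
        rw [h6] at h7
        simp [ip] at h7
      obtain ⟨v, hv1, hv2, hv3⟩ := exists_val d hLC w k y (Int.natCast_nonneg k)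
        (fun i => (h4 i).le) h5
      rw [ldisc_sg d φ B hψ hα hmon, hG]
      exact ⟨_, ⟨v, hv3 h4, rfl⟩, hv2⟩
    have hGC : ∀ a ∈ G, ∃ b ∈ C, b ≤ a := by
      rw [hG]
      rintro a ⟨v, h1, rfl⟩
      obtain ⟨w, l, y, hl, h2, h3, h4⟩ := d.low v (d.ath v h1)
      obtain ⟨k, rfl⟩ := Int.eq_ofNat_of_zero_le hl
      rw [hC]
      refine ⟨_, ⟨toR w, sg d φ k y, ⟨(hN _).2 ⟨w, rfl⟩, card_sg d φ k y, ?_⟩, rfl⟩, ?_⟩
      · refine (mem_int d φ hpoly hINT _ k y).2 fun i => ?_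
        rw [cast_pos]
        exact h3 h1 i
      · rw [ldisc_sg d φ B hψ hα hmon]
        exact h4
    have hCne : C.Nonempty := by
      obtain ⟨w, hw⟩ := d.int
      obtain ⟨y⟩ := Y_ne d
      rw [hC]
      refine ⟨_, toR w, sg d φ 0 y, ⟨(hN _).2 ⟨w, rfl⟩, card_sg d φ 0 y, ?_⟩, rfl⟩
      refine (mem_int d φ hpoly hINT _ 0 y).2 fun i => ?_
      rw [cast_pos, Nat.cast_zero, zero_mul, zero_add]
      exact hw i
    obtain ⟨a₀, ha₀⟩ := hCne
    obtain ⟨b₀, hb₀, -⟩ := hCG a₀ ha₀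
    apply le_antisymm
    · refine le_csInf ⟨b₀, hb₀⟩ fun a ha => ?_
      obtain ⟨b, hb, hba⟩ := hGC a ha
      exact (csInf_le ⟨0, fun x hx => hC0 x hx⟩ hb).trans hba
    · refine le_csInf ⟨a₀, ha₀⟩ fun a ha => ?_
      obtain ⟨b, hb, hba⟩ := hCG a ha
      exact (csInf_le ⟨0, fun x hx => hG0 x hx⟩ hb).trans hba
  exact ⟨X', φ, tri d φ B hmon, hdeg, hN, hpoly, hLC', hmld, ldisc_sg d φ B hψ hα hmon⟩

end LSCM
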