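import Pool.Agent.LSCM.StD
import Pool.Agent.MldG.KUV

/-!
# CVD: valuations through the point on covers, dimensions of their centres
-/

set_option autoImplicit false

namespace LSCM

open MldGap MldGeo MldG MvPolynomial

noncomputable section

namespace M_CVD

open MldG.KUV MldGeo.HT1

variable {n : ℕ} {X : Germ n} {p : ℕ} {g : X.R}

theorem nonneg (k : RootCover X p g) (v : DivVal n X.K) (v' : DivVal n k.X'.K)
    (hv : ∀ a : X.R, 0 ≤ v.ord a)
    (hord : ∀ a : X.K, v'.ord (algebraMap X.K k.X'.K a) = v.ord a) (hz0 : v'.ord k.z = 0)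
    (a' : k.X'.R) : 0 ≤ v'.ord a' := by
  have hgez : v'.Ge 0 k.z := Or.inr hz0.ge
  have hR : ∀ a : X.R, v'.Ge 0 (algebraMap X.K k.X'.K a) := by
    intro a
    right
    rw [hord]
    exact hv a
  obtain ⟨a, ha⟩ := (k.mem a').1 a'.2
  have h1 : v'.Ge 0 (a' : k.X'.K) := by
    rw [ha]
    exact DivVal.Ge.sum _ _ fun i _ => (hR (a i)).mul_left (hgez.pow0 _)
  rcases h1 with h1 | h1
  · rw [h1, v'.ord_zero]
  · exact h1

/-- the root in the ring of the cover -/
def zz (k : RootCover X p g) (hp : p.Prime) : k.X'.R := ⟨k.z, z_mem k hp⟩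

/-- the element with coefficients `a` -/
def el (k : RootCover X p g) (hp : p.Prime) (a : Fin p → X.R) : k.X'.R :=
  ∑ i : Fin p, incl k hp (a i) * zz k hp ^ (i : ℕ)

theorem el_val (k : RootCover X p g) (hp : p.Prime) (a : Fin p → X.R) :
    ((el k hp a : k.X'.R) : k.X'.K) = ∑ i : Fin p, algebraMap X.K k.X'.K (a i) * k.z ^ (i : ℕ) := by
  unfold el
  rw [AddSubmonoidClass.coe_finsetSum]
  rfl

theorem exists_root (k : RootCover X p g) (hp : p.Prime) (Q : Ideal k.X'.R) [hQ : Q.IsPrime]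
    (hQm : Q.comap (incl k hp).toRingHom = X.m) :
    ∃ ζ : ℂ, ζ ^ p = 1 ∧ zz k hp - algebraMap ℂ k.X'.R (ζ * k.c) ∈ Q := by
  have : NeZero p := ⟨hp.ne_zero⟩
  have h1 : IsPrimitiveRoot (algebraMap ℂ k.X'.R
      (Complex.exp (2 * Real.pi * Complex.I / p))) p :=
    (Complex.isPrimitiveRoot_exp p hp.ne_zero).map_of_injective (algebraMap ℂ k.X'.R).injective
  have h2 := h1.pow_sub_pow_eq_prod_sub_mul (x := zz k hp) (y := algebraMap ℂ k.X'.R k.c) hp.pos
  have h3 : zz k hp ^ p - algebraMap ℂ k.X'.R k.c ^ p ∈ Q := by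
    have h4 : g - algebraMap ℂ X.R (k.c ^ p) ∈ Q.comap (incl k hp).toRingHom := by
      rw [hQm]
      exact k.c_pow
    rw [Ideal.mem_comap] at h4
    have h5 : (incl k hp).toRingHom (g - algebraMap ℂ X.R (k.c ^ p)) =
        zz k hp ^ p - algebraMap ℂ k.X'.R k.c ^ p := by
      have h6 : (incl k hp).toRingHom g = zz k hp ^ p := Subtype.ext k.pow.symm
      rw [map_sub, h6, ← map_pow]
      congr 1
      exact (incl k hp).commutes _
    rwa [h5] at h4
  rw [h2, Ideal.IsPrime.prod_mem_iff] at h3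
  obtain ⟨y, hy, hyQ⟩ := h3
  rw [Polynomial.mem_nthRootsFinset hp.pos] at hy
  have hy' : (y : k.X'.K) ^ p = 1 := congrArg (fun b : k.X'.R => (b : k.X'.K)) hy
  obtain ⟨ζ, hζ, hζ2⟩ := root_of_unity hp.pos hy'
  refine ⟨ζ, hζ, ?_⟩
  have h7 : algebraMap ℂ k.X'.R ζ = y := Subtype.ext hζ2
  rw [map_mul, h7]
  exact hyQ

theorem el_mem (k : RootCover X p g) (hp : p.Prime) (Q : Ideal k.X'.R)
    (hQm : Q.comap (incl k hp).toRingHom = X.m) (c : ℂ)
    (hc : zz k hp - algebraMap ℂ k.X'.R c ∈ Q) (a : Fin p → X.R) (ha : el k hp a ∈ Q) :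
    ∑ i : Fin p, algebraMap ℂ X.R (c ^ (i : ℕ)) * a i ∈ X.m := by
  rw [← hQm, Ideal.mem_comap]
  have h1 : (incl k hp).toRingHom (∑ i : Fin p, algebraMap ℂ X.R (c ^ (i : ℕ)) * a i) =
      el k hp a - ∑ i : Fin p, incl k hp (a i) *
        (zz k hp ^ (i : ℕ) - algebraMap ℂ k.X'.R c ^ (i : ℕ)) := by
    unfold el
    rw [map_sum, ← Finset.sum_sub_distrib]
    refine Finset.sum_congr rfl fun i _ => ?_
    have h2 : (incl k hp).toRingHom (algebraMap ℂ X.R (c ^ (i : ℕ))) =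
        algebraMap ℂ k.X'.R c ^ (i : ℕ) := by
      rw [← map_pow]
      exact (incl k hp).commutes _
    rw [map_mul, h2]
    have h3 : (incl k hp).toRingHom (a i) = incl k hp (a i) := rfl
    rw [h3]
    ring
  rw [h1]
  refine Q.sub_mem ha (Q.sum_mem fun i _ => Q.mul_mem_left _ ?_)
  obtain ⟨q, hq⟩ := sub_dvd_pow_sub_pow (zz k hp) (algebraMap ℂ k.X'.R c) (i : ℕ)
  rw [hq]
  exact Q.mul_mem_right _ hc

theorem dim (k : RootCover X p g) (hp : p.Prime) (v : DivVal n X.K) (v' : DivVal n k.X'.K)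
    (hord : ∀ a : X.K, v'.ord (algebraMap X.K k.X'.K a) = v.ord a)
    (h0 : ∀ a' : k.X'.R, 0 ≤ v'.ord a') (d : ℕ) (hd : DimLE X v d) : DimLE k.X' v' d := by
  intro r hr
  by_contra hcon
  push Not at hcon
  let u : Fin (d + 1) → k.X'.R := fun i => ⟨r i, hr i⟩
  have hval : ∀ q : MvPolynomial (Fin (d + 1)) ℂ,
      ((aeval u q : k.X'.R) : k.X'.K) = aeval r q := by
    intro q
    exact MvPolynomial.comp_aeval_apply (R := ℂ) (f := u) k.X'.R.val q
  have : (centre k.X' v' h0).IsPrime := centre_prime k.X' v' h0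
  obtain ⟨w, hw⟩ := exists_indep (incl k hp) (incl_integral k hp) (centre k.X' v' h0) u (by
    intro q hq h1
    rw [mem_centre] at h1
    obtain ⟨h2, h3⟩ := hcon q hq
    rcases h1 with h1 | h1
    · apply h2
      rw [← hval, h1]
      rfl
    · rw [hval] at h1
      exact absurd h1 (not_lt.2 h3))
  obtain ⟨q, hq, hq2⟩ := hd (fun i => (w i : X.K)) fun i => (w i).2
  apply hw q hq
  rw [mem_centre]
  have hval' : ((aeval w q : X.R) : X.K) = aeval (fun i => (w i : X.K)) q :=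
    MvPolynomial.comp_aeval_apply (R := ℂ) (f := w) X.R.val q
  rcases hq2 with h1 | h1
  · left
    have h2 : (aeval w q : X.R) = 0 := Subtype.ext (by rw [hval', h1]; rfl)
    rw [h2, map_zero]
  · right
    rw [incl_val, hord, hval']
    exact h1

end M_CVD

open M_CVD MldG.KUV MldGeo.HT1 in
theorem t_CVD : Stmt_CVD := by
  intro n X p g hn hp hg k v hv
  have hz : k.z ≠ 0 := z_ne k hp hg
  obtain ⟨v0, e, he⟩ := t_EXT (L := k.X'.K) v hn
  have he1 : e = 1 := e_one k hp hg v0 v e he (ord_g hg v hv.1)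
  rw [he1] at he
  have hord : ∀ a : X.K, v0.ord (algebraMap X.K k.X'.K a) = v.ord a := by
    intro a
    rw [he.2]
    simp
  have hz0 : v0.ord k.z = 0 := ord_z k hp v0 (by rw [hord, ord_g hg v hv.1])
  have h0 : ∀ a' : k.X'.R, 0 ≤ v0.ord a' := nonneg k v v0 hv.1 hord hz0
  -- a maximal ideal over the point
  have hprime : (centre k.X' v0 h0).IsPrime := centre_prime k.X' v0 h0
  have hle : (centre k.X' v0 h0).comap (incl k hp).toRingHom ≤ X.m := by
    intro a ha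
    rw [Ideal.mem_comap, mem_centre] at ha
    by_contra hcon
    have h1 := hv.2 a hcon
    rcases ha with ha | ha
    · have h2 : (a : X.K) = 0 := by
        have h3 : algebraMap X.K k.X'.K a = 0 := congrArg (fun b : k.X'.R => (b : k.X'.K)) ha
        exact (map_eq_zero _).1 h3
      have h3 : a = 0 := Subtype.ext h2
      exact hcon (by rw [h3]; exact X.m.zero_mem)
    · have h2 : 0 < v0.ord (algebraMap X.K k.X'.K a) := ha
      rw [hord, h1] at h2
      exact lt_irrefl _ h2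
  obtain ⟨Q, hQ1, hQ2, hQ3⟩ : ∃ Q ≥ centre k.X' v0 h0, Q.IsPrime ∧
      Q.comap (incl k hp).toRingHom = X.m := by
    let := (incl k hp).toRingHom.toAlgebra
    have : Algebra.IsIntegral X.R k.X'.R := ⟨incl_integral k hp⟩
    have hmp : X.m.IsPrime := X.max.isPrime
    exact Ideal.exists_ideal_over_prime_of_isIntegral X.m (centre k.X' v0 h0) hle
  obtain ⟨ζ, hζ, hζQ⟩ := exists_root k hp Q hQ3
  have hζ0 : ζ ≠ 0 := by
    rintro rfl
    rw [zero_pow hp.ne_zero] at hζ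
    exact zero_ne_one hζ
  obtain ⟨σ, hσ⟩ := k.conj ζ⁻¹ (by rw [inv_pow, hζ, inv_one])
  have hv1 : ∀ a, (comap (σ.restrictScalars ℂ) v0).ord a = v0.ord (σ a) := fun a => rfl
  set v' : DivVal n k.X'.K := comap (σ.restrictScalars ℂ) v0 with hv'def
  have hord' : ∀ a : X.K, v'.ord (algebraMap X.K k.X'.K a) = v.ord a := by
    intro a
    rw [hv1, AlgEquiv.commutes, hord]
  have hz0' : v'.ord k.z = 0 := ord_z k hp v' (by rw [hord', ord_g hg v hv.1])
  have h0' : ∀ a' : k.X'.R, 0 ≤ v'.ord a' := nonneg k v v' hv.1 hord' hz0'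
  refine ⟨v', ⟨one_pos, fun a => by rw [hord']; simp⟩, ⟨h0', ?_⟩, fun d hd =>
    dim k hp v v' hord' h0' d hd⟩
  intro a' ha'
  by_contra hcon
  have hpos : 0 < v'.ord (a' : k.X'.K) := lt_of_le_of_ne (h0' a') (Ne.symm hcon)
  obtain ⟨a, ha⟩ := (k.mem a').1 a'.2
  apply ha'
  have hsub : a' = ⟨∑ i : Fin p, algebraMap X.K k.X'.K (a i) * k.z ^ (i : ℕ),
      by rw [← ha]; exact a'.2⟩ := Subtype.ext ha
  rw [hsub, k.pt]
  have h1 := el_mem k hp Q hQ3 (ζ * k.c) hζQ
    (fun i => algebraMap ℂ X.R (ζ⁻¹ ^ (i : ℕ)) * a i) (by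
      apply hQ1
      rw [mem_centre]
      right
      rw [hv1, ha, map_sum] at hpos
      rw [el_val]
      have h2 : ∑ i : Fin p, algebraMap X.K k.X'.K
          ((algebraMap ℂ X.R (ζ⁻¹ ^ (i : ℕ)) * a i : X.R) : X.K) * k.z ^ (i : ℕ) =
          ∑ i : Fin p, σ (algebraMap X.K k.X'.K (a i) * k.z ^ (i : ℕ)) := by
        refine Finset.sum_congr rfl fun i _ => ?_
        have h5 : ((algebraMap ℂ X.R (ζ⁻¹ ^ (i : ℕ)) * a i : X.R) : X.K) =
            algebraMap ℂ X.K (ζ⁻¹ ^ (i : ℕ)) * (a i : X.K) := rfl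
        have h6 : σ (algebraMap X.K k.X'.K (a i) * k.z ^ (i : ℕ)) =
            algebraMap X.K k.X'.K (a i) *
              (algebraMap ℂ k.X'.K (ζ⁻¹ ^ (i : ℕ)) * k.z ^ (i : ℕ)) := by
          rw [map_mul, AlgEquiv.commutes, map_pow, hσ, mul_pow, map_pow]
        rw [h5, h6, map_mul, ← IsScalarTower.algebraMap_apply ℂ X.K k.X'.K]
        ring
      rw [h2]
      exact hpos)
  have h2 : ∑ i : Fin p, algebraMap ℂ X.R ((ζ * k.c) ^ (i : ℕ)) *
      (algebraMap ℂ X.R (ζ⁻¹ ^ (i : ℕ)) * a i) =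
      ∑ i : Fin p, algebraMap ℂ X.R (k.c ^ (i : ℕ)) * a i := by
    refine Finset.sum_congr rfl fun i _ => ?_
    rw [← mul_assoc, ← map_mul, ← mul_pow]
    congr 3
    field_simp
  rw [h2] at h1
  exact h1

end

end LSCM
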