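import Pool.Agent.LSCM.StN
import Pool.Agent.LSCM.CVD

/-!
# CVN: covers and valuations whose centres meet a neighbourhood
-/

set_option autoImplicit false

namespace LSCM

open MldGap MldGeo MldG MvPolynomial

noncomputable section

namespace M_CVN

open MldG.KUV MldGeo.HT1 M_CVD

variable {n : ℕ} {X : Germ n} {p : ℕ} {g : X.R}

/-- orthogonality of the characters -/
theorem geom {ω : ℂ} (hω : IsPrimitiveRoot ω p) {i j : ℕ} (hi : i < p) (hj : j < p) :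
    ∑ t ∈ Finset.range p, ((ω ^ t) ^ i)⁻¹ * (ω ^ t) ^ j = if j = i then (p : ℂ) else 0 := by
  have hω0 : ω ≠ 0 := hω.ne_zero (by omega)
  have h1 : ∀ t, ((ω ^ t) ^ i)⁻¹ * (ω ^ t) ^ j = (ω ^ j * (ω ^ i)⁻¹) ^ t := by
    intro t
    rw [mul_pow, inv_pow, ← pow_mul, ← pow_mul, ← pow_mul, ← pow_mul, mul_comm t i, mul_comm t j,
      mul_comm]
  simp only [h1]
  split_ifs with h
  · subst h
    rw [mul_inv_cancel₀ (pow_ne_zero _ hω0)]
    simp
  · have h2 : ω ^ j * (ω ^ i)⁻¹ ≠ 1 := by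
      intro h3
      have h4 : ω ^ j = ω ^ i := by
        rwa [mul_inv_eq_one₀ (pow_ne_zero _ hω0)] at h3
      exact h (hω.pow_inj hj hi h4)
    have h3 : (ω ^ j * (ω ^ i)⁻¹) ^ p = 1 := by
      rw [mul_pow, inv_pow, ← pow_mul, ← pow_mul, mul_comm j, mul_comm i, pow_mul, pow_mul,
        hω.pow_eq_one, one_pow, one_pow, inv_one, mul_one]
    have h4 := mul_geom_sum (ω ^ j * (ω ^ i)⁻¹) p
    rw [h3, sub_self] at h4
    exact (mul_eq_zero.1 h4).resolve_left (sub_ne_zero.2 h2)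

/-- a coefficient is a combination of the conjugates -/
theorem coef (k : RootCover X p g) {ω : ℂ} (hω : IsPrimitiveRoot ω p)
    (σ : ℕ → (k.X'.K ≃ₐ[X.K] k.X'.K)) (hσ : ∀ t, σ t k.z = algebraMap ℂ k.X'.K (ω ^ t) * k.z)
    (a : Fin p → X.R) (i : Fin p) :
    ∑ t ∈ Finset.range p, algebraMap ℂ k.X'.K (((ω ^ t) ^ (i : ℕ))⁻¹) *
        σ t (∑ j : Fin p, algebraMap X.K k.X'.K (a j) * k.z ^ (j : ℕ)) =
      algebraMap ℂ k.X'.K p * (algebraMap X.K k.X'.K (a i) * k.z ^ (i : ℕ)) := by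
  have h1 : ∀ t, algebraMap ℂ k.X'.K (((ω ^ t) ^ (i : ℕ))⁻¹) *
        σ t (∑ j : Fin p, algebraMap X.K k.X'.K (a j) * k.z ^ (j : ℕ)) =
      ∑ j : Fin p, algebraMap ℂ k.X'.K (((ω ^ t) ^ (i : ℕ))⁻¹ * (ω ^ t) ^ (j : ℕ)) *
        (algebraMap X.K k.X'.K (a j) * k.z ^ (j : ℕ)) := by
    intro t
    rw [map_sum, Finset.mul_sum]
    refine Finset.sum_congr rfl fun j _ => ?_
    rw [map_mul, AlgEquiv.commutes, map_pow, hσ, mul_pow, map_mul, ← map_pow]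
    ring
  simp only [h1]
  rw [Finset.sum_comm]
  have h2 : ∀ j : Fin p, ∑ t ∈ Finset.range p,
      algebraMap ℂ k.X'.K (((ω ^ t) ^ (i : ℕ))⁻¹ * (ω ^ t) ^ (j : ℕ)) *
        (algebraMap X.K k.X'.K (a j) * k.z ^ (j : ℕ)) =
      if j = i then algebraMap ℂ k.X'.K p * (algebraMap X.K k.X'.K (a i) * k.z ^ (i : ℕ))
        else 0 := by
    intro j
    rw [← Finset.sum_mul, ← map_sum, geom hω i.2 j.2]
    by_cases h : j = i
    · subst h
      rw [if_pos rfl, if_pos rfl]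
    · rw [if_neg h, if_neg (fun h' => h (Fin.ext h')), map_zero, zero_mul]
  simp only [h2]
  rw [Finset.sum_ite_eq' Finset.univ i, if_pos (Finset.mem_univ i)]

end M_CVN

open M_CVN M_CVD MldG.KUV MldGeo.HT1 in
theorem t_CVN : Stmt_CVN := by
  intro n X p g hn hp hg k f' hf'
  have hz : k.z ≠ 0 := z_ne k hp hg
  obtain ⟨a, ha⟩ := (k.mem f').1 f'.2
  have hsub : f' = ⟨∑ i : Fin p, algebraMap X.K k.X'.K (a i) * k.z ^ (i : ℕ),
      by rw [← ha]; exact f'.2⟩ := Subtype.ext ha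
  obtain ⟨i, hi⟩ : ∃ i, a i ∉ X.m := by
    by_contra hcon
    push Not at hcon
    apply hf'
    rw [hsub, k.pt]
    exact X.m.sum_mem fun i _ => X.m.mul_mem_left _ (hcon i)
  have hai : (a i : X.K) ≠ 0 := fun h0 => hi (by
    have : a i = 0 := Subtype.ext h0
    rw [this]; exact X.m.zero_mem)
  refine ⟨a i, hi, fun v hv => ?_⟩
  obtain ⟨v0, e, he⟩ := t_EXT (L := k.X'.K) v hn
  have he1 : e = 1 := e_one k hp hg v0 v e he (ord_g hg v hv.1)
  rw [he1] at he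
  have hord : ∀ a : X.K, v0.ord (algebraMap X.K k.X'.K a) = v.ord a := by
    intro a
    rw [he.2]
    simp
  have hz0 : v0.ord k.z = 0 := ord_z k hp v0 (by rw [hord, ord_g hg v hv.1])
  obtain ⟨ω, hω⟩ : ∃ ω : ℂ, IsPrimitiveRoot ω p :=
    ⟨_, Complex.isPrimitiveRoot_exp p hp.ne_zero⟩
  have hconj : ∀ t : ℕ, ∃ σ : k.X'.K ≃ₐ[X.K] k.X'.K,
      σ k.z = algebraMap ℂ k.X'.K (ω ^ t) * k.z := fun t =>
    k.conj (ω ^ t) (by rw [← pow_mul, mul_comm, pow_mul, hω.pow_eq_one, one_pow])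
  choose σ hσ using hconj
  have hcoef := coef k hω σ hσ a i
  rw [← ha] at hcoef
  -- some conjugate has order zero
  obtain ⟨t, ht⟩ : ∃ t, ¬ v0.Ge 1 (σ t f') := by
    by_contra hcon
    push Not at hcon
    have h1 : v0.Ge 1 (algebraMap ℂ k.X'.K p * (algebraMap X.K k.X'.K (a i) * k.z ^ (i : ℕ))) := by
      rw [← hcoef]
      exact DivVal.Ge.sum _ _ fun t _ => (hcon t).const_mul _
    have hp0 : algebraMap ℂ k.X'.K (p : ℂ) ≠ 0 := by
      rw [Ne, map_eq_zero]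
      exact_mod_cast hp.ne_zero
    have ha0 : algebraMap X.K k.X'.K (a i) ≠ 0 := by
      rw [Ne, map_eq_zero]
      exact hai
    have h2 := h1.le (mul_ne_zero hp0 (mul_ne_zero ha0 (pow_ne_zero _ hz)))
    rw [v0.ord_mul _ _ hp0 (mul_ne_zero ha0 (pow_ne_zero _ hz)), v0.ord_const,
      v0.ord_mul _ _ ha0 (pow_ne_zero _ hz), hord, hv.2] at h2
    have h3 : v0.ord (k.z ^ (i : ℕ)) = 0 := by
      rw [DivVal.ord_pow, hz0, mul_zero]
    rw [h3] at h2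
    norm_num at h2
  have hv1 : ∀ a, (comap ((σ t).restrictScalars ℂ) v0).ord a = v0.ord (σ t a) := fun a => rfl
  obtain ⟨v', hv'⟩ : ∃ v' : DivVal n k.X'.K, ∀ a, v'.ord a = v0.ord (σ t a) := ⟨_, hv1⟩
  have hord' : ∀ a : X.K, v'.ord (algebraMap X.K k.X'.K a) = v.ord a := by
    intro a
    rw [hv', AlgEquiv.commutes, hord]
  have hz0' : v'.ord k.z = 0 := ord_z k hp v' (by rw [hord', ord_g hg v hv.1])
  have h0' : ∀ a' : k.X'.R, 0 ≤ v'.ord a' := nonneg k v v' hv.1 hord' hz0'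
  refine ⟨v', ⟨one_pos, fun a => by rw [hord']; simp⟩, ⟨h0', ?_⟩, fun d hd =>
    dim k hp v v' hord' h0' d hd⟩
  have h1 := h0' f'
  rw [hv'] at h1 ⊢
  by_contra hcon
  apply ht
  refine DivVal.Ge.of_le ?_
  omega

end

end LSCM
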