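import Pool.Agent.LSCM.StA

/-!
# The log Calabi-Yau case (LSC, module CY)
-/

set_option autoImplicit false

namespace LSCM

open MldTv MldGap Finset

namespace M_CY

variable {m c : ℕ} {X : TVar m c}

/-- the vector added -/
noncomputable def add (y₀ : X.Y) (x : X.R → ℕ) (z : X.I y₀ → ℕ) : Amb X :=
  ∑ j, (x j : ℝ) • ((X.ray j, fun _ => 0) : Amb X) +
    ∑ i, (z i : ℝ) • gen (Sum.inl ⟨y₀, i⟩ : Gen X)

theorem ordE_le {A : Set (Mon X)} (hA : ∀ f ∈ A, X.IsMon f) (hne : A.Nonempty) {w w' : Amb X}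
    (hw : inC w) (h : ∀ f ∈ A, evE f w ≤ evE f w') : ordE A w ≤ ordE A w' := by
  apply le_csInf (hne.image _)
  rintro _ ⟨f, hf, rfl⟩
  refine le_trans ?_ (h f hf)
  refine csInf_le ⟨0, ?_⟩ ⟨f, hf, rfl⟩
  rintro _ ⟨f', hf', rfl⟩
  exact evE_nonneg (hA f' hf') hw

theorem evE_add {f : Mon X} (hf : X.IsMon f) (y₀ : X.Y) (x : X.R → ℕ) (z : X.I y₀ → ℕ) :
    0 ≤ evE f (add y₀ x z) := by
  unfold add
  rw [map_add, map_sum, map_sum]
  refine add_nonneg (sum_nonneg fun j _ => ?_) (sum_nonneg fun i _ => ?_)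
  · rw [map_smul, smul_eq_mul]
    exact mul_nonneg (Nat.cast_nonneg _) (evE_nonneg hf (inC_ray j))
  · rw [map_smul, smul_eq_mul]
    obtain ⟨a, ha⟩ := evE_gen hf (Sum.inl ⟨y₀, i⟩ : Gen X)
    rw [ha]
    exact mul_nonneg (Nat.cast_nonneg _) (Nat.cast_nonneg _)

theorem PE_ray (B : Bdry X) (j : X.R) : PE B ((X.ray j, fun _ => 0) : Amb X) = B.ψ (X.ray j) := by
  rw [PE_apply]
  simp

theorem psi_ray_le (B : Bdry X)
    (hp : ∀ p : ∀ y, X.I y, B.ψ (∑ y, (X.deg y : ℝ) • X.vert y (p y)) ≤ 0) (j : X.R) :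
    B.ψ (X.ray j) ≤ 1 := by
  by_cases hj : X.Contracted j
  · obtain ⟨p, t, ht, h1⟩ := hj
    have h2 := hp p
    rw [h1, map_smul, smul_eq_mul] at h2
    have h3 : B.ψ (X.ray j) ≤ 0 := nonpos_of_mul_nonpos_right h2 ht
    linarith
  · rw [B.ψ_ray j hj]
    linarith [B.bH_nonneg j]

theorem PE_add (B : Bdry X)
    (hp : ∀ p : ∀ y, X.I y, B.ψ (∑ y, (X.deg y : ℝ) • X.vert y (p y)) ≤ 0)
    (y₀ : X.Y) (x : X.R → ℕ) (z : X.I y₀ → ℕ) :
    PE B (add y₀ x z) ≤ ((∑ j, x j + ∑ i, z i : ℕ) : ℝ) := by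
  unfold add
  rw [map_add, map_sum, map_sum]
  push_cast
  refine add_le_add (sum_le_sum fun j _ => ?_) (sum_le_sum fun i _ => ?_)
  · rw [map_smul, smul_eq_mul, PE_ray]
    exact mul_le_of_le_one_right (Nat.cast_nonneg _) (psi_ray_le B hp j)
  · rw [map_smul, smul_eq_mul, PE_gen]
    refine mul_le_of_le_one_right (Nat.cast_nonneg _) ?_
    linarith [bG_nonneg B (Sum.inl ⟨y₀, i⟩ : Gen X)]

theorem ldisc_add (T : Triple X)
    (hp : ∀ p : ∀ y, X.I y, T.ψ (∑ y, (X.deg y : ℝ) • X.vert y (p y)) ≤ 0)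
    (y₀ : X.Y) (x : X.R → ℕ) (z : X.I y₀ → ℕ) (v v' : Fin m → ℝ) (l l' : X.Y → ℕ)
    (hw : v ∈ X.poly (fun y => (l y : ℝ)))
    (h : ((v', fun y => (l' y : ℝ)) : Amb X) = (v, fun y => (l y : ℝ)) + add y₀ x z) :
    T.ldisc v' l' ≤ T.ldisc v l + ((∑ j, x j + ∑ i, z i : ℕ) : ℝ) := by
  unfold Triple.ldisc
  rw [disc_eq_PE, disc_eq_PE, h, map_add]
  have h1 := PE_add T.toBdry hp y₀ x z
  have h2 : ∑ j, T.r j * X.ord (T.A j) v l ≤ ∑ j, T.r j * X.ord (T.A j) v' l' := by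
    refine sum_le_sum fun j _ => mul_le_mul_of_nonneg_left ?_ (T.r_nonneg j)
    rw [ord_eq, ord_eq, h]
    refine ordE_le (T.A_mon j) (T.A_nonempty j) (inC_of_poly hw) fun f hf => ?_
    rw [map_add]
    linarith [evE_add (T.A_mon j f hf) y₀ x z]
  linarith

end M_CY

theorem t_CY (hCY1 : Stmt_CY1) : Stmt_CY := by
  classical
  intro m X T hLC hp v l hv D k hD hk
  -- the fibre
  obtain ⟨y₀, hy₀⟩ : ∃ y₀ : X.Y, ∀ y, y ≠ y₀ → l y = 0 := by
    by_cases h : ∃ y, l y ≠ 0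
    · obtain ⟨y₀, hy⟩ := h
      refine ⟨y₀, fun y hne => ?_⟩
      by_contra hy'
      have h1 := card_le_one.1 hv.2.1 y (mem_filter.2 ⟨mem_univ _, hy'⟩) y₀
        (mem_filter.2 ⟨mem_univ _, hy⟩)
      exact hne h1
    · push Not at h
      obtain ⟨y1⟩ : Nonempty X.Y := Fintype.card_pos_iff.mp (by have := X.card_Y; omega)
      exact ⟨y1, fun y _ => h y⟩
  have hl : (fun y => (l y : ℝ)) = fun y => if y = y₀ then ((l y₀ : ℕ) : ℝ) else 0 := by
    funext y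
    by_cases h : y = y₀
    · rw [if_pos h, h]
    · rw [if_neg h, hy₀ y h, Nat.cast_zero]
  have hpoly := hv.2.2
  rw [hl] at hpoly hD
  obtain ⟨x, z, hxz, -, hint⟩ := hCY1 X y₀ v (l y₀) D k hpoly hD hk
  obtain ⟨l', hl'⟩ : ∃ l' : X.Y → ℕ, l' = fun y =>
      if y = y₀ then l y₀ + ∑ i, z i * X.mu y₀ i else 0 := ⟨_, rfl⟩
  obtain ⟨v', hv'⟩ : ∃ v' : Fin m → ℝ, v' = v + ∑ j, (x j : ℝ) • X.ray j +
      ∑ i, ((z i : ℝ) * X.mu y₀ i) • X.vert y₀ i := ⟨_, rfl⟩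
  have hl'r : (fun y => (l' y : ℝ)) =
      fun y => if y = y₀ then ((l y₀ + ∑ i, z i * X.mu y₀ i : ℕ) : ℝ) else 0 := by
    funext y
    rw [hl']
    by_cases h : y = y₀
    · simp only [if_pos h]
    · simp only [if_neg h, Nat.cast_zero]
  rw [← hv', ← hl'r] at hint
  have hcen : X.Central v' l' := by
    refine ⟨?_, ?_, hint⟩
    · rw [hv']
      refine X.N.add_mem (X.N.add_mem hv.1 (sum_mem fun j _ => ?_)) (sum_mem fun i _ => ?_)
      · rw [Nat.cast_smul_eq_nsmul]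
        exact X.N.nsmul_mem (X.ray_mem j) _
      · rw [← smul_smul, Nat.cast_smul_eq_nsmul]
        exact X.N.nsmul_mem (mu_mem y₀ i) _
    · refine (card_le_card (t := {y₀}) ?_).trans (card_singleton _).le
      intro y hy
      rw [mem_filter] at hy
      rw [mem_singleton]
      by_contra hne
      refine hy.2 ?_
      rw [hl']
      exact if_neg hne
  refine (mld_le hLC v' l' hcen).trans ?_
  have hadd : ((v', fun y => (l' y : ℝ)) : Amb X) =
      (v, fun y => (l y : ℝ)) + M_CY.add y₀ x z := by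
    apply Prod.ext
    · unfold M_CY.add
      rw [Prod.fst_add, Prod.fst_add, Prod.fst_sum, Prod.fst_sum]
      change v' = v + (∑ j, (x j : ℝ) • X.ray j +
        ∑ i, (z i : ℝ) • ((X.mu y₀ i : ℝ) • X.vert y₀ i))
      rw [hv', add_assoc]
      simp only [smul_smul]
    · funext y
      unfold M_CY.add
      rw [Prod.snd_add, Prod.snd_add, Prod.snd_sum, Prod.snd_sum, Pi.add_apply, Pi.add_apply,
        Finset.sum_apply, Finset.sum_apply]
      change (l' y : ℝ) = (l y : ℝ) + (∑ j, (x j : ℝ) * (0 : ℝ) +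
        ∑ i, (z i : ℝ) * (gen (Sum.inl ⟨y₀, i⟩ : Gen X)).2 y)
      simp only [mul_zero, sum_const_zero, zero_add, gen_snd]
      rw [hl']
      by_cases h : y = y₀
      · simp only [if_pos h, genN]
        rw [h]
        push_cast
        rfl
      · simp only [if_neg h, genN, Nat.cast_zero, mul_zero, sum_const_zero, add_zero]
        rw [hy₀ y h, Nat.cast_zero]
  refine (M_CY.ldisc_add T hp y₀ x z v v' l l' hv.2.2 hadd).trans ?_
  have h9 : ((∑ j, x j + ∑ i, z i : ℕ) : ℝ) ≤ k := by exact_mod_cast hxz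
  linarith

end LSCM
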