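import Pool.Agent.LSCM.StA

/-!
# Lower semicontinuity in complexity one: interior of the cone over one fibre
-/

set_option autoImplicit false

namespace LSCM

open MldTv MldGap Finset

namespace M_CY1

noncomputable section

section General

variable {E ι : Type} [NormedAddCommGroup E] [NormedSpace ℝ E] [FiniteDimensional ℝ E] [Fintype ι]

/-- the cone -/
def cn {E ι : Type} [AddCommGroup E] [Module ℝ E] [Fintype ι] (e : ι → E) : Set E :=
  {x | ∃ b : ι → ℝ, (∀ i, 0 ≤ b i) ∧ x = ∑ i, b i • e i}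

theorem interior_of_pos (e : ι → E) (S : Set ι) (hS : Submodule.span ℝ (e '' S) = ⊤)
    (a : ι → ℝ) (ha : ∀ i, 0 ≤ a i) (hpos : ∀ i ∈ S, 0 < a i) :
    ∑ i, a i • e i ∈ interior (cn e) := by
  classical
  let T : (ι → ℝ) →ₗ[ℝ] E := Fintype.linearCombination ℝ (fun i => if i ∈ S then e i else 0)
  have hT : Function.Surjective T := by
    rw [← LinearMap.range_eq_top, eq_top_iff, ← hS, Submodule.span_le]
    rintro _ ⟨i, hi, rfl⟩
    refine ⟨Pi.single i 1, ?_⟩
    simp [T, Fintype.linearCombination_apply_single, hi]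
  have hopen : IsOpenMap T := LinearMap.isOpenMap_of_finiteDimensional T hT
  have hU : IsOpen (Set.pi S fun i => Set.Ioi (-a i)) :=
    isOpen_set_pi S.toFinite fun i _ => isOpen_Ioi
  have hO : IsOpen ((fun x => (∑ i, a i • e i) + x) '' (T '' (Set.pi S fun i => Set.Ioi (-a i)))) :=
    (Homeomorph.addLeft (∑ i, a i • e i)).isOpenMap _ (hopen _ hU)
  refine mem_interior.2 ⟨_, ?_, hO, ?_⟩
  · rintro _ ⟨_, ⟨b, hb, rfl⟩, rfl⟩
    refine ⟨fun i => a i + if i ∈ S then b i else 0, ?_, ?_⟩
    · intro i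
      by_cases hi : i ∈ S
      · have := hb i hi
        rw [Set.mem_Ioi] at this
        simp only [if_pos hi]
        linarith
      · simp only [if_neg hi, add_zero]
        exact ha i
    · simp only [T, Fintype.linearCombination_apply, add_smul, Finset.sum_add_distrib]
      congr 1
      refine Finset.sum_congr rfl fun i _ => ?_
      by_cases hi : i ∈ S
      · simp only [if_pos hi]
      · simp only [if_neg hi, smul_zero, zero_smul]
  · refine ⟨0, ⟨0, ?_, map_zero T⟩, add_zero _⟩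
    intro i hi
    rw [Set.mem_Ioi, Pi.zero_apply]
    have := hpos i hi
    linarith

omit [FiniteDimensional ℝ E] in
theorem exists_big (e : ι → E) (p : E) (hp : p ∈ cn e) : ∃ a : ι → ℝ, (∀ i, 0 ≤ a i) ∧
    p = ∑ i, a i • e i ∧ ∀ b : ι → ℝ, (∀ i, 0 ≤ b i) → p = ∑ i, b i • e i →
      ∀ i, 0 < b i → 0 < a i := by
  classical
  obtain ⟨a0, ha0, hp0⟩ := hp
  have h : ∀ i, ∃ c : ι → ℝ, (∀ j, 0 ≤ c j) ∧ p = ∑ j, c j • e j ∧
      ((∃ b : ι → ℝ, (∀ j, 0 ≤ b j) ∧ p = ∑ j, b j • e j ∧ 0 < b i) → 0 < c i) := by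
    intro i
    by_cases hi : ∃ b : ι → ℝ, (∀ j, 0 ≤ b j) ∧ p = ∑ j, b j • e j ∧ 0 < b i
    · obtain ⟨b, h1, h2, h3⟩ := hi
      exact ⟨b, h1, h2, fun _ => h3⟩
    · exact ⟨a0, ha0, hp0, fun h => absurd h hi⟩
  choose c hc1 hc2 hc3 using h
  have hN : (0 : ℝ) < (Fintype.card ι : ℝ) + 1 := by positivity
  refine ⟨fun j => ((Fintype.card ι : ℝ) + 1)⁻¹ * (a0 j + ∑ i, c i j), ?_, ?_, ?_⟩
  · intro j
    have := Finset.sum_nonneg fun i (_ : i ∈ Finset.univ) => hc1 i j
    have := ha0 j
    positivity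
  · simp only [mul_smul, ← Finset.smul_sum, add_smul, Finset.sum_add_distrib]
    rw [← hp0]
    have h2 : ∑ j, (∑ i, c i j) • e j = ∑ _i : ι, p := by
      simp only [Finset.sum_smul]
      rw [Finset.sum_comm]
      exact Finset.sum_congr rfl fun i _ => (hc2 i).symm
    rw [h2, Finset.sum_const, Finset.card_univ, ← Nat.cast_smul_eq_nsmul ℝ]
    have h3 : p + (Fintype.card ι : ℝ) • p = ((Fintype.card ι : ℝ) + 1) • p := by
      rw [add_smul, one_smul, add_comm]
    rw [h3, smul_smul, inv_mul_cancel₀ hN.ne', one_smul]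
  · intro b hb1 hb2 i hbi
    have h1 := hc3 i ⟨b, hb1, hb2, hbi⟩
    have h2 : c i i ≤ ∑ l, c l i :=
      Finset.single_le_sum (f := fun l => c l i) (fun l _ => hc1 l i) (Finset.mem_univ i)
    have h3 := ha0 i
    have h4 : 0 < a0 i + ∑ l, c l i := by linarith
    positivity

theorem cone_interior (hSPN : Stmt_SPN) (e : ι → E) (hspan : Submodule.span ℝ (Set.range e) = ⊤)
    (p : E) (hp : p ∈ cn e) (D : Submodule ℝ E) (hD : ∀ d ∈ D, ∃ ε : ℝ, 0 < ε ∧ p + ε • d ∈ cn e)
    (k : ℕ) (hk : Module.finrank ℝ E ≤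
      Module.finrank ℝ (D ⊔ Submodule.span ℝ {p} : Submodule ℝ E) + k) :
    ∃ J : Finset ι, J.card ≤ k ∧ p + ∑ i ∈ J, e i ∈ interior (cn e) := by
  classical
  obtain ⟨a, ha1, ha2, ha3⟩ := exists_big e p hp
  set S : Set ι := {i | 0 < a i} with hS
  set W := Submodule.span ℝ (e '' S) with hW
  have key : ∀ b : ι → ℝ, (∀ i, 0 < b i → i ∈ S) → (∀ i, 0 ≤ b i) → ∑ i, b i • e i ∈ W := by
    intro b hb hb0
    refine Submodule.sum_mem _ fun i _ => ?_
    rcases (hb0 i).lt_or_eq with h | h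
    · exact Submodule.smul_mem _ _ (Submodule.subset_span ⟨i, hb i h, rfl⟩)
    · rw [← h, zero_smul]
      exact Submodule.zero_mem _
  have hpW : p ∈ W := by
    rw [ha2]
    exact key a (fun i h => h) ha1
  have hDW : D ≤ W := by
    intro d hd
    obtain ⟨ε, hε, b, hb1, hb2⟩ := hD d hd
    obtain ⟨ε', hε', c, hc1, hc2⟩ := hD (-d) (D.neg_mem hd)
    have hs : 0 < ε + ε' := by linarith
    have hrep : p = ∑ i, (ε' / (ε + ε') * b i + ε / (ε + ε') * c i) • e i := by
      simp only [add_smul, mul_smul, Finset.sum_add_distrib, ← Finset.smul_sum]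
      rw [← hb2, ← hc2]
      have h1 : ε' / (ε + ε') + ε / (ε + ε') = 1 := by field_simp; ring
      have h2 : ε' / (ε + ε') * ε = ε / (ε + ε') * ε' := by field_simp
      calc p = (ε' / (ε + ε') + ε / (ε + ε')) • p := by rw [h1, one_smul]
        _ = (ε' / (ε + ε')) • (p + ε • d) + (ε / (ε + ε')) • (p + ε' • -d) := by
          rw [smul_add, smul_add, smul_smul, smul_smul, h2, smul_neg, add_smul]
          abel
    have hsupp : ∀ i, 0 < b i → i ∈ S := by
      intro i hi
      refine ha3 _ (fun j => ?_) hrep i ?_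
      · have h1 := hb1 j
        have h2 := hc1 j
        positivity
      · have h2 := hc1 i
        positivity
    have hq : p + ε • d ∈ W := by
      rw [hb2]
      exact key b hsupp hb1
    have h3 : ε • d ∈ W := by
      have := W.sub_mem hq hpW
      rwa [add_sub_cancel_left] at this
    have h4 := W.smul_mem ε⁻¹ h3
    rwa [smul_smul, inv_mul_cancel₀ hε.ne', one_smul] at h4
  have hle : D ⊔ Submodule.span ℝ {p} ≤ W := by
    refine sup_le hDW ?_
    rw [Submodule.span_le, Set.singleton_subset_iff]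
    exact hpW
  have hfr := Submodule.finrank_mono hle
  obtain ⟨J, hJ, hJ2⟩ := hSPN e W (by rw [hspan, sup_top_eq]) k (by omega)
  refine ⟨J, hJ, ?_⟩
  have hsp : Submodule.span ℝ (e '' (S ∪ (J : Set ι))) = ⊤ := by
    rw [Set.image_union, Submodule.span_union]
    exact hJ2
  have hfin := interior_of_pos e (S ∪ (J : Set ι)) hsp (fun i => a i + if i ∈ J then 1 else 0)
    (fun i => by
      have := ha1 i
      split_ifs <;> linarith)
    (fun i hi => by
      have h1 := ha1 i
      rcases hi with hi | hi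
      · have h2 : 0 < a i := hi
        show 0 < a i + if i ∈ J then (1 : ℝ) else 0
        split_ifs <;> linarith
      · show 0 < a i + if i ∈ J then (1 : ℝ) else 0
        rw [if_pos (by exact_mod_cast hi)]
        linarith)
  have heq : ∑ i, (a i + if i ∈ J then (1 : ℝ) else 0) • e i = p + ∑ i ∈ J, e i := by
    simp only [add_smul, Finset.sum_add_distrib]
    rw [← ha2]
    congr 1
    rw [← Finset.sum_filter_add_sum_filter_not Finset.univ (fun i => i ∈ J)]
    have e1 : ∑ i ∈ Finset.univ.filter (fun i => i ∈ J), (if i ∈ J then (1 : ℝ) else 0) • e i =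
        ∑ i ∈ J, e i := by
      rw [Finset.filter_mem_eq_inter, Finset.univ_inter]
      exact Finset.sum_congr rfl fun i hi => by rw [if_pos hi, one_smul]
    have e2 : ∑ i ∈ Finset.univ.filter (fun i => ¬i ∈ J), (if i ∈ J then (1 : ℝ) else 0) • e i =
        0 := by
      refine Finset.sum_eq_zero fun i hi => ?_
      rw [if_neg (Finset.mem_filter.1 hi).2, zero_smul]
    rw [e1, e2, add_zero]
  rwa [heq] at hfin

end General

/-- the rays span -/
theorem span_ray {m c : ℕ} (X : TVar m c) : Submodule.span ℝ (Set.range X.ray) = ⊤ := by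
  apply Submodule.eq_top_of_nonempty_interior'
  refine X.full.mono (interior_mono ?_)
  rintro _ ⟨b, _, rfl⟩
  exact Submodule.sum_mem _ fun i _ => Submodule.smul_mem _ _ (Submodule.subset_span ⟨i, rfl⟩)

theorem polyZero {m c : ℕ} (X : TVar m c) : X.poly (fun _ => 0) = cn X.ray := by
  ext v
  constructor
  · rintro ⟨a, d, ha, hd, hs, hv⟩
    refine ⟨d, hd, ?_⟩
    rw [hv]
    have h0 : ∑ y, ∑ i, a y i • X.vert y i = 0 := by
      refine Finset.sum_eq_zero fun y _ => Finset.sum_eq_zero fun i hi => ?_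
      rw [(Finset.sum_eq_zero_iff_of_nonneg fun i _ => ha y i).1 (hs y) i hi, zero_smul]
    rw [h0, zero_add]
  · rintro ⟨d, hd, hv⟩
    exact ⟨fun _ _ => 0, d, fun _ _ => le_rfl, hd, fun y => by simp, by simpa using hv⟩

/-- the generators of the cone over the fibre `y₀` -/
def gn {m c : ℕ} (X : TVar m c) (y₀ : X.Y) : X.R ⊕ X.I y₀ → (Fin m → ℝ) × ℝ :=
  Sum.elim (fun j => (X.ray j, 0)) (fun i => ((X.mu y₀ i : ℝ) • X.vert y₀ i, (X.mu y₀ i : ℝ)))

theorem mu_pos {m c : ℕ} (X : TVar m c) (y₀ : X.Y) (i : X.I y₀) : (0 : ℝ) < X.mu y₀ i := by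
  exact_mod_cast (X.mu_least y₀ i).1.1

theorem mem_poly_iff {m c : ℕ} (X : TVar m c) [DecidableEq X.Y] (y₀ : X.Y) (v : Fin m → ℝ)
    (t : ℝ) : v ∈ X.poly (fun y => if y = y₀ then t else 0) ↔ ((v, t) : (Fin m → ℝ) × ℝ) ∈
      cn (gn X y₀) := by
  constructor
  · rintro ⟨a, d, ha, hd, hs, hv⟩
    beta_reduce at hs
    refine ⟨Sum.elim d (fun i => a y₀ i / X.mu y₀ i), ?_, ?_⟩
    · rintro (j | i)
      · exact hd j
      · exact div_nonneg (ha y₀ i) (mu_pos X y₀ i).le
    · rw [Fintype.sum_sum_type]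
      simp only [Sum.elim_inl, Sum.elim_inr, gn]
      have h0 : ∑ y, ∑ i, a y i • X.vert y i = ∑ i, a y₀ i • X.vert y₀ i := by
        refine Finset.sum_eq_single y₀ (fun y _ hy => ?_) (fun h => absurd (Finset.mem_univ _) h)
        have hs' := hs y
        rw [if_neg hy] at hs'
        refine Finset.sum_eq_zero fun i hi => ?_
        rw [(Finset.sum_eq_zero_iff_of_nonneg fun i _ => ha y i).1 hs' i hi, zero_smul]
      have hs0 := hs y₀
      rw [if_pos rfl] at hs0
      apply Prod.ext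
      · simp only [Prod.fst_add, Prod.fst_sum, Prod.smul_fst]
        rw [hv, h0, add_comm]
        congr 1
        refine Finset.sum_congr rfl fun i _ => ?_
        rw [smul_smul, div_mul_cancel₀ _ (mu_pos X y₀ i).ne']
      · simp only [Prod.snd_add, Prod.snd_sum, Prod.smul_snd, smul_eq_mul, mul_zero,
          Finset.sum_const_zero, zero_add]
        rw [← hs0]
        refine Finset.sum_congr rfl fun i _ => ?_
        rw [div_mul_cancel₀ _ (mu_pos X y₀ i).ne']
  · rintro ⟨b, hb, hv⟩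
    rw [Fintype.sum_sum_type] at hv
    simp only [Sum.elim_inl, Sum.elim_inr, gn] at hv
    have hv1 := congrArg Prod.fst hv
    have hv2 := congrArg Prod.snd hv
    simp only [Prod.fst_add, Prod.fst_sum, Prod.smul_fst] at hv1
    simp only [Prod.snd_add, Prod.snd_sum, Prod.smul_snd, smul_eq_mul, mul_zero,
      Finset.sum_const_zero, zero_add] at hv2
    refine ⟨Function.update (fun y (_ : X.I y) => (0 : ℝ)) y₀
      (fun i => b (Sum.inr i) * X.mu y₀ i), fun j => b (Sum.inl j), ?_, fun j => hb _, ?_, ?_⟩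
    · intro y i
      by_cases hy : y = y₀
      · subst hy
        rw [Function.update_self]
        exact mul_nonneg (hb _) (mu_pos X y i).le
      · rw [Function.update_of_ne hy]
    · intro y
      beta_reduce
      by_cases hy : y = y₀
      · subst hy
        rw [Function.update_self, if_pos rfl]
        exact hv2.symm
      · rw [Function.update_of_ne hy, if_neg hy]
        simp
    · rw [hv1, add_comm]
      congr 1
      symm
      rw [Finset.sum_eq_single y₀ (fun y _ hy => ?_) (fun h => absurd (Finset.mem_univ _) h)]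
      · rw [Function.update_self]
        refine Finset.sum_congr rfl fun i _ => ?_
        rw [smul_smul]
      · rw [Function.update_of_ne hy]
        simp

theorem span_gn {m c : ℕ} (X : TVar m c) (y₀ : X.Y) :
    Submodule.span ℝ (Set.range (gn X y₀)) = ⊤ := by
  rw [eq_top_iff]
  rintro ⟨x, t⟩ -
  have h1 : ∀ y : Fin m → ℝ, ((y, 0) : (Fin m → ℝ) × ℝ) ∈
      Submodule.span ℝ (Set.range (gn X y₀)) := by
    intro y
    have hy : y ∈ Submodule.span ℝ (Set.range X.ray) := by
      rw [span_ray]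
      exact Submodule.mem_top
    have h2 := Submodule.mem_map_of_mem (f := LinearMap.inl ℝ (Fin m → ℝ) ℝ) hy
    rw [Submodule.map_span] at h2
    refine Submodule.span_mono ?_ h2
    rintro _ ⟨_, ⟨j, rfl⟩, rfl⟩
    exact ⟨Sum.inl j, rfl⟩
  obtain ⟨i⟩ := X.neI y₀
  have hmu := mu_pos X y₀ i
  have h3 : ((x, t) : (Fin m → ℝ) × ℝ) = (t / X.mu y₀ i) • gn X y₀ (Sum.inr i) +
      (x - t • X.vert y₀ i, 0) := by
    simp only [gn, Sum.elim_inr]
    apply Prod.ext
    · simp only [Prod.fst_add, Prod.smul_fst, smul_smul]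
      rw [div_mul_cancel₀ _ hmu.ne']
      abel
    · simp only [Prod.snd_add, Prod.smul_snd, smul_eq_mul, add_zero]
      rw [div_mul_cancel₀ _ hmu.ne']
  rw [h3]
  exact Submodule.add_mem _ (Submodule.smul_mem _ _ (Submodule.subset_span ⟨_, rfl⟩)) (h1 _)

end

end M_CY1

open M_CY1 in
theorem t_CY1 (hSPN : Stmt_SPN) : Stmt_CY1 := by
  classical
  intro m c X _ y₀ v s D k hv hD hk
  rcases Nat.eq_zero_or_pos s with hs | hs
  · subst hs
    have hfun : (fun y => if y = y₀ then ((0 : ℕ) : ℝ) else 0) = fun _ : X.Y => (0 : ℝ) := by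
      funext y
      simp
    rw [hfun] at hv
    have hD' : ∀ d ∈ D, ∃ ε : ℝ, 0 < ε ∧ v + ε • d ∈ cn X.ray := by
      intro d hd
      obtain ⟨ε, h1, h2⟩ := hD d hd
      rw [hfun, polyZero] at h2
      exact ⟨ε, h1, h2⟩
    rw [polyZero] at hv
    have hle : Module.finrank ℝ D ≤
        Module.finrank ℝ (D ⊔ Submodule.span ℝ {v} : Submodule ℝ (Fin m → ℝ)) :=
      Submodule.finrank_mono le_sup_left
    obtain ⟨J, hJ, hJ2⟩ := cone_interior hSPN X.ray (span_ray X) v hv D hD' k (by
      rw [Module.finrank_fin_fun]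
      omega)
    refine ⟨fun j => if j ∈ J then 1 else 0, fun _ => 0, ?_, fun _ _ => rfl, ?_⟩
    · simp only [Finset.sum_const_zero, add_zero, Finset.sum_boole, Nat.cast_id]
      rw [Finset.filter_mem_eq_inter, Finset.univ_inter]
      exact hJ
    · have hfun2 : (fun y => if y = y₀ then ((0 + ∑ i, 0 * X.mu y₀ i : ℕ) : ℝ) else 0) =
          fun _ : X.Y => (0 : ℝ) := by
        funext y
        simp
      rw [hfun2, polyZero]
      have heq : v + ∑ j, ((if j ∈ J then 1 else 0 : ℕ) : ℝ) • X.ray j +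
          ∑ i, (((0 : ℕ) : ℝ) * X.mu y₀ i) • X.vert y₀ i = v + ∑ j ∈ J, X.ray j := by
        have e0 : ∑ i, (((0 : ℕ) : ℝ) * X.mu y₀ i) • X.vert y₀ i = 0 := by simp
        rw [e0, add_zero]
        congr 1
        rw [← Finset.sum_subset (Finset.subset_univ J)]
        · exact Finset.sum_congr rfl fun j hj => by rw [if_pos hj, Nat.cast_one, one_smul]
        · intro j _ hj
          rw [if_neg hj, Nat.cast_zero, zero_smul]
      rw [heq]
      exact hJ2
  · rw [mem_poly_iff] at hv
    let D' : Submodule ℝ ((Fin m → ℝ) × ℝ) := D.map (LinearMap.inl ℝ (Fin m → ℝ) ℝ)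
    have hD' : ∀ d ∈ D', ∃ ε : ℝ, 0 < ε ∧ ((v, (s : ℝ)) : (Fin m → ℝ) × ℝ) + ε • d ∈
        cn (gn X y₀) := by
      rintro _ ⟨d, hd, rfl⟩
      obtain ⟨ε, h1, h2⟩ := hD d hd
      rw [mem_poly_iff] at h2
      refine ⟨ε, h1, ?_⟩
      have : ((v, (s : ℝ)) : (Fin m → ℝ) × ℝ) + ε • (LinearMap.inl ℝ (Fin m → ℝ) ℝ) d =
          (v + ε • d, (s : ℝ)) := by
        apply Prod.ext
        · simp
        · simp
      rw [this]
      exact h2
    have hfr1 : Module.finrank ℝ D' = Module.finrank ℝ D :=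
      ((Submodule.equivMapOfInjective (LinearMap.inl ℝ (Fin m → ℝ) ℝ)
        LinearMap.inl_injective D).finrank_eq).symm
    have hlt : D' < D' ⊔ Submodule.span ℝ {((v, (s : ℝ)) : (Fin m → ℝ) × ℝ)} := by
      refine lt_of_le_of_ne le_sup_left fun h2 => ?_
      have hmem : ((v, (s : ℝ)) : (Fin m → ℝ) × ℝ) ∈ D' := by
        rw [h2]
        exact Submodule.mem_sup_right (Submodule.mem_span_singleton_self _)
      obtain ⟨d, _, hd⟩ := hmem
      have := congrArg Prod.snd hd
      simp only [LinearMap.inl_apply] at this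
      exact hs.ne (by exact_mod_cast this)
    have hfr2 := Submodule.finrank_lt_finrank_of_lt hlt
    obtain ⟨J, hJ, hJ2⟩ := cone_interior hSPN (gn X y₀) (span_gn X y₀) _ hv D' hD' k (by
      rw [Module.finrank_prod, Module.finrank_fin_fun, Module.finrank_self]
      omega)
    refine ⟨fun j => if Sum.inl j ∈ J then 1 else 0, fun i => if Sum.inr i ∈ J then 1 else 0,
      ?_, fun h => absurd h hs.ne', ?_⟩
    · have h1 : ∑ g : X.R ⊕ X.I y₀, (if g ∈ J then 1 else 0) = J.card := by
        rw [Finset.sum_boole, Nat.cast_id, Finset.filter_mem_eq_inter, Finset.univ_inter]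
      rw [Fintype.sum_sum_type] at h1
      exact h1.le.trans hJ
    · have hsum : ∑ g ∈ J, gn X y₀ g = ∑ g, (if g ∈ J then (1 : ℝ) else 0) • gn X y₀ g := by
        rw [← Finset.sum_subset (Finset.subset_univ J)]
        · exact Finset.sum_congr rfl fun j hj => by rw [if_pos hj, one_smul]
        · intro j _ hj
          rw [if_neg hj, zero_smul]
      rw [hsum, Fintype.sum_sum_type] at hJ2
      have hpt : ((v, (s : ℝ)) : (Fin m → ℝ) × ℝ) +
          (∑ j, (if (Sum.inl j : X.R ⊕ X.I y₀) ∈ J then (1 : ℝ) else 0) • gn X y₀ (Sum.inl j) +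
          ∑ i, (if (Sum.inr i : X.R ⊕ X.I y₀) ∈ J then (1 : ℝ) else 0) • gn X y₀ (Sum.inr i)) =
          (v + ∑ j, ((if (Sum.inl j : X.R ⊕ X.I y₀) ∈ J then 1 else 0 : ℕ) : ℝ) • X.ray j +
            ∑ i, (((if (Sum.inr i : X.R ⊕ X.I y₀) ∈ J then 1 else 0 : ℕ) : ℝ) * X.mu y₀ i) •
              X.vert y₀ i,
            ((s + ∑ i, (if (Sum.inr i : X.R ⊕ X.I y₀) ∈ J then 1 else 0) * X.mu y₀ i : ℕ) :
              ℝ)) := by
        apply Prod.ext
        · simp only [gn, Sum.elim_inl, Sum.elim_inr, Prod.fst_add, Prod.fst_sum, Prod.smul_fst,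
            smul_smul, Nat.cast_ite, Nat.cast_one, Nat.cast_zero]
          rw [add_assoc]
        · simp only [gn, Sum.elim_inl, Sum.elim_inr, Prod.snd_add, Prod.snd_sum, Prod.smul_snd,
            smul_eq_mul, mul_zero, Finset.sum_const_zero, zero_add, Nat.cast_add, Nat.cast_sum,
            Nat.cast_mul, Nat.cast_ite, Nat.cast_one, Nat.cast_zero]
      rw [hpt] at hJ2
      have hcont : Continuous fun x : Fin m → ℝ => ((x,
          ((s + ∑ i, (if (Sum.inr i : X.R ⊕ X.I y₀) ∈ J then 1 else 0) * X.mu y₀ i : ℕ) :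
            ℝ)) : (Fin m → ℝ) × ℝ) := by fun_prop
      have hin := preimage_interior_subset_interior_preimage hcont (Set.mem_preimage.2 hJ2)
      refine interior_mono ?_ hin
      intro x hx
      rw [mem_poly_iff]
      exact hx

end LSCM
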