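import Pool.Agent.LSCM.StB
import Pool.Agent.MldGeo.MNL

/-!
# Lower semicontinuity in complexity one, module DET: changing the other coordinates
-/

set_option autoImplicit false

namespace LSCM

open MldGap MldGeo MvPolynomial

noncomputable section

namespace M_DET

/-- A nonzero minor of an integral matrix with independent rows. -/
theorem exists_minor {k m : ℕ} (z : Fin k → Fin m → ℤ) (hz : LinearIndependent ℤ z) :
    ∃ σ : Fin k → Fin m, Function.Injective σ ∧
      ∀ c : Fin k → ℤ, (∀ j', ∑ j, c j * z j (σ j') = 0) → c = 0 := by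
  classical
  let M : Matrix (Fin k) (Fin m) ℚ := Matrix.of fun j i => (z j i : ℚ)
  let C : (Fin m → ℤ) →ₗ[ℤ] (Fin m → ℚ) := (Int.castAddHom ℚ).toIntLinearMap.compLeft (Fin m)
  have hC : LinearMap.ker C = ⊥ := by
    rw [LinearMap.ker_eq_bot]
    intro u w h
    funext i
    have h1 : ((u i : ℤ) : ℚ) = ((w i : ℤ) : ℚ) := congrFun h i
    exact_mod_cast h1
  have hrow : LinearIndependent ℚ M.row :=
    (LinearIndependent.iff_fractionRing ℤ ℚ).1 (hz.map' C hC)
  have hrank : M.rank = k := by
    rw [hrow.rank_matrix, Fintype.card_fin]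
  have htop : Submodule.span ℚ (Set.range M.col) = ⊤ := by
    apply Submodule.eq_top_of_finrank_eq
    rw [← Matrix.rank_eq_finrank_span_cols, hrank, Module.finrank_fintype_fun_eq_card,
      Fintype.card_fin]
  obtain ⟨κ, a, ha, hspan, hli⟩ := exists_linearIndependent' ℚ M.col
  have : Finite κ := Finite.of_injective a ha
  letI := Fintype.ofFinite κ
  let B : Module.Basis κ ℚ (Fin k → ℚ) := Module.Basis.mk hli (by rw [hspan, htop])
  have hcard : Fintype.card κ = k := by
    rw [← Module.finrank_eq_card_basis B, Module.finrank_fintype_fun_eq_card, Fintype.card_fin]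
  let e : Fin k ≃ κ := (Fintype.equivFinOfCardEq hcard).symm
  refine ⟨a ∘ e, ha.comp e.injective, fun c hc => ?_⟩
  let φ : (Fin k → ℚ) →ₗ[ℚ] ℚ := Fintype.linearCombination ℚ fun j => (c j : ℚ)
  have hφ : ∀ x : Fin k → ℚ, φ x = ∑ j, x j * (c j : ℚ) := fun x =>
    Fintype.linearCombination_apply ℚ _ x
  have h0 : φ = 0 := by
    refine B.ext fun x => ?_
    rw [LinearMap.zero_apply, hφ, Module.Basis.mk_apply]
    have h1 := hc (e.symm x)
    rw [Function.comp_apply, Equiv.apply_symm_apply] at h1
    have h2 : ((∑ j, c j * z j (a x) : ℤ) : ℚ) = 0 := by rw [h1, Int.cast_zero]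
    rw [← h2, Int.cast_sum]
    refine Finset.sum_congr rfl fun j _ => ?_
    rw [Int.cast_mul, mul_comm]
    rfl
  funext j
  have h1 : φ (Pi.single j 1) = 0 := by rw [h0, LinearMap.zero_apply]
  rw [hφ, Finset.sum_eq_single j (fun b _ hb => by rw [Pi.single_eq_of_ne hb, zero_mul])
    (fun h => absurd (Finset.mem_univ j) h), Pi.single_eq_same, one_mul] at h1
  exact_mod_cast h1

/-- The determinant of the completed matrix. -/
theorem det_ne {k m : ℕ} (z : Fin k → Fin m → ℤ) (σ : Fin k → Fin m)
    (hσ : Function.Injective σ)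
    (hmin : ∀ c : Fin k → ℤ, (∀ j', ∑ j, c j * z j (σ j') = 0) → c = 0) :
    (Matrix.of (Function.extend σ z fun i => Pi.single i 1) : Matrix (Fin m) (Fin m) ℤ).det ≠
      0 := by
  classical
  intro hdet
  obtain ⟨v, hv0, hv⟩ := Matrix.exists_vecMul_eq_zero_iff.2 hdet
  have hv' : ∀ i', ∑ i, v i * (Function.extend σ z fun i => Pi.single i 1) i i' = 0 :=
    fun i' => congrFun hv i'
  have h1 : (fun j => v (σ j)) = 0 := by
    apply hmin
    intro j'
    rw [← hv' (σ j')]
    refine Fintype.sum_of_injective σ hσ _ _ ?_ ?_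
    · intro i hi
      rw [Function.extend_apply' _ _ _ (by rintro ⟨j, rfl⟩; exact hi ⟨j, rfl⟩),
        Pi.single_eq_of_ne (by rintro rfl; exact hi ⟨j', rfl⟩), mul_zero]
    · intro j
      rw [hσ.extend_apply]
  apply hv0
  funext i
  by_cases hi : ∃ j, σ j = i
  · obtain ⟨j, rfl⟩ := hi
    exact congrFun h1 j
  · have h2 := hv' i
    rw [Finset.sum_eq_single i] at h2
    · rw [Function.extend_apply' _ _ _ hi, Pi.single_eq_same, mul_one] at h2
      exact h2
    · intro i2 _ h3
      by_cases h4 : ∃ j, σ j = i2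
      · obtain ⟨j, rfl⟩ := h4
        have h5 : v (σ j) = 0 := congrFun h1 j
        rw [h5, zero_mul]
      · rw [Function.extend_apply' _ _ _ h4, Pi.single_eq_of_ne h3.symm, mul_zero]
    · intro h3
      exact absurd (Finset.mem_univ i) h3

variable {K : Type} [Field K] [Algebra ℂ K]

/-- The forms of a family of combinations. -/
theorem dlogs_mat {n : ℕ} (x y : Fin n → K) (M : Matrix (Fin n) (Fin n) K)
    (h : ∀ i, dlog (y i) = ∑ j, M i j • dlog (x j)) : dlogs y = M.det • dlogs x := by
  classical
  let L : (Fin n → K) →ₗ[K] Ω[K⁄ℂ] := Fintype.linearCombination K fun i => dlog (x i)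
  have hL : ∀ a : Fin n → K, L a = ∑ i, a i • dlog (x i) := fun a =>
    Fintype.linearCombination_apply K _ a
  have h1 := FRM.iota_eq (Pi.basisFun K (Fin n)) fun i j => M i j
  have h2 := congrArg (exteriorPower.map n L) h1
  rw [map_smul, exteriorPower.map_apply_ιMulti, exteriorPower.map_apply_ιMulti] at h2
  have h3 : (L ∘ fun i j => M i j) = fun j => dlog (y j) := by
    funext j
    rw [Function.comp_apply, hL, h]
  have h4 : (L ∘ (Pi.basisFun K (Fin n) : Fin n → Fin n → K)) = fun i => dlog (x i) := by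
    funext i
    rw [Function.comp_apply, hL, Pi.basisFun_apply, Finset.sum_eq_single i]
    · rw [Pi.single_eq_same, one_smul]
    · intro k _ hk
      rw [Pi.single_eq_of_ne hk, zero_smul]
    · intro h
      exact absurd (Finset.mem_univ i) h
  have h5 : (Pi.basisFun K (Fin n)).det (fun i j => M i j) = M.det := by
    rw [Pi.basisFun_det_apply]
    rfl
  rw [h3, h4, h5] at h2
  exact h2

/-- The determinant of a matrix with first row `(1, 0, …, 0)`. -/
theorem det_cons {m : ℕ} (cc : Fin m → K) (W : Fin m → Fin m → ℤ) :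
    (Matrix.of (Fin.cons (Fin.cons 1 fun _ => 0) fun i => Fin.cons (cc i) fun i' => (W i i' : K) :
      Fin (m + 1) → Fin (m + 1) → K)).det = (((Matrix.of W).det : ℤ) : K) := by
  classical
  rw [Matrix.det_succ_row_zero, Fin.sum_univ_succ, Finset.sum_eq_zero]
  · rw [add_zero, Int.cast_det]
    have h1 : (Matrix.of (Fin.cons (Fin.cons 1 fun _ => 0) fun i =>
        Fin.cons (cc i) fun i' => (W i i' : K) :
        Fin (m + 1) → Fin (m + 1) → K)) 0 0 = 1 := rfl
    rw [h1, Fin.val_zero, pow_zero, one_mul, one_mul]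
    congr 1
  · intro j _
    have h1 : (Matrix.of (Fin.cons (Fin.cons 1 fun _ => 0) fun i =>
        Fin.cons (cc i) fun i' => (W i i' : K) :
        Fin (m + 1) → Fin (m + 1) → K)) 0 j.succ = 0 := rfl
    rw [h1, mul_zero, zero_mul]

end M_DET

open M_DET in
theorem t_DET : Stmt_DET := by
  classical
  intro m K _ _ K0 χ h0 ha t ht hb k b z hbne hz
  obtain ⟨σ, hσ, hmin⟩ := exists_minor z hz
  have ht' : (t : K) ≠ 0 := fun h => ht (Subtype.ext h)
  have hb' : ∀ j, (b j : K) ≠ 0 := fun j h => hbne j (Subtype.ext h)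
  have hχ : ∀ u, χ u ≠ 0 := MNL.chi_neg h0 ha
  choose c hc using hb
  set W : Fin m → Fin m → ℤ := Function.extend σ z fun i => Pi.single i 1 with hW
  set g : Fin m → K := Function.extend σ (fun j => (b j : K) * χ (z j)) fun i =>
    χ (Pi.single i 1) with hg
  set cc : Fin m → K := Function.extend σ (fun j => (b j : K)⁻¹ * c (b j) * t) 0 with hcc
  have hgne : ∀ i, g i ≠ 0 := by
    intro i
    by_cases hi : ∃ j, σ j = i
    · obtain ⟨j, rfl⟩ := hi
      rw [hg, hσ.extend_apply]
      exact mul_ne_zero (hb' j) (hχ _)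
    · rw [hg, Function.extend_apply' _ _ _ hi]
      exact hχ _
  refine ⟨g, σ, (Matrix.of W).det, det_ne z σ hσ hmin, hσ, fun j => ?_, hgne, ?_⟩
  · rw [hg, hσ.extend_apply]
  · have key : ∀ i, dlog (g i) = cc i • dlog (t : K) +
        ∑ i', (W i i' : K) • dlog (χ (Pi.single i' 1)) := by
      intro i
      by_cases hi : ∃ j, σ j = i
      · obtain ⟨j, rfl⟩ := hi
        rw [hg, hcc, hW, hσ.extend_apply, hσ.extend_apply, hσ.extend_apply,
          MNL.dlog_mul (hb' j) (hχ _), MNL.dlog_chi h0 ha]
        congr 1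
        unfold dlog
        rw [hc (b j), smul_smul, smul_smul]
        congr 1
        field_simp
      · rw [hg, hcc, hW, Function.extend_apply' _ _ _ hi, Function.extend_apply' _ _ _ hi,
          Function.extend_apply' _ _ _ hi, Pi.zero_apply, zero_smul, zero_add,
          Finset.sum_eq_single i]
        · rw [Pi.single_eq_same, Int.cast_one, one_smul]
        · intro i' _ h1
          rw [Pi.single_eq_of_ne h1, Int.cast_zero, zero_smul]
        · intro h1
          exact absurd (Finset.mem_univ i) h1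
    have h1 := dlogs_mat (Fin.cons (t : K) fun i => χ (Pi.single i 1) : Fin (m + 1) → K)
      (Fin.cons (t : K) g) (Matrix.of (Fin.cons (Fin.cons 1 fun _ => 0) fun i =>
        Fin.cons (cc i) fun i' => (W i i' : K) : Fin (m + 1) → Fin (m + 1) → K)) (by
      intro i
      rw [Fin.sum_univ_succ]
      refine Fin.cases ?_ (fun i => ?_) i
      · have e1 : ∀ j : Fin m, (Matrix.of (Fin.cons (Fin.cons 1 fun _ => 0) fun i =>
            Fin.cons (cc i) fun i' => (W i i' : K) : Fin (m + 1) → Fin (m + 1) → K)) 0 j.succ •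
            dlog ((Fin.cons (t : K) fun i => χ (Pi.single i 1) : Fin (m + 1) → K) j.succ) = 0 :=
          fun j => zero_smul _ _
        rw [Finset.sum_eq_zero fun j _ => e1 j, add_zero]
        exact (one_smul _ _).symm
      · exact key i)
    rw [det_cons] at h1
    exact h1

end

end LSCM
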