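import Pool.Agent.LSCM.StA

/-!
# DIM: dimensions
-/

set_option autoImplicit false

namespace LSCM

open MldTv MldGap Finset

noncomputable section

namespace M_DIM

attribute [local instance] Classical.propDecidable

variable {m c : ℕ}

lemma genN_inl (X : TVar m c) (y : X.Y) (i : X.I y) (z : X.Y) :
    (gen (Sum.inl ⟨y, i⟩ : Gen X)).2 z = if z = y then (X.mu y i : ℝ) else 0 := by
  rw [gen_snd]
  by_cases h : z = y
  · subst h
    simp [genN]
  · simp [genN, h]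

/-- A combination of the generators over the chosen vertices. -/
lemma sum_snd (X : TVar m c) (p : ∀ y, X.I y) (u : X.Y → ℝ) (z : X.Y) :
    (∑ y, (u y / (X.mu y (p y) : ℝ)) • gen (Sum.inl ⟨y, p y⟩ : Gen X)).2 z = u z := by
  rw [Prod.snd_sum, Finset.sum_apply]
  have h : ∀ y, ((u y / (X.mu y (p y) : ℝ)) • gen (Sum.inl ⟨y, p y⟩ : Gen X)).2 z =
      if z = y then u y else 0 := by
    intro y
    show (u y / (X.mu y (p y) : ℝ)) * (gen (Sum.inl ⟨y, p y⟩ : Gen X)).2 z = _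
    rw [genN_inl]
    by_cases hz : z = y
    · rw [if_pos hz, if_pos hz]
      have : (X.mu y (p y) : ℝ) ≠ 0 := by exact_mod_cast (mu_pos y (p y)).ne'
      field_simp
    · rw [if_neg hz, if_neg hz, mul_zero]
  rw [Finset.sum_congr rfl fun y _ => h y, Finset.sum_ite_eq, if_pos (Finset.mem_univ z)]

lemma sum_fst (X : TVar m c) (p : ∀ y, X.I y) (u : X.Y → ℝ) :
    (∑ y, (u y / (X.mu y (p y) : ℝ)) • gen (Sum.inl ⟨y, p y⟩ : Gen X)).1 =
      ∑ y, u y • X.vert y (p y) := by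
  rw [Prod.fst_sum]
  refine Finset.sum_congr rfl fun y _ => ?_
  show (u y / (X.mu y (p y) : ℝ)) • ((X.mu y (p y) : ℝ) • X.vert y (p y)) = _
  have : (X.mu y (p y) : ℝ) ≠ 0 := by exact_mod_cast (mu_pos y (p y)).ne'
  rw [smul_smul, div_mul_cancel₀ _ this]

lemma sum_mem (X : TVar m c) (W : Submodule ℝ (Amb X)) (p : ∀ y, X.I y)
    (h2 : ∀ y, gen (Sum.inl ⟨y, p y⟩ : Gen X) ∈ W) (u : X.Y → ℝ) :
    ∑ y, (u y / (X.mu y (p y) : ℝ)) • gen (Sum.inl ⟨y, p y⟩ : Gen X) ∈ W :=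
  Submodule.sum_mem _ fun y _ => Submodule.smul_mem _ _ (h2 y)

lemma part1 (X : TVar m c) (D : Submodule ℝ (Fin m → ℝ)) (W : Submodule ℝ (Amb X))
    (p : ∀ y, X.I y) (h1 : ∀ d ∈ D, ((d, 0) : Amb X) ∈ W)
    (h2 : ∀ y, gen (Sum.inl ⟨y, p y⟩ : Gen X) ∈ W) :
    Module.finrank ℝ D + Fintype.card X.Y ≤ Module.finrank ℝ W := by
  let f : W →ₗ[ℝ] (X.Y → ℝ) := (LinearMap.snd ℝ (Fin m → ℝ) (X.Y → ℝ)).comp W.subtype
  have hf : ∀ w : W, f w = (w : Amb X).2 := fun w => rfl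
  have hsurj : Function.Surjective f := by
    intro u
    refine ⟨⟨_, sum_mem X W p h2 u⟩, ?_⟩
    rw [hf]
    funext z
    exact sum_snd X p u z
  have hr : Module.finrank ℝ (LinearMap.range f) = Fintype.card X.Y := by
    rw [LinearMap.range_eq_top.2 hsurj, finrank_top, Module.finrank_fintype_fun_eq_card]
  have hrk := LinearMap.finrank_range_add_finrank_ker f
  let g0 : D →ₗ[ℝ] Amb X := (LinearMap.inl ℝ (Fin m → ℝ) (X.Y → ℝ)).comp D.subtype
  let g1 : D →ₗ[ℝ] W := g0.codRestrict W fun d => h1 d.1 d.2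
  let g2 : D →ₗ[ℝ] LinearMap.ker f := g1.codRestrict (LinearMap.ker f) fun d => by
    rw [LinearMap.mem_ker, hf]
    rfl
  have hinj : Function.Injective g2 := by
    intro a b hab
    have h3 : g0 a = g0 b := congrArg (fun x : LinearMap.ker f => ((x : W) : Amb X)) hab
    have h4 := congrArg Prod.fst h3
    exact Subtype.ext h4
  have hD := LinearMap.finrank_le_finrank_of_injective hinj
  omega

end M_DIM

open M_DIM in
/-- DIM -/
theorem t_DIM : Stmt_DIM := by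
  intro m c X D W p h1 h2
  refine ⟨part1 X D W p h1 h2, fun hT hq => ?_⟩
  set q : Fin m → ℝ := ∑ y, (X.deg y : ℝ) • X.vert y (p y) with hqdef
  have hqW : ((q, 0) : Amb X) ∈ W := by
    have h3 := sum_mem X W p h2 (fun y => (X.deg y : ℝ))
    have h4 : ((q, 0) : Amb X) =
        (∑ y, ((X.deg y : ℝ) / (X.mu y (p y) : ℝ)) • gen (Sum.inl ⟨y, p y⟩ : Gen X)) -
          T1 X := by
      refine Prod.ext ?_ ?_
      · show q = (∑ y, ((X.deg y : ℝ) / (X.mu y (p y) : ℝ)) •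
          gen (Sum.inl ⟨y, p y⟩ : Gen X)).1 - 0
        rw [sub_zero, sum_fst X p (fun y => (X.deg y : ℝ))]
      · funext z
        show (0 : ℝ) = (∑ y, ((X.deg y : ℝ) / (X.mu y (p y) : ℝ)) •
          gen (Sum.inl ⟨y, p y⟩ : Gen X)).2 z - (X.deg z : ℝ)
        rw [sum_snd X p (fun y => (X.deg y : ℝ)), sub_self]
    rw [h4]
    exact Submodule.sub_mem _ h3 hT
  have h5 := part1 X (D ⊔ Submodule.span ℝ {q}) W p (by
    intro d hd
    obtain ⟨d1, hd1, d2, hd2, rfl⟩ := Submodule.mem_sup.1 hd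
    obtain ⟨a, rfl⟩ := Submodule.mem_span_singleton.1 hd2
    have h6 : ((d1 + a • q, 0) : Amb X) = (d1, 0) + a • ((q, 0) : Amb X) := by
      refine Prod.ext rfl ?_
      show (0 : X.Y → ℝ) = 0 + a • (0 : X.Y → ℝ)
      rw [smul_zero, add_zero]
    rw [h6]
    exact Submodule.add_mem _ (h1 d1 hd1) (Submodule.smul_mem _ _ hqW)) h2
  have h7 : D < D ⊔ Submodule.span ℝ {q} := by
    refine lt_of_le_of_ne le_sup_left fun h => hq ?_
    rw [h]
    exact Submodule.mem_sup_right (Submodule.mem_span_singleton_self q)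
  have h8 := Submodule.finrank_lt_finrank_of_lt h7
  omega

end

end LSCM
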