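import Pool.Agent.LSCM.StB
import Pool.Agent.MldGeo.DAT
import Pool.Agent.MldGeo.LGO

/-!
# DTP: the combinatorial data with the refined lower bound exist
-/

set_option autoImplicit false

namespace LSCM

open MldGap MldGeo MvPolynomial

noncomputable section

namespace M_DTP

/-! ### linear systems -/

theorem indepQ {m r : ℕ} {z : Fin r → Fin m → ℤ} (hz : LinearIndependent ℤ z) :
    LinearIndependent ℚ (fun j : Fin r => (fun i => ((z j i : ℤ) : ℚ) : Fin m → ℚ)) := by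
  let f : (Fin m → ℤ) →ₗ[ℤ] (Fin m → ℚ) := (Int.castAddHom ℚ).toIntLinearMap.compLeft (Fin m)
  have hf : LinearMap.ker f = ⊥ := by
    rw [LinearMap.ker_eq_bot']
    intro x hx
    funext i
    have h1 := congrFun hx i
    have h2 : ((x i : ℤ) : ℚ) = 0 := h1
    exact_mod_cast h2
  exact (LinearIndependent.iff_fractionRing ℤ ℚ).1 (hz.map' f hf)

theorem solve {m r : ℕ} {z : Fin r → Fin m → ℤ} (hz : LinearIndependent ℤ z) (t : Fin r → ℤ) :
    ∃ x : Fin m → ℝ, ∀ j, pr x (z j) = (t j : ℝ) := by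
  classical
  have hq := indepQ hz
  let w : Fin r → Fin m → ℚ := fun j i => ((z j i : ℤ) : ℚ)
  have hker : LinearMap.ker (Fintype.linearCombination ℚ w) = ⊥ := by
    rw [LinearMap.ker_eq_bot']
    intro g hg
    rw [Fintype.linearCombination_apply] at hg
    funext k
    exact Fintype.linearIndependent_iff.1 hq g hg k
  obtain ⟨g, hg⟩ := LinearMap.exists_leftInverse_of_injective _ hker
  have hgv : ∀ l k, g (w l) k = if k = l then 1 else 0 := by
    intro l k
    have h1 := congrFun (DFunLike.congr_fun hg (Pi.single l 1)) k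
    have h2 : Fintype.linearCombination ℚ w (Pi.single l 1) = w l := by
      rw [Fintype.linearCombination_apply_single, one_smul]
    rw [LinearMap.comp_apply, h2, LinearMap.id_apply, Pi.single_apply] at h1
    exact h1
  have hga : ∀ (y : Fin m → ℚ) k, g y k = ∑ i, g (Pi.single i 1) k * y i := by
    intro y k
    have h1 : y = ∑ i, y i • (Pi.single i (1 : ℚ) : Fin m → ℚ) := by
      funext j
      rw [Finset.sum_apply]
      simp [Pi.single_apply]
    conv_lhs => rw [h1]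
    rw [map_sum, Finset.sum_apply]
    refine Finset.sum_congr rfl fun i _ => ?_
    rw [map_smul, Pi.smul_apply, smul_eq_mul, mul_comm]
  refine ⟨fun i => ((∑ k, g (Pi.single i 1) k * (t k : ℚ) : ℚ) : ℝ), fun j => ?_⟩
  have h1 : ∑ i, (∑ k, g (Pi.single i 1) k * (t k : ℚ)) * (z j i : ℚ) = (t j : ℚ) := by
    have h2 : ∑ i, (∑ k, g (Pi.single i 1) k * (t k : ℚ)) * (z j i : ℚ) =
        ∑ k, g (w j) k * (t k : ℚ) := by
      simp_rw [Finset.sum_mul]
      rw [Finset.sum_comm]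
      refine Finset.sum_congr rfl fun k _ => ?_
      rw [hga (w j) k, Finset.sum_mul]
      refine Finset.sum_congr rfl fun i _ => ?_
      show g (Pi.single i 1) k * (t k : ℚ) * (z j i : ℚ) =
        g (Pi.single i 1) k * (z j i : ℚ) * (t k : ℚ)
      ring
    rw [h2]
    simp [hgv]
  unfold pr
  have h3 : ((∑ i, (∑ k, g (Pi.single i 1) k * (t k : ℚ)) * (z j i : ℚ) : ℚ) : ℝ) =
      ((t j : ℚ) : ℝ) := congrArg (fun q : ℚ => (q : ℝ)) h1
  rw [Rat.cast_intCast] at h3
  rw [← h3, Rat.cast_sum]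
  refine Finset.sum_congr rfl fun i _ => ?_
  rw [Rat.cast_mul, Rat.cast_intCast]

theorem pr_smul {m : ℕ} (x : Fin m → ℝ) (M : ℤ) (u : Fin m → ℤ) : pr x (M • u) = M * pr x u := by
  unfold pr
  rw [Finset.mul_sum]
  refine Finset.sum_congr rfl fun i _ => ?_
  rw [Pi.smul_apply, smul_eq_mul]
  push_cast
  ring

theorem pr_sum {m r : ℕ} (x : Fin m → ℝ) (c : Fin r → ℤ) (z : Fin r → Fin m → ℤ) :
    pr x (∑ j, c j • z j) = ∑ j, c j * pr x (z j) := by
  unfold pr
  simp_rw [Finset.mul_sum]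
  rw [Finset.sum_comm]
  refine Finset.sum_congr rfl fun i _ => ?_
  rw [Finset.sum_apply]
  push_cast
  rw [Finset.mul_sum]
  refine Finset.sum_congr rfl fun j _ => ?_
  rw [Pi.smul_apply, smul_eq_mul]
  push_cast
  ring

/-! ### functions of one variable -/

theorem transc {F : Type} [Field F] [Algebra ℂ F] (y : DivVal 1 F) {t : F} (h : y.ord t ≠ 0) :
    Transcendental ℂ t := by
  intro hal
  have hint : IsIntegral ℂ t := hal.isIntegral
  obtain ⟨c, hc⟩ := minpoly.mem_range_of_degree_eq_one ℂ t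
    (IsAlgClosed.degree_eq_one_of_irreducible ℂ (minpoly.irreducible hint))
  have h1 := y.ord_const c
  rw [hc] at h1
  exact h h1

theorem ord_quot {F : Type} [Field F] [Algebra ℂ F] (y : DivVal 1 F) {r : ℕ} (b0 : F)
    (h0 : b0 ≠ 0) (b : Fin r → F) (hb : ∀ j, b j ≠ 0) (N : ℤ) (c : Fin r → ℤ) :
    y.ord (b0 ^ N * (∏ j, b j ^ c j)⁻¹) = N * y.ord b0 - ∑ j, c j * y.ord (b j) := by
  rw [y.ord_mul _ _ (zpow_ne_zero _ h0)
    (inv_ne_zero (Finset.prod_ne_zero_iff.2 fun j _ => zpow_ne_zero _ (hb j))),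
    MldGeo.DivVal.ord_inv, MldGeo.DivVal.ord_zpow,
    MldGeo.DivVal.ord_prod y _ _ fun j _ => zpow_ne_zero _ (hb j), sub_eq_add_neg]
  congr 2
  exact Finset.sum_congr rfl fun j _ => MldGeo.DivVal.ord_zpow y _ _

/-! ### the order of the invariant form -/

theorem key (hSTA : Stmt_STA) (hSEL : Stmt_SEL) {m : ℕ} {X : Germ (m + 1)}
    {A : MldGeo.TorusAction X m} (S : MldGeo.Splitting A) (hC : IsCurve A.K0) (s : A.K0)
    (hs : Transcendental ℂ s) (hne : MldGeo.form0 S s ≠ 0) (D : Derivation ℂ A.K0 A.K0)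
    (hD : D s = 1 ∧ ∀ t : A.K0,
      KaehlerDifferential.D ℂ A.K0 t = D t • KaehlerDifferential.D ℂ A.K0 s)
    (κ : DivVal 1 A.K0 → ℤ)
    (hκ : ∀ (y : DivVal 1 A.K0) (t : A.K0), y.ord t = 1 → y.ord (D t) = - κ y)
    {N : ℕ} (u : Fin N → Fin m → ℤ) (b : Fin N → A.K0) (hb0 : ∀ i, b i ≠ 0)
    (hbR : ∀ i, (b i : X.K) * S.χ (u i) ∈ X.R) (v : DivVal (m + 1) X.K) (w : Fin m → ℤ) (l : ℤ)
    (y : DivVal 1 A.K0) (hl : 0 ≤ l) (hal : MldGeo.Along S v w l y) (k : ℕ) (hk : DimLE X v k)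
    (I : Set (Fin N)) (hI : ∀ i, i ∈ I ↔ l * y.ord (b i) + ip w (u i) = 0)
    (Y : Type) (p : Y → DivVal 1 A.K0) :
    l * (1 - y.ord s + κ y) + ((rkI u I : ℤ) - k) ≤ v.logOrd (MldGeo.form0 S s) ∧
    (l = 0 → (¬ ∃ L : Y → Fin m → ℝ, ∀ i ∈ I, ∀ y', pr (L y') (u i) = -((p y').ord (b i) : ℝ)) →
      (rkI u I : ℤ) + 1 - k ≤ v.logOrd (MldGeo.form0 S s)) := by
  obtain ⟨f, hf1, hf2, hf3⟩ := hSEL u I
  have h := hSTA X.trdeg A.K0 S.χ hC S.zero S.add s hs hne D hD κ hκ v w l y hl hal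
    {a : X.K | a ∈ X.R} k hk (rkI u I) (fun j => b (f j)) (fun j => u (f j))
    (fun j => hb0 (f j)) (fun j => hbR (f j)) (fun j => (hI (f j)).1 (hf1 j)) hf2
  refine ⟨h.1, fun hl0 hL => ?_⟩
  choose! M c hM hMc using hf3
  have hex : ∃ i ∈ I, ∃ y' : Y, M i * (p y').ord (b i) - ∑ j, c i j * (p y').ord (b (f j)) ≠ 0 := by
    by_contra hno
    push Not at hno
    apply hL
    choose L hL' using fun y' : Y => solve hf2 (fun j => -(p y').ord (b (f j)))
    refine ⟨L, fun i hi y' => ?_⟩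
    have h1 : (M i : ℝ) * pr (L y') (u i) = M i * -((p y').ord (b i) : ℝ) := by
      rw [← pr_smul, hMc i hi, pr_sum]
      have h2 : ((M i * (p y').ord (b i) - ∑ j, c i j * (p y').ord (b (f j)) : ℤ) : ℝ) = 0 := by
        rw [hno i hi y', Int.cast_zero]
      push_cast at h2
      have h3 : ∑ j, (c i j : ℝ) * pr (L y') (u (f j)) =
          -∑ j, (c i j : ℝ) * ((p y').ord (b (f j)) : ℝ) := by
        rw [← Finset.sum_neg_distrib]
        refine Finset.sum_congr rfl fun j _ => ?_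
        rw [hL' y' j]
        push_cast
        ring
      rw [h3]
      linarith
    have h4 : (M i : ℝ) ≠ 0 := by exact_mod_cast hM i hi
    exact mul_left_cancel₀ h4 h1
  obtain ⟨i, hi, y', hy'⟩ := hex
  have hi0 : ip w (u i) = 0 := by
    have h5 := (hI i).1 hi
    rwa [hl0, zero_mul, zero_add] at h5
  refine h.2 hl0 (b i) (u i) (hb0 i) (hbR i) hi0 (M i) (c i) (hM i hi) (hMc i hi) ?_
  apply transc (p y')
  rw [ord_quot (p y') (b i) (hb0 i) (fun j => b (f j)) (fun j => hb0 (f j)) (M i) (c i)]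
  exact hy'

end M_DTP

open M_DTP MldGeo.DAT in
theorem t_DTP (hRDA : Stmt_RDA) (hSTA : Stmt_STA) (hSEL : Stmt_SEL) (hLGO : MldGeo.Stmt_LGO)
    (hSPL : MldGeo.Stmt_SPL) (hK0C : MldGeo.Stmt_K0C) (hDER : MldGeo.Stmt_DER)
    (hCAN : MldGeo.Stmt_CAN) (hDGK : MldGeo.Stmt_DGK) (hGEN : MldGeo.Stmt_GEN)
    (hIDL : MldGeo.Stmt_IDL) (hPRF : MldGeo.Stmt_PRF) (hPRO : MldGeo.Stmt_PRO)
    (hNNG : MldGeo.Stmt_NNG) (hTHR : MldGeo.Stmt_THR) (hRSV : MldGeo.Stmt_RSV)
    (hTOX : MldGeo.Stmt_TOX) (hHTV : MldGeo.Stmt_HTV) (hHTR : MldGeo.Stmt_HTR) : Stmt_DTP := by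
  classical
  intro m X A T hT
  obtain ⟨S⟩ := hSPL A
  have hC := hK0C A
  obtain ⟨s, hs⟩ := hC.1
  obtain ⟨D, hD1, hD2⟩ := hDER hC s hs
  have hD0 : D ≠ 0 := by
    rintro rfl
    simp at hD1
  obtain ⟨κ, hκ⟩ := hCAN hC D hD0
  have hdeg := hDGK hC D hD0 κ hκ
  obtain ⟨hne, -, hlgo⟩ := hLGO S s hs D ⟨hD1, hD2⟩ κ hκ
  obtain ⟨ψ, α, P, hα, hsum, htor, hrda⟩ := hRDA S s hs D ⟨hD1, hD2⟩ κ hκ T hT
  have hlow : ∀ v w l y, 0 ≤ l → MldGeo.Along S v w l y → X.Through v →
      ∑ i, ψ i * w i + l * α y ≤ T.logDisc v := by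
    intro v w l y hl hal hv
    rw [hrda v w l y hl hal hv]
    have h1 : (0 : ℝ) ≤ ((v.logOrd (MldGeo.form0 S s) - l * (1 - y.ord s + κ y) : ℤ) : ℝ) := by
      have h2 := hlgo v w l y hl hal
      exact_mod_cast sub_nonneg.2 h2
    linarith
  obtain ⟨N, u, b, hb0, hbR, hgen, hspan, w0, hw0⟩ := hGEN S
  obtain ⟨hP1, -, hP3⟩ := hPRF hC
  have hI := fun j : T.J => hIDL S (T.a j) (T.a_ne j) (hT.2 j)
  choose M z c hM hc0 hcR hidl using hI
  choose Eb hEb hEb0 using fun i => hP1 (b i) (hb0 i)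
  choose Ec hEc hEc0 using fun j k => hP1 (c j k) (hc0 j k)
  obtain ⟨y1, -⟩ := hP3 ∅
  obtain ⟨y2, hy2⟩ := hP3 {y1}
  obtain ⟨Q, hQP, hQb, hQc, hQ2⟩ : ∃ Q : Finset (DivVal 1 A.K0), P ⊆ Q ∧
      (∀ i, (Eb i).support ⊆ Q) ∧ (∀ j k, (Ec j k).support ⊆ Q) ∧ {y1, y2} ⊆ Q := by
    refine ⟨P ∪ (Finset.univ.biUnion fun i => (Eb i).support) ∪
      (Finset.univ.biUnion fun j => Finset.univ.biUnion fun k => (Ec j k).support) ∪ {y1, y2},
      ?_, ?_, ?_, ?_⟩
    · intro y hy
      simp [hy]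
    · intro i y hy
      simp only [Finset.mem_union, Finset.mem_biUnion, Finset.mem_univ, true_and]
      exact Or.inl (Or.inl (Or.inr ⟨i, hy⟩))
    · intro j k y hy
      simp only [Finset.mem_union, Finset.mem_biUnion, Finset.mem_univ, true_and]
      exact Or.inl (Or.inr ⟨j, k, hy⟩)
    · intro y hy
      exact Finset.mem_union_right _ hy
  have hob : ∀ y, y ∉ Q → ∀ i, y.ord (b i) = 0 := by
    intro y hy i
    rw [← hEb i y]
    exact Finsupp.notMem_support_iff.1 fun h => hy (hQb i h)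
  have hoc : ∀ y, y ∉ Q → ∀ j k, y.ord (c j k) = 0 := by
    intro y hy j k
    rw [← hEc j k y]
    exact Finsupp.notMem_support_iff.1 fun h => hy (hQc j k h)
  have hu0 : ∀ i, u i ≠ 0 := by
    intro i hi
    have h1 := hw0 i
    rw [hi] at h1
    simp [ip] at h1
  have hnn : ∀ (w : Fin m → ℤ) (l : ℤ) (y : DivVal 1 A.K0), 0 ≤ l →
      (∀ i, 0 ≤ l * y.ord (b i) + ip w (u i)) → MldGeo.NonnegR S w l y := fun w l y hl h =>
    (hNNG S N u b hb0 hbR hgen w l y hl).1 h
  have hpp : ∀ (w : Fin m → ℤ) (l : ℤ) (y : DivVal 1 A.K0), 0 ≤ l →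
      (∀ i, 0 < l * y.ord (b i) + ip w (u i)) → MldGeo.PosR S w l y := fun w l y hl h =>
    (hNNG S N u b hb0 hbR hgen w l y hl).2 h
  let y0 : {y // y ∈ Q} := ⟨y1, hQ2 (by simp)⟩
  have hE' : ∀ (E : {y // y ∈ Q} → ℤ), ∃ E' : DivVal 1 A.K0 →₀ ℤ,
      (∀ y (h : y ∈ Q), E' y = E ⟨y, h⟩) ∧ (∀ y, y ∉ Q → E' y = 0) ∧ deg E' = ∑ y, E y := by
    intro E
    refine ⟨Finsupp.onFinset Q (fun y => if h : y ∈ Q then E ⟨y, h⟩ else 0) ?_, ?_, ?_, ?_⟩
    · intro y hy
      by_contra h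
      exact hy (by simp [h])
    · intro y h
      simp [h]
    · intro y h
      simp [h]
    · unfold deg
      rw [Finsupp.onFinset_sum _ (fun _ => rfl)]
      exact sum_dite Q E
  have hkey : ∀ (w : Fin m → ℤ) (l : ℤ) (y : {y // y ∈ Q}), 0 ≤ l → Primv w l →
      (∀ i, 0 ≤ l * y.1.ord (b i) + ip w (u i)) → ∃ v, MldGeo.IsTor S v w l y.1 ∧
        MldGeo.NonnegR S w l y.1 ∧ X.Through v := by
    intro w l y hl hp h
    obtain ⟨v, hv⟩ := hTOX S w l y.1 hl hp
    have hN := hnn w l y.1 hl h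
    exact ⟨v, hv, hN, ((hTHR S v w l y.1).1 hv hN).1⟩
  have hcond : ∀ (w' : Fin m → ℤ) (l' : ℤ) (y' : DivVal 1 A.K0), MldGeo.NonnegR S w' l' y' →
      ∀ i, 0 ≤ l' * y'.ord (b i) + ip w' (u i) := fun w' l' y' h i => h (b i) (u i) (hb0 i) (hbR i)
  have hlowp : ∀ v, X.Through v → ∀ k : ℕ, DimLE X v k →
      ∃ (w : Fin m → ℤ) (l : ℤ) (y : {y // y ∈ Q}), 0 ≤ l ∧
      (∀ i, 0 ≤ l * y.1.ord (b i) + ip w (u i)) ∧
      (∑ i, ψ i * w i + l * α y.1 - ∑ j, T.r j * minv (z j) (fun k => y.1.ord (c j k)) w l) +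
        rkI u {i | l * y.1.ord (b i) + ip w (u i) = 0} ≤ T.disc v + k ∧
      (¬ (0 < l ∨ ∃ L : {y // y ∈ Q} → Fin m → ℝ,
          ∀ i ∈ {i | l * y.1.ord (b i) + ip w (u i) = 0}, ∀ y' : {y // y ∈ Q},
            pr (L y') (u i) = -(y'.1.ord (b i) : ℝ)) →
        (∑ i, ψ i * w i + l * α y.1 - ∑ j, T.r j * minv (z j) (fun k => y.1.ord (c j k)) w l) +
          rkI u {i | l * y.1.ord (b i) + ip w (u i) = 0} + 1 ≤ T.disc v + k) := by
    intro v hv k hk
    obtain ⟨w, l, y, hl, hal⟩ := hRSV S v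
    have hN := (hTHR S v w l y).2.1 hal hv.1
    have hid := fun j => hidl j v w l y hv.1 hal
    have hRD := hrda v w l y hl hal hv
    obtain ⟨hk1, hk2⟩ := key hSTA hSEL S hC s hs hne D ⟨hD1, hD2⟩ κ hκ u b hb0 hbR v w l y hl hal
      k hk {i | l * y.ord (b i) + ip w (u i) = 0} (fun i => Iff.rfl) {y // y ∈ Q} (fun y' => y'.1)
    set r : ℕ := rkI u {i | l * y.ord (b i) + ip w (u i) = 0} with hr
    have hg1 : (r : ℝ) - k ≤
        ((v.logOrd (MldGeo.form0 S s) - l * (1 - y.ord s + κ y) : ℤ) : ℝ) := by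
      have h1 : (r : ℤ) - k ≤ v.logOrd (MldGeo.form0 S s) - l * (1 - y.ord s + κ y) := by
        linarith
      exact_mod_cast h1
    have hg2 : l = 0 → (¬ ∃ L : {y // y ∈ Q} → Fin m → ℝ,
        ∀ i ∈ {i | l * y.ord (b i) + ip w (u i) = 0}, ∀ y' : {y // y ∈ Q},
          pr (L y') (u i) = -(y'.1.ord (b i) : ℝ)) → (r : ℝ) + 1 - k ≤
        ((v.logOrd (MldGeo.form0 S s) - l * (1 - y.ord s + κ y) : ℤ) : ℝ) := by
      intro hl0 hL
      have h1 := hk2 hl0 hL
      have h2 : (r : ℤ) + 1 - k ≤ v.logOrd (MldGeo.form0 S s) - l * (1 - y.ord s + κ y) := by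
        rw [hl0, zero_mul, sub_zero]
        exact h1
      exact_mod_cast h2
    by_cases hy : y ∈ Q
    · have h2 : ∀ j, (idealOrd v (T.a j) : ℝ) = minv (z j) (fun k => y.ord (c j k)) w l :=
        fun j => idealOrd_eq (hid j)
      refine ⟨w, l, ⟨y, hy⟩, hl, hcond w l y hN.1, ?_, fun hno => ?_⟩
      · unfold Triple.disc
        simp only [h2]
        rw [← hr]
        linarith
      · rw [not_or] at hno
        have h3 := hg2 (le_antisymm (not_lt.1 hno.1) hl) hno.2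
        unfold Triple.disc
        simp only [h2]
        rw [← hr]
        linarith
    · have h2 : ∀ j, (idealOrd v (T.a j) : ℝ) =
          minv (z j) (fun k => y0.1.ord (c j k)) w 0 := by
        intro j
        rw [idealOrd_eq (hid j)]
        unfold minv
        congr 2
        ext k
        simp [hoc y hy j k]
      have hset : {i | (0 : ℤ) * y0.1.ord (b i) + ip w (u i) = 0} =
          {i | l * y.ord (b i) + ip w (u i) = 0} := by
        ext i
        rw [Set.mem_setOf_eq, Set.mem_setOf_eq, hob y hy i, zero_mul, mul_zero]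
      have hRD' : T.logDisc v = ∑ i, ψ i * w i + l +
          ((v.logOrd (MldGeo.form0 S s) - l * (1 - y.ord s + κ y) : ℤ) : ℝ) := by
        rw [hRD, hα y fun h => hy (hQP h), mul_one]
      have hl0 : (0 : ℝ) ≤ (l : ℝ) := by exact_mod_cast hl
      refine ⟨w, 0, y0, le_refl 0, ?_, ?_, fun hno => ?_⟩
      · intro i
        have h1 := hcond w l y hN.1 i
        rw [hob y hy i] at h1
        simpa using h1
      · unfold Triple.disc
        simp only [h2]
        rw [hset, ← hr, Int.cast_zero, zero_mul, add_zero]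
        linarith
      · rw [hset, not_or] at hno
        unfold Triple.disc
        simp only [h2]
        rw [hset, ← hr, Int.cast_zero, zero_mul, add_zero]
        rcases hl.eq_or_lt with h4 | h4
        · have h3 := hg2 h4.symm hno.2
          linarith
        · have h5 : (1 : ℝ) ≤ (l : ℝ) := by exact_mod_cast h4
          linarith
  refine ⟨⟨⟨N, u, {y // y ∈ Q}, inferInstance, inferInstance, ?_, fun i y => y.1.ord (b i), hspan,
    ⟨w0, hw0⟩, ?_, ?_, ψ, fun y => α y.1, deg κ, hdeg, ?_, M, hM, z, fun j k y => y.1.ord (c j k),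
    ?_, ?_, ?_, ?_, ?_, ?_, ?_⟩, hlowp⟩⟩
  · -- two places
    rw [Fintype.card_coe]
    refine le_trans ?_ (Finset.card_le_card hQ2)
    rw [Finset.card_pair]
    intro h
    exact hy2 (by simp [h])
  · -- sum_e
    intro i
    rw [DAT.sum_ord Q (Eb i) (b i) (hEb i) (hQb i), hEb0 i]
  · -- nz
    intro p hp
    have h1 := hPRO S N u b hb0 hbR hgen Q (fun y hy i => hob y hy i)
      (fun y => if h : y ∈ Q then p ⟨y, h⟩ else 0) (by
        intro y hy i
        simp only [hy, dite_true]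
        exact hp ⟨y, hy⟩ i)
    rwa [sum_dite Q p] at h1
  · -- sum_α
    rw [Finset.sum_coe_sort Q (fun y => 1 - α y), ← hsum]
    symm
    refine Finset.sum_subset hQP ?_
    intro y _ hy
    rw [hα y hy, sub_self]
  · -- sum_c
    intro j k
    rw [DAT.sum_ord Q (Ec j k) (c j k) (hEc j k) (hQc j k), hEc0 j k]
  · -- reg
    intro j k w l y hl h
    exact hnn w l y.1 hl h (c j k) (z j k) (hc0 j k) (hcR j k)
  · -- low
    intro v hv
    obtain ⟨w, l, y, hl, hal⟩ := hRSV S v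
    have hN := (hTHR S v w l y).2.1 hal hv.1
    have hid := fun j => hidl j v w l y hv.1 hal
    have hRD := hlow v w l y hl hal hv
    by_cases hy : y ∈ Q
    · refine ⟨w, l, ⟨y, hy⟩, hl, hcond w l y hN.1, fun hAt i => hN.2 hAt (b i) (u i) (hb0 i)
        (hu0 i) (hbR i), ?_⟩
      unfold Triple.disc
      have h2 : ∀ j, (idealOrd v (T.a j) : ℝ) = minv (z j) (fun k => y.ord (c j k)) w l :=
        fun j => idealOrd_eq (hid j)
      simp only [h2]
      linarith
    · refine ⟨w, 0, y0, le_refl 0, ?_, ?_, ?_⟩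
      · intro i
        have h1 := hcond w l y hN.1 i
        rw [hob y hy i] at h1
        simpa using h1
      · intro hAt i
        have h1 := hN.2 hAt (b i) (u i) (hb0 i) (hu0 i) (hbR i)
        rw [hob y hy i] at h1
        simpa using h1
      · unfold Triple.disc
        have h2 : ∀ j, (idealOrd v (T.a j) : ℝ) =
            minv (z j) (fun k => y0.1.ord (c j k)) w 0 := by
          intro j
          rw [idealOrd_eq (hid j)]
          unfold minv
          congr 2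
          ext k
          simp [hoc y hy j k]
        simp only [h2]
        rw [hα y fun h => hy (hQP h)] at hRD
        have h3 : (0 : ℝ) ≤ (l : ℝ) := by exact_mod_cast hl
        push_cast
        linarith
  · -- tor
    intro w l y hl hp h
    obtain ⟨v, hv, hN, hth⟩ := hkey w l y hl hp h
    refine ⟨v, hth, ?_, fun hpos => ((hTHR S v w l y.1).1 hv hN).2 (hpp w l y.1 hl hpos)⟩
    unfold Triple.disc
    rw [htor v w l y.1 hl hv hth]
    have h2 : ∀ j, (idealOrd v (T.a j) : ℝ) = minv (z j) (fun k => y.1.ord (c j k)) w l :=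
      fun j => idealOrd_eq (hidl j v w l y.1 hth.1 (along_of_isTor hv))
    simp only [h2]
  · -- ath
    intro v hv
    exact (hTHR S v 0 0 y1).2.2 hv
  · -- vert
    intro w l y hl hp h u' E hli hE hup heq
    obtain ⟨v, hv, hN, hth⟩ := hkey w l y hl.le hp h
    choose E' hE'1 hE'2 hE'3 using fun k => hE' (E k)
    obtain ⟨P', hP'⟩ := hHTV S v w l y.1 hl hv hN u' E' hli (fun k => by rw [hE'3 k]; exact hE k)
      (by
        intro k w' l' y' hl' hN'
        by_cases hy' : y' ∈ Q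
        · rw [hE'1 k y' hy']
          exact hup k w' l' ⟨y', hy'⟩ hl' (hcond w' l' y' hN')
        · rw [hE'2 k y' hy', mul_zero]
          have h1 := hup k w' 0 y0 (le_refl 0) (by
            intro i
            have h1 := hcond w' l' y' hN' i
            rw [hob y' hy' i] at h1
            simpa using h1)
          simpa using h1)
      (fun k => by rw [hE'1 k y.1 y.2]; exact heq k)
    refine ⟨P', le_m hth hP', v, hP', ?_⟩
    rw [htor v w l y.1 hl.le hv hth]
    ring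
  · -- hori
    intro w hm hp h u' E hli hE hup heq
    obtain ⟨v, hv, hN, hth⟩ := hkey w 0 y0 (le_refl 0) hp (by simpa using h)
    choose E' hE'1 hE'2 hE'3 using fun k => hE' (E k)
    obtain ⟨P', hP'⟩ := hHTR S v w y0.1 hm hv hN u' E' hli (fun k => by rw [hE'3 k]; exact hE k)
      (by
        intro k w' l' y' hl' hN'
        by_cases hy' : y' ∈ Q
        · rw [hE'1 k y' hy']
          exact hup k w' l' ⟨y', hy'⟩ hl' (hcond w' l' y' hN')
        · rw [hE'2 k y' hy', mul_zero]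
          have h1 := hup k w' 0 y0 (le_refl 0) (by
            intro i
            have h1 := hcond w' l' y' hN' i
            rw [hob y' hy' i] at h1
            simpa using h1)
          simpa using h1)
      heq
    refine ⟨P', le_m hth hP', v, hP', ?_⟩
    rw [htor v w 0 y0.1 (le_refl 0) hv hth]
    push_cast
    ring

end

end LSCM
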