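import Pool.Agent.LSCM.StN
import Pool.Agent.LSCM.DTP

/-!
# DTN: the combinatorial data with the refined lower bound in a neighbourhood exist
-/

set_option autoImplicit false

namespace LSCM

open MldGap MldGeo MvPolynomial

noncomputable section

open M_DTP MldGeo.DAT in
theorem t_DTN (hRNA : Stmt_RNA) (hSTA : Stmt_STA) (hSEL : Stmt_SEL) (hLGO : MldGeo.Stmt_LGO)
    (hSPL : MldGeo.Stmt_SPL) (hK0C : MldGeo.Stmt_K0C) (hDER : MldGeo.Stmt_DER)
    (hCAN : MldGeo.Stmt_CAN) (hDGK : MldGeo.Stmt_DGK) (hGEN : MldGeo.Stmt_GEN)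
    (hIDL : MldGeo.Stmt_IDL) (hPRF : MldGeo.Stmt_PRF) (hPRO : MldGeo.Stmt_PRO)
    (hNNG : MldGeo.Stmt_NNG) (hTHR : MldGeo.Stmt_THR) (hRSV : MldGeo.Stmt_RSV)
    (hTOX : MldGeo.Stmt_TOX) (hHTV : MldGeo.Stmt_HTV) (hHTR : MldGeo.Stmt_HTR) : Stmt_DTN := by
  classical
  intro m X A T hT
  obtain ⟨S⟩ := hSPL A
  have hC := hK0C A
  obtain ⟨s, hs⟩ := hC.1
  obtain ⟨D, hD1, hD2⟩ := hDER hC s hs
  have hD0 : D ≠ 0 := by
    rintro rfl
    simp at hD1
  obtain ⟨κ, hκ⟩ := hCAN hC D hD0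
  have hdeg := hDGK hC D hD0 κ hκ
  obtain ⟨hne, -, hlgo⟩ := hLGO S s hs D ⟨hD1, hD2⟩ κ hκ
  obtain ⟨ψ, α, P, g, hg, hα, hsum, htor', hrda⟩ := hRNA S s hs D ⟨hD1, hD2⟩ κ hκ T hT
  have htor : ∀ v w l y, 0 ≤ l → MldGeo.IsTor S v w l y → X.Through v →
      T.logDisc v = ∑ i, ψ i * w i + l * α y := fun v w l y hl hal hv =>
    htor' v w l y hl hal (near_of_through hg hv)
  have hlow : ∀ v w l y, 0 ≤ l → MldGeo.Along S v w l y → X.Through v →
      ∑ i, ψ i * w i + l * α y ≤ T.logDisc v := by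
    intro v w l y hl hal hv
    rw [hrda v w l y hl hal (near_of_through hg hv)]
    have h1 : (0 : ℝ) ≤ ((v.logOrd (MldGeo.form0 S s) - l * (1 - y.ord s + κ y) : ℤ) : ℝ) := by
      have h2 := hlgo v w l y hl hal
      exact_mod_cast sub_nonneg.2 h2
    linarith
  obtain ⟨N, u, b, hb0, hbR, hgen, hspan, w0, hw0⟩ := hGEN S
  obtain ⟨hP1, -, hP3⟩ := hPRF hC
  have hI := fun j : T.J => hIDL S (T.a j) (T.a_ne j) (hT.2 j)
  choose M z c hM hc0 hcR hidl using hI
  choose Eb hEb hEb0 using fun i => hP1 (b i) (hb0 i)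
  choose Ec hEc hEc0 using fun j k => hP1 (c j k) (hc0 j k)
  obtain ⟨y1, -⟩ := hP3 ∅
  obtain ⟨y2, hy2⟩ := hP3 {y1}
  obtain ⟨Q, hQP, hQb, hQc, hQ2⟩ : ∃ Q : Finset (DivVal 1 A.K0), P ⊆ Q ∧
      (∀ i, (Eb i).support ⊆ Q) ∧ (∀ j k, (Ec j k).support ⊆ Q) ∧ {y1, y2} ⊆ Q := by
    refine ⟨P ∪ (Finset.univ.biUnion fun i => (Eb i).support) ∪
      (Finset.univ.biUnion fun j => Finset.univ.biUnion fun k => (Ec j k).support) ∪ {y1, y2},
      ?_, ?_, ?_, ?_⟩
    · intro y hy
      simp [hy]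
    · intro i y hy
      simp only [Finset.mem_union, Finset.mem_biUnion, Finset.mem_univ, true_and]
      exact Or.inl (Or.inl (Or.inr ⟨i, hy⟩))
    · intro j k y hy
      simp only [Finset.mem_union, Finset.mem_biUnion, Finset.mem_univ, true_and]
      exact Or.inl (Or.inr ⟨j, k, hy⟩)
    · intro y hy
      exact Finset.mem_union_right _ hy
  have hob : ∀ y, y ∉ Q → ∀ i, y.ord (b i) = 0 := by
    intro y hy i
    rw [← hEb i y]
    exact Finsupp.notMem_support_iff.1 fun h => hy (hQb i h)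
  have hoc : ∀ y, y ∉ Q → ∀ j k, y.ord (c j k) = 0 := by
    intro y hy j k
    rw [← hEc j k y]
    exact Finsupp.notMem_support_iff.1 fun h => hy (hQc j k h)
  have hu0 : ∀ i, u i ≠ 0 := by
    intro i hi
    have h1 := hw0 i
    rw [hi] at h1
    simp [ip] at h1
  have hnn : ∀ (w : Fin m → ℤ) (l : ℤ) (y : DivVal 1 A.K0), 0 ≤ l →
      (∀ i, 0 ≤ l * y.ord (b i) + ip w (u i)) → MldGeo.NonnegR S w l y := fun w l y hl h =>
    (hNNG S N u b hb0 hbR hgen w l y hl).1 h
  have hpp : ∀ (w : Fin m → ℤ) (l : ℤ) (y : DivVal 1 A.K0), 0 ≤ l →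
      (∀ i, 0 < l * y.ord (b i) + ip w (u i)) → MldGeo.PosR S w l y := fun w l y hl h =>
    (hNNG S N u b hb0 hbR hgen w l y hl).2 h
  let y0 : {y // y ∈ Q} := ⟨y1, hQ2 (by simp)⟩
  have hE' : ∀ (E : {y // y ∈ Q} → ℤ), ∃ E' : DivVal 1 A.K0 →₀ ℤ,
      (∀ y (h : y ∈ Q), E' y = E ⟨y, h⟩) ∧ (∀ y, y ∉ Q → E' y = 0) ∧ deg E' = ∑ y, E y := by
    intro E
    refine ⟨Finsupp.onFinset Q (fun y => if h : y ∈ Q then E ⟨y, h⟩ else 0) ?_, ?_, ?_, ?_⟩
    · intro y hy
      by_contra h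
      exact hy (by simp [h])
    · intro y h
      simp [h]
    · intro y h
      simp [h]
    · unfold deg
      rw [Finsupp.onFinset_sum _ (fun _ => rfl)]
      exact sum_dite Q E
  have hkey : ∀ (w : Fin m → ℤ) (l : ℤ) (y : {y // y ∈ Q}), 0 ≤ l → Primv w l →
      (∀ i, 0 ≤ l * y.1.ord (b i) + ip w (u i)) → ∃ v, MldGeo.IsTor S v w l y.1 ∧
        MldGeo.NonnegR S w l y.1 ∧ X.Through v := by
    intro w l y hl hp h
    obtain ⟨v, hv⟩ := hTOX S w l y.1 hl hp
    have hN := hnn w l y.1 hl h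
    exact ⟨v, hv, hN, ((hTHR S v w l y.1).1 hv hN).1⟩
  have hcond : ∀ (w' : Fin m → ℤ) (l' : ℤ) (y' : DivVal 1 A.K0), MldGeo.NonnegR S w' l' y' →
      ∀ i, 0 ≤ l' * y'.ord (b i) + ip w' (u i) := fun w' l' y' h i => h (b i) (u i) (hb0 i) (hbR i)
  have hlowp : ∀ v, Near X g v → ∀ k : ℕ, DimLE X v k →
      ∃ (w : Fin m → ℤ) (l : ℤ) (y : {y // y ∈ Q}), 0 ≤ l ∧
      (∀ i, 0 ≤ l * y.1.ord (b i) + ip w (u i)) ∧
      (∑ i, ψ i * w i + l * α y.1 - ∑ j, T.r j * minv (z j) (fun k => y.1.ord (c j k)) w l) +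
        rkI u {i | l * y.1.ord (b i) + ip w (u i) = 0} ≤ T.disc v + k ∧
      (¬ (0 < l ∨ ∃ L : {y // y ∈ Q} → Fin m → ℝ,
          ∀ i ∈ {i | l * y.1.ord (b i) + ip w (u i) = 0}, ∀ y' : {y // y ∈ Q},
            pr (L y') (u i) = -(y'.1.ord (b i) : ℝ)) →
        (∑ i, ψ i * w i + l * α y.1 - ∑ j, T.r j * minv (z j) (fun k => y.1.ord (c j k)) w l) +
          rkI u {i | l * y.1.ord (b i) + ip w (u i) = 0} + 1 ≤ T.disc v + k) := by
    intro v hv k hk
    obtain ⟨w, l, y, hl, hal⟩ := hRSV S v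
    have hN := (hTHR S v w l y).2.1 hal hv.1
    have hid := fun j => hidl j v w l y hv.1 hal
    have hRD := hrda v w l y hl hal hv
    obtain ⟨hk1, hk2⟩ := key hSTA hSEL S hC s hs hne D ⟨hD1, hD2⟩ κ hκ u b hb0 hbR v w l y hl hal
      k hk {i | l * y.ord (b i) + ip w (u i) = 0} (fun i => Iff.rfl) {y // y ∈ Q} (fun y' => y'.1)
    set r : ℕ := rkI u {i | l * y.ord (b i) + ip w (u i) = 0} with hr
    have hg1 : (r : ℝ) - k ≤
        ((v.logOrd (MldGeo.form0 S s) - l * (1 - y.ord s + κ y) : ℤ) : ℝ) := by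
      have h1 : (r : ℤ) - k ≤ v.logOrd (MldGeo.form0 S s) - l * (1 - y.ord s + κ y) := by
        linarith
      exact_mod_cast h1
    have hg2 : l = 0 → (¬ ∃ L : {y // y ∈ Q} → Fin m → ℝ,
        ∀ i ∈ {i | l * y.ord (b i) + ip w (u i) = 0}, ∀ y' : {y // y ∈ Q},
          pr (L y') (u i) = -(y'.1.ord (b i) : ℝ)) → (r : ℝ) + 1 - k ≤
        ((v.logOrd (MldGeo.form0 S s) - l * (1 - y.ord s + κ y) : ℤ) : ℝ) := by
      intro hl0 hL
      have h1 := hk2 hl0 hL
      have h2 : (r : ℤ) + 1 - k ≤ v.logOrd (MldGeo.form0 S s) - l * (1 - y.ord s + κ y) := by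
        rw [hl0, zero_mul, sub_zero]
        exact h1
      exact_mod_cast h2
    by_cases hy : y ∈ Q
    · have h2 : ∀ j, (idealOrd v (T.a j) : ℝ) = minv (z j) (fun k => y.ord (c j k)) w l :=
        fun j => idealOrd_eq (hid j)
      refine ⟨w, l, ⟨y, hy⟩, hl, hcond w l y hN.1, ?_, fun hno => ?_⟩
      · unfold Triple.disc
        simp only [h2]
        rw [← hr]
        linarith
      · rw [not_or] at hno
        have h3 := hg2 (le_antisymm (not_lt.1 hno.1) hl) hno.2
        unfold Triple.disc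
        simp only [h2]
        rw [← hr]
        linarith
    · have h2 : ∀ j, (idealOrd v (T.a j) : ℝ) =
          minv (z j) (fun k => y0.1.ord (c j k)) w 0 := by
        intro j
        rw [idealOrd_eq (hid j)]
        unfold minv
        congr 2
        ext k
        simp [hoc y hy j k]
      have hset : {i | (0 : ℤ) * y0.1.ord (b i) + ip w (u i) = 0} =
          {i | l * y.ord (b i) + ip w (u i) = 0} := by
        ext i
        rw [Set.mem_setOf_eq, Set.mem_setOf_eq, hob y hy i, zero_mul, mul_zero]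
      have hRD' : T.logDisc v = ∑ i, ψ i * w i + l +
          ((v.logOrd (MldGeo.form0 S s) - l * (1 - y.ord s + κ y) : ℤ) : ℝ) := by
        rw [hRD, hα y fun h => hy (hQP h), mul_one]
      have hl0 : (0 : ℝ) ≤ (l : ℝ) := by exact_mod_cast hl
      refine ⟨w, 0, y0, le_refl 0, ?_, ?_, fun hno => ?_⟩
      · intro i
        have h1 := hcond w l y hN.1 i
        rw [hob y hy i] at h1
        simpa using h1
      · unfold Triple.disc
        simp only [h2]
        rw [hset, ← hr, Int.cast_zero, zero_mul, add_zero]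
        linarith
      · rw [hset, not_or] at hno
        unfold Triple.disc
        simp only [h2]
        rw [hset, ← hr, Int.cast_zero, zero_mul, add_zero]
        rcases hl.eq_or_lt with h4 | h4
        · have h3 := hg2 h4.symm hno.2
          linarith
        · have h5 : (1 : ℝ) ≤ (l : ℝ) := by exact_mod_cast h4
          linarith
  refine ⟨⟨⟨N, u, {y // y ∈ Q}, inferInstance, inferInstance, ?_, fun i y => y.1.ord (b i), hspan,
    ⟨w0, hw0⟩, ?_, ?_, ψ, fun y => α y.1, deg κ, hdeg, ?_, M, hM, z, fun j k y => y.1.ord (c j k),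
    ?_, ?_, ?_, ?_, ?_, ?_, ?_⟩, g, hg, hlowp⟩⟩
  · -- two places
    rw [Fintype.card_coe]
    refine le_trans ?_ (Finset.card_le_card hQ2)
    rw [Finset.card_pair]
    intro h
    exact hy2 (by simp [h])
  · -- sum_e
    intro i
    rw [DAT.sum_ord Q (Eb i) (b i) (hEb i) (hQb i), hEb0 i]
  · -- nz
    intro p hp
    have h1 := hPRO S N u b hb0 hbR hgen Q (fun y hy i => hob y hy i)
      (fun y => if h : y ∈ Q then p ⟨y, h⟩ else 0) (by
        intro y hy i
        simp only [hy, dite_true]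
        exact hp ⟨y, hy⟩ i)
    rwa [sum_dite Q p] at h1
  · -- sum_α
    rw [Finset.sum_coe_sort Q (fun y => 1 - α y), ← hsum]
    symm
    refine Finset.sum_subset hQP ?_
    intro y _ hy
    rw [hα y hy, sub_self]
  · -- sum_c
    intro j k
    rw [DAT.sum_ord Q (Ec j k) (c j k) (hEc j k) (hQc j k), hEc0 j k]
  · -- reg
    intro j k w l y hl h
    exact hnn w l y.1 hl h (c j k) (z j k) (hc0 j k) (hcR j k)
  · -- low
    intro v hv
    obtain ⟨w, l, y, hl, hal⟩ := hRSV S v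
    have hN := (hTHR S v w l y).2.1 hal hv.1
    have hid := fun j => hidl j v w l y hv.1 hal
    have hRD := hlow v w l y hl hal hv
    by_cases hy : y ∈ Q
    · refine ⟨w, l, ⟨y, hy⟩, hl, hcond w l y hN.1, fun hAt i => hN.2 hAt (b i) (u i) (hb0 i)
        (hu0 i) (hbR i), ?_⟩
      unfold Triple.disc
      have h2 : ∀ j, (idealOrd v (T.a j) : ℝ) = minv (z j) (fun k => y.ord (c j k)) w l :=
        fun j => idealOrd_eq (hid j)
      simp only [h2]
      linarith
    · refine ⟨w, 0, y0, le_refl 0, ?_, ?_, ?_⟩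
      · intro i
        have h1 := hcond w l y hN.1 i
        rw [hob y hy i] at h1
        simpa using h1
      · intro hAt i
        have h1 := hN.2 hAt (b i) (u i) (hb0 i) (hu0 i) (hbR i)
        rw [hob y hy i] at h1
        simpa using h1
      · unfold Triple.disc
        have h2 : ∀ j, (idealOrd v (T.a j) : ℝ) =
            minv (z j) (fun k => y0.1.ord (c j k)) w 0 := by
          intro j
          rw [idealOrd_eq (hid j)]
          unfold minv
          congr 2
          ext k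
          simp [hoc y hy j k]
        simp only [h2]
        rw [hα y fun h => hy (hQP h)] at hRD
        have h3 : (0 : ℝ) ≤ (l : ℝ) := by exact_mod_cast hl
        push_cast
        linarith
  · -- tor
    intro w l y hl hp h
    obtain ⟨v, hv, hN, hth⟩ := hkey w l y hl hp h
    refine ⟨v, hth, ?_, fun hpos => ((hTHR S v w l y.1).1 hv hN).2 (hpp w l y.1 hl hpos)⟩
    unfold Triple.disc
    rw [htor v w l y.1 hl hv hth]
    have h2 : ∀ j, (idealOrd v (T.a j) : ℝ) = minv (z j) (fun k => y.1.ord (c j k)) w l :=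
      fun j => idealOrd_eq (hidl j v w l y.1 hth.1 (along_of_isTor hv))
    simp only [h2]
  · -- ath
    intro v hv
    exact (hTHR S v 0 0 y1).2.2 hv
  · -- vert
    intro w l y hl hp h u' E hli hE hup heq
    obtain ⟨v, hv, hN, hth⟩ := hkey w l y hl.le hp h
    choose E' hE'1 hE'2 hE'3 using fun k => hE' (E k)
    obtain ⟨P', hP'⟩ := hHTV S v w l y.1 hl hv hN u' E' hli (fun k => by rw [hE'3 k]; exact hE k)
      (by
        intro k w' l' y' hl' hN'
        by_cases hy' : y' ∈ Q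
        · rw [hE'1 k y' hy']
          exact hup k w' l' ⟨y', hy'⟩ hl' (hcond w' l' y' hN')
        · rw [hE'2 k y' hy', mul_zero]
          have h1 := hup k w' 0 y0 (le_refl 0) (by
            intro i
            have h1 := hcond w' l' y' hN' i
            rw [hob y' hy' i] at h1
            simpa using h1)
          simpa using h1)
      (fun k => by rw [hE'1 k y.1 y.2]; exact heq k)
    refine ⟨P', le_m hth hP', v, hP', ?_⟩
    rw [htor v w l y.1 hl.le hv hth]
    ring
  · -- hori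
    intro w hm hp h u' E hli hE hup heq
    obtain ⟨v, hv, hN, hth⟩ := hkey w 0 y0 (le_refl 0) hp (by simpa using h)
    choose E' hE'1 hE'2 hE'3 using fun k => hE' (E k)
    obtain ⟨P', hP'⟩ := hHTR S v w y0.1 hm hv hN u' E' hli (fun k => by rw [hE'3 k]; exact hE k)
      (by
        intro k w' l' y' hl' hN'
        by_cases hy' : y' ∈ Q
        · rw [hE'1 k y' hy']
          exact hup k w' l' ⟨y', hy'⟩ hl' (hcond w' l' y' hN')
        · rw [hE'2 k y' hy', mul_zero]
          have h1 := hup k w' 0 y0 (le_refl 0) (by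
            intro i
            have h1 := hcond w' l' y' hN' i
            rw [hob y' hy' i] at h1
            simpa using h1)
          simpa using h1)
      heq
    refine ⟨P', le_m hth hP', v, hP', ?_⟩
    rw [htor v w 0 y0.1 (le_refl 0) hv hth]
    push_cast
    ring

end

end LSCM
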