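import Pool.Agent.LSCM.StB
import Pool.Agent.MldG.DAZ
import Pool.Agent.MldGeo.Ord

/-!
# Lower semicontinuity: the combinatorial data of formally toric triples, with the refined bound
-/

set_option autoImplicit false

namespace LSCM

open MldGap MldGeo MvPolynomial

noncomputable section

namespace M_DZP

/-- a nonzero order means transcendental -/
theorem transc {F : Type} [Field F] [Algebra ℂ F] (y : DivVal 1 F) {t : F} (h : y.ord t ≠ 0) :
    Transcendental ℂ t := by
  intro hal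
  have hint : IsIntegral ℂ t := hal.isIntegral
  obtain ⟨c, hc⟩ := minpoly.mem_range_of_degree_eq_one ℂ t
    (IsAlgClosed.degree_eq_one_of_irreducible ℂ (minpoly.irreducible hint))
  have h1 := y.ord_const c
  rw [hc] at h1
  exact h h1

theorem toR_cons {m : ℕ} (a : ℤ) (u : Fin m → ℤ) :
    toR (Fin.cons a u : Fin (m + 1) → ℤ) = Fin.cons (a : ℝ) (toR u) := by
  funext i
  refine Fin.cases ?_ (fun i => ?_) i
  · rfl
  · rfl

/-- the inclusion of the last coordinates -/
def inc (m : ℕ) : (Fin m → ℝ) →ₗ[ℝ] (Fin (m + 1) → ℝ) where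
  toFun x := Fin.cons 0 x
  map_add' x y := by
    funext i
    refine Fin.cases ?_ (fun i => ?_) i
    · simp
    · simp
  map_smul' c x := by
    funext i
    refine Fin.cases ?_ (fun i => ?_) i
    · simp
    · simp

theorem rk_le_succ {m N : ℕ} (e : Fin N → ℤ) (u : Fin N → Fin m → ℤ) (I : Set (Fin N)) :
    rkI (fun i => (Fin.cons (e i) (u i) : Fin (m + 1) → ℤ)) I ≤ rkI u I + 1 := by
  unfold rkI
  set V := Submodule.span ℝ ((fun i => toR (u i)) '' I) with hV
  have h1 : Submodule.span ℝ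
      ((fun i => toR (Fin.cons (e i) (u i) : Fin (m + 1) → ℤ)) '' I) ≤
      Submodule.map (inc m) V ⊔ Submodule.span ℝ {(Pi.single 0 1 : Fin (m + 1) → ℝ)} := by
    rw [Submodule.span_le]
    rintro _ ⟨i, hi, rfl⟩
    have h2 : toR (Fin.cons (e i) (u i) : Fin (m + 1) → ℤ) =
        inc m (toR (u i)) + (e i : ℝ) • (Pi.single 0 1 : Fin (m + 1) → ℝ) := by
      rw [toR_cons]
      funext j
      refine Fin.cases ?_ (fun j => ?_) j
      · simp [inc]
      · simp [inc]
    show toR (Fin.cons (e i) (u i) : Fin (m + 1) → ℤ) ∈ _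
    rw [h2]
    refine Submodule.add_mem _ ?_ ?_
    · exact (le_sup_left : Submodule.map (inc m) V ≤ _)
        (Submodule.mem_map_of_mem (Submodule.subset_span ⟨i, hi, rfl⟩))
    · exact (le_sup_right : Submodule.span ℝ {(Pi.single 0 1 : Fin (m + 1) → ℝ)} ≤ _)
        (Submodule.smul_mem _ _ (Submodule.mem_span_singleton_self _))
  have h3 := Submodule.finrank_mono h1
  have h4 := Submodule.finrank_add_le_finrank_add_finrank (Submodule.map (inc m) V)
    (Submodule.span ℝ {(Pi.single 0 1 : Fin (m + 1) → ℝ)})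
  have h5 : Module.finrank ℝ (Submodule.map (inc m) V) ≤ Module.finrank ℝ V :=
    Submodule.finrank_map_le _ _
  have h6 : Module.finrank ℝ (Submodule.span ℝ {(Pi.single 0 1 : Fin (m + 1) → ℝ)}) ≤ 1 := by
    refine (finrank_span_le_card _).trans ?_
    simp
  exact h3.trans (h4.trans (add_le_add h5 h6))

theorem rk_le_of_comb {m N k : ℕ} (U : Fin N → Fin m → ℤ) (I : Set (Fin N)) (f : Fin k → Fin N)
    (h : ∀ i ∈ I, ∃ (M : ℤ) (c : Fin k → ℤ), M ≠ 0 ∧ M • U i = ∑ j, c j • U (f j)) :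
    rkI U I ≤ k := by
  unfold rkI
  have h1 : Submodule.span ℝ ((fun i => toR (U i)) '' I) ≤
      Submodule.span ℝ (Set.range fun j => toR (U (f j))) := by
    rw [Submodule.span_le]
    rintro _ ⟨i, hi, rfl⟩
    obtain ⟨M, c, hM, hc⟩ := h i hi
    have hM' : (M : ℝ) ≠ 0 := Int.cast_ne_zero.2 hM
    have h2 : toR (U i) = (M : ℝ)⁻¹ • ∑ j, (c j : ℝ) • toR (U (f j)) := by
      rw [eq_inv_smul_iff₀ hM']
      funext a
      have h3 := congrFun hc a
      simp only [Pi.smul_apply, Finset.sum_apply, smul_eq_mul] at h3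
      simp only [Pi.smul_apply, Finset.sum_apply, smul_eq_mul, toR]
      exact_mod_cast h3
    show toR (U i) ∈ _
    rw [h2]
    refine Submodule.smul_mem _ _ (Submodule.sum_mem _ fun j _ => ?_)
    exact Submodule.smul_mem _ _ (Submodule.subset_span ⟨j, rfl⟩)
  calc Module.finrank ℝ (Submodule.span ℝ ((fun i => toR (U i)) '' I))
      ≤ Module.finrank ℝ (Submodule.span ℝ (Set.range fun j => toR (U (f j)))) :=
        Submodule.finrank_mono h1
    _ ≤ Fintype.card (Fin k) := finrank_range_le_card _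
    _ = k := Fintype.card_fin k

end M_DZP

open M_DZP MldG in
theorem t_DZP (hRDB : Stmt_RDB) (hSTA : Stmt_STA) (hSEL : Stmt_SEL) (hSPL : MldG.Stmt_SPL)
    (hK0C : MldG.Stmt_K0C) (hDER : MldGeo.Stmt_DER) (hCAN : MldGeo.Stmt_CAN)
    (hLGO : MldG.Stmt_LGO) (hIDL : MldG.Stmt_IDL) (hTOX : MldG.Stmt_TOX)
    (hCYZ : MldG.Stmt_CYZ) (hGEZ : MldG.Stmt_GEZ) (hNGZ : MldG.Stmt_NGZ)
    (hTHZ : MldG.Stmt_THZ) (hRAZ : MldG.Stmt_RAZ) : Stmt_DZP := by
  classical
  intro m X A T hT hF hne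
  obtain ⟨y₀, hy₀⟩ := hCYZ A hne
  obtain ⟨S⟩ := hSPL A
  have hC := hK0C A
  obtain ⟨s, hs⟩ := hC.1
  obtain ⟨D, hD1, hD2⟩ := hDER hC s hs
  have hD0 : D ≠ 0 := by
    rintro rfl
    simp at hD1
  obtain ⟨κ, hκ⟩ := hCAN hC D hD0
  have hform : MldG.form0 S s ≠ 0 := (hLGO S s hs D ⟨hD1, hD2⟩ (fun y => κ y) hκ).1
  have hlo := (hLGO S s hs D ⟨hD1, hD2⟩ (fun y => κ y) hκ).2.2
  obtain ⟨ψ, α, -, -, -, htor, hlow⟩ := hRDB S s hs D ⟨hD1, hD2⟩ κ hκ T hT
  obtain ⟨N, u, b, hb0, hbm, hgen, hspan, ⟨l0, w0, hw0⟩, hlnn⟩ := hGEZ A S y₀ hF hy₀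
  have hI := fun j : T.J => hIDL S (T.a j) (T.a_ne j) (hT.2 j)
  choose M z c hM hc0 hcR hidl using hI
  have hng := hNGZ A S y₀ hF hy₀ N u b hb0 hbm hgen
  obtain ⟨hth1, hth2⟩ := hTHZ A S y₀ hF hy₀
  have hU : ∀ (w : Fin (m + 1) → ℤ) (i : Fin N),
      ip w (Fin.cons (y₀.ord (b i)) (u i)) = w 0 * y₀.ord (b i) + ip (Fin.tail w) (u i) :=
    fun w i => DAZ.ip_cons w _ _
  have hl0 : ∀ w : Fin (m + 1) → ℤ, (∀ i, 0 ≤ ip w (Fin.cons (y₀.ord (b i)) (u i))) → 0 ≤ w 0 :=
    fun w h => hlnn (w 0) (Fin.tail w) (fun i => by rw [← hU]; exact h i)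
  have hnn : ∀ w : Fin (m + 1) → ℤ, (∀ i, 0 ≤ ip w (Fin.cons (y₀.ord (b i)) (u i))) →
      NonnegR S (Fin.tail w) (w 0) y₀ :=
    fun w h => (hng (w 0) (Fin.tail w) (hl0 w h)).1 (fun i => by rw [← hU]; exact h i)
  have hkey : ∀ w : Fin (m + 1) → ℤ, (∃ u, ip w u = 1) →
      (∀ i, 0 ≤ ip w (Fin.cons (y₀.ord (b i)) (u i))) → ∃ v, IsTor S v (Fin.tail w) (w 0) y₀ ∧
        NonnegR S (Fin.tail w) (w 0) y₀ ∧ X.Through v := by
    intro w hp h
    have hl := hl0 w h
    have hN := hnn w h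
    obtain ⟨v, hv⟩ := hTOX S (Fin.tail w) (w 0) y₀ hl (by
      obtain ⟨x, hx⟩ := hp
      refine ⟨x 0, Fin.tail x, ?_⟩
      rw [← DAZ.ip_cons, Fin.cons_self_tail]
      exact hx)
    exact ⟨v, hv, hN, (hth1 v _ _ hl hv hN).1⟩
  -- the discrepancy and the invariant form
  have hdz : ∀ (v : DivVal (m + 1) X.K) (w : Fin m → ℤ) (l : ℤ), 0 ≤ l → Along S v w l y₀ →
      X.Through v → T.disc v =
      (∑ i, (Fin.cons (α y₀) ψ : Fin (m + 1) → ℝ) i * ((Fin.cons l w : Fin (m + 1) → ℤ) i : ℝ) -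
        ∑ j, T.r j * minz (fun k => (Fin.cons (y₀.ord (c j k)) (z j k) : Fin (m + 1) → ℤ))
          (Fin.cons l w)) +
      ((v.logOrd (MldG.form0 S s) - l * (1 - y₀.ord s + κ y₀) : ℤ) : ℝ) := by
    intro v w l hl hal hv
    have hRD := hlow v w l y₀ hl hal hv
    have h2 : ∀ j, (idealOrd v (T.a j) : ℝ) =
        minz (fun k => (Fin.cons (y₀.ord (c j k)) (z j k) : Fin (m + 1) → ℤ)) (Fin.cons l w) :=
      fun j => DAZ.idealOrd_eq (hidl j v w l y₀ hv.1 hal)
    rw [DAZ.sum_cons]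
    unfold Triple.disc
    simp only [h2, Fin.tail_cons, Fin.cons_zero]
    rw [hRD]
    ring
  refine ⟨{
    dat := {
      N := N
      U := fun i => Fin.cons (y₀.ord (b i)) (u i)
      span := ?_
      int := ?_
      ψ := Fin.cons (α y₀) ψ
      M := M
      M_pos := hM
      z := fun j k => Fin.cons (y₀.ord (c j k)) (z j k)
      reg := ?_
      low := ?_
      tor := ?_
      ath := fun v hv => (t_ATH X).2 v hv
      ray := ?_ }
    lowp := ?_ }⟩
  · -- span
    intro w hw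
    obtain ⟨h1, h2⟩ := hspan (w 0) (Fin.tail w) (fun i => by rw [← DAZ.pr_cons]; exact hw i)
    rw [← Fin.cons_self_tail w, h1, h2]
    funext i
    refine Fin.cases ?_ (fun j => ?_) i
    · rw [Fin.cons_zero]; rfl
    · rw [Fin.cons_succ]; rfl
  · -- int
    exact ⟨Fin.cons l0 w0, fun i => by rw [DAZ.ip_cons_cons]; exact hw0 i⟩
  · -- reg
    intro j k w h
    show 0 ≤ ip w (Fin.cons (y₀.ord (c j k)) (z j k))
    rw [DAZ.ip_cons]
    exact hnn w h (c j k) (z j k) (hc0 j k) (hcR j k)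
  · -- low
    intro v hv
    obtain ⟨w, l, hl, hal, hN, hAt⟩ := hth2 v hv
    refine ⟨Fin.cons l w, fun i => ?_, fun h i => ?_, ?_⟩
    · show 0 ≤ ip _ (Fin.cons (y₀.ord (b i)) (u i))
      rw [DAZ.ip_cons_cons]
      obtain ⟨h1, _⟩ := hbm i
      exact hN (b i) (u i) (hb0 i) h1
    · show 0 < ip _ (Fin.cons (y₀.ord (b i)) (u i))
      rw [DAZ.ip_cons_cons]
      obtain ⟨h1, h2⟩ := hbm i
      exact hAt h (b i) (u i) h1 (hb0 i) h2
    · rw [hdz v w l hl hal hv]
      have h1 : (0 : ℝ) ≤ ((v.logOrd (MldG.form0 S s) - l * (1 - y₀.ord s + κ y₀) : ℤ) : ℝ) :=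
        Int.cast_nonneg (sub_nonneg.2 (hlo v w l y₀ hl hal))
      linarith
  · -- tor
    intro w hp h
    obtain ⟨v, hv, hN, hth⟩ := hkey w hp h
    have hl := hl0 w h
    refine ⟨v, hth, ?_, fun hpos => (hth1 v _ _ hl hv hN).2 ?_⟩
    · unfold Triple.disc
      rw [htor v (Fin.tail w) (w 0) y₀ hl hv hth, DAZ.sum_cons]
      have h2 : ∀ j, (idealOrd v (T.a j) : ℝ) =
          minz (fun k => (Fin.cons (y₀.ord (c j k)) (z j k) : Fin (m + 1) → ℤ)) w := by
        intro j
        have h3 := DAZ.idealOrd_eq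
          (hidl j v (Fin.tail w) (w 0) y₀ hth.1 (DAZ.along_of_isTor hv))
        rw [Fin.cons_self_tail] at h3
        exact h3
      simp only [h2]
    · exact (hng (w 0) (Fin.tail w) hl).2 (fun i => by rw [← hU]; exact hpos i)
  · -- ray
    intro w hp h Z hli hZ hZ0
    obtain ⟨v, hv, hN, hth⟩ := hkey w hp h
    have hl := hl0 w h
    have hZe : ∀ k, (Fin.cons (Z k 0) (Fin.tail (Z k)) : Fin (m + 1) → ℤ) = Z k :=
      fun k => Fin.cons_self_tail _
    obtain ⟨P, hP⟩ := hRAZ A S y₀ hF hy₀ v (Fin.tail w) (w 0) hl hv hN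
      (fun k => Fin.tail (Z k)) (fun k => Z k 0) (by simp only [hZe]; exact hli)
      (by
        intro k w' l' hl' hN'
        have h1 := hZ k (Fin.cons l' w') (by
          intro i
          show 0 ≤ ip _ (Fin.cons (y₀.ord (b i)) (u i))
          rw [DAZ.ip_cons_cons]
          obtain ⟨h1, _⟩ := hbm i
          exact hN' (b i) (u i) (hb0 i) h1)
        rw [← hZe k, DAZ.ip_cons_cons] at h1
        exact h1)
      (by
        intro k
        have h1 := hZ0 k
        rw [← hZe k, DAZ.ip_cons] at h1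
        exact h1)
    refine ⟨P, DAZ.le_m hth hP, v, hP, ?_⟩
    rw [htor v (Fin.tail w) (w 0) y₀ hl hv hth, DAZ.sum_cons]
    ring
  · -- lowp
    intro v hv k hk
    obtain ⟨w, l, hl, hal, hN, -⟩ := hth2 v hv
    refine ⟨Fin.cons l w, fun i => ?_, ?_⟩
    · show 0 ≤ ip _ (Fin.cons (y₀.ord (b i)) (u i))
      rw [DAZ.ip_cons_cons]
      obtain ⟨h1, _⟩ := hbm i
      exact hN (b i) (u i) (hb0 i) h1
    set I : Set (Fin N) := {i | ip (Fin.cons l w : Fin (m + 1) → ℤ)
      (Fin.cons (y₀.ord (b i)) (u i)) = 0} with hIdef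
    have hIz : ∀ i ∈ I, l * y₀.ord (b i) + ip w (u i) = 0 := by
      intro i hi
      rw [hIdef, Set.mem_setOf_eq, DAZ.ip_cons_cons] at hi
      exact hi
    obtain ⟨f, hfI, hfl, hfc⟩ := hSEL u I
    obtain ⟨hst1, hst2⟩ := hSTA X.trdeg A.K0 S.χ hC S.zero S.add s hs hform D ⟨hD1, hD2⟩
      (fun y => κ y) hκ v w l y₀ hl hal {a : X.K | a ∈ X.R} k hk (rkI u I) (fun j => b (f j))
      (fun j => u (f j)) (fun j => hb0 _) (fun j => (hbm (f j)).1) (fun j => hIz _ (hfI j)) hfl
    have hrk : ((rkI (fun i => (Fin.cons (y₀.ord (b i)) (u i) : Fin (m + 1) → ℤ)) I : ℕ) : ℤ) ≤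
        (v.logOrd (MldG.form0 S s) - l * (1 - y₀.ord s + κ y₀)) + k := by
      by_cases hall : ∀ i ∈ I, ∃ (M : ℤ) (c : Fin (rkI u I) → ℤ), M ≠ 0 ∧
          M • u i = ∑ j, c j • u (f j) ∧
          M * y₀.ord (b i) = ∑ j, c j * y₀.ord (b (f j))
      · have h1 := rk_le_of_comb
          (fun i => (Fin.cons (y₀.ord (b i)) (u i) : Fin (m + 1) → ℤ)) I f (by
            intro i hi
            obtain ⟨M, c, hM0, h1, h2⟩ := hall i hi
            refine ⟨M, c, hM0, ?_⟩
            funext a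
            refine Fin.cases ?_ (fun a => ?_) a
            · simp only [Pi.smul_apply, Finset.sum_apply, Fin.cons_zero, smul_eq_mul]
              exact h2
            · have h3 := congrFun h1 a
              simp only [Pi.smul_apply, Finset.sum_apply, smul_eq_mul] at h3
              simp only [Pi.smul_apply, Finset.sum_apply, Fin.cons_succ, smul_eq_mul]
              exact h3)
        have h2 : ((rkI (fun i => (Fin.cons (y₀.ord (b i)) (u i) : Fin (m + 1) → ℤ)) I : ℕ) : ℤ)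
            ≤ (rkI u I : ℤ) := Int.ofNat_le.2 h1
        have h3 : l * (1 - y₀.ord s + κ y₀) + ((rkI u I : ℤ) - k) ≤
          v.logOrd (MldG.form0 S s) := hst1
        linarith
      · push Not at hall
        obtain ⟨i, hi, hall⟩ := hall
        obtain ⟨M, c, hM0, hMc⟩ := hfc i hi
        have hne' := hall M c hM0 hMc
        have hsum : M * (l * y₀.ord (b i) + ip w (u i)) -
            ∑ j, c j * (l * y₀.ord (b (f j)) + ip w (u (f j))) = 0 := by
          rw [hIz i hi, mul_zero, zero_sub, neg_eq_zero]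
          exact Finset.sum_eq_zero fun j _ => by rw [hIz _ (hfI j), mul_zero]
        have hip : M * ip w (u i) = ∑ j, c j * ip w (u (f j)) := by
          have h1 : ∀ (a : ℤ) (x : Fin m → ℤ), a * ip w x = ip w (a • x) := by
            intro a x
            unfold ip
            rw [Finset.mul_sum]
            refine Finset.sum_congr rfl fun q _ => ?_
            rw [Pi.smul_apply, smul_eq_mul]
            ring
          rw [h1, hMc]
          simp only [h1]
          unfold ip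
          rw [Finset.sum_comm]
          refine Finset.sum_congr rfl fun q _ => ?_
          rw [Finset.sum_apply, Finset.mul_sum]
        have hlz : l = 0 := by
          have h1 : l * (M * y₀.ord (b i) - ∑ j, c j * y₀.ord (b (f j))) = 0 := by
            have h2 : ∑ j, c j * (l * y₀.ord (b (f j)) + ip w (u (f j))) =
                l * ∑ j, c j * y₀.ord (b (f j)) + ∑ j, c j * ip w (u (f j)) := by
              rw [Finset.mul_sum, ← Finset.sum_add_distrib]
              exact Finset.sum_congr rfl fun j _ => by ring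
            rw [h2, ← hip] at hsum
            linarith
          rcases mul_eq_zero.1 h1 with h2 | h2
          · exact h2
          · exact absurd (sub_eq_zero.1 h2) hne'
        have htr : Transcendental ℂ (b i ^ M * (∏ j, b (f j) ^ c j)⁻¹) := by
          refine transc y₀ ?_
          have h1 : ∏ j, b (f j) ^ c j ≠ 0 :=
            Finset.prod_ne_zero_iff.2 fun j _ => zpow_ne_zero _ (hb0 _)
          rw [y₀.ord_mul _ _ (zpow_ne_zero _ (hb0 i)) (inv_ne_zero h1), DivVal.ord_inv,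
            DivVal.ord_zpow, DivVal.ord_prod _ _ _ fun j _ => zpow_ne_zero _ (hb0 _)]
          simp only [DivVal.ord_zpow]
          intro h2
          exact hne' (by linarith)
        have hipi : ip w (u i) = 0 := by
          have := hIz i hi
          rw [hlz, zero_mul, zero_add] at this
          exact this
        have h1 := hst2 hlz (b i) (u i) (hb0 i) (hbm i).1 hipi M c hM0 hMc htr
        have h2 := rk_le_succ (fun i => y₀.ord (b i)) u I
        have h3 : ((rkI (fun i => (Fin.cons (y₀.ord (b i)) (u i) : Fin (m + 1) → ℤ)) I : ℕ) : ℤ)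
            ≤ (rkI u I : ℤ) + 1 := by
          exact_mod_cast h2
        have h4 : (rkI u I : ℤ) + 1 - k ≤ v.logOrd (MldG.form0 S s) := h1
        rw [hlz, zero_mul, sub_zero]
        linarith
    have hrk' : ((rkI (fun i => (Fin.cons (y₀.ord (b i)) (u i) : Fin (m + 1) → ℤ)) I : ℕ) : ℝ) ≤
        ((v.logOrd (MldG.form0 S s) - l * (1 - y₀.ord s + κ y₀) : ℤ) : ℝ) + k := by
      exact_mod_cast hrk
    rw [hdz v w l hl hal hv]
    show (∑ i, (Fin.cons (α y₀) ψ : Fin (m + 1) → ℝ) i *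
        ((Fin.cons l w : Fin (m + 1) → ℤ) i : ℝ) -
        ∑ j, T.r j * minz (fun k => (Fin.cons (y₀.ord (c j k)) (z j k) : Fin (m + 1) → ℤ))
          (Fin.cons l w)) +
      ((rkI (fun i => (Fin.cons (y₀.ord (b i)) (u i) : Fin (m + 1) → ℤ)) I : ℕ) : ℝ) ≤ _
    linarith

end

end LSCM
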