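import Pool.Agent.LSCM.StN
import Pool.Agent.LSCM.DZP
import Pool.Agent.MldG.DAZ
import Pool.Agent.MldGeo.Ord
import Pool.Agent.MldGeo.CAN

/-!
# Lower semicontinuity: the combinatorial data of formally toric triples, in a neighbourhood
-/

set_option autoImplicit false

namespace LSCM

open MldGap MldGeo MvPolynomial

noncomputable section

open M_DZP MldG in
theorem t_DZN (hRNB : Stmt_RNB) (hAVO : Stmt_AVO) (hRSV : MldG.Stmt_RSV)
    (hPRF : MldGeo.Stmt_PRF) (hSTA : Stmt_STA) (hSEL : Stmt_SEL) (hSPL : MldG.Stmt_SPL)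
    (hK0C : MldG.Stmt_K0C) (hDER : MldGeo.Stmt_DER) (hCAN : MldGeo.Stmt_CAN)
    (hLGO : MldG.Stmt_LGO) (hIDL : MldG.Stmt_IDL) (hTOX : MldG.Stmt_TOX)
    (hCYZ : MldG.Stmt_CYZ) (hGEZ : MldG.Stmt_GEZ) (hNGZ : MldG.Stmt_NGZ)
    (hTHZ : MldG.Stmt_THZ) (hRAZ : MldG.Stmt_RAZ) : Stmt_DZN := by
  classical
  intro m X A T hT hF hne
  obtain ⟨y₀, hy₀⟩ := hCYZ A hne
  obtain ⟨S⟩ := hSPL A
  have hC := hK0C A
  obtain ⟨s, hs⟩ := hC.1
  obtain ⟨D, hD1, hD2⟩ := hDER hC s hs
  have hD0 : D ≠ 0 := by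
    rintro rfl
    simp at hD1
  obtain ⟨κ, hκ⟩ := hCAN hC D hD0
  have hform : MldG.form0 S s ≠ 0 := (hLGO S s hs D ⟨hD1, hD2⟩ (fun y => κ y) hκ).1
  have hlo := (hLGO S s hs D ⟨hD1, hD2⟩ (fun y => κ y) hκ).2.2
  obtain ⟨ψ, α, P, g₁, hg₁, hα, -, htorN, hlowN⟩ := hRNB S s hs D ⟨hD1, hD2⟩ κ hκ T hT
  have htor : ∀ v w l y, 0 ≤ l → IsTor S v w l y → X.Through v →
      T.logDisc v = ∑ i, ψ i * w i + l * α y :=
    fun v w l y hl hv hth => htorN v w l y hl hv (near_of_through hg₁ hth)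
  obtain ⟨N, u, b, hb0, hbm, hgen, hspan, ⟨l0, w0, hw0⟩, hlnn⟩ := hGEZ A S y₀ hF hy₀
  have hI := fun j : T.J => hIDL S (T.a j) (T.a_ne j) (hT.2 j)
  choose M z c hM hc0 hcR hidl using hI
  have hng := hNGZ A S y₀ hF hy₀ N u b hb0 hbm hgen
  obtain ⟨hth1, hth2⟩ := hTHZ A S y₀ hF hy₀
  have hU : ∀ (w : Fin (m + 1) → ℤ) (i : Fin N),
      ip w (Fin.cons (y₀.ord (b i)) (u i)) = w 0 * y₀.ord (b i) + ip (Fin.tail w) (u i) :=
    fun w i => DAZ.ip_cons w _ _
  have hl0 : ∀ w : Fin (m + 1) → ℤ, (∀ i, 0 ≤ ip w (Fin.cons (y₀.ord (b i)) (u i))) → 0 ≤ w 0 :=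
    fun w h => hlnn (w 0) (Fin.tail w) (fun i => by rw [← hU]; exact h i)
  have hnn : ∀ w : Fin (m + 1) → ℤ, (∀ i, 0 ≤ ip w (Fin.cons (y₀.ord (b i)) (u i))) →
      NonnegR S (Fin.tail w) (w 0) y₀ :=
    fun w h => (hng (w 0) (Fin.tail w) (hl0 w h)).1 (fun i => by rw [← hU]; exact h i)
  have hkey : ∀ w : Fin (m + 1) → ℤ, (∃ u, ip w u = 1) →
      (∀ i, 0 ≤ ip w (Fin.cons (y₀.ord (b i)) (u i))) → ∃ v, IsTor S v (Fin.tail w) (w 0) y₀ ∧
        NonnegR S (Fin.tail w) (w 0) y₀ ∧ X.Through v := by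
    intro w hp h
    have hl := hl0 w h
    have hN := hnn w h
    obtain ⟨v, hv⟩ := hTOX S (Fin.tail w) (w 0) y₀ hl (by
      obtain ⟨x, hx⟩ := hp
      refine ⟨x 0, Fin.tail x, ?_⟩
      rw [← DAZ.ip_cons, Fin.cons_self_tail]
      exact hx)
    exact ⟨v, hv, hN, (hth1 v _ _ hl hv hN).1⟩
  -- the discrepancy and the invariant form
  have hdzN : ∀ (v : DivVal (m + 1) X.K) (w : Fin m → ℤ) (l : ℤ) (y : DivVal 1 A.K0), 0 ≤ l →
      Along S v w l y → Near X g₁ v → T.disc v =
      (∑ i, (Fin.cons (α y) ψ : Fin (m + 1) → ℝ) i * ((Fin.cons l w : Fin (m + 1) → ℤ) i : ℝ) -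
        ∑ j, T.r j * minz (fun k => (Fin.cons (y.ord (c j k)) (z j k) : Fin (m + 1) → ℤ))
          (Fin.cons l w)) +
      ((v.logOrd (MldG.form0 S s) - l * (1 - y.ord s + κ y) : ℤ) : ℝ) := by
    intro v w l y hl hal hv
    have hRD := hlowN v w l y hl hal hv
    have h2 : ∀ j, (idealOrd v (T.a j) : ℝ) =
        minz (fun k => (Fin.cons (y.ord (c j k)) (z j k) : Fin (m + 1) → ℤ)) (Fin.cons l w) :=
      fun j => DAZ.idealOrd_eq (hidl j v w l y hv.1 hal)
    rw [DAZ.sum_cons]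
    unfold Triple.disc
    simp only [h2, Fin.tail_cons, Fin.cons_zero]
    rw [hRD]
    ring
  have hdz : ∀ (v : DivVal (m + 1) X.K) (w : Fin m → ℤ) (l : ℤ), 0 ≤ l → Along S v w l y₀ →
      X.Through v → T.disc v =
      (∑ i, (Fin.cons (α y₀) ψ : Fin (m + 1) → ℝ) i * ((Fin.cons l w : Fin (m + 1) → ℤ) i : ℝ) -
        ∑ j, T.r j * minz (fun k => (Fin.cons (y₀.ord (c j k)) (z j k) : Fin (m + 1) → ℤ))
          (Fin.cons l w)) +
      ((v.logOrd (MldG.form0 S s) - l * (1 - y₀.ord s + κ y₀) : ℤ) : ℝ) :=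
    fun v w l hl hal hv => hdzN v w l y₀ hl hal (near_of_through hg₁ hv)
  -- the rank of the generators which do not vanish at the centre
  have hst : ∀ (v : DivVal (m + 1) X.K) (w : Fin m → ℤ) (l : ℤ) (y : DivVal 1 A.K0) (k : ℕ),
      0 ≤ l → Along S v w l y → DimLE X v k →
      ((rkI u {i | l * y.ord (b i) + ip w (u i) = 0} : ℕ) : ℤ) ≤
        (v.logOrd (MldG.form0 S s) - l * (1 - y.ord s + κ y)) + k ∧
      ((rkI (fun i => (Fin.cons (y.ord (b i)) (u i) : Fin (m + 1) → ℤ))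
        {i | l * y.ord (b i) + ip w (u i) = 0} : ℕ) : ℤ) ≤
        (v.logOrd (MldG.form0 S s) - l * (1 - y.ord s + κ y)) + k := by
    intro v w l y k hl hal hk
    set I : Set (Fin N) := {i | l * y.ord (b i) + ip w (u i) = 0} with hIdef
    have hIz : ∀ i ∈ I, l * y.ord (b i) + ip w (u i) = 0 := fun i hi => hi
    obtain ⟨f, hfI, hfl, hfc⟩ := hSEL u I
    obtain ⟨hst1, hst2⟩ := hSTA X.trdeg A.K0 S.χ hC S.zero S.add s hs hform D ⟨hD1, hD2⟩
      (fun y => κ y) hκ v w l y hl hal {a : X.K | a ∈ X.R} k hk (rkI u I) (fun j => b (f j))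
      (fun j => u (f j)) (fun j => hb0 _) (fun j => (hbm (f j)).1) (fun j => hIz _ (hfI j)) hfl
    have hrk : ((rkI (fun i => (Fin.cons (y.ord (b i)) (u i) : Fin (m + 1) → ℤ)) I : ℕ) : ℤ) ≤
        (v.logOrd (MldG.form0 S s) - l * (1 - y.ord s + κ y)) + k := by
      by_cases hall : ∀ i ∈ I, ∃ (M : ℤ) (c : Fin (rkI u I) → ℤ), M ≠ 0 ∧
          M • u i = ∑ j, c j • u (f j) ∧
          M * y.ord (b i) = ∑ j, c j * y.ord (b (f j))
      · have h1 := rk_le_of_comb
          (fun i => (Fin.cons (y.ord (b i)) (u i) : Fin (m + 1) → ℤ)) I f (by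
            intro i hi
            obtain ⟨M, c, hM0, h1, h2⟩ := hall i hi
            refine ⟨M, c, hM0, ?_⟩
            funext a
            refine Fin.cases ?_ (fun a => ?_) a
            · simp only [Pi.smul_apply, Finset.sum_apply, Fin.cons_zero, smul_eq_mul]
              exact h2
            · have h3 := congrFun h1 a
              simp only [Pi.smul_apply, Finset.sum_apply, smul_eq_mul] at h3
              simp only [Pi.smul_apply, Finset.sum_apply, Fin.cons_succ, smul_eq_mul]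
              exact h3)
        have h2 : ((rkI (fun i => (Fin.cons (y.ord (b i)) (u i) : Fin (m + 1) → ℤ)) I : ℕ) : ℤ)
            ≤ (rkI u I : ℤ) := Int.ofNat_le.2 h1
        have h3 : l * (1 - y.ord s + κ y) + ((rkI u I : ℤ) - k) ≤
          v.logOrd (MldG.form0 S s) := hst1
        linarith
      · push Not at hall
        obtain ⟨i, hi, hall⟩ := hall
        obtain ⟨M, c, hM0, hMc⟩ := hfc i hi
        have hne' := hall M c hM0 hMc
        have hsum : M * (l * y.ord (b i) + ip w (u i)) -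
            ∑ j, c j * (l * y.ord (b (f j)) + ip w (u (f j))) = 0 := by
          rw [hIz i hi, mul_zero, zero_sub, neg_eq_zero]
          exact Finset.sum_eq_zero fun j _ => by rw [hIz _ (hfI j), mul_zero]
        have hip : M * ip w (u i) = ∑ j, c j * ip w (u (f j)) := by
          have h1 : ∀ (a : ℤ) (x : Fin m → ℤ), a * ip w x = ip w (a • x) := by
            intro a x
            unfold ip
            rw [Finset.mul_sum]
            refine Finset.sum_congr rfl fun q _ => ?_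
            rw [Pi.smul_apply, smul_eq_mul]
            ring
          rw [h1, hMc]
          simp only [h1]
          unfold ip
          rw [Finset.sum_comm]
          refine Finset.sum_congr rfl fun q _ => ?_
          rw [Finset.sum_apply, Finset.mul_sum]
        have hlz : l = 0 := by
          have h1 : l * (M * y.ord (b i) - ∑ j, c j * y.ord (b (f j))) = 0 := by
            have h2 : ∑ j, c j * (l * y.ord (b (f j)) + ip w (u (f j))) =
                l * ∑ j, c j * y.ord (b (f j)) + ∑ j, c j * ip w (u (f j)) := by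
              rw [Finset.mul_sum, ← Finset.sum_add_distrib]
              exact Finset.sum_congr rfl fun j _ => by ring
            rw [h2, ← hip] at hsum
            linarith
          rcases mul_eq_zero.1 h1 with h2 | h2
          · exact h2
          · exact absurd (sub_eq_zero.1 h2) hne'
        have htr : Transcendental ℂ (b i ^ M * (∏ j, b (f j) ^ c j)⁻¹) := by
          refine transc y ?_
          have h1 : ∏ j, b (f j) ^ c j ≠ 0 :=
            Finset.prod_ne_zero_iff.2 fun j _ => zpow_ne_zero _ (hb0 _)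
          rw [y.ord_mul _ _ (zpow_ne_zero _ (hb0 i)) (inv_ne_zero h1), DivVal.ord_inv,
            DivVal.ord_zpow, DivVal.ord_prod _ _ _ fun j _ => zpow_ne_zero _ (hb0 _)]
          simp only [DivVal.ord_zpow]
          intro h2
          exact hne' (by linarith)
        have hipi : ip w (u i) = 0 := by
          have := hIz i hi
          rw [hlz, zero_mul, zero_add] at this
          exact this
        have h1 := hst2 hlz (b i) (u i) (hb0 i) (hbm i).1 hipi M c hM0 hMc htr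
        have h2 := rk_le_succ (fun i => y.ord (b i)) u I
        have h3 : ((rkI (fun i => (Fin.cons (y.ord (b i)) (u i) : Fin (m + 1) → ℤ)) I : ℕ) : ℤ)
            ≤ (rkI u I : ℤ) + 1 := by
          exact_mod_cast h2
        have h4 : (rkI u I : ℤ) + 1 - k ≤ v.logOrd (MldG.form0 S s) := h1
        rw [hlz, zero_mul, sub_zero]
        linarith
    have hst3 : l * (1 - y.ord s + κ y) + ((rkI u I : ℤ) - k) ≤
        v.logOrd (MldG.form0 S s) := hst1
    exact ⟨by linarith, hrk⟩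
  -- finitely many places
  obtain ⟨Q₁, hQ₁⟩ := MldGeo.CAN.exists_supp_finset hPRF hC
    ((Finset.univ.image b) ∪ Finset.univ.biUnion fun j : T.J => Finset.univ.image (c j))
  obtain ⟨g₂, hg₂, hav⟩ := hAVO A S y₀ hy₀ (P ∪ Q₁)
  refine ⟨{
    dat := {
      N := N
      U := fun i => Fin.cons (y₀.ord (b i)) (u i)
      span := ?_
      int := ?_
      ψ := Fin.cons (α y₀) ψ
      M := M
      M_pos := hM
      z := fun j k => Fin.cons (y₀.ord (c j k)) (z j k)
      reg := ?_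
      low := ?_
      tor := ?_
      ath := fun v hv => (t_ATH X).2 v hv
      ray := ?_ }
    lown := ?_ }⟩
  · -- span
    intro w hw
    obtain ⟨h1, h2⟩ := hspan (w 0) (Fin.tail w) (fun i => by rw [← DAZ.pr_cons]; exact hw i)
    rw [← Fin.cons_self_tail w, h1, h2]
    funext i
    refine Fin.cases ?_ (fun j => ?_) i
    · rw [Fin.cons_zero]; rfl
    · rw [Fin.cons_succ]; rfl
  · -- int
    exact ⟨Fin.cons l0 w0, fun i => by rw [DAZ.ip_cons_cons]; exact hw0 i⟩
  · -- reg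
    intro j k w h
    show 0 ≤ ip w (Fin.cons (y₀.ord (c j k)) (z j k))
    rw [DAZ.ip_cons]
    exact hnn w h (c j k) (z j k) (hc0 j k) (hcR j k)
  · -- low
    intro v hv
    obtain ⟨w, l, hl, hal, hN, hAt⟩ := hth2 v hv
    refine ⟨Fin.cons l w, fun i => ?_, fun h i => ?_, ?_⟩
    · show 0 ≤ ip _ (Fin.cons (y₀.ord (b i)) (u i))
      rw [DAZ.ip_cons_cons]
      obtain ⟨h1, _⟩ := hbm i
      exact hN (b i) (u i) (hb0 i) h1
    · show 0 < ip _ (Fin.cons (y₀.ord (b i)) (u i))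
      rw [DAZ.ip_cons_cons]
      obtain ⟨h1, h2⟩ := hbm i
      exact hAt h (b i) (u i) h1 (hb0 i) h2
    · rw [hdz v w l hl hal hv]
      have h1 : (0 : ℝ) ≤ ((v.logOrd (MldG.form0 S s) - l * (1 - y₀.ord s + κ y₀) : ℤ) : ℝ) :=
        Int.cast_nonneg (sub_nonneg.2 (hlo v w l y₀ hl hal))
      linarith
  · -- tor
    intro w hp h
    obtain ⟨v, hv, hN, hth⟩ := hkey w hp h
    have hl := hl0 w h
    refine ⟨v, hth, ?_, fun hpos => (hth1 v _ _ hl hv hN).2 ?_⟩
    · unfold Triple.disc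
      rw [htor v (Fin.tail w) (w 0) y₀ hl hv hth, DAZ.sum_cons]
      have h2 : ∀ j, (idealOrd v (T.a j) : ℝ) =
          minz (fun k => (Fin.cons (y₀.ord (c j k)) (z j k) : Fin (m + 1) → ℤ)) w := by
        intro j
        have h3 := DAZ.idealOrd_eq
          (hidl j v (Fin.tail w) (w 0) y₀ hth.1 (DAZ.along_of_isTor hv))
        rw [Fin.cons_self_tail] at h3
        exact h3
      simp only [h2]
    · exact (hng (w 0) (Fin.tail w) hl).2 (fun i => by rw [← hU]; exact hpos i)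
  · -- ray
    intro w hp h Z hli hZ hZ0
    obtain ⟨v, hv, hN, hth⟩ := hkey w hp h
    have hl := hl0 w h
    have hZe : ∀ k, (Fin.cons (Z k 0) (Fin.tail (Z k)) : Fin (m + 1) → ℤ) = Z k :=
      fun k => Fin.cons_self_tail _
    obtain ⟨P, hP⟩ := hRAZ A S y₀ hF hy₀ v (Fin.tail w) (w 0) hl hv hN
      (fun k => Fin.tail (Z k)) (fun k => Z k 0) (by simp only [hZe]; exact hli)
      (by
        intro k w' l' hl' hN'
        have h1 := hZ k (Fin.cons l' w') (by
          intro i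
          show 0 ≤ ip _ (Fin.cons (y₀.ord (b i)) (u i))
          rw [DAZ.ip_cons_cons]
          obtain ⟨h1, _⟩ := hbm i
          exact hN' (b i) (u i) (hb0 i) h1)
        rw [← hZe k, DAZ.ip_cons_cons] at h1
        exact h1)
      (by
        intro k
        have h1 := hZ0 k
        rw [← hZe k, DAZ.ip_cons] at h1
        exact h1)
    refine ⟨P, DAZ.le_m hth hP, v, hP, ?_⟩
    rw [htor v (Fin.tail w) (w 0) y₀ hl hv hth, DAZ.sum_cons]
    ring
  · -- lown
    refine ⟨g₁ * g₂, mul_notMem hg₁ hg₂, fun v hv k hk => ?_⟩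
    obtain ⟨hv1, hv2⟩ := near_mul hg₁ hg₂ hv
    obtain ⟨w, l, y, hl, hal⟩ := hRSV S v
    have hN : ∀ i, 0 ≤ l * y.ord (b i) + ip w (u i) := by
      intro i
      obtain ⟨h1, _⟩ := hbm i
      rw [← hal (b i) (u i) (hb0 i)]
      exact hv.1 ⟨(b i : X.K) * S.χ (u i), h1⟩
    by_cases hcase : l = 0 ∨ y = y₀
    · -- the place `y₀`
      have hal' : Along S v w l y₀ := by
        rcases hcase with h | h
        · subst h
          intro b u hb
          rw [hal b u hb, zero_mul, zero_mul]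
        · rw [← h]
          exact hal
      have hN' : ∀ i, 0 ≤ l * y₀.ord (b i) + ip w (u i) := by
        intro i
        rw [← hal' (b i) (u i) (hb0 i), hal (b i) (u i) (hb0 i)]
        exact hN i
      have hI : {i | ip (Fin.cons l w : Fin (m + 1) → ℤ) (Fin.cons (y₀.ord (b i)) (u i)) = 0} =
          {i | l * y₀.ord (b i) + ip w (u i) = 0} := by
        ext i
        rw [Set.mem_setOf_eq, Set.mem_setOf_eq, DAZ.ip_cons_cons]
      have hrk := (hst v w l y₀ k hl hal' hk).2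
      have hrk' : ((rkI (fun i => (Fin.cons (y₀.ord (b i)) (u i) : Fin (m + 1) → ℤ))
          {i | l * y₀.ord (b i) + ip w (u i) = 0} : ℕ) : ℝ) ≤
          ((v.logOrd (MldG.form0 S s) - l * (1 - y₀.ord s + κ y₀) : ℤ) : ℝ) + k := by
        exact_mod_cast hrk
      refine ⟨Fin.cons l w, fun i => ?_, ?_⟩
      · show 0 ≤ ip _ (Fin.cons (y₀.ord (b i)) (u i))
        rw [DAZ.ip_cons_cons]
        exact hN' i
      · rw [hdzN v w l y₀ hl hal' hv1]
        show (∑ i, (Fin.cons (α y₀) ψ : Fin (m + 1) → ℝ) i *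
            ((Fin.cons l w : Fin (m + 1) → ℤ) i : ℝ) -
            ∑ j, T.r j * minz (fun k => (Fin.cons (y₀.ord (c j k)) (z j k) : Fin (m + 1) → ℤ))
              (Fin.cons l w)) +
          ((rkI (fun i => (Fin.cons (y₀.ord (b i)) (u i) : Fin (m + 1) → ℤ))
            {i | ip (Fin.cons l w : Fin (m + 1) → ℤ) (Fin.cons (y₀.ord (b i)) (u i)) = 0} : ℕ)
              : ℝ) ≤ _
        rw [hI]
        linarith
    · -- a general place
      obtain ⟨hl0', hyy⟩ := not_or.1 hcase
      have hlpos : 0 < l := lt_of_le_of_ne hl (Ne.symm hl0')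
      have hyQ : y ∉ P ∪ Q₁ := fun h => hyy (hav v w l y hlpos hal hv2 h)
      have hyP : y ∉ P := fun h => hyQ (Finset.mem_union_left _ h)
      have hyQ1 : y ∉ Q₁ := fun h => hyQ (Finset.mem_union_right _ h)
      have hyb : ∀ i, y.ord (b i) = 0 := fun i => hQ₁ y hyQ1 _
        (Finset.mem_union_left _ (Finset.mem_image_of_mem _ (Finset.mem_univ _)))
      have hyc : ∀ j k, y.ord (c j k) = 0 := fun j k => hQ₁ y hyQ1 _
        (Finset.mem_union_right _ (Finset.mem_biUnion.2 ⟨j, Finset.mem_univ _,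
          Finset.mem_image_of_mem _ (Finset.mem_univ _)⟩))
      have hI : {i | ip (Fin.cons 0 w : Fin (m + 1) → ℤ) (Fin.cons (y₀.ord (b i)) (u i)) = 0} =
          {i | l * y.ord (b i) + ip w (u i) = 0} := by
        ext i
        rw [Set.mem_setOf_eq, Set.mem_setOf_eq, DAZ.ip_cons_cons, hyb i, zero_mul, mul_zero]
      have hrk := (hst v w l y k hl hal hk).1
      have hrk' : ((rkI u {i | l * y.ord (b i) + ip w (u i) = 0} : ℕ) : ℝ) ≤
          ((v.logOrd (MldG.form0 S s) - l * (1 - y.ord s + κ y) : ℤ) : ℝ) + k := by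
        exact_mod_cast hrk
      have hsucc : ((rkI (fun i => (Fin.cons (y₀.ord (b i)) (u i) : Fin (m + 1) → ℤ))
          {i | l * y.ord (b i) + ip w (u i) = 0} : ℕ) : ℝ) ≤
          ((rkI u {i | l * y.ord (b i) + ip w (u i) = 0} : ℕ) : ℝ) + 1 := by
        exact_mod_cast rk_le_succ (fun i => y₀.ord (b i)) u {i | l * y.ord (b i) + ip w (u i) = 0}
      have hmz : ∀ j, minz (fun k => (Fin.cons (y.ord (c j k)) (z j k) : Fin (m + 1) → ℤ))
          (Fin.cons l w) = minz (fun k => (Fin.cons (y₀.ord (c j k)) (z j k) : Fin (m + 1) → ℤ))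
          (Fin.cons 0 w) := by
        intro j
        unfold minz
        congr 2
        funext k
        rw [DAZ.ip_cons_cons, DAZ.ip_cons_cons, hyc j k, zero_mul, mul_zero]
      have hl1 : (1 : ℝ) ≤ (l : ℝ) := by exact_mod_cast hlpos
      refine ⟨Fin.cons 0 w, fun i => ?_, ?_⟩
      · show 0 ≤ ip _ (Fin.cons (y₀.ord (b i)) (u i))
        rw [DAZ.ip_cons_cons, zero_mul]
        have := hN i
        rw [hyb i, mul_zero] at this
        exact this
      · rw [hdzN v w l y hl hal hv1]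
        show (∑ i, (Fin.cons (α y₀) ψ : Fin (m + 1) → ℝ) i *
            ((Fin.cons 0 w : Fin (m + 1) → ℤ) i : ℝ) -
            ∑ j, T.r j * minz (fun k => (Fin.cons (y₀.ord (c j k)) (z j k) : Fin (m + 1) → ℤ))
              (Fin.cons 0 w)) +
          ((rkI (fun i => (Fin.cons (y₀.ord (b i)) (u i) : Fin (m + 1) → ℤ))
            {i | ip (Fin.cons 0 w : Fin (m + 1) → ℤ) (Fin.cons (y₀.ord (b i)) (u i)) = 0} : ℕ)
              : ℝ) ≤ _
        rw [hI, DAZ.sum_cons, DAZ.sum_cons, hα y hyP]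
        simp only [hmz, Fin.tail_cons, Fin.cons_zero, Int.cast_zero, zero_mul, mul_one]
        linarith

end

end LSCM
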