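import Pool.Agent.LSCM.StB
import Pool.Agent.MldGeo.LGO

/-!
# Lower semicontinuity in complexity one, module FOR: changing the first coordinate
-/

set_option autoImplicit false

namespace LSCM

open MldGap MldGeo MvPolynomial

noncomputable section

namespace M_FOR

/-- relation of the differentials in the big field -/
theorem rel {K : Type} [Field K] [Algebra ℂ K] (K0 : IntermediateField ℂ K) (s b d : K0)
    (h : KaehlerDifferential.D ℂ K0 b = d • KaehlerDifferential.D ℂ K0 s) :
    KaehlerDifferential.D ℂ K (b : K) = (d : K) • KaehlerDifferential.D ℂ K (s : K) := by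
  have h1 := congrArg (KaehlerDifferential.map ℂ ℂ K0 K) h
  rw [map_smul, KaehlerDifferential.map_D, KaehlerDifferential.map_D] at h1
  have h3 : (d : K0) • KaehlerDifferential.D ℂ K (algebraMap K0 K s) =
      (algebraMap K0 K d) • KaehlerDifferential.D ℂ K (algebraMap K0 K s) :=
    (algebraMap_smul K d _).symm
  rw [h3] at h1
  exact h1

end M_FOR

open M_FOR in
theorem t_FOR : Stmt_FOR := by
  intro m K _ _ K0 χ s t hs ht D hDt hD
  have hs' : (s : K) ≠ 0 := fun h => hs (Subtype.ext h)
  have ht' : (t : K) ≠ 0 := fun h => ht (Subtype.ext h)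
  have hd' : ((D t : K0) : K) ≠ 0 := fun h => hDt (Subtype.ext h)
  have h2 := rel K0 s t (D t) (hD.2 t)
  refine ⟨fun b => ⟨(D b : K) / (D t : K), ?_⟩, ?_⟩
  · rw [rel K0 s b (D b) (hD.2 b), h2, smul_smul, div_mul_cancel₀ _ hd']
  · refine LGO.dlogs_cons (s : K) (t : K) _ _ ?_
    unfold dlog
    rw [h2, smul_smul, smul_smul]
    congr 1
    push_cast
    field_simp

end

end LSCM
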