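import Pool.Agent.LSCM.StD

/-!
# Lower semicontinuity in complexity one: FRC

Fractions of regular functions at a divisorial valuation.
-/

set_option autoImplicit false

namespace LSCM

open MldGap MldGeo MldG MvPolynomial

noncomputable section

namespace FRCx

variable {n : ℕ} (X : Germ n) (v : DivVal n X.K)

/-- the centre of the valuation -/
def cen (h0 : ∀ a : X.R, 0 ≤ v.ord a) : Ideal X.R where
  carrier := {a | (a : X.K) = 0 ∨ 0 < v.ord a}
  zero_mem' := Or.inl rfl
  add_mem' := by
    intro a b ha hb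
    show ((a + b : X.R) : X.K) = 0 ∨ 0 < v.ord ((a + b : X.R) : X.K)
    have ha' : (a : X.K) = 0 ∨ 0 < v.ord a := ha
    have hb' : (b : X.K) = 0 ∨ 0 < v.ord b := hb
    by_cases h : ((a + b : X.R) : X.K) = 0
    · exact Or.inl h
    refine Or.inr ?_
    have hc : ((a + b : X.R) : X.K) = (a : X.K) + (b : X.K) := rfl
    rw [hc] at h ⊢
    by_cases h1 : (a : X.K) = 0
    · rw [h1, zero_add] at h ⊢
      exact hb'.resolve_left h
    by_cases h2 : (b : X.K) = 0
    · rw [h2, add_zero]
      exact ha'.resolve_left h1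
    exact lt_of_lt_of_le (lt_min (ha'.resolve_left h1) (hb'.resolve_left h2))
      (v.ord_add _ _ h1 h2 h)
  smul_mem' := by
    intro r a ha
    show ((r * a : X.R) : X.K) = 0 ∨ 0 < v.ord ((r * a : X.R) : X.K)
    have ha' : (a : X.K) = 0 ∨ 0 < v.ord a := ha
    have hc : ((r * a : X.R) : X.K) = (r : X.K) * (a : X.K) := rfl
    rw [hc]
    by_cases h1 : (a : X.K) = 0
    · left; rw [h1, mul_zero]
    by_cases h2 : (r : X.K) = 0
    · left; rw [h2, zero_mul]
    right
    rw [v.ord_mul _ _ h2 h1]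
    have := h0 r
    have := ha'.resolve_left h1
    omega

theorem mem_cen (h0 : ∀ a : X.R, 0 ≤ v.ord a) (a : X.R) :
    a ∈ cen X v h0 ↔ ((a : X.K) = 0 ∨ 0 < v.ord a) := Iff.rfl

theorem ord_one : v.ord (1 : X.K) = 0 := by
  have := v.ord_const 1
  rwa [map_one] at this

theorem prime (h0 : ∀ a : X.R, 0 ≤ v.ord a) : (cen X v h0).IsPrime := by
  refine ⟨?_, ?_⟩
  · intro h
    have h1 : (1 : X.R) ∈ cen X v h0 := by rw [h]; exact Submodule.mem_top
    rw [mem_cen] at h1
    rcases h1 with h1 | h1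
    · exact one_ne_zero h1
    · have h2 : ((1 : X.R) : X.K) = 1 := rfl
      rw [h2, ord_one] at h1
      exact lt_irrefl _ h1
  · intro a b hab
    rw [mem_cen] at hab
    rw [mem_cen, mem_cen]
    have hc : ((a * b : X.R) : X.K) = (a : X.K) * (b : X.K) := rfl
    rw [hc] at hab
    by_cases h1 : (a : X.K) = 0
    · exact Or.inl (Or.inl h1)
    by_cases h2 : (b : X.K) = 0
    · exact Or.inr (Or.inl h2)
    rcases hab with hab | hab
    · exact absurd hab (mul_ne_zero h1 h2)
    rw [v.ord_mul _ _ h1 h2] at hab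
    have ha := h0 a
    have hb := h0 b
    by_cases h3 : 0 < v.ord a
    · exact Or.inl (Or.inr h3)
    · right; right; omega

end FRCx

open FRCx in
theorem t_FRC : Stmt_FRC := by
  intro n X v d h0 hd z hz
  classical
  have hP : (cen X v h0).IsPrime := prime X v h0
  -- the transcendence degree of the residue ring
  have htr : Algebra.trdeg ℂ (X.R ⧸ cen X v h0) ≤ (d : Cardinal) := by
    unfold Algebra.trdeg
    refine ciSup_le' fun s => ?_
    by_contra hlt
    push Not at hlt
    have h1 : ((d + 1 : ℕ) : Cardinal) ≤ Cardinal.mk s.1 := by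
      rw [Nat.cast_add, Nat.cast_one, ← Cardinal.succ_natCast]
      exact Order.succ_le_of_lt hlt
    have h2 : Cardinal.mk (Fin (d + 1)) ≤ Cardinal.mk s.1 := by
      rw [Cardinal.mk_fin]; exact h1
    obtain ⟨f⟩ := Cardinal.le_def _ _ |>.1 h2
    have hind : AlgebraicIndependent ℂ (fun i => ((f i : s.1) : X.R ⧸ cen X v h0)) :=
      AlgebraicIndependent.comp (x := fun i : s.1 => (i : X.R ⧸ cen X v h0)) s.2 f f.injective
    choose r hr using fun i => Ideal.Quotient.mk_surjective (I := cen X v h0)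
      ((f i : s.1) : X.R ⧸ cen X v h0)
    obtain ⟨p, hp, hpz⟩ := hd (fun i => (r i : X.K)) fun i => (r i).2
    apply hp
    refine (algebraicIndependent_iff.1 hind) p ?_
    have e1 : aeval (fun i => ((f i : s.1) : X.R ⧸ cen X v h0)) p =
        Ideal.Quotient.mk (cen X v h0) (aeval r p) := by
      have : (fun i => ((f i : s.1) : X.R ⧸ cen X v h0)) =
          fun i => (Ideal.Quotient.mkₐ ℂ (cen X v h0)) (r i) := by
        funext i; exact (hr i).symm
      rw [this]
      exact (comp_aeval_apply r (Ideal.Quotient.mkₐ ℂ (cen X v h0)) p).symm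
    rw [e1, Ideal.Quotient.eq_zero_iff_mem, mem_cen]
    have e2 : ((aeval r p : X.R) : X.K) = aeval (fun i => (r i : X.K)) p := by
      exact comp_aeval_apply r X.R.val p
    rw [e2]
    exact hpz
  -- the localization
  let Lc := Localization.AtPrime (cen X v h0)
  have hK : ∀ y : (cen X v h0).primeCompl, IsUnit (X.R.val y) := by
    intro y
    have hy := y.2
    rw [isUnit_iff_ne_zero]
    intro h
    exact hy ((mem_cen X v h0 _).2 (Or.inl h))
  let A := X.R ⧸ cen X v h0
  let L := FractionRing A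
  let ι : X.R →ₐ[ℂ] L := (IsScalarTower.toAlgHom ℂ A L).comp (Ideal.Quotient.mkₐ ℂ (cen X v h0))
  have hι : ∀ a : X.R, ι a = 0 ↔ a ∈ cen X v h0 := by
    intro a
    show algebraMap A L (Ideal.Quotient.mk (cen X v h0) a) = 0 ↔ _
    rw [FaithfulSMul.algebraMap_eq_zero_iff, Ideal.Quotient.eq_zero_iff_mem]
  have hL : ∀ y : (cen X v h0).primeCompl, IsUnit (ι y) := by
    intro y
    rw [isUnit_iff_ne_zero]
    intro h
    exact y.2 ((hι _).1 h)
  let f : Lc →ₐ[ℂ] X.K := IsLocalization.liftAlgHom (M := (cen X v h0).primeCompl) hK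
  let g : Lc →ₐ[ℂ] L := IsLocalization.liftAlgHom (M := (cen X v h0).primeCompl) hL
  have hf : ∀ a : X.R, f (algebraMap X.R Lc a) = a := fun a => IsLocalization.lift_eq _ _
  have hg : ∀ a : X.R, g (algebraMap X.R Lc a) = ι a := fun a => IsLocalization.lift_eq _ _
  -- the transcendence degree of the residue field
  have htL : Algebra.trdeg ℂ L ≤ (d : Cardinal) := by
    have hal : Algebra.IsAlgebraic A L := IsLocalization.isAlgebraic L (nonZeroDivisors A)
    have h1 := trdeg_add_eq ℂ A (A := L)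
    rw [trdeg_eq_zero (R := A) (A := L), add_zero] at h1
    rw [← h1]
    exact htr
  choose r s hs0 hs hrs using hz
  have hsP : ∀ i, s i ∉ cen X v h0 := by
    intro i hi
    rw [mem_cen] at hi
    rcases hi with hi | hi
    · exact hs0 i hi
    · rw [hs i] at hi
      exact lt_irrefl _ hi
  let sc : Fin (d + 1) → (cen X v h0).primeCompl := fun i => ⟨s i, hsP i⟩
  let y : Fin (d + 1) → Lc := fun i => IsLocalization.mk' Lc (r i) (sc i)
  have hy : ∀ i, y i * algebraMap X.R Lc (s i) = algebraMap X.R Lc (r i) := fun i =>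
    IsLocalization.mk'_spec Lc (r i) (sc i)
  have hfy : ∀ i, f (y i) = z i := by
    intro i
    have h1 := congrArg f (hy i)
    rw [map_mul, hf, hf, ← hrs i] at h1
    exact mul_right_cancel₀ (hs0 i) h1
  -- the residues are dependent
  have hdep : ¬ AlgebraicIndependent ℂ (fun i => g (y i)) := by
    intro hind
    have h1 := hind.cardinalMk_le_trdeg.trans htL
    rw [Cardinal.mk_fin, Nat.cast_le] at h1
    omega
  rw [algebraicIndependent_iff] at hdep
  push Not at hdep
  obtain ⟨p, hp, hp0⟩ := hdep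
  refine ⟨p, hp0, ?_⟩
  obtain ⟨a, b, hab⟩ := IsLocalization.exists_mk'_eq (cen X v h0).primeCompl (aeval y p : Lc)
  have h2 : aeval y p * algebraMap X.R Lc b = algebraMap X.R Lc a := by
    rw [← hab]; exact IsLocalization.mk'_spec Lc a b
  have h3 : g (aeval y p) = 0 := by
    rw [comp_aeval_apply]; exact hp
  have h4 : a ∈ cen X v h0 := by
    rw [← hι, ← hg, ← h2, map_mul, h3, zero_mul]
  have h5 : aeval z p * (b : X.K) = a := by
    have h6 := congrArg f h2
    rw [map_mul, hf, hf, comp_aeval_apply] at h6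
    have e : (fun i => f (y i)) = z := funext hfy
    rw [e] at h6
    exact h6
  by_cases h7 : aeval z p = 0
  · exact Or.inl h7
  right
  have hb : ((b : X.R) : X.K) ≠ 0 := fun h => b.2 ((mem_cen X v h0 _).2 (Or.inl h))
  have hbo : v.ord ((b : X.R) : X.K) = 0 := by
    have h8 := h0 (b : X.R)
    by_contra h9
    exact b.2 ((mem_cen X v h0 _).2 (Or.inr (lt_of_le_of_ne h8 (Ne.symm h9))))
  have ha : (a : X.K) ≠ 0 := by rw [← h5]; exact mul_ne_zero h7 hb
  have hao : 0 < v.ord (a : X.K) := ((mem_cen X v h0 a).1 h4).resolve_left ha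
  rw [← h5, v.ord_mul _ _ h7 hb, hbo, add_zero] at hao
  exact hao

end

end LSCM
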