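import Pool.Agent.LSCM.StN
import Pool.Agent.MldG.FXP

/-!
# Lower semicontinuity in a neighbourhood, module FXN: reduction to a fixed point
-/

set_option autoImplicit false

namespace LSCM

open MldGap MldGeo MldG MvPolynomial

noncomputable section

namespace M_FXN

variable {n m : ℕ}

/-- The induction. -/
theorem step (hAPN : Stmt_APN) (hHOU : MldG.Stmt_HOU) (S : Set ℝ) (hn : 0 < n) (r : ℕ) :
    ∀ (X : Germ n) (A : MldG.TorusAction X m) (T : Triple X), FXP.rk (FXP.unitWts hHOU A) = r →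
      Good A T S → ClosedOrbit A → Sat A →
      ∃ (X' : Germ n) (A' : MldG.TorusAction X' m) (T' : Triple X'),
        Good A' T' S ∧ T'.mld = T.mld ∧ (AmbN T' → AmbN T) ∧ Fixed A' := by
  induction r using Nat.strong_induction_on with
  | _ r ih =>
    intro X A T hr hG hC hS
    by_cases h : ∃ w, w ≠ 0 ∧ UnitWt A w
    · obtain ⟨w, hw, hwU⟩ := h
      obtain ⟨k, u, φ, hk, hwu, hφ⟩ := FXP.exists_primitive w hw
      have hu : UnitWt A u := hS u k hk (by rwa [← hwu])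
      obtain ⟨X', A', T', hG', hT', hM', hC', hS', hU'⟩ := hAPN A T S hn hG hC hS φ u hu hφ
      have hlt : FXP.rk (FXP.unitWts hHOU A') < r := by
        rw [← hr]
        exact FXP.rk_lt _ _ φ u hu hφ hU'
      obtain ⟨X'', A'', T'', hG'', hT'', hM'', hF''⟩ := ih _ hlt X' A' T' rfl hG' hC' hS'
      exact ⟨X'', A'', T'', hG'', by rw [hT'', hT'], fun h1 => hM' (hM'' h1), hF''⟩
    · refine ⟨X, A, T, hG, rfl, fun h1 => h1, fun u hu a ha => ?_⟩
      by_contra hm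
      exact h ⟨u, hu, hC u ⟨a, ha, hm⟩⟩

end M_FXN

theorem t_FXN (hLCN : Stmt_LCN) (hKSN : Stmt_KSN) (hAPN : Stmt_APN) (hHOU : MldG.Stmt_HOU) :
    Stmt_FXN := by
  intro n m X A T S hn hG
  obtain ⟨X1, A1, T1, hG1, hT1, hM1, hC1⟩ := hLCN A T S hn hG
  obtain ⟨X2, A2, T2, hG2, hT2, hM2, hC2, hS2⟩ := hKSN A1 T1 S hn hG1 hC1
  obtain ⟨X3, A3, T3, hG3, hT3, hM3, hF3⟩ := M_FXN.step hAPN hHOU S hn _ X2 A2 T2 rfl hG2 hC2 hS2
  exact ⟨X3, A3, T3, hG3, by rw [hT3, hT2, hT1], fun h => hM1 (hM2 (hM3 h)), hF3⟩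

end

end LSCM
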