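import Pool.Agent.LSCM.StA

/-!
# GSP: the prime divisors and the line span the ambient space
-/

set_option autoImplicit false

namespace LSCM

open MldTv MldGap Finset

namespace M_GSP

variable {m c : ℕ} {X : TVar m c}

theorem mem_of_inC {w : Amb X} (h : inC w) : w ∈ Wsp (univ : Finset (Gen X)) := by
  obtain ⟨a, -, rfl⟩ := h
  refine Submodule.sum_mem _ fun g _ => Submodule.smul_mem _ _ ?_
  cases g with
  | none =>
    exact Submodule.neg_mem _ (Submodule.mem_sup_right (Submodule.mem_span_singleton_self _))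
  | some g =>
    exact Submodule.mem_sup_left (Submodule.subset_span ⟨g, by simp, rfl⟩)

theorem mem_fst (v : Fin m → ℝ) : ((v, 0) : Amb X) ∈ Wsp (univ : Finset (Gen X)) := by
  let S : Submodule ℝ (Fin m → ℝ) :=
    (Wsp (univ : Finset (Gen X))).comap (LinearMap.inl ℝ (Fin m → ℝ) (X.Y → ℝ))
  have hS : ∀ v, v ∈ S ↔ ((v, 0) : Amb X) ∈ Wsp (univ : Finset (Gen X)) := fun v => Iff.rfl
  have hcone : coneOf X.ray ⊆ (S : Set (Fin m → ℝ)) := by
    rintro v ⟨a, -, rfl⟩
    exact Submodule.sum_mem _ fun j _ => Submodule.smul_mem _ _ (mem_of_inC (inC_ray j))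
  have htop : S = ⊤ := Submodule.eq_top_of_nonempty_interior' S (X.full.mono (interior_mono hcone))
  exact (hS v).1 (htop ▸ Submodule.mem_top)

theorem mem_snd (l : X.Y → ℝ) : ((0, l) : Amb X) ∈ Wsp (univ : Finset (Gen X)) := by
  classical
  have h1 : ∀ y : X.Y, ((0, fun z => if z = y then (1 : ℝ) else 0) : Amb X) ∈
      Wsp (univ : Finset (Gen X)) := by
    intro y
    obtain ⟨i⟩ := X.neI y
    have h2 := mem_of_inC (inC_vert (X := X) y i zero_le_one)
    have h3 := mem_fst (X := X) ((1 : ℝ) • X.vert y i)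
    have h4 := Submodule.sub_mem _ h2 h3
    have h5 : (((1 : ℝ) • X.vert y i, fun z => if z = y then (1 : ℝ) else 0) : Amb X) -
        ((1 : ℝ) • X.vert y i, 0) = (0, fun z => if z = y then (1 : ℝ) else 0) := by
      apply Prod.ext
      · simp
      · simp
    rw [h5] at h4
    exact h4
  have h6 : ((0, l) : Amb X) = ∑ y, l y • ((0, fun z => if z = y then (1 : ℝ) else 0) : Amb X) := by
    apply Prod.ext
    · rw [Prod.fst_sum]
      simp
    · rw [Prod.snd_sum]
      funext z
      simp [Finset.sum_apply]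
  rw [h6]
  exact Submodule.sum_mem _ fun y _ => Submodule.smul_mem _ _ (h1 y)

end M_GSP

open M_GSP in
/-- GSP: the prime divisors and the line span the ambient space. -/
theorem t_GSP : Stmt_GSP := by
  intro m c X
  rw [eq_top_iff]
  rintro ⟨v, l⟩ -
  have h := Submodule.add_mem _ (mem_fst (X := X) v) (mem_snd (X := X) l)
  have h2 : ((v, 0) : Amb X) + (0, l) = (v, l) := by simp
  rw [h2] at h
  exact h

end LSCM
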