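import Pool.Agent.LSCM.StA

/-!
# INC: a criterion for `QE`
-/

set_option autoImplicit false

namespace LSCM

open MldTv MldGap Finset

noncomputable section

namespace M_INC

variable {m c : ℕ} {X : TVar m c}

/-- Combinations of the elements of `S` and of the line. -/
def L (S : Finset (Gen X)) : ((S → ℝ) × ℝ) →ₗ[ℝ] Amb X :=
  (Fintype.linearCombination ℝ (fun g : S => gen (g : Gen X))).coprod
    (LinearMap.toSpanSingleton ℝ (Amb X) (T1 X))

theorem L_apply (S : Finset (Gen X)) (x : (S → ℝ) × ℝ) :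
    L S x = ∑ g : S, x.1 g • gen (g : Gen X) + x.2 • T1 X := by
  unfold L
  rw [LinearMap.coprod_apply, Fintype.linearCombination_apply, LinearMap.toSpanSingleton_apply]

theorem L_range (S : Finset (Gen X)) (h : Wsp S = ⊤) : LinearMap.range (L S) = ⊤ := by
  unfold L
  rw [LinearMap.range_coprod, Fintype.range_linearCombination, LinearMap.range_toSpanSingleton,
    ← h]
  unfold Wsp
  congr 2
  ext z
  constructor
  · rintro ⟨g, rfl⟩
    exact ⟨g.1, g.2, rfl⟩
  · rintro ⟨g, hg, rfl⟩
    exact ⟨⟨g, hg⟩, rfl⟩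

theorem exists_delta (f : X.Y → ℝ) (hf : ∀ y, 0 < f y) :
    ∃ δ : ℝ, 0 < δ ∧ ∀ y, δ * X.deg y ≤ f y := by
  have hd : ∀ y : X.Y, (0 : ℝ) < X.deg y := fun y => deg_pos' y
  have h1 : ∀ y, 0 < f y / X.deg y := fun y => div_pos (hf y) (hd y)
  by_cases hne : Nonempty X.Y
  · obtain ⟨y₀, hy₀⟩ := Finite.exists_min fun y => f y / X.deg y
    exact ⟨f y₀ / X.deg y₀, h1 y₀, fun y => (le_div_iff₀ (hd y)).mp (hy₀ y)⟩
  · rw [not_nonempty_iff] at hne
    exact ⟨1, one_pos, fun y => hne.elim y⟩

end M_INC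

theorem t_INC : Stmt_INC := by
  classical
  intro m c X S a t w ha hS hw hW
  have hfst : w.1 = (∑ g ∈ S, a g • gen g + t • T1 X).1 := by rw [hw]
  have hsnd : ∀ y, w.2 y = ∑ g ∈ S, a g * genN g y + t * X.deg y := by
    intro y
    rw [hw, Prod.snd_add, Prod.snd_sum, Pi.add_apply, Finset.sum_apply, Prod.smul_snd,
      Pi.smul_apply]
    congr 1
    refine sum_congr rfl fun g _ => ?_
    rw [Prod.smul_snd, Pi.smul_apply, gen_snd, smul_eq_mul]
  -- strict inequality
  have hpos : ∀ y, 0 < w.2 y - t * X.deg y := by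
    intro y
    rw [hsnd y, add_sub_cancel_right]
    obtain ⟨i, hi⟩ := hS y
    refine sum_pos' (fun g hg => mul_nonneg (ha g hg).le (Nat.cast_nonneg _)) ⟨_, hi, ?_⟩
    refine mul_pos (ha _ hi) ?_
    have h1 : genN (Sum.inl ⟨y, i⟩ : Gen X) y = X.mu y i := by
      unfold genN
      exact if_pos rfl
    rw [h1]
    exact_mod_cast mu_pos y i
  obtain ⟨δ, hδ, hδ'⟩ := M_INC.exists_delta _ hpos
  refine ⟨t + δ, fun y => by have := hδ' y; linarith, ?_⟩
  -- the right inverse
  obtain ⟨R, hR⟩ := LinearMap.exists_rightInverse_of_surjective (M_INC.L S) (M_INC.L_range S hW)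
  have hRc : Continuous R := LinearMap.continuous_of_finiteDimensional R
  have hRL : ∀ z, M_INC.L S (R z) = z := fun z => by
    have := congrArg (fun f => f z) hR
    exact this
  let φ : (Fin m → ℝ) → (S → ℝ) × ℝ := fun z => R ((z - w.1, 0) : Amb X)
  have hφ : Continuous φ := hRc.comp (by fun_prop)
  have hφ0 : φ w.1 = 0 := by
    change R ((w.1 - w.1, 0) : Amb X) = 0
    rw [sub_self]
    exact map_zero R
  rw [mem_interior]
  refine ⟨{z | (∀ g : S, - a g < (φ z).1 g) ∧ (φ z).2 < δ}, ?_, ?_, ?_⟩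
  · rintro z ⟨hz1, hz2⟩
    have h1 := hRL ((z - w.1, 0) : Amb X)
    rw [M_INC.L_apply] at h1
    change ∑ g : S, (φ z).1 g • gen (g : Gen X) + (φ z).2 • T1 X = (z - w.1, 0) at h1
    -- the point with nonnegative coefficients
    obtain ⟨b, hb⟩ : ∃ b : Gen X → ℝ, b = fun g => a g + if h : g ∈ S then (φ z).1 ⟨g, h⟩ else 0 :=
      ⟨_, rfl⟩
    have hb0 : ∀ g ∈ S, 0 ≤ b g := by
      intro g hg
      rw [hb]
      dsimp only
      rw [dif_pos hg]
      have := hz1 ⟨g, hg⟩
      dsimp only at this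
      linarith
    have hbsum : ∑ g ∈ S, b g • gen g = w + ((z - w.1, 0) : Amb X) - (t + (φ z).2) • T1 X := by
      have e1 : ∑ g ∈ S, b g • gen g =
          ∑ g ∈ S, a g • gen g + ∑ g : S, (φ z).1 g • gen (g : Gen X) := by
        rw [← Finset.sum_coe_sort S (fun g => b g • gen g),
          ← Finset.sum_coe_sort S (fun g => a g • gen g), ← sum_add_distrib]
        refine sum_congr rfl fun g _ => ?_
        rw [hb, ← add_smul]
        dsimp only
        rw [dif_pos g.2]
      have e2 : ∑ g : S, (φ z).1 g • gen (g : Gen X) = ((z - w.1, 0) : Amb X) - (φ z).2 • T1 X := by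
        rw [← h1]
        abel
      have e3 : ∑ g ∈ S, a g • gen g = w - t • T1 X := by
        rw [hw]
        abel
      rw [e1, e2, e3, add_smul]
      abel
    have h2 := inP_sum S b hb0
    rw [hbsum] at h2
    unfold inP at h2
    have h3 : (w + ((z - w.1, 0) : Amb X) - (t + (φ z).2) • T1 X).1 = z := by
      change w.1 + (z - w.1) - (t + (φ z).2) • (0 : Fin m → ℝ) = z
      rw [smul_zero, sub_zero]
      abel
    rw [h3] at h2
    refine poly_mono X (fun y => by have := hδ' y; linarith) (r := δ - (φ z).2) (by linarith) ?_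
    convert h2 using 2
    funext y
    change w.2 y - (t + δ) * X.deg y + (δ - (φ z).2) * X.deg y =
      w.2 y + 0 - (t + (φ z).2) * X.deg y
    ring
  · have h1 : IsOpen {z | ∀ g : S, - a g < (φ z).1 g} := by
      rw [Set.setOf_forall]
      exact isOpen_iInter_of_finite fun g =>
        isOpen_lt continuous_const ((continuous_apply g).comp (continuous_fst.comp hφ))
    exact h1.inter (isOpen_lt (continuous_snd.comp hφ) continuous_const)
  · refine ⟨fun g => ?_, ?_⟩
    · rw [hφ0]
      have := ha g g.2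
      change - a g < 0
      linarith
    · rw [hφ0]
      exact hδ

end

end LSCM
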