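import Pool.Agent.LSCM.StN
import Pool.Agent.MldG.KM1

/-!
# One step of the saturation of the group of weights of invertible functions

The proof of `t_KMP` (LSCM/KMP.lean) for lower semicontinuity in a neighbourhood.
-/

set_option autoImplicit false

namespace LSCM

open MldGap MldGeo MldG MvPolynomial

noncomputable section

open MldG.KM1 in
/-- KMN -/
theorem t_KMN (hKUX : Stmt_KUX) (hKUV : Stmt_KUV) (hKUT : Stmt_KUT) (hKUA : Stmt_KUA)
    (_hATH : Stmt_ATH) (hHOU : Stmt_HOU) (hCVN : Stmt_CVN) : Stmt_KMN := by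
  intro n m X A T S hn hG hcl p u hp hu hpu
  obtain ⟨g, hg, hgu⟩ := hpu
  obtain ⟨k⟩ := hKUX X p g hp hgu (not_pow hHOU A hp hu hg hgu)
  obtain ⟨A', hA', hcl', hwt⟩ := hKUA A p g u hn hp hgu hg hcl k
  obtain ⟨T', hT', hI'⟩ := hKUT X p g hn hp hgu k T
  obtain ⟨hV1, hV2⟩ := hKUV X p g hn hp hgu k
  -- prime divisors
  have key : ∀ (P' : Ideal k.X'.R) (b : ℝ), T'.Coeff P' b →
      ∃ P : Ideal X.R, T.Coeff P b ∧ (A.Inv P → A'.Inv P') := by
    rintro P' b ⟨hP'm, v', hv', hb⟩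
    obtain ⟨v, hext, -, hth, -, hal⟩ := hV1 v' hv'.2.2.1
    obtain ⟨P, hP, himg⟩ := hal P' hv'
    refine ⟨P, ⟨le_of_through hP (hth (through_of_along hv' hP'm)), v, hP, ?_⟩, ?_⟩
    · rw [← hb, (hT' v' v hext hv'.2.2.1).1]
    · intro hinv
      obtain ⟨w, a, haw, ha0, haP⟩ := exists_hom A hP hinv
      obtain ⟨h1, h2⟩ := hA' w a haw
      obtain ⟨h3, h4⟩ := himg a haP
      refine (hHOU A').2.2.2.2 P' v' hv' ⟨w, ⟨_, h1⟩, h2, ?_, h4⟩
      intro h0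
      apply ha0
      have h5 : algebraMap X.K k.X'.K (a : X.K) = 0 := congrArg Subtype.val h0
      exact Subtype.ext ((map_eq_zero _).1 h5)
  have hmld : T'.mld = T.mld := by
    unfold Triple.mld
    congr 1
    ext a
    constructor
    · rintro ⟨v', hv', rfl⟩
      obtain ⟨v, hext, -, -, hat, -⟩ := hV1 v' hv'.1
      exact ⟨v, hat hv', ((hT' v' v hext hv'.1).2).symm⟩
    · rintro ⟨v, hv, rfl⟩
      obtain ⟨v', hext, hat⟩ := hV2 v hv
      exact ⟨v', hat, (hT' v' v hext hat.1).2⟩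
  refine ⟨k.X', A', T', ⟨⟨?_, ?_⟩, ?_, ?_, ?_, ?_⟩, hmld, ?_, hcl', hwt⟩
  · intro P' b hb hb0
    obtain ⟨P, hP, hPi⟩ := key P' b hb
    exact hPi (hG.inv.1 P b hP hb0)
  · intro i'
    obtain ⟨i, -, hi⟩ := hI' i'
    obtain ⟨s, hs, hT⟩ := hG.inv.2 i
    refine ⟨pull hp k '' s, ?_, ?_⟩
    · rintro _ ⟨a, ha, rfl⟩
      obtain ⟨w, hw⟩ := hs a ha
      obtain ⟨h1, h2⟩ := hA' w a hw
      exact ⟨w, h2⟩
    · rw [← Ideal.map_span, ← hT, hi, Ideal.map]
      congr 1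
      ext a'
      constructor
      · rintro ⟨a, ha, h⟩
        exact ⟨a, ha, Subtype.ext h.symm⟩
      · rintro ⟨a, ha, rfl⟩
        exact ⟨a, ha, rfl⟩
  · intro P' b hb
    obtain ⟨P, hP, -⟩ := key P' b hb
    exact hG.eff P b hP
  · intro v' hv'
    obtain ⟨v, hext, -, hth, -, -⟩ := hV1 v' hv'.1
    rw [(hT' v' v hext hv'.1).2]
    exact hG.lc v (hth hv')
  · intro P' b hb hb0
    obtain ⟨P, hP, -⟩ := key P' b hb
    exact hG.coeff.1 P b hP hb0
  · intro i' hi'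
    obtain ⟨i, hr, -⟩ := hI' i'
    rw [hr] at hi' ⊢
    exact hG.coeff.2 i hi'
  · -- lower semicontinuity in a neighbourhood
    rintro ⟨f', hf', hAmb⟩
    obtain ⟨f, hf, hc⟩ := hCVN X p g hn hp hgu k f' hf'
    refine ⟨f, hf, fun v hv d hd => ?_⟩
    obtain ⟨v', hext, hnear, hdim⟩ := hc v hv
    rw [← hmld, ← (hT' v' v hext hnear.1).2]
    exact hAmb v' hnear d (hdim d hd)

end

end LSCM
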