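import Pool.Agent.LSCM.StN
import Pool.Agent.MldGeo.PUL

/-!
# LDN: a formula for the log discrepancies at `x` holds in a neighbourhood
-/

set_option autoImplicit false

namespace LSCM

open MldGap MldGeo MldG MvPolynomial

noncomputable section

theorem t_LDN (hUNN : Stmt_UNN) (hTBAS : MldGeo.Stmt_TBAS) (hFSM : MldGeo.Stmt_FSM)
    (hTXT : MldGeo.Stmt_TXT) : Stmt_LDN := by
  classical
  intro n X T a hn ha q l H hH hT
  obtain ⟨a0, ha0, -⟩ := PUL.exists_basis X.trdeg
  obtain ⟨g1, hg1⟩ := PUL.exists_dforms hTBAS X.trdeg a0 ha0 T.ω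
  obtain ⟨g2, hg2⟩ := PUL.exists_dforms hTBAS X.trdeg a0 ha0 (dlogs a)
  have hg2' : g2 ≠ 0 := by
    rintro rfl
    exact ha (by rw [hg2, zero_smul])
  obtain ⟨b, hb0, hb⟩ : ∃ b : X.K, b ≠ 0 ∧ T.ω = b • dlogs a := by
    refine ⟨g1 * g2⁻¹, ?_, ?_⟩
    · refine mul_ne_zero ?_ (inv_ne_zero hg2')
      rintro rfl
      exact T.ω_ne (by rw [hg1, zero_smul])
    · rw [hg2, smul_smul, mul_assoc, inv_mul_cancel₀ hg2', mul_one]
      exact hg1
  let c' : Option T.I → ℝ := fun o => o.elim 1 T.c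
  let f' : Option T.I → X.K := fun o => o.elim b T.f
  have hf' : ∀ o, f' o ≠ 0 := by
    intro o
    cases o with
    | none => exact hb0
    | some i => exact T.f_ne i
  have hdisc : ∀ v : DivVal n X.K, T.logDisc v =
      v.logOrd (dlogs a) + ∑ o, c' o * v.ord (f' o) := by
    intro v
    have h1 := hTXT X.trdeg v T.ω hn T.ω_ne
    have h2 := hFSM X.trdeg v b (dlogs a) hn hb0 ha
    rw [Triple.logDisc, Fintype.sum_option, h1]
    show 1 + ((v.logOrd T.ω - 1 : ℤ) : ℝ) + ∑ i, T.c i * v.ord (T.f i) =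
      v.logOrd (dlogs a) + (1 * (v.ord b : ℝ) + ∑ i, T.c i * v.ord (T.f i))
    rw [← hb] at h2
    rw [h2]
    push_cast
    ring
  obtain ⟨g, hg, hgv⟩ := hUNN X (ι := Option T.I ⊕ Fin q) (Sum.elim f' H)
    (Sum.elim c' fun k => - l k) (by
      rintro (o | k)
      · exact hf' o
      · exact hH k) (by
      intro v hv
      have h1 := hT v hv
      rw [hdisc v] at h1
      rw [Fintype.sum_sum_type]
      simp only [Sum.elim_inl, Sum.elim_inr, neg_mul, Finset.sum_neg_distrib]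
      linarith)
  refine ⟨g, hg, fun v hv => ?_⟩
  have h1 := hgv v hv
  rw [Fintype.sum_sum_type] at h1
  simp only [Sum.elim_inl, Sum.elim_inr, neg_mul, Finset.sum_neg_distrib] at h1
  rw [hdisc v]
  linarith

end

end LSCM
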