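import Pool.Agent.LSCM.StN

/-!
# ONN: curves with the trivial action
-/

set_option autoImplicit false

namespace LSCM

open MldGap MldGeo MldG

noncomputable section

namespace M_ONN

variable (X : Germ (0 + 1))

/-- the trivial grading -/
def gr : (Fin 0 → ℤ) → Submodule ℂ X.R := fun _ => ⊤

theorem mem_gr (u : Fin 0 → ℤ) (a : X.R) : a ∈ gr X u := Submodule.mem_top

instance : SetLike.GradedMonoid (gr X) where
  one_mem := Submodule.mem_top
  mul_mem := fun _ _ _ _ _ _ => Submodule.mem_top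

/-- the decomposition -/
@[instance_reducible]
def dec : DirectSum.Decomposition (gr X) where
  decompose' a := DirectSum.of (fun u => gr X u) 0 ⟨a, mem_gr X 0 a⟩
  left_inv a := DirectSum.coeAddMonoidHom_of _ _ _
  right_inv x := by
    induction x using DirectSum.induction_on with
    | zero =>
      have h : (⟨DirectSum.coeAddMonoidHom (gr X) 0, mem_gr X 0 _⟩ : gr X 0) = 0 :=
        Subtype.ext (map_zero _)
      beta_reduce
      rw [h, map_zero]
    | of i y =>
      have hi : i = 0 := Subsingleton.elim _ _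
      subst hi
      have h : (⟨DirectSum.coeAddMonoidHom (gr X) (DirectSum.of (fun u => gr X u) 0 y),
          mem_gr X 0 _⟩ : gr X 0) = y := Subtype.ext (DirectSum.coeAddMonoidHom_of _ _ _)
      beta_reduce
      rw [h]
    | add x y hx hy =>
      have h : (⟨DirectSum.coeAddMonoidHom (gr X) (x + y), mem_gr X 0 _⟩ : gr X 0) =
          ⟨DirectSum.coeAddMonoidHom (gr X) x, mem_gr X 0 _⟩ +
            ⟨DirectSum.coeAddMonoidHom (gr X) y, mem_gr X 0 _⟩ := Subtype.ext (map_add _ _ _)
      beta_reduce at hx hy ⊢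
      rw [h, map_add, hx, hy]

/-- the trivial action -/
def act : MldG.TorusAction X 0 where
  gr := gr X
  graded := { toGradedMonoid := inferInstance, toDecomposition := dec X }
  effective := by
    rw [eq_top_iff]
    intro x _
    have : x = 0 := Subsingleton.elim _ _
    rw [this]
    exact AddSubgroup.zero_mem _

theorem exists_ne : ∃ a : X.R, ∀ c : ℂ, a ≠ algebraMap ℂ X.R c := by
  by_contra hcon
  push Not at hcon
  have hcon' : ∀ a : X.K, a ∈ X.R → ∃ c : ℂ, algebraMap ℂ X.K c = a := by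
    intro a ha
    obtain ⟨c, hc⟩ := hcon ⟨a, ha⟩
    exact ⟨c, (congrArg (fun b : X.R => (b : X.K)) hc).symm⟩
  have halg : Algebra.IsAlgebraic ℂ X.K := by
    refine ⟨fun a => ?_⟩
    obtain ⟨r, hr, s, hs, hs0, hrs⟩ := X.frac a
    obtain ⟨c, hc⟩ := hcon' r hr
    obtain ⟨d, hd⟩ := hcon' s hs
    have h1 : a = algebraMap ℂ X.K (c / d) := by
      rw [map_div₀, hc, hd, eq_div_iff hs0]
      exact hrs
    rw [h1]
    exact isAlgebraic_algebraMap _
  have h1 := X.trdeg
  rw [trdeg_eq_zero (R := ℂ) (A := X.K)] at h1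
  have h2 : (0 : Cardinal) ≠ ((0 + 1 : ℕ) : Cardinal) := by
    rw [zero_add, Nat.cast_one]
    exact zero_ne_one
  exact h2 h1

end M_ONN

theorem t_ONN : Stmt_ONN := by
  intro X
  refine ⟨M_ONN.act X, ?_, ?_, ?_⟩
  · intro u hu
    exact absurd (Subsingleton.elim u 0) hu
  · obtain ⟨a, ha⟩ := M_ONN.exists_ne X
    exact ⟨a, M_ONN.mem_gr X 0 a, ha⟩
  · intro T
    have h : ∀ I : Ideal X.R, (M_ONN.act X).Inv I := fun I =>
      ⟨(I : Set X.R), fun a _ => ⟨0, M_ONN.mem_gr X 0 a⟩, (Ideal.span_eq I).symm⟩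
    exact ⟨fun P _ _ _ => h P, fun j => h (T.a j)⟩

end

end LSCM
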