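import Pool.Agent.LSCM.StA

/-!
# LSCM, module PI1: the minimal log discrepancy is at most `G0` on the ambient cone
-/

set_option autoImplicit false

namespace LSCM

open MldTv MldGap Finset

theorem t_PI1 : Stmt_PI1 := by
  intro m c X T hLC p hp w hw hk hQ
  choose l hl using hk
  have h0 : w.2 = fun y => (l y : ℝ) := funext hl
  have h1 : w = ((w.1, fun y => (l y : ℝ)) : Amb X) := Prod.ext rfl h0
  have hQ' : Q X w.1 (fun y => (l y : ℝ)) := by
    have hq : Q X w.1 w.2 := hQ
    rwa [h0] at hq
  have h2 := pia (C := {((0, 0) : Mon X)}) (t := 0) (μ := T.mld) (LC.plc hLC) hp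
    (Set.singleton_nonempty _)
    (fun f hf => by
      rw [Set.mem_singleton_iff.mp hf]
      exact isMon_zero _) le_rfl
    (fun v l' hc => by
      rw [zero_mul, sub_zero]
      exact mld_le hLC v l' hc) hw hQ'
  rw [zero_mul, sub_zero, ← h1] at h2
  exact h2

end LSCM
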