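import Pool.Agent.LSCM.StA

/-!
# LSCM, module REP: representations with common support
-/

set_option autoImplicit false

namespace LSCM

open MldTv MldGap Finset

theorem t_REP : Stmt_REP := by
  classical
  intro m c X ι _ w p b hb hp hw
  have h1 : ∀ i, ∃ (a : Gen X → ℝ) (t : ℝ), (∀ g, 0 ≤ a g) ∧ 0 ≤ t ∧
      p i = ∑ g, a g • gen g - t • T1 X := by
    intro i
    obtain ⟨a, ha, e⟩ := hp i
    refine ⟨fun g => a (some g), a none, fun g => ha _, ha none, ?_⟩
    rw [e, Fintype.sum_option]
    simp only [genO]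
    rw [smul_neg]
    abel
  choose a t ha ht hpi using h1
  set A : Gen X → ℝ := fun g => ∑ i, b i * a i g with hA
  have hA0 : ∀ g, 0 ≤ A g := fun g => sum_nonneg fun i _ => mul_nonneg (hb i).le (ha i g)
  refine ⟨univ.filter fun g => 0 < A g, A, ∑ i, b i * t i, fun g hg => (mem_filter.1 hg).2,
    sum_nonneg fun i _ => mul_nonneg (hb i).le (ht i), ?_, ?_⟩
  · have e1 : ∑ g ∈ univ.filter (fun g => 0 < A g), A g • (gen g : Amb X) =
        ∑ g, A g • (gen g : Amb X) := by
      rw [sum_filter]
      refine sum_congr rfl fun g _ => ?_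
      by_cases h : 0 < A g
      · rw [if_pos h]
      · have h2 : A g = 0 := le_antisymm (not_lt.1 h) (hA0 g)
        rw [if_neg h, h2, zero_smul]
    have e2 : ∑ g, A g • (gen g : Amb X) = ∑ i, b i • ∑ g, a i g • (gen g : Amb X) := by
      simp only [hA, sum_smul, smul_sum, mul_smul]
      rw [sum_comm]
    have e3 : (∑ i, b i * t i) • T1 X = ∑ i, b i • t i • T1 X := by
      simp only [sum_smul, mul_smul]
    rw [e1, hw, e2, e3, ← sum_sub_distrib]
    refine sum_congr rfl fun i _ => ?_
    rw [hpi i, smul_sub]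
  · intro i
    rw [hpi i]
    refine Submodule.sub_mem _ (Submodule.sum_mem _ fun g _ => ?_)
      (Submodule.smul_mem _ _ (Submodule.mem_sup_right (Submodule.mem_span_singleton_self _)))
    by_cases h : a i g = 0
    · rw [h, zero_smul]
      exact Submodule.zero_mem _
    · refine Submodule.smul_mem _ _ (Submodule.mem_sup_left (Submodule.subset_span ⟨g, ?_, rfl⟩))
      have h2 : 0 < a i g := lt_of_le_of_ne (ha i g) (Ne.symm h)
      have h3 : 0 < A g := lt_of_lt_of_le (mul_pos (hb i) h2)
        (single_le_sum (f := fun i => b i * a i g) (fun j _ => mul_nonneg (hb j).le (ha j g))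
          (mem_univ i))
      exact mem_coe.2 (mem_filter.2 ⟨mem_univ _, h3⟩)

end LSCM
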