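import Pool.Agent.LSCM.StB
import Pool.Agent.MldGeo.REG
import Pool.Agent.MldGeo.FRA
import Pool.Agent.MldGeo.TBAS
import Pool.Agent.MldGeo.LOGD
import Pool.Agent.MldGeo.COE
import Pool.Agent.MldGeo.FRM
import Pool.Agent.MldGeo.FSM
import Pool.Agent.MldGeo.FDL

/-!
# Lower semicontinuity in complexity one, module RES: the order of a logarithmic form, refined
-/

set_option autoImplicit false

namespace LSCM

open MldGap MldGeo MvPolynomial

noncomputable section

namespace M_RES

theorem c_COE : MldGeo.Stmt_COE := t_COE t_FRA (t_LOGD t_FRA) t_TBAS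
theorem c_FRM : MldGeo.Stmt_FRM := t_FRM t_FRA t_TBAS c_COE
theorem c_FSM : MldGeo.Stmt_FSM := t_FSM t_FRA c_FRM
theorem c_FDL : MldGeo.Stmt_FDL := t_FDL t_FRA c_FRM

/-! ### derivatives of polynomials -/

section poly

variable {n : ℕ}

theorem mem_supp {p : MvPolynomial (Fin n) ℂ} {j : Fin n} {m : Fin n →₀ ℕ}
    (h : m ∈ (pderiv j p).support) : m + Finsupp.single j 1 ∈ p.support := by
  rw [mem_support_iff] at h ⊢
  intro h0
  apply h
  rw [coeff_pderiv, h0, zero_mul]

theorem vars_sub {p : MvPolynomial (Fin n) ℂ} {j : Fin n} : (pderiv j p).vars ⊆ p.vars := by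
  intro i hi
  rw [mem_vars_iff_mem_support] at hi ⊢
  obtain ⟨m, hm, him⟩ := hi
  refine ⟨m + Finsupp.single j 1, mem_supp hm, ?_⟩
  rw [Finsupp.mem_support_iff] at him ⊢
  rw [Finsupp.add_apply]
  omega

theorem deg_lt {p : MvPolynomial (Fin n) ℂ} {j : Fin n} (h : pderiv j p ≠ 0) :
    (pderiv j p).totalDegree < p.totalDegree := by
  obtain ⟨m, hm, hd⟩ : ∃ m ∈ (pderiv j p).support,
      (pderiv j p).totalDegree = m.sum fun _ e => e := by
    obtain ⟨m, hm, hd⟩ := Finset.exists_mem_eq_sup (pderiv j p).support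
      (support_nonempty.2 h) (fun s : Fin n →₀ ℕ => s.sum fun _ e => e)
    exact ⟨m, hm, hd⟩
  have h1 := le_totalDegree (mem_supp hm)
  rw [hd]
  have h2 : (m + Finsupp.single j 1).sum (fun _ e => e) = (m.sum fun _ e => e) + 1 := by
    rw [Finsupp.sum_add_index' (fun _ => rfl) (fun _ _ _ => rfl), Finsupp.sum_single_index rfl]
  omega

theorem exists_pderiv {p : MvPolynomial (Fin n) ℂ} (h : ∀ c : ℂ, p ≠ C c) :
    ∃ j ∈ p.vars, pderiv j p ≠ 0 := by
  have h1 : ∃ m ∈ p.support, m ≠ 0 := by
    by_contra hc
    push Not at hc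
    apply h (coeff 0 p)
    ext m
    rw [coeff_C]
    split_ifs with h0
    · rw [← h0]
    · by_contra h2
      exact h0 (hc m (mem_support_iff.2 h2)).symm
  obtain ⟨m, hm, hm0⟩ := h1
  obtain ⟨j, hj⟩ := Finsupp.ne_iff.1 hm0
  rw [Finsupp.zero_apply] at hj
  refine ⟨j, mem_vars_iff_mem_support j |>.2 ⟨m, hm, Finsupp.mem_support_iff.2 hj⟩, ?_⟩
  intro h2
  have h3 : coeff (m - Finsupp.single j 1) (pderiv j p) = 0 := by rw [h2, coeff_zero]
  rw [coeff_pderiv] at h3
  have h4 : m - Finsupp.single j 1 + Finsupp.single j 1 = m := by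
    apply tsub_add_cancel_of_le
    rw [Finsupp.single_le_iff]
    omega
  rw [h4] at h3
  rcases mul_eq_zero.1 h3 with h5 | h5
  · exact mem_support_iff.1 hm h5
  · exact Nat.cast_add_one_ne_zero _ h5

end poly

/-! ### the differential of a polynomial -/

theorem D_aeval {n : ℕ} {K : Type} [Field K] [Algebra ℂ K] (a : Fin n → K)
    (p : MvPolynomial (Fin n) ℂ) : KaehlerDifferential.D ℂ K (aeval a p) =
      ∑ i, aeval a (pderiv i p) • KaehlerDifferential.D ℂ K (a i) := by
  induction p using MvPolynomial.induction_on with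
  | C c =>
    rw [algHom_C, Derivation.map_algebraMap]
    symm
    apply Finset.sum_eq_zero
    intro i _
    rw [pderiv_C, map_zero, zero_smul]
  | add p q hp hq =>
    rw [map_add, map_add, hp, hq, ← Finset.sum_add_distrib]
    refine Finset.sum_congr rfl fun i _ => ?_
    rw [map_add, map_add, add_smul]
  | mul_X p j hp =>
    rw [map_mul, aeval_X, Derivation.leibniz, hp]
    have h1 : ∀ i, aeval a (pderiv i (p * X j)) • KaehlerDifferential.D ℂ K (a i) =
        a j • (aeval a (pderiv i p) • KaehlerDifferential.D ℂ K (a i)) +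
          (if i = j then aeval a p • KaehlerDifferential.D ℂ K (a i) else 0) := by
      intro i
      rw [pderiv_mul, map_add, map_mul, map_mul, aeval_X, add_smul, smul_smul, mul_comm (a j)]
      congr 1
      split_ifs with h
      · rw [h, pderiv_X_self, map_one, mul_one]
      · rw [pderiv_X_of_ne (Ne.symm h), map_zero, mul_zero, zero_smul]
    rw [Finset.sum_congr rfl fun i _ => h1 i, Finset.sum_add_distrib, ← Finset.smul_sum,
      Finset.sum_ite_eq' Finset.univ j, if_pos (Finset.mem_univ j), add_comm]

/-! ### orders -/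

theorem ge_pow {n : ℕ} {K : Type} [Field K] [Algebra ℂ K] {v : DivVal n K} {a : K}
    (h : v.Ge 0 a) (k : ℕ) : v.Ge 0 (a ^ k) := by
  induction k with
  | zero => rw [pow_zero]; exact REG.ge_one
  | succ k ih =>
    rw [pow_succ]
    have := REG.ge_mul ih h
    rwa [add_zero] at this

theorem ge_aeval {n : ℕ} {K : Type} [Field K] [Algebra ℂ K] {v : DivVal n K} {a : Fin n → K}
    {J : Finset (Fin n)} (ha : ∀ j ∈ J, v.ord (a j) = 0) (p : MvPolynomial (Fin n) ℂ)
    (hp : p.vars ⊆ J) : v.Ge 0 (aeval a p) := by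
  rw [aeval_def, eval₂_eq]
  refine REG.ge_sum _ _ fun m hm => ?_
  have h1 : v.Ge 0 (algebraMap ℂ K (coeff m p)) := Or.inr (v.ord_const _).ge
  have h2 : v.Ge 0 (∏ i ∈ m.support, a i ^ m i) := by
    refine REG.ge_prod _ _ fun i hi => ge_pow (Or.inr (ha i ?_).ge) _
    exact hp (mem_vars_iff_mem_support i |>.2 ⟨m, hm, hi⟩)
  have := REG.ge_mul h1 h2
  rwa [add_zero] at this

/-- replacing one coordinate in the form -/
theorem alt_update {n : ℕ} {K : Type} [Field K] [Algebra ℂ K] (ω : Fin n → Ω[K⁄ℂ]) (j : Fin n)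
    (c : Fin n → K) :
    exteriorPower.ιMulti K n (Function.update ω j (∑ i, c i • ω i)) =
      c j • exteriorPower.ιMulti K n ω := by
  rw [AlternatingMap.map_update_sum]
  rw [Finset.sum_eq_single j]
  · rw [AlternatingMap.map_update_smul, Function.update_eq_self]
  · intro i _ hij
    rw [AlternatingMap.map_update_smul, AlternatingMap.map_update_self _ _ (Ne.symm hij),
      smul_zero]
  · intro h
    exact absurd (Finset.mem_univ j) h

end M_RES

open M_RES in
theorem t_RES : Stmt_RES := by
  intro n K _ _ htr v a J d hn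
  classical
  obtain ⟨N, hN⟩ : ∃ N, J.card = N := ⟨_, rfl⟩
  induction N generalizing a J with
  | zero =>
    intro ha hne hJ hdep
    have h1 := c_FDL htr v a hn ha hne
    rw [hN]
    push_cast
    have : (0 : ℤ) ≤ d := Int.natCast_nonneg d
    omega
  | succ N ih =>
    intro ha hne hJ hdep
    by_cases hd : J.card ≤ d
    · have h1 := c_FDL htr v a hn ha hne
      have : (J.card : ℤ) ≤ d := by exact_mod_cast hd
      omega
    push Not at hd
    -- a bad polynomial
    have hex : ∃ k : ℕ, ∃ p : MvPolynomial (Fin n) ℂ, p ≠ 0 ∧ p.vars ⊆ J ∧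
        (aeval a p = 0 ∨ 0 < v.ord (aeval a p)) ∧ p.totalDegree = k := by
      obtain ⟨J', hJ', hc'⟩ := Finset.exists_subset_card_eq (show d + 1 ≤ J.card by omega)
      let f : Fin (d + 1) ↪ Fin n := (J'.orderEmbOfFin hc').toEmbedding
      have hf : ∀ i, f i ∈ J := fun i => hJ' (Finset.orderEmbOfFin_mem J' hc' i)
      obtain ⟨q, hq, hb⟩ := hdep (fun i => a (f i)) fun i => ⟨f i, hf i, rfl⟩
      have h1 : aeval a (rename f q) = aeval (fun i => a (f i)) q := by
        rw [aeval_rename]
        rfl
      refine ⟨_, rename f q, ?_, ?_, ?_, rfl⟩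
      · intro h0
        exact hq (rename_injective f f.injective (by rw [h0, map_zero]))
      · intro i hi
        have := vars_rename f q hi
        obtain ⟨i', -, rfl⟩ := Finset.mem_image.1 this
        exact hf i'
      · rw [h1]
        exact hb
    obtain ⟨p, hp0, hpv, hpb, hpd⟩ := Nat.find_spec hex
    have hmin : ∀ q : MvPolynomial (Fin n) ℂ, q ≠ 0 → q.vars ⊆ J →
        q.totalDegree < p.totalDegree → aeval a q ≠ 0 ∧ v.ord (aeval a q) = 0 := by
      intro q hq0 hqv hqd
      have h1 : ¬ (aeval a q = 0 ∨ 0 < v.ord (aeval a q)) := by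
        intro hb
        have := Nat.find_min' hex ⟨q, hq0, hqv, hb, rfl⟩
        omega
      push Not at h1
      refine ⟨h1.1, le_antisymm h1.2 ?_⟩
      exact (ge_aeval hJ q hqv).resolve_left h1.1
    have hnc : ∀ c : ℂ, p ≠ C c := by
      rintro c rfl
      have hc : c ≠ 0 := by
        rintro rfl
        exact hp0 (C_0)
      rw [algHom_C] at hpb
      rcases hpb with h | h
      · exact hc ((algebraMap ℂ K).injective (by rw [h, map_zero]))
      · rw [v.ord_const] at h
        exact lt_irrefl _ h
    obtain ⟨j, hj, hpj⟩ := exists_pderiv hnc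
    obtain ⟨hq0, hqo⟩ := hmin (pderiv j p) hpj (vars_sub.trans hpv) (deg_lt hpj)
    have hjJ : j ∈ J := hpv hj
    set φ := aeval a p with hφ
    set c : Fin n → K := fun i => aeval a (pderiv i p) * a i with hc
    have hD : KaehlerDifferential.D ℂ K φ = ∑ i, c i • dlog (a i) := by
      rw [hφ, D_aeval]
      refine Finset.sum_congr rfl fun i _ => ?_
      rw [hc]
      unfold dlog
      rw [smul_smul, mul_assoc, mul_inv_cancel₀ (ha i), mul_one]
    have hcj : c j ≠ 0 := mul_ne_zero hq0 (ha j)
    have hcj' : v.ord (c j) = 0 := by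
      rw [hc]
      change v.ord (aeval a (pderiv j p) * a j) = 0
      rw [v.ord_mul _ _ hq0 (ha j), hqo, hJ j hjJ, add_zero]
    have halt := alt_update (fun i => dlog (a i)) j c
    rw [← hD] at halt
    change _ = c j • dlogs a at halt
    have hφ0 : φ ≠ 0 := by
      intro h0
      rw [h0, map_zero, AlternatingMap.map_update_zero] at halt
      exact hne ((smul_eq_zero.1 halt.symm).resolve_left hcj)
    have hφ1 : 1 ≤ v.ord φ := by
      have := hpb.resolve_left hφ0
      omega
    have hup : (fun i => dlog (Function.update a j φ i)) =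
        Function.update (fun i => dlog (a i)) j (φ⁻¹ • KaehlerDifferential.D ℂ K φ) := by
      funext i
      by_cases hij : i = j
      · subst hij
        rw [Function.update_self, Function.update_self]
        rfl
      · rw [Function.update_of_ne hij, Function.update_of_ne hij]
    have hdl : dlogs (Function.update a j φ) = φ⁻¹ • c j • dlogs a := by
      rw [← halt]
      unfold dlogs
      rw [hup, AlternatingMap.map_update_smul]
    have hne1 : c j • dlogs a ≠ 0 := fun h => hne ((smul_eq_zero.1 h).resolve_left hcj)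
    have hne2 : dlogs (Function.update a j φ) ≠ 0 := by
      rw [hdl]
      exact fun h => hne1 ((smul_eq_zero.1 h).resolve_left (inv_ne_zero hφ0))
    have hord : v.logOrd (dlogs (Function.update a j φ)) = - v.ord φ + v.logOrd (dlogs a) := by
      rw [hdl, c_FSM htr v _ _ hn (inv_ne_zero hφ0) hne1, c_FSM htr v _ _ hn hcj hne,
        REG.ord_inv v hφ0, hcj', zero_add]
    have hcard : (J.erase j).card = N := by
      rw [Finset.card_erase_of_mem hjJ, hN]
      rfl
    have hfin := ih (Function.update a j φ) (J.erase j) hcard (by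
        intro i
        by_cases hij : i = j
        · subst hij
          rw [Function.update_self]
          exact hφ0
        · rw [Function.update_of_ne hij]
          exact ha i) hne2 (by
        intro i hi
        rw [Function.update_of_ne (Finset.ne_of_mem_erase hi)]
        exact hJ i (Finset.mem_of_mem_erase hi)) (by
        intro r hr
        refine hdep r fun i => ?_
        obtain ⟨i', hi', he⟩ := hr i
        have hi'' : i' ∈ J.erase j := hi'
        refine ⟨i', Finset.mem_of_mem_erase hi'', ?_⟩
        rw [← he, Function.update_of_ne (Finset.ne_of_mem_erase hi'')])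
    rw [hcard, hord] at hfin
    rw [hN]
    push_cast
    omega

end

end LSCM
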