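import Pool.Agent.LSCM.StN
import Pool.Agent.MldGeo.RD1

/-!
# RNA: the log discrepancies of all valuations near the point (attractive fixed point)
-/

set_option autoImplicit false

namespace LSCM

open MldGeo MldGeo.RD1

theorem t_RNA (hLDN : Stmt_LDN) (hRED : MldGeo.Stmt_RED) (hHFK : MldGeo.Stmt_HFK)
    (hK0C : MldGeo.Stmt_K0C) (hPRF : MldGeo.Stmt_PRF) (hLGO : MldGeo.Stmt_LGO) : Stmt_RNA := by
  classical
  intro m X A S s hs D hD κ hκ T hT
  obtain ⟨hf0, hl1, hl2⟩ := hLGO S s hs D hD (fun y => κ y) hκ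
  have hai : AlgebraicIndependent ℂ (fun _ : Fin 1 => s) :=
    (algebraicIndependent_unique_type_iff (R := ℂ) (x := fun _ : Fin 1 => s)).2 hs
  obtain ⟨hdl, q, L, u, H, hH, hlog'⟩ := hRED A S (fun _ : Fin 1 => s)
    (Fin.cons (s : X.K) fun i => S.χ (Pi.single i 1)) (eqv m) (Nat.succ_pos m) hai (by
      intro i
      refine Fin.cases ?_ (fun j => ?_) i
      · simp [eqv]
      · simp [eqv]) T hT
  obtain ⟨g, hg, hlog⟩ := hLDN T _ (Nat.succ_pos m) hdl q L H (fun k => (hH k).2) hlog'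
  have hb : ∀ k, ∃ b : A.K0, H k = (b : X.K) * S.χ (u k) := fun k =>
    (hHFK A S).1 (u k) (H k) (hH k).1
  choose b hb using hb
  have hb0 : ∀ k, b k ≠ 0 := by
    intro k h
    apply (hH k).2
    rw [hb k, h]
    simp
  obtain ⟨hprod, _, _⟩ := hPRF (hK0C A)
  have hs0 : s ≠ 0 := by
    rintro rfl
    exact hs isAlgebraic_zero
  obtain ⟨Es, hEs, hEsd⟩ := hprod s hs0
  have hEk : ∀ k, ∃ E : DivVal 1 A.K0 →₀ ℤ, (∀ y, E y = y.ord (b k)) ∧ deg E = 0 := fun k =>
    hprod (b k) (hb0 k)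
  choose E hE hEd using hEk
  have hkey : ∀ (v : DivVal (m + 1) X.K) (w : Fin m → ℤ) (l : ℤ) (y : DivVal 1 A.K0),
      Along S v w l y → Near X g v →
      T.logDisc v = v.logOrd (form0 S s) + ((∑ i, (∑ k, L k * (u k i : ℝ)) * (w i : ℝ)) +
        (l : ℝ) * ∑ k, L k * (y.ord (b k) : ℝ)) := by
    intro v w l y hal hth
    rw [hlog v hth, ← ip_cast, Finset.mul_sum, ← Finset.sum_add_distrib]
    refine congrArg₂ (· + ·) rfl (Finset.sum_congr rfl fun k _ => ?_)
    rw [hb k, hal (b k) (u k) (hb0 k)]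
    push_cast
    ring
  set P : Finset (DivVal 1 A.K0) := κ.support ∪ Es.support ∪
    Finset.univ.biUnion fun k => (E k).support with hP
  refine ⟨fun i => ∑ k, L k * (u k i : ℝ),
    fun y => 1 - (y.ord s : ℝ) + (κ y : ℝ) + ∑ k, L k * (y.ord (b k) : ℝ), P, g,
    hg, ?_, ?_, ?_, ?_⟩
  · intro y hy
    have h1 : κ y = 0 := by
      by_contra h
      exact hy (by simp [hP, h])
    have h2 : y.ord s = 0 := by
      by_contra h
      rw [← hEs] at h
      exact hy (by simp [hP, h])
    have h3 : ∀ k, y.ord (b k) = 0 := by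
      intro k
      by_contra h
      rw [← hE] at h
      exact hy (by
        simp only [hP, Finset.mem_union, Finset.mem_biUnion, Finset.mem_univ, true_and]
        exact Or.inr ⟨k, by simpa using h⟩)
    simp [h1, h2, h3]
  · have d1 : ∑ y ∈ P, κ y = deg κ := (deg_eq κ P (by
      intro y hy
      simp only [hP, Finset.mem_union]
      exact Or.inl (Or.inl hy))).symm
    have d2 : ∑ y ∈ P, Es y = 0 := by
      rw [← hEsd]
      exact (deg_eq Es P (by
        intro y hy
        simp only [hP, Finset.mem_union]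
        exact Or.inl (Or.inr hy))).symm
    have d3 : ∀ k, ∑ y ∈ P, E k y = 0 := by
      intro k
      rw [← hEd k]
      exact (deg_eq (E k) P (by
        intro y hy
        simp only [hP, Finset.mem_union, Finset.mem_biUnion, Finset.mem_univ, true_and]
        exact Or.inr ⟨k, hy⟩)).symm
    have e1 : ∑ y ∈ P, (κ y : ℝ) = (deg κ : ℝ) := by exact_mod_cast congrArg (Int.cast : ℤ → ℝ) d1
    have e2 : ∑ y ∈ P, (y.ord s : ℝ) = 0 := by
      have := congrArg (Int.cast : ℤ → ℝ) d2
      push_cast at this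
      simpa only [hEs] using this
    have e3 : ∑ y ∈ P, ∑ k, L k * (y.ord (b k) : ℝ) = 0 := by
      rw [Finset.sum_comm]
      refine Finset.sum_eq_zero fun k _ => ?_
      rw [← Finset.mul_sum]
      have := congrArg (Int.cast : ℤ → ℝ) (d3 k)
      push_cast at this
      simp only [hE] at this
      rw [this, mul_zero]
    have e4 : ∑ y ∈ P, (1 - (1 - (y.ord s : ℝ) + (κ y : ℝ) + ∑ k, L k * (y.ord (b k) : ℝ))) =
        ∑ y ∈ P, (y.ord s : ℝ) - ∑ y ∈ P, (κ y : ℝ) - ∑ y ∈ P, ∑ k, L k * (y.ord (b k) : ℝ) := by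
      rw [← Finset.sum_sub_distrib, ← Finset.sum_sub_distrib]
      refine Finset.sum_congr rfl fun y _ => ?_
      ring
    rw [e4, e1, e2, e3]
    ring
  · intro v w l y hl htor hth
    rw [hkey v w l y (along_of_isTor S v w l y htor) hth, hl1 v w l y hl htor]
    push_cast
    ring
  · intro v w l y hl hal hth
    rw [hkey v w l y hal hth]
    push_cast
    ring

end LSCM
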