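import Pool.Agent.LSCM.StB

/-!
# A basis among integer vectors
-/

set_option autoImplicit false

namespace LSCM

open MldGap MldGeo

namespace M_SEL

/-- The Gram matrix. -/
def gram {ι : Type} {m : ℕ} (w : ι → Fin m → ℤ) : Matrix ι ι ℤ :=
  Matrix.of fun a b => ∑ k, w a k * w b k

/-- Integer vectors that are dependent over the reals are dependent over the integers. -/
theorem li_real {ι : Type} [Fintype ι] [DecidableEq ι] {m : ℕ} {w : ι → Fin m → ℤ}
    (h : LinearIndependent ℤ w) : LinearIndependent ℝ (fun a => toR (w a)) := by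
  rw [Fintype.linearIndependent_iff]
  intro g hg
  by_contra hne
  push Not at hne
  obtain ⟨a₀, ha₀⟩ := hne
  have h0 : ∀ k, ∑ a, g a * (w a k : ℝ) = 0 := by
    intro k
    have := congrFun hg k
    simpa [toR, Finset.sum_apply] using this
  have h1 : ((gram w).map (Int.castRingHom ℝ)).mulVec g = 0 := by
    funext a
    simp only [Matrix.mulVec, dotProduct, Matrix.map_apply, gram, Matrix.of_apply, Pi.zero_apply,
      map_sum, map_mul, eq_intCast]
    calc ∑ b, (∑ k, (w a k : ℝ) * (w b k : ℝ)) * g b
        = ∑ b, ∑ k, (w a k : ℝ) * (g b * (w b k : ℝ)) := by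
          refine Finset.sum_congr rfl fun b _ => ?_
          rw [Finset.sum_mul]
          exact Finset.sum_congr rfl fun k _ => by ring
      _ = ∑ k, (w a k : ℝ) * ∑ b, g b * (w b k : ℝ) := by
          rw [Finset.sum_comm]
          exact Finset.sum_congr rfl fun k _ => by rw [Finset.mul_sum]
      _ = 0 := by
          refine Finset.sum_eq_zero fun k _ => ?_
          rw [h0 k, mul_zero]
  have h2 : ((gram w).map (Int.castRingHom ℝ)).det = 0 :=
    Matrix.exists_mulVec_eq_zero_iff.1 ⟨g, fun h' => ha₀ (congrFun h' a₀), h1⟩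
  have h3 : (gram w).det = 0 := by
    have h4 := RingHom.map_det (Int.castRingHom ℝ) (gram w)
    rw [RingHom.mapMatrix_apply, h2, eq_intCast] at h4
    exact_mod_cast h4
  obtain ⟨c, hc, hc0⟩ := Matrix.exists_mulVec_eq_zero_iff.2 h3
  have h5 : ∑ a, c a * (gram w).mulVec c a = 0 := by
    rw [hc0]
    simp
  have h6 : ∑ k, (∑ a, c a * w a k) ^ 2 = 0 := by
    rw [← h5]
    simp only [Matrix.mulVec, dotProduct, gram, Matrix.of_apply]
    calc ∑ k, (∑ a, c a * w a k) ^ 2 = ∑ k, ∑ a, ∑ b, c a * (w a k * w b k * c b) := by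
          refine Finset.sum_congr rfl fun k _ => ?_
          rw [sq, Finset.sum_mul_sum]
          exact Finset.sum_congr rfl fun a _ => Finset.sum_congr rfl fun b _ => by ring
      _ = ∑ a, ∑ k, ∑ b, c a * (w a k * w b k * c b) := Finset.sum_comm
      _ = ∑ a, c a * ∑ b, (∑ k, w a k * w b k) * c b := by
          refine Finset.sum_congr rfl fun a _ => ?_
          rw [Finset.sum_comm, Finset.mul_sum]
          refine Finset.sum_congr rfl fun b _ => ?_
          rw [Finset.sum_mul, Finset.mul_sum]
  have h7 : ∑ a, c a • w a = 0 := by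
    funext k
    have h8 := (Finset.sum_eq_zero_iff_of_nonneg fun k _ => sq_nonneg (∑ a, c a * w a k)).1 h6 k
      (Finset.mem_univ k)
    have h9 : ∑ a, c a * w a k = 0 := by simpa using h8
    simpa [Finset.sum_apply] using h9
  have h10 := Fintype.linearIndependent_iff.1 h c h7
  exact hc (funext h10)

/-- Integer vectors that are independent over the reals are independent. -/
theorem li_int {ι : Type} [Fintype ι] {m : ℕ} {w : ι → Fin m → ℤ}
    (h : LinearIndependent ℝ (fun a => toR (w a))) : LinearIndependent ℤ w := by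
  rw [Fintype.linearIndependent_iff] at h ⊢
  intro g hg a
  have h1 := h (fun a => (g a : ℝ)) (by
    funext k
    have := congrFun hg k
    simp only [Finset.sum_apply, Pi.smul_apply, smul_eq_mul, Pi.zero_apply, toR] at this ⊢
    exact_mod_cast this) a
  exact_mod_cast h1

end M_SEL

open M_SEL in
theorem t_SEL : Stmt_SEL := by
  classical
  intro m N u I
  obtain ⟨b, hb, hspan, hli⟩ := exists_linearIndependent ℝ ((fun i => toR (u i)) '' I)
  have hfin : b.Finite := (Set.toFinite _).subset hb
  have : Fintype b := hfin.fintype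
  have hcard : Fintype.card b = rkI u I := by
    rw [rkI, ← hspan, ← Set.toFinset_card]
    exact (finrank_span_set_eq_card hli).symm
  obtain ⟨e⟩ : Nonempty (Fin (rkI u I) ≃ b) := ⟨(Fintype.equivFinOfCardEq hcard).symm⟩
  have hex : ∀ j, ∃ i ∈ I, toR (u i) = (e j : Fin m → ℝ) := fun j => hb (e j).2
  choose f hfI hf using hex
  have hliR : LinearIndependent ℝ (fun j => toR (u (f j))) := by
    have h1 : (fun j => toR (u (f j))) = (Subtype.val : b → Fin m → ℝ) ∘ e := funext hf
    rw [h1]
    exact hli.comp _ e.injective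
  have hliZ : LinearIndependent ℤ (fun j => u (f j)) := li_int hliR
  refine ⟨f, hfI, hliZ, fun i hi => ?_⟩
  have hmem : toR (u i) ∈ Submodule.span ℝ (Set.range fun j => toR (u (f j))) := by
    have h1 : Set.range (fun j => toR (u (f j))) = b := by
      ext x
      constructor
      · rintro ⟨j, rfl⟩
        show toR (u (f j)) ∈ b
        rw [hf j]
        exact (e j).2
      · intro hx
        obtain ⟨j, hj⟩ := e.surjective ⟨x, hx⟩
        exact ⟨j, (hf j).trans (by rw [hj])⟩
    rw [h1, hspan]
    exact Submodule.subset_span ⟨i, hi, rfl⟩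
  -- the enlarged family is dependent
  have hdep : ¬ LinearIndependent ℤ (fun o : Option (Fin (rkI u I)) => o.elim (u i)
      fun j => u (f j)) := by
    intro h
    have h1 := li_real h
    rw [linearIndependent_option] at h1
    refine h1.2 ?_
    exact hmem
  rw [Fintype.linearIndependent_iff] at hdep
  push Not at hdep
  obtain ⟨g, hg, o, ho⟩ := hdep
  rw [Fintype.sum_option] at hg
  simp only [Option.elim_none, Option.elim_some] at hg
  have hM : g none ≠ 0 := by
    intro h0
    rw [h0, zero_smul, zero_add] at hg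
    have h1 := Fintype.linearIndependent_iff.1 hliZ (fun j => g (some j)) hg
    cases o with
    | none => exact ho h0
    | some j => exact ho (h1 j)
  refine ⟨g none, fun j => - g (some j), hM, ?_⟩
  simp only [neg_smul, Finset.sum_neg_distrib]
  exact eq_neg_of_add_eq_zero_left hg

end LSCM
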