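import Pool.Agent.LSCM.StA

/-!
# Lower semicontinuity in complexity one: completing a subspace by few generators
-/

set_option autoImplicit false

namespace LSCM

theorem t_SPN : Stmt_SPN := by
  classical
  intro E ι _ _ _ _ e W hW k
  induction k generalizing W with
  | zero =>
    intro h
    have h1 : W = ⊤ :=
      Submodule.eq_top_of_finrank_eq (le_antisymm (Submodule.finrank_le W) (by simpa using h))
    exact ⟨∅, by simp, by simp [h1]⟩
  | succ k ih =>
    intro h
    by_cases hT : W = ⊤
    · exact ⟨∅, by simp, by simp [hT]⟩
    · have h1 : ∃ i, e i ∉ W := by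
        by_contra hc
        push Not at hc
        apply hT
        rw [← hW]
        symm
        rw [sup_eq_left, Submodule.span_le]
        rintro _ ⟨i, rfl⟩
        exact hc i
      obtain ⟨i, hi⟩ := h1
      have hlt : W < W ⊔ Submodule.span ℝ {e i} := by
        refine lt_of_le_of_ne le_sup_left fun h2 => hi ?_
        rw [h2]
        exact Submodule.mem_sup_right (Submodule.mem_span_singleton_self _)
      obtain ⟨J, hJ, hJ2⟩ := ih (W ⊔ Submodule.span ℝ {e i})
        (by
          rw [eq_top_iff, ← hW]
          exact sup_le_sup_right le_sup_left _)
        (by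
          have := Submodule.finrank_lt_finrank_of_lt hlt
          omega)
      refine ⟨insert i J, (Finset.card_insert_le _ _).trans (by omega), ?_⟩
      rw [Finset.coe_insert, Set.image_insert_eq, Submodule.span_insert, ← sup_assoc, hJ2]

end LSCM
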