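import Pool.Agent.LSCM.StB
import Pool.Agent.MldGeo.LGO

/-!
# STA: the order of the invariant form, refined
-/

set_option autoImplicit false

namespace LSCM

open MldGap MldGeo MvPolynomial

noncomputable section

namespace M_STA

section forms

variable {K : Type} [Field K] [Algebra ℂ K]

theorem dlog_mul {a b : K} (ha : a ≠ 0) (hb : b ≠ 0) : dlog (a * b) = dlog a + dlog b := by
  unfold dlog
  rw [Derivation.leibniz, smul_add, smul_smul, smul_smul, mul_inv]
  have h1 : a⁻¹ * b⁻¹ * a = b⁻¹ := by field_simp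
  have h2 : a⁻¹ * b⁻¹ * b = a⁻¹ := by field_simp
  rw [h1, h2, add_comm]

/-- the logarithmic differential as a homomorphism -/
def LD (K : Type) [Field K] [Algebra ℂ K] : Additive Kˣ →+ Ω[K⁄ℂ] where
  toFun a := dlog ((Additive.toMul a : Kˣ) : K)
  map_zero' := by
    show dlog (((1 : Kˣ) : K)) = 0
    unfold dlog
    rw [Units.val_one, Derivation.map_one_eq_zero, smul_zero]
  map_add' a b := by
    show dlog (((Additive.toMul a * Additive.toMul b : Kˣ)) : K) = _
    rw [Units.val_mul]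
    exact dlog_mul (Units.ne_zero _) (Units.ne_zero _)

theorem LD_mk {a : K} (ha : a ≠ 0) : LD K (Additive.ofMul (Units.mk0 a ha)) = dlog a := rfl

theorem chi_ne {m : ℕ} {χ : (Fin m → ℤ) → K} (h0 : χ 0 = 1) (ha : ∀ u w, χ (u + w) = χ u * χ w)
    (u : Fin m → ℤ) : χ u ≠ 0 := by
  intro h
  have h1 := ha u (-u)
  rw [add_neg_cancel, h0, h, zero_mul] at h1
  exact one_ne_zero h1

/-- the logarithmic differentials of characters -/
def CH {m : ℕ} (χ : (Fin m → ℤ) → K) (h0 : χ 0 = 1) (ha : ∀ u w, χ (u + w) = χ u * χ w) :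
    (Fin m → ℤ) →+ Ω[K⁄ℂ] where
  toFun u := dlog (χ u)
  map_zero' := by
    show dlog (χ 0) = 0
    unfold dlog
    rw [h0, Derivation.map_one_eq_zero, smul_zero]
  map_add' u v := by
    show dlog (χ (u + v)) = dlog (χ u) + dlog (χ v)
    rw [ha, dlog_mul (chi_ne h0 ha u) (chi_ne h0 ha v)]

/-- the first slot -/
def FS {m : ℕ} (β : Fin m → Ω[K⁄ℂ]) : Ω[K⁄ℂ] →ₗ[K] Forms (m + 1) K where
  toFun ω := exteriorPower.ιMulti K (m + 1) (Fin.cons ω β)
  map_add' a b := (exteriorPower.ιMulti K (m + 1)).toMultilinearMap.cons_add _ _ _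
  map_smul' c a := (exteriorPower.ιMulti K (m + 1)).toMultilinearMap.cons_smul _ _ _

theorem FS_self {m : ℕ} (β : Fin m → Ω[K⁄ℂ]) (i : Fin m) : FS β (β i) = 0 := by
  show exteriorPower.ιMulti K (m + 1) (Fin.cons (β i) β) = 0
  exact (exteriorPower.ιMulti K (m + 1)).map_eq_zero_of_eq _ (i := 0) (j := i.succ) rfl
    (Fin.succ_ne_zero i).symm

theorem dlogs_cons {m : ℕ} (a : K) (g : Fin m → K) :
    dlogs (Fin.cons a g : Fin (m + 1) → K) = FS (fun i => dlog (g i)) (dlog a) := by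
  have e : (fun i => dlog ((Fin.cons a g : Fin (m + 1) → K) i)) =
      Fin.cons (dlog a) (fun i => dlog (g i)) := by
    funext i
    refine Fin.cases ?_ (fun i => ?_) i
    · rfl
    · rfl
  show exteriorPower.ιMulti K (m + 1) (fun i => dlog ((Fin.cons a g : Fin (m + 1) → K) i)) = _
  rw [e]
  rfl

end forms

/-- the relation of logarithmic differentials -/
theorem dlog_rel {m : ℕ} {K : Type} [Field K] [Algebra ℂ K] (K0 : IntermediateField ℂ K)
    (χ : (Fin m → ℤ) → K) (h0 : χ 0 = 1) (ha : ∀ u w, χ (u + w) = χ u * χ w)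
    (k : ℕ) (b : Fin k → K0) (z : Fin k → Fin m → ℤ) (hb : ∀ j, b j ≠ 0)
    (b0 : K0) (z0 : Fin m → ℤ) (hb0 : b0 ≠ 0) (N : ℤ) (c : Fin k → ℤ)
    (hN : N • z0 = ∑ j, c j • z j) :
    dlog (((b0 ^ N * (∏ j, b j ^ c j)⁻¹ : K0)) : K) =
      N • dlog ((b0 : K) * χ z0) - ∑ j, c j • dlog ((b j : K) * χ (z j)) := by
  have hb0' : (b0 : K) ≠ 0 := fun h => hb0 (Subtype.ext h)
  have hb' : ∀ j, (b j : K) ≠ 0 := fun j h => hb j (Subtype.ext h)
  set B0 : Kˣ := Units.mk0 (b0 : K) hb0' with hB0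
  set B : Fin k → Kˣ := fun j => Units.mk0 (b j : K) (hb' j) with hB
  have hx : (((b0 ^ N * (∏ j, b j ^ c j)⁻¹ : K0)) : K) =
      ((B0 ^ N * (∏ j, B j ^ c j)⁻¹ : Kˣ) : K) := by
    push_cast
    rfl
  have h1 : dlog (((b0 ^ N * (∏ j, b j ^ c j)⁻¹ : K0)) : K) =
      LD K (Additive.ofMul (B0 ^ N * (∏ j, B j ^ c j)⁻¹)) := by
    rw [hx]
    rfl
  have h2 : LD K (Additive.ofMul (B0 ^ N * (∏ j, B j ^ c j)⁻¹)) =
      N • dlog (b0 : K) - ∑ j, c j • dlog (b j : K) := by
    rw [ofMul_mul, ofMul_inv, ofMul_zpow, ofMul_prod, map_add, map_neg, map_zsmul, map_sum,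
      ← sub_eq_add_neg]
    congr 1
    refine Finset.sum_congr rfl fun j _ => ?_
    rw [ofMul_zpow, map_zsmul]
    rfl
  have h3 : N • dlog (χ z0) = ∑ j, c j • dlog (χ (z j)) := by
    have h4 := congrArg (CH χ h0 ha) hN
    rw [map_zsmul, map_sum] at h4
    simp only [map_zsmul] at h4
    exact h4
  rw [h1, h2, dlog_mul hb0' (chi_ne h0 ha z0), smul_add, h3]
  have h5 : ∀ j, c j • dlog ((b j : K) * χ (z j)) = c j • dlog (b j : K) + c j • dlog (χ (z j)) := by
    intro j
    rw [dlog_mul (hb' j) (chi_ne h0 ha _), smul_add]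
  simp only [h5]
  rw [Finset.sum_add_distrib]
  abel

theorem depOn_mono {n : ℕ} {K : Type} [Field K] [Algebra ℂ K] {v : DivVal n K} {G G' : Set K}
    {d : ℕ} (h : DepOn v G d) (hs : G' ⊆ G) : DepOn v G' d := fun r hr => h r fun i => hs (hr i)

end M_STA

open M_STA in
theorem t_STA (hRES : Stmt_RES) (hFOR : Stmt_FOR) (hDET : Stmt_DET) (hFSM : MldGeo.Stmt_FSM)
    (hDLO : MldGeo.Stmt_DLO) : Stmt_STA := by
  classical
  intro m K _ _ htr K0 χ hcurve h0 hadd s hs hne D hD κ hκ v w l y hl hal G d hdep k b z hb hG hz hzi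
  haveI : CharZero K := charZero_of_injective_algebraMap (algebraMap ℂ K).injective
  have hs0 : s ≠ 0 := by
    rintro rfl
    exact hs isAlgebraic_zero
  have hD0 : D ≠ 0 := by
    rintro rfl
    exact zero_ne_one hD.1
  obtain ⟨hD1, hD2, -⟩ := hDLO hcurve D hD0
  have hDtr : ∀ x : K0, Transcendental ℂ x → D x ≠ 0 := by
    intro x hx h
    obtain ⟨c, rfl⟩ := hD1 x h
    exact hx (isAlgebraic_algebraMap c)
  have hcoe : ∀ a : K0, a ≠ 0 → (a : K) ≠ 0 := fun a ha h => ha (Subtype.ext h)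
  have hord : ∀ a : K0, a ≠ 0 → v.ord (a : K) = l * y.ord a := by
    intro a ha
    have h1 := hal a 0 ha
    rw [h0, mul_one] at h1
    rw [h1]
    simp [ip]
  -- another function
  have hkey : ∀ t : K0, t ≠ 0 → D t ≠ 0 →
      dlogs (Fin.cons (t : K) fun i => χ (Pi.single i 1)) ≠ 0 ∧
      (∀ b : K0, ∃ c : K, KaehlerDifferential.D ℂ K (b : K) =
        c • KaehlerDifferential.D ℂ K (t : K)) ∧
      v.logOrd (dlogs (Fin.cons (s : K) fun i => χ (Pi.single i 1))) =
        l * y.ord (t / (s * D t)) +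
          v.logOrd (dlogs (Fin.cons (t : K) fun i => χ (Pi.single i 1))) := by
    intro t ht hDt
    obtain ⟨h1, h2⟩ := hFOR K0 χ s t hs0 ht D hDt hD
    have h3 : t / (s * D t) ≠ 0 := div_ne_zero ht (mul_ne_zero hs0 hDt)
    have h4 : dlogs (Fin.cons (t : K) fun i => χ (Pi.single i 1)) ≠ 0 := by
      intro h5
      rw [h5, smul_zero] at h2
      exact hne h2
    refine ⟨h4, h1, ?_⟩
    rw [h2, hFSM htr v _ _ (Nat.succ_pos m) (hcoe _ h3) h4, hord _ h3]
  -- integers
  have hint : ∀ (N : ℤ) (ω : Forms (m + 1) K), N ≠ 0 → ω ≠ 0 →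
      v.logOrd ((N : K) • ω) = v.logOrd ω := by
    intro N ω hN hω
    rw [hFSM htr v _ _ (Nat.succ_pos m) (Int.cast_ne_zero.2 hN) hω, DivVal.ord_intCast, zero_add]
  constructor
  · obtain ⟨t, ht0, ht1⟩ := y.unif
    have hDt : D t ≠ 0 := (hD2 y t ht1).1
    obtain ⟨h1, h2, h3⟩ := hkey t ht0 hDt
    obtain ⟨g, σ, N, hN, hσ, hg, hg0, h4⟩ := hDET K0 χ h0 hadd t ht0 h2 k b z hb hzi
    have h5 : dlogs (Fin.cons (t : K) g) ≠ 0 := by
      rw [h4]
      exact smul_ne_zero (Int.cast_ne_zero.2 hN) h1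
    have h6 := hint N _ hN h1
    rw [← h4] at h6
    set J : Finset (Fin (m + 1)) := Finset.univ.image fun j => (σ j).succ with hJ
    have hJc : J.card = k := by
      rw [hJ, Finset.card_image_of_injective _ fun a b hab => hσ (Fin.succ_injective _ hab),
        Finset.card_univ, Fintype.card_fin]
    have h7 := hRES htr v (Fin.cons (t : K) g) J d (Nat.succ_pos m) ?_ h5 ?_ ?_
    · rw [h6, hJc] at h7
      rw [h3, DivVal.ord_div y ht0 (mul_ne_zero hs0 hDt), y.ord_mul _ _ hs0 hDt, hκ y t ht1, ht1]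
      have h8 : (1 : ℤ) - (y.ord s + -κ y) = 1 - y.ord s + κ y := by ring
      rw [h8]
      exact add_le_add le_rfl h7
    · intro i
      refine Fin.cases ?_ (fun i => ?_) i
      · exact hcoe t ht0
      · exact hg0 i
    · intro i hi
      obtain ⟨j, -, rfl⟩ := Finset.mem_image.1 hi
      show v.ord (g (σ j)) = 0
      rw [hg, hal _ _ (hb j), hz]
    · refine depOn_mono hdep ?_
      rintro a ⟨i, hi, rfl⟩
      obtain ⟨j, -, rfl⟩ := Finset.mem_image.1 (Finset.mem_coe.1 hi)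
      show g (σ j) ∈ G
      rw [hg]
      exact hG j
  · intro hl0 b0 z0 hb0 hG0 hz0 N c hN hNc hx
    set x : K0 := b0 ^ N * (∏ j, b j ^ c j)⁻¹ with hxdef
    have hx0 : x ≠ 0 := by
      intro h
      rw [h] at hx
      exact hx isAlgebraic_zero
    obtain ⟨h1, h2, h3⟩ := hkey x hx0 (hDtr x hx)
    obtain ⟨g, σ, M, hM, hσ, hg, hg0, h4⟩ := hDET K0 χ h0 hadd x hx0 h2 k b z hb hzi
    have h5 : dlogs (Fin.cons (x : K) g) ≠ 0 := by
      rw [h4]
      exact smul_ne_zero (Int.cast_ne_zero.2 hM) h1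
    have h6 := hint M _ hM h1
    rw [← h4] at h6
    have h7 : dlogs (Fin.cons (x : K) g) =
        (N : K) • dlogs (Fin.cons ((b0 : K) * χ z0) g) := by
      rw [M_STA.dlogs_cons, M_STA.dlogs_cons, hxdef, dlog_rel K0 χ h0 hadd k b z hb b0 z0 hb0 N c hNc,
        map_sub, map_sum, map_zsmul]
      have h8 : ∀ j, FS (fun i => dlog (g i)) (c j • dlog ((b j : K) * χ (z j))) = 0 := by
        intro j
        rw [map_zsmul, ← hg j]
        have h9 : FS (fun i => dlog (g i)) (dlog (g (σ j))) = 0 :=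
          FS_self (fun i => dlog (g i)) (σ j)
        rw [h9, smul_zero]
      rw [Finset.sum_eq_zero fun j _ => h8 j, sub_zero]
      exact (Int.cast_smul_eq_zsmul K N _).symm
    have h8 : dlogs (Fin.cons ((b0 : K) * χ z0) g) ≠ 0 := by
      intro h9
      rw [h9, smul_zero] at h7
      exact h5 h7
    have h9 := hint N _ hN h8
    rw [← h7] at h9
    set J : Finset (Fin (m + 1)) := insert 0 (Finset.univ.image fun j => (σ j).succ) with hJ
    have hJc : J.card = k + 1 := by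
      rw [hJ, Finset.card_insert_of_notMem, Finset.card_image_of_injective _
        fun a b hab => hσ (Fin.succ_injective _ hab), Finset.card_univ, Fintype.card_fin]
      intro h
      obtain ⟨j, -, h10⟩ := Finset.mem_image.1 h
      exact Fin.succ_ne_zero _ h10
    have h10 := hRES htr v (Fin.cons ((b0 : K) * χ z0) g) J d (Nat.succ_pos m) ?_ h8 ?_ ?_
    · rw [hJc] at h10
      rw [h3, hl0, zero_mul, zero_add, ← h6, h9]
      push_cast at h10
      exact h10
    · intro i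
      refine Fin.cases ?_ (fun i => ?_) i
      · exact mul_ne_zero (hcoe b0 hb0) (chi_ne h0 hadd z0)
      · exact hg0 i
    · intro i hi
      rcases Finset.mem_insert.1 hi with rfl | hi
      · show v.ord ((b0 : K) * χ z0) = 0
        rw [hal _ _ hb0, hl0, hz0, zero_mul, zero_add]
      · obtain ⟨j, -, rfl⟩ := Finset.mem_image.1 hi
        show v.ord (g (σ j)) = 0
        rw [hg, hal _ _ (hb j), hz]
    · refine depOn_mono hdep ?_
      rintro a ⟨i, hi, rfl⟩
      rcases Finset.mem_insert.1 (Finset.mem_coe.1 hi) with rfl | hi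
      · exact hG0
      · obtain ⟨j, -, rfl⟩ := Finset.mem_image.1 hi
        show g (σ j) ∈ G
        rw [hg]
        exact hG j

end

end LSCM
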