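import Pool.Agent.LSCM.StN
import Pool.Agent.MldGeo.RED

/-!
# UNN: an `ℝ`-divisor which is zero at a point is zero in a neighbourhood
-/

set_option autoImplicit false

namespace LSCM

open MldGeo

/-- the order along a prime divisor through the point is a valuation through the point -/
theorem through_of_isOrdAlong {n : ℕ} {X : Germ n} {v : DivVal n X.K} {P : Ideal X.R}
    (hP : P ≤ X.m) (hv : X.IsOrdAlong v P) : X.Through v := by
  refine ⟨hv.2.2.1, fun a ha => ?_⟩
  have h1 : a ∉ P := fun h => ha (hP h)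
  have h2 : ¬ (a = 0 ∨ 0 < v.ord a) := fun h => h1 ((hv.2.2.2 a).2 h)
  have h3 := hv.2.2.1 a
  have h4 : ¬ 0 < v.ord (a : X.K) := fun h => h2 (Or.inr h)
  omega

/-- a product of elements outside `X.m` is outside `X.m`; a valuation near the product is near all
factors -/
theorem near_prod {n : ℕ} {X : Germ n} {ι : Type*} (s : Finset ι) (g : ι → X.R)
    (hg : ∀ i ∈ s, g i ∉ X.m) : (∏ i ∈ s, g i) ∉ X.m ∧
      ∀ v : DivVal n X.K, Near X (∏ i ∈ s, g i) v → ∀ i ∈ s, Near X (g i) v := by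
  classical
  induction s using Finset.induction_on with
  | empty =>
    refine ⟨?_, fun v _ i hi => absurd hi (Finset.notMem_empty i)⟩
    rw [Finset.prod_empty]
    exact (Ideal.ne_top_iff_one X.m).1 X.max.ne_top
  | insert a s ha ih =>
    obtain ⟨h1, h2⟩ := ih fun i hi => hg i (Finset.mem_insert_of_mem hi)
    have h3 := hg a (Finset.mem_insert_self a s)
    rw [Finset.prod_insert ha]
    refine ⟨mul_notMem h3 h1, fun v hv i hi => ?_⟩
    obtain ⟨h4, h5⟩ := near_mul h3 h1 hv
    rcases Finset.mem_insert.1 hi with rfl | hi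
    · exact h4
    · exact h2 v h5 i hi

/-- UNN -/
theorem t_UNN (hLOC : MldGeo.Stmt_LOC) : Stmt_UNN := by
  classical
  intro n X ι _ f c hf hz
  obtain ⟨q, l, h, hh0, hli, hsum⟩ := RED.lin_comb (n := n) f c hf
  have h0 : ∀ v, X.Through v → ∀ k, v.ord (h k) = 0 := by
    intro v hv
    have h1 := hz v hv
    rw [hsum v] at h1
    exact hli _ h1
  have h1 : ∀ k, ∃ r s : X.R, s ∉ X.m ∧ h k * (s : X.K) = r := fun k =>
    hLOC X (h k) fun v P hP hv => DivVal.Ge.of_le
      (le_of_eq (h0 v (through_of_isOrdAlong hP hv) k).symm)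
  have h2 : ∀ k, ∃ r s : X.R, s ∉ X.m ∧ (h k)⁻¹ * (s : X.K) = r := fun k =>
    hLOC X (h k)⁻¹ fun v P hP hv => DivVal.Ge.of_le (by
      rw [DivVal.ord_inv, h0 v (through_of_isOrdAlong hP hv) k, neg_zero])
  choose r s hs hrs using h1
  choose r' s' hs' hrs' using h2
  have hr : ∀ k, r k ∉ X.m := by
    intro k hk
    have h3 : r k * r' k = s k * s' k := by
      apply Subtype.ext
      show (r k : X.K) * (r' k : X.K) = (s k : X.K) * (s' k : X.K)
      rw [← hrs k, ← hrs' k]
      have := hh0 k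
      field_simp
    exact mul_notMem (hs k) (hs' k) (h3 ▸ X.m.mul_mem_right _ hk)
  obtain ⟨h3, h4⟩ := near_prod Finset.univ (fun k => r k * s k)
    fun k _ => mul_notMem (hr k) (hs k)
  refine ⟨∏ k, r k * s k, h3, fun v hv => ?_⟩
  rw [hsum v]
  refine Finset.sum_eq_zero fun k _ => ?_
  obtain ⟨h5, h6⟩ := near_mul (hr k) (hs k) (h4 v hv k (Finset.mem_univ k))
  have hs0 : (s k : X.K) ≠ 0 := fun h0 => hs k (by
    have : s k = 0 := Subtype.ext h0
    rw [this]; exact X.m.zero_mem)
  have h7 := v.ord_mul (h k) (s k) (hh0 k) hs0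
  rw [hrs k, h5.2, h6.2] at h7
  have h8 : v.ord (h k) = 0 := by omega
  rw [h8]
  simp

end LSCM
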