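import Pool.Agent.MldG.Fin2
import Pool.Agent.LSCM.ASM
import Pool.Agent.LSCM.BRG
import Pool.Agent.LSCM.SPN
import Pool.Agent.LSCM.GSP
import Pool.Agent.LSCM.INC
import Pool.Agent.LSCM.REP
import Pool.Agent.LSCM.DIM
import Pool.Agent.LSCM.ADD
import Pool.Agent.LSCM.PI1
import Pool.Agent.LSCM.CI
import Pool.Agent.LSCM.CII
import Pool.Agent.LSCM.CY1
import Pool.Agent.LSCM.CY
import Pool.Agent.LSCM.RES
import Pool.Agent.LSCM.FOR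
import Pool.Agent.LSCM.DET
import Pool.Agent.LSCM.STA
import Pool.Agent.LSCM.SEL
import Pool.Agent.LSCM.CM2
import Pool.Agent.LSCM.CLA
import Pool.Agent.LSCM.CLZ
import Pool.Agent.LSCM.FRC
import Pool.Agent.LSCM.AXP
import Pool.Agent.LSCM.UNN
import Pool.Agent.LSCM.LDN
import Pool.Agent.LSCM.RNA
import Pool.Agent.LSCM.RNB
import Pool.Agent.LSCM.AVO
import Pool.Agent.LSCM.DTN
import Pool.Agent.LSCM.DZN
import Pool.Agent.LSCM.LCN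
import Pool.Agent.LSCM.CVN
import Pool.Agent.LSCM.KMN
import Pool.Agent.LSCM.KSN
import Pool.Agent.LSCM.APN
import Pool.Agent.LSCM.FXN
import Pool.Agent.LSCM.ONN
import Pool.Agent.LSCM.EXP
import Pool.Agent.LSCM.DML

/-!
# Lower semicontinuity in complexity one: closing the hypotheses
-/

set_option autoImplicit false

namespace LSCM

theorem c_CBA : Stmt_CBA :=
  t_CBA (t_CI t_SPN t_GSP t_INC t_REP t_DIM t_ADD t_PI1)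
    (t_CII t_SPN t_GSP t_INC t_REP t_DIM t_ADD t_PI1) (t_CY (t_CY1 t_SPN))

theorem c_CLA : Stmt_CLA :=
  t_CLA (t_CM2 (MldGeo.t_BDR (MldGeo.t_TVC MldGeo.t_MWC (MldGeo.t_MWP MldGeo.t_MWC)
    MldGeo.t_MNR MldGeo.t_MNV) MldGeo.t_NRV MldGeo.t_NRR) MldGeo.t_INT) c_CBA

section common

theorem c_LOGD : MldGeo.Stmt_LOGD := MldGeo.t_LOGD MldGeo.t_FRA
theorem c_COE : MldGeo.Stmt_COE := MldGeo.t_COE MldGeo.t_FRA c_LOGD MldGeo.t_TBAS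
theorem c_FRM : MldGeo.Stmt_FRM := MldGeo.t_FRM MldGeo.t_FRA MldGeo.t_TBAS c_COE
theorem c_FSM : MldGeo.Stmt_FSM := MldGeo.t_FSM MldGeo.t_FRA c_FRM
theorem c_FDL : MldGeo.Stmt_FDL := MldGeo.t_FDL MldGeo.t_FRA c_FRM
theorem c_REG : MldGeo.Stmt_REG := MldGeo.t_REG MldGeo.t_FRA c_LOGD MldGeo.t_TBAS c_FRM
theorem c_TXT : MldGeo.Stmt_TXT := MldGeo.t_TXT MldGeo.t_FRA c_LOGD MldGeo.t_TBAS c_FRM
theorem c_LOC : MldGeo.Stmt_LOC := MldGeo.t_LOC MldGeo.t_DIV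
theorem c_DLO : MldGeo.Stmt_DLO := MldGeo.t_DLO MldGeo.t_RS1 c_LOGD
theorem c_PRF : MldGeo.Stmt_PRF := MldGeo.t_PRF MldGeo.t_DEG
theorem c_CAN : MldGeo.Stmt_CAN := MldGeo.t_CAN MldGeo.t_RS1 c_PRF MldGeo.t_AFF c_DLO
theorem c_DER : MldGeo.Stmt_DER := MldGeo.t_DER MldGeo.t_TBAS
theorem c_MNL : MldGeo.Stmt_MNL := MldGeo.t_MNL c_FRM
theorem c_STA : Stmt_STA := t_STA t_RES t_FOR t_DET c_FSM c_DLO
theorem c_LDN : Stmt_LDN := t_LDN (t_UNN c_LOC) MldGeo.t_TBAS c_FSM c_TXT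

end common

/-- attractive fixed points -/
theorem c_DTN : Stmt_DTN := by
  have hOLC : MldGeo.Stmt_OLC := MldGeo.t_OLC
  have hSPL : MldGeo.Stmt_SPL := MldGeo.t_SPL
  have hHLI : MldGeo.Stmt_HLI := MldGeo.t_HLI
  have hHFR : MldGeo.Stmt_HFR := MldGeo.t_HFR
  have hHFK : MldGeo.Stmt_HFK := MldGeo.t_HFK hHLI hHFR
  have hTRD : MldGeo.Stmt_TRD := MldGeo.t_TRD hSPL hHFK
  have hTRB : MldGeo.Stmt_TRB := MldGeo.t_TRB hHFK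
  have hNHP : MldGeo.Stmt_NHP := MldGeo.t_NHP hHFR hHFK hTRD hTRB MldGeo.t_TBAS c_REG c_FSM hOLC
  have hGHO : MldGeo.Stmt_GHO := MldGeo.t_GHO hHFR hOLC MldGeo.t_DIV c_LOC
  have hRED : MldGeo.Stmt_RED := MldGeo.t_RED hNHP hGHO hTRB MldGeo.t_TBAS c_FSM c_TXT MldGeo.t_DIV
  have hGAU : MldGeo.Stmt_GAU := MldGeo.t_GAU
  have hRIE : MldGeo.Stmt_RIE := MldGeo.t_RIE MldGeo.t_RS1 MldGeo.t_DEG c_PRF MldGeo.t_AFF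
  have hSEC : MldGeo.Stmt_SEC := MldGeo.t_SEC MldGeo.t_RS1 c_PRF hRIE
  have hDGK : MldGeo.Stmt_DGK := MldGeo.t_DGK c_PRF hRIE c_DLO MldGeo.t_WRO MldGeo.t_WRB
  have hK0C : MldGeo.Stmt_K0C := MldGeo.t_K0C hSPL hHFK hTRD
  have hRSV : MldGeo.Stmt_RSV := MldGeo.t_RSV hK0C c_PRF
  have hTOX : MldGeo.Stmt_TOX := MldGeo.t_TOX hHFK hK0C hGAU
  have hLGO : MldGeo.Stmt_LGO := MldGeo.t_LGO c_MNL hTRB MldGeo.t_TBAS c_FSM c_FDL hHFK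
  have hRNA : Stmt_RNA := t_RNA c_LDN hRED hHFK hK0C c_PRF hLGO
  have hGEN : MldGeo.Stmt_GEN := MldGeo.t_GEN hHFR hHFK MldGeo.t_ATT
  have hNNG : MldGeo.Stmt_NNG := MldGeo.t_NNG hHFK
  have hTHR : MldGeo.Stmt_THR := MldGeo.t_THR hHFR hHFK
  have hNOR : MldGeo.Stmt_NOR := MldGeo.t_NOR c_LOC hRSV hHFR hHFK
  have hPRO : MldGeo.Stmt_PRO := MldGeo.t_PRO hK0C c_PRF hHFK
  have hIDL : MldGeo.Stmt_IDL := MldGeo.t_IDL hHFK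
  have hHTV : MldGeo.Stmt_HTV := MldGeo.t_HTV hK0C hSEC hNOR hTHR MldGeo.t_HT1 hHFK
  have hHTR : MldGeo.Stmt_HTR := MldGeo.t_HTR hK0C hSEC hRIE hNOR hTHR MldGeo.t_HT1 hHFK
  intro m X
  exact t_DTN hRNA c_STA t_SEL hLGO hSPL hK0C c_DER c_CAN hDGK hGEN hIDL c_PRF hPRO hNNG hTHR
    hRSV hTOX hHTV hHTR

/-- nonconstant invariant functions -/
theorem c_DZN : Stmt_DZN := by
  have hGEZ : MldG.Stmt_GEZ := MldG.t_GEZ MldG.t_ATH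
  have hOLC : MldGeo.Stmt_OLC := MldGeo.t_OLC
  have hHFK : MldG.Stmt_HFK := MldG.t_HFK MldG.t_HLI MldG.t_HFR
  have hTRD : MldG.Stmt_TRD := MldG.t_TRD MldG.t_SPL hHFK
  have hTRB : MldG.Stmt_TRB := MldG.t_TRB hHFK
  have hNHP : MldG.Stmt_NHP :=
    MldG.t_NHP MldG.t_HFR hHFK hTRD hTRB MldGeo.t_TBAS c_REG c_FSM hOLC
  have hGHO : MldG.Stmt_GHO := MldG.t_GHO MldG.t_HFR hOLC MldGeo.t_DIV c_LOC
  have hRED : MldG.Stmt_RED := MldG.t_RED hNHP hGHO hTRB MldGeo.t_TBAS c_FSM c_TXT MldGeo.t_DIV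
  have hK0C : MldG.Stmt_K0C := MldG.t_K0C MldG.t_SPL hHFK hTRD
  have hRSV : MldG.Stmt_RSV := MldG.t_RSV hK0C c_PRF
  have hTOX : MldG.Stmt_TOX := MldG.t_TOX hHFK hK0C MldGeo.t_GAU
  have hLGO : MldG.Stmt_LGO := MldG.t_LGO c_MNL hTRB MldGeo.t_TBAS c_FSM c_FDL hHFK
  have hRNB : Stmt_RNB := t_RNB hRED hHFK hK0C c_PRF hLGO c_LDN
  have hIDL : MldG.Stmt_IDL := MldG.t_IDL hHFK
  have hCYZ : MldG.Stmt_CYZ := MldG.t_CYZ MldG.t_ATH MldG.t_HOU hK0C MldGeo.t_AFF hRSV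
  have hTHZ : MldG.Stmt_THZ := MldG.t_THZ MldG.t_ATH hRSV
  have hNOZ : MldG.Stmt_NOZ := MldG.t_NOZ hTHZ MldG.t_HOU
  have hRAZ : MldG.Stmt_RAZ := MldG.t_RAZ hNOZ hTHZ
  intro m X
  exact t_DZN hRNB t_AVO hRSV c_PRF c_STA t_SEL MldG.t_SPL hK0C c_DER c_CAN hLGO hIDL hTOX hCYZ
    hGEZ MldG.t_NGZ hTHZ hRAZ

/-- reduction to fixed points -/
theorem c_FXN : Stmt_FXN := by
  have hAXP : Stmt_AXP := t_AXP MldG.t_ATH MldG.t_HOU MldG.t_OLI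
  have hKMN : Stmt_KMN := t_KMN (MldG.t_KUX MldG.t_ATH) (MldG.t_KUV MldG.t_HTC MldG.t_ATH)
    MldG.t_KUT (MldG.t_KUA MldG.t_HOU) MldG.t_ATH MldG.t_HOU t_CVN
  have hAPN : Stmt_APN := t_APN hAXP MldG.t_TRF MldG.t_ISO MldG.t_HOU MldG.t_ATH t_EXP
  intro n m X
  exact t_FXN (t_LCN MldG.t_TRF MldG.t_OLI MldG.t_ATH MldG.t_HOU t_FRC)
    (t_KSN hKMN MldG.t_HOU) hAPN MldG.t_HOU

theorem lsn : Stmt_LSN := by
  have hHFK : MldG.Stmt_HFK := MldG.t_HFK MldG.t_HLI MldG.t_HFR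
  have hTRD : MldG.Stmt_TRD := MldG.t_TRD MldG.t_SPL hHFK
  have hHFK' : MldGeo.Stmt_HFK := MldGeo.t_HFK MldGeo.t_HLI MldGeo.t_HFR
  have hGEN : MldGeo.Stmt_GEN := MldGeo.t_GEN MldGeo.t_HFR hHFK' MldGeo.t_ATT
  have hCRS : MldGeo.Stmt_CRS := MldGeo.t_CRS MldGeo.t_HFR MldGeo.t_ATT hGEN MldGeo.t_SPL
  intro n m X
  exact t_LSN c_FXN hTRD hCRS c_DTN c_CLA c_DZN t_CLZ t_ONN

end LSCM
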