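import Pool.Agent.LSCM.StD
import Pool.Agent.MldG.KMS

/-!
# KSP: saturation of the group of weights of the invertible functions, with ambient discrepancies
-/

set_option autoImplicit false

namespace LSCM

open MldGap MldGeo MldG MvPolynomial

noncomputable section

/-- KSP: saturation. -/
theorem t_KSP (hKMP : Stmt_KMP) (hHOU : MldG.Stmt_HOU) : Stmt_KSP := by
  classical
  intro n m X A T S hn hG hC
  suffices H : ∀ N : Submodule ℤ (Fin m → ℤ), ∀ (X : Germ n) (A : MldG.TorusAction X m)
      (T : Triple X), KMS.U A hHOU = N → Good A T S → ClosedOrbit A →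
      ∃ (X' : Germ n) (A' : MldG.TorusAction X' m) (T' : Triple X'),
        Good A' T' S ∧ T'.mld = T.mld ∧ (Amb T' → Amb T) ∧ ClosedOrbit A' ∧ Sat A' from
    H _ X A T rfl hG hC
  intro N
  induction N using IsNoetherian.induction with
  | _ N ih =>
    intro X A T hN hG hC
    by_cases hS : Sat A
    · exact ⟨X, A, T, hG, rfl, id, hC, hS⟩
    · unfold Sat at hS
      push Not at hS
      obtain ⟨u, k0, hk0, hk0u, hu⟩ := hS
      have hex : ∃ k : ℕ, 0 < k ∧ UnitWt A ((k : ℤ) • u) := ⟨k0, hk0, hk0u⟩
      obtain ⟨hk, hku⟩ := Nat.find_spec hex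
      have hmin : ∀ j : ℕ, j < Nat.find hex → 0 < j → ¬ UnitWt A ((j : ℤ) • u) :=
        fun j hj hj0 h => Nat.find_min hex hj ⟨hj0, h⟩
      set k := Nat.find hex with hkdef
      have hk1 : k ≠ 1 := by
        intro h
        rw [h, Nat.cast_one, one_smul] at hku
        exact hu hku
      set p := k.minFac with hp
      have hpp : p.Prime := Nat.minFac_prime hk1
      obtain ⟨q, hq⟩ : p ∣ k := Nat.minFac_dvd k
      have hq0 : 0 < q := by
        rcases Nat.eq_zero_or_pos q with h | h
        · rw [h, mul_zero] at hq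
          omega
        · exact h
      have hqk : q < k := by
        rw [hq]
        exact lt_mul_of_one_lt_left hq0 hpp.one_lt
      have hqu : ¬ UnitWt A ((q : ℤ) • u) := hmin q hqk hq0
      have hpqu : UnitWt A ((p : ℤ) • ((q : ℤ) • u)) := by
        rw [smul_smul, ← Nat.cast_mul, ← hq]
        exact hku
      obtain ⟨X', A', T', hG', hmld, hamb, hC', hU'⟩ :=
        hKMP A T S hn hG hC p ((q : ℤ) • u) hpp hqu hpqu
      have hgt : KMS.U A' hHOU > N := by
        rw [← hN]
        refine lt_of_le_of_ne ?_ ?_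
        · intro w hw
          rw [KMS.mem_U] at hw ⊢
          rw [hU']
          exact ⟨0, by rw [zero_smul, sub_zero]; exact hw⟩
        · intro h
          have h1 : (q : ℤ) • u ∈ KMS.U A' hHOU := by
            rw [KMS.mem_U, hU']
            exact ⟨1, by rw [one_smul, sub_self]; exact KMS.zero A⟩
          rw [← h, KMS.mem_U] at h1
          exact hqu h1
      obtain ⟨X2, A2, T2, h1, h2, h2a, h3, h4⟩ := ih _ hgt X' A' T' rfl hG' hC'
      exact ⟨X2, A2, T2, h1, h2.trans hmld, fun h => hamb (h2a h), h3, h4⟩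

end

end LSCM
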