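import Pool.Agent.LSCM.StD
import Pool.Agent.MldG.LCZ

/-!
# LCP: localization at a semi-invariant function
-/

set_option autoImplicit false

namespace LSCM

open MldGap MldGeo MldG MvPolynomial

noncomputable section

namespace M_LCP

variable {n : ℕ} {X : Germ n} {f : X.R}

theorem ord_pow {v : DivVal n X.K} (hf : f ∉ X.m) (hv : v.ord f = 0) (k : ℕ) :
    v.ord ((f : X.K) ^ k) = 0 := by
  have h1 : (1 : X.K) * (f : X.K) ^ k = ((f ^ k : X.R) : X.K) := by
    rw [one_mul]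
    push_cast
    rfl
  have h2 := LCZ.ord_mul_pow hf hv h1
  rw [← map_one (algebraMap ℂ X.K), v.ord_const] at h2
  rw [← h2]
  push_cast
  rfl

theorem dimLE (hFRC : Stmt_FRC) (hATH : Stmt_ATH) (hf : f ∉ X.m) (v : DivVal n X.K) (d : ℕ)
    (hv : X.Through v) (hd : DimLE X v d) : DimLE (LCZ.locG hATH hf) v d := by
  intro r hr
  refine hFRC X v d hv.1 hd r fun i => ?_
  obtain ⟨k, b, h⟩ := hr i
  refine ⟨b, f ^ k, ?_, ?_, ?_⟩
  · push_cast
    exact pow_ne_zero k (LCZ.fK_ne hf)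
  · push_cast
    exact ord_pow hf (LCZ.through_f hf hv) k
  · push_cast
    exact h

end M_LCP

theorem t_LCP (hTRF : Stmt_TRF) (hOLI : Stmt_OLI) (hATH : Stmt_ATH) (hHOU : Stmt_HOU)
    (hFRC : Stmt_FRC) : Stmt_LCP := by
  classical
  intro n m X A T S hn hG
  obtain ⟨F, hF, hom⟩ := LCZ.gens A
  set f : X.R := ∏ g ∈ F with g ∉ X.m, g with hfdef
  have hf : f ∉ X.m := by
    intro h
    obtain ⟨g, hg, hgm⟩ := (X.max.isPrime.prod_mem_iff).mp h
    exact (Finset.mem_filter.mp hg).2 hgm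
  have hfe : ∃ e, f ∈ A.gr e := by
    have h1 : f ∈ SetLike.homogeneousSubmonoid A.gr :=
      Submonoid.prod_mem _ fun g hg => hom g (Finset.mem_filter.mp hg).1
    exact h1
  obtain ⟨e, hfe⟩ := hfe
  have hdiv : ∀ g ∈ F, g ∉ X.m → g ∣ f := fun g hg hgm =>
    Finset.dvd_prod_of_mem _ (Finset.mem_filter.mpr ⟨hg, hgm⟩)
  have hcl := LCZ.closed A hATH hHOU hf hfe F hF hom hdiv
  have hdisc : ∀ v : DivVal n X.K, X.Through v → (LCZ.tri hATH hf T).disc v = T.disc v := by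
    intro v hv
    unfold Triple.disc
    refine congrArg₂ (· - ·) rfl ?_
    refine Finset.sum_congr rfl fun j _ => ?_
    change T.r j * _ = T.r j * _
    rw [← LCZ.idealOrd_map hATH hf hv (T.a_ne j)]
  have htr := hTRF (X := X) (X' := LCZ.locG hATH hf) (AlgEquiv.refl : X.K ≃ₐ[ℂ] X.K) A
    (LCZ.act A hATH hf hfe) T (LCZ.tri hATH hf T) S hn
    (fun v => LCZ.through_iff hATH hf v) (fun v => LCZ.at_iff hATH hf v) (hATH X).2
    (fun v hv => ⟨rfl, hdisc v hv⟩) (fun i => ⟨i, rfl⟩)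
    (fun i => LCZ.inv_map A hATH hf hfe (hG.inv.2 i))
    (fun v P' hv hP' => LCZ.primes A hOLI hATH hHOU hf hfe v P' hv hP') hG
  refine ⟨_, _, _, htr.1, htr.2, ?_, hcl⟩
  exact amb_of_iso (X := X) (X' := LCZ.locG hATH hf) (AlgEquiv.refl : X.K ≃ₐ[ℂ] X.K) T
    (LCZ.tri hATH hf T) (fun v hv => (LCZ.through_iff hATH hf v).1 hv) hdisc
    (fun v d hv hd => M_LCP.dimLE hFRC hATH hf v d hv hd) htr.2

end

end LSCM
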