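import Pool.Agent.LSCM.StN
import Pool.Agent.LSCM.LCP

/-!
# LCN: localization at a semi-invariant function, neighbourhood form
-/

set_option autoImplicit false

namespace LSCM

open MldGap MldGeo MldG MvPolynomial

noncomputable section

namespace M_LCN

variable {n : ℕ} {X : Germ n} {f : X.R}

theorem nonneg (hATH : Stmt_ATH) (hf : f ∉ X.m) {v : DivVal n X.K}
    (h0 : ∀ a : X.R, 0 ≤ v.ord a) (h1 : v.ord f = 0) :
    ∀ a : (LCZ.locG hATH hf).R, 0 ≤ v.ord a := by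
  rintro ⟨a, k, b, h⟩
  have h2 := LCZ.ord_mul_pow hf h1 h
  change 0 ≤ v.ord a
  rw [← h2]
  exact h0 b

theorem idealOrd_map (hATH : Stmt_ATH) (hf : f ∉ X.m) {v : DivVal n X.K}
    (h0 : ∀ a : X.R, 0 ≤ v.ord a) (h1 : v.ord f = 0) {I : Ideal X.R} (hI : I ≠ ⊥) :
    idealOrd (X := LCZ.locG hATH hf) v (Ideal.map (LCZ.incl (f := f)) I) = idealOrd v I := by
  obtain ⟨-, h2, h3, -⟩ := t_IDO v h0
  obtain ⟨-, -, -, h4⟩ := t_IDO (X := LCZ.locG hATH hf) v (nonneg hATH hf h0 h1)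
  obtain ⟨a, ⟨b, hb, rfl⟩, ha0, ha, hle⟩ :=
    h4 (LCZ.incl (f := f) '' (I : Set X.R)) (LCZ.map_ne hI)
  obtain ⟨b', hb', hb0', hbo⟩ := h2 I hI
  have e : Ideal.map (LCZ.incl (f := f)) I =
    Ideal.span (LCZ.incl (f := f) '' (I : Set X.R)) := rfl
  rw [e, ← ha]
  apply le_antisymm
  · rw [← hbo]
    exact hle _ ⟨b', hb', rfl⟩ (LCZ.incl_ne hb0')
  · refine h3 I b hb ?_
    rintro rfl
    exact ha0 (map_zero _)

theorem dimLE (hFRC : Stmt_FRC) (hATH : Stmt_ATH) (hf : f ∉ X.m) (v : DivVal n X.K) (d : ℕ)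
    (h0 : ∀ a : X.R, 0 ≤ v.ord a) (h1 : v.ord f = 0) (hd : DimLE X v d) :
    DimLE (LCZ.locG hATH hf) v d := by
  intro r hr
  refine hFRC X v d h0 hd r fun i => ?_
  obtain ⟨k, b, h⟩ := hr i
  refine ⟨b, f ^ k, ?_, ?_, ?_⟩
  · push_cast
    exact pow_ne_zero k (LCZ.fK_ne hf)
  · push_cast
    exact M_LCP.ord_pow hf h1 k
  · push_cast
    exact h

end M_LCN

theorem t_LCN (hTRF : Stmt_TRF) (hOLI : Stmt_OLI) (hATH : Stmt_ATH) (hHOU : Stmt_HOU)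
    (hFRC : Stmt_FRC) : Stmt_LCN := by
  classical
  intro n m X A T S hn hG
  obtain ⟨F, hF, hom⟩ := LCZ.gens A
  set f : X.R := ∏ g ∈ F with g ∉ X.m, g with hfdef
  have hf : f ∉ X.m := by
    intro h
    obtain ⟨g, hg, hgm⟩ := (X.max.isPrime.prod_mem_iff).mp h
    exact (Finset.mem_filter.mp hg).2 hgm
  have hfe : ∃ e, f ∈ A.gr e := by
    have h1 : f ∈ SetLike.homogeneousSubmonoid A.gr :=
      Submonoid.prod_mem _ fun g hg => hom g (Finset.mem_filter.mp hg).1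
    exact h1
  obtain ⟨e, hfe⟩ := hfe
  have hdiv : ∀ g ∈ F, g ∉ X.m → g ∣ f := fun g hg hgm =>
    Finset.dvd_prod_of_mem _ (Finset.mem_filter.mpr ⟨hg, hgm⟩)
  have hcl := LCZ.closed A hATH hHOU hf hfe F hF hom hdiv
  have hdisc' : ∀ v : DivVal n X.K, (∀ a : X.R, 0 ≤ v.ord a) → v.ord f = 0 →
      (LCZ.tri hATH hf T).disc v = T.disc v := by
    intro v h0 h1
    unfold Triple.disc
    refine congrArg₂ (· - ·) rfl ?_
    refine Finset.sum_congr rfl fun j _ => ?_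
    change T.r j * _ = T.r j * _
    rw [← M_LCN.idealOrd_map hATH hf h0 h1 (T.a_ne j)]
  have hdisc : ∀ v : DivVal n X.K, X.Through v → (LCZ.tri hATH hf T).disc v = T.disc v :=
    fun v hv => hdisc' v hv.1 (LCZ.through_f hf hv)
  have htr := hTRF (X := X) (X' := LCZ.locG hATH hf) (AlgEquiv.refl : X.K ≃ₐ[ℂ] X.K) A
    (LCZ.act A hATH hf hfe) T (LCZ.tri hATH hf T) S hn
    (fun v => LCZ.through_iff hATH hf v) (fun v => LCZ.at_iff hATH hf v) (hATH X).2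
    (fun v hv => ⟨rfl, hdisc v hv⟩) (fun i => ⟨i, rfl⟩)
    (fun i => LCZ.inv_map A hATH hf hfe (hG.inv.2 i))
    (fun v P' hv hP' => LCZ.primes A hOLI hATH hHOU hf hfe v P' hv hP') hG
  refine ⟨_, _, _, htr.1, htr.2, ?_, hcl⟩
  rintro ⟨⟨a, k, b, h⟩, hg', hamb⟩
  have hb : b ∉ X.m := fun hb => hg' ((LCZ.locM_iff hf h).mpr hb)
  refine ⟨f * b, mul_notMem hf hb, fun v hv d hd => ?_⟩
  obtain ⟨hvf, hvb⟩ := near_mul hf hb hv
  have h1 : v.ord f = 0 := hvf.2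
  have h2 : v.ord a = 0 := by
    rw [← LCZ.ord_mul_pow hf h1 h]
    exact hvb.2
  rw [← htr.2, ← hdisc' v hv.1 h1]
  exact hamb v ⟨M_LCN.nonneg hATH hf hv.1 h1, h2⟩ d (M_LCN.dimLE hFRC hATH hf v d hv.1 h1 hd)

end

end LSCM
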