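import Pool.Agent.LSCM.StD
import Pool.Agent.MldGeo.DM1

/-!
# LSC_ON1: dimension one
-/

set_option autoImplicit false

namespace LSCM

namespace M_ON1



theorem at_of_through {X : MldGeo.Germ 1} {v : MldGeo.DivVal 1 X.K} (hv : X.Through v) :
    X.At v := by
  have hP := MldGeo.HT1.centre_prime X v hv.1
  have hle : MldGeo.HT1.centre X v hv.1 ≤ X.m := by
    intro a ha
    by_contra h
    have h1 := hv.2 a h
    rcases ha with h2 | h2
    · rw [h2] at h
      exact h X.m.zero_mem
    · omega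
  have heq : MldGeo.HT1.centre X v hv.1 = X.m := by
    by_contra hne
    obtain ⟨a, ham, haP⟩ := SetLike.exists_of_lt (lt_of_le_of_ne hle hne)
    have hy : MldGeo.HT1.IndMod X.m (fun i : Fin 0 => (Fin.elim0 i : X.R)) := by
      intro p hp hmem
      have e : p = MvPolynomial.C (MvPolynomial.coeff 0 p) :=
        MvPolynomial.eq_C_of_isEmpty p
      have hc : MvPolynomial.coeff 0 p ≠ 0 := by
        intro h
        apply hp
        rw [e, h, map_zero]
      rw [e, MvPolynomial.aeval_C] at hmem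
      have hu : IsUnit (algebraMap ℂ X.R (MvPolynomial.coeff 0 p)) :=
        (IsUnit.mk0 _ hc).map (algebraMap ℂ X.R)
      exact X.max.ne_top (Ideal.eq_top_of_isUnit_mem _ hmem hu)
    have h2 := MldGeo.HT1.indMod_option X.m _ hP hle _ hy a ham haP
    obtain ⟨b, hbP, hb0⟩ := Submodule.exists_mem_ne_zero_of_ne_bot
      (MldGeo.HT1.centre_ne_bot X v hv.1)
    have h3 := MldGeo.HT1.indMod_option (MldGeo.HT1.centre X v hv.1) ⊥ Ideal.isPrime_bot bot_le _
      h2 b hbP (by simpa using hb0)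
    have h4 := MldGeo.HT1.card_le X _ h3
    simp only [Cardinal.mk_option, Cardinal.mk_fin] at h4
    have h6 : 0 + 1 + 1 ≤ 1 := by exact_mod_cast h4
    omega
  refine ⟨hv.1, fun a ha h0 => ?_⟩
  rw [← heq] at ha
  rcases ha with h | h
  · exact absurd h h0
  · exact h

theorem through_of_at {X : MldGeo.Germ 1} {v : MldGeo.DivVal 1 X.K} (hv : X.At v) :
    X.Through v := by
  refine ⟨hv.1, fun a ha => ?_⟩
  have h1 := (MldGeo.DM1.along hv).2.2.2 a
  have h2 : ¬ (0 < v.ord (a : X.K)) := fun h => ha (h1.2 (Or.inr h))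
  have h3 := hv.1 a
  omega

end M_ON1

theorem t_ON1 (hIDO : MldGeo.Stmt_IDO) : Stmt_ON1 := by
  intro X T hE hLC
  have hbdd : BddBelow {a : ℝ | ∃ v, X.At v ∧ T.disc v = a} := by
    refine ⟨0, ?_⟩
    rintro a ⟨v, hv, rfl⟩
    exact hLC v (M_ON1.through_of_at hv)
  refine ⟨?_, ?_⟩
  · intro v hv d _
    have h1 : T.mld ≤ T.disc v := csInf_le hbdd ⟨v, M_ON1.at_of_through hv, rfl⟩
    have h2 : (0 : ℝ) ≤ d := Nat.cast_nonneg d
    linarith
  · by_cases hex : ∃ v, X.At v
    · obtain ⟨v, hv⟩ := hex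
      have h1 : T.mld ≤ T.disc v := csInf_le hbdd ⟨v, hv, rfl⟩
      have hco : T.Coeff X.m (1 - T.logDisc v) := ⟨le_rfl, v, MldGeo.DM1.along hv, by ring⟩
      have hb0 := hE _ _ hco
      have hid := (hIDO v hv.1).1
      have h2 : 0 ≤ ∑ j, T.r j * (MldGeo.idealOrd v (T.a j) : ℝ) :=
        Finset.sum_nonneg fun j _ => mul_nonneg (T.r_nonneg j)
          (by exact_mod_cast hid (T.a j) (T.a_ne j))
      have h3 : T.disc v = T.logDisc v - ∑ j, T.r j * (MldGeo.idealOrd v (T.a j) : ℝ) := rfl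
      linarith
    · have hset : {a : ℝ | ∃ v, X.At v ∧ T.disc v = a} = ∅ := by
        ext a
        constructor
        · rintro ⟨w, hw, -⟩
          exact (hex ⟨w, hw⟩).elim
        · intro h
          exact h.elim
      have hmld : T.mld = 0 := by
        unfold MldGeo.Triple.mld
        rw [hset, Real.sInf_empty]
      rw [hmld]
      exact zero_le_one

end LSCM
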