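import Pool.Agent.MldTv.DatA
import Pool.Agent.MldTv.Final

/-!
# Lower semicontinuity in complexity one: the combinatorial part

`X : TVar m 1` (all degrees one) is the combinatorial datum of an affine variety with a torus action
of complexity one and attractive fixed point `x`. Notation of `MldTv` (`Pia.lean`, `Amb.lean`,
`DatA.lean`): `Amb X`, `Gen X`, `gen`, `T1 X`, `inP`, `inC`, `QE`, `PE`, `ordE`, `G0`, `pia`.
-/

set_option autoImplicit false

namespace LSCM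

open MldTv MldGap Finset

noncomputable section

/-- the span of a set of prime divisors and of the line -/
def Wsp {m c : ℕ} {X : TVar m c} (S : Finset (Gen X)) : Submodule ℝ (Amb X) :=
  Submodule.span ℝ (gen '' (S : Set (Gen X))) ⊔ Submodule.span ℝ {T1 X}

/-- `D` consists of directions of the face of `v` in the polyhedron of `l`. -/
def Dir {m c : ℕ} (X : TVar m c) (v : Fin m → ℝ) (l : X.Y → ℝ)
    (D : Submodule ℝ (Fin m → ℝ)) : Prop :=
  ∀ d ∈ D, ∃ ε : ℝ, 0 < ε ∧ v + ε • d ∈ X.poly l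

/-- a valuation (possibly trivial): a lattice point in the polyhedron of `l`, one fibre -/
def IsV {m c : ℕ} (X : TVar m c) (v : Fin m → ℝ) (l : X.Y → ℕ) : Prop :=
  v ∈ X.N ∧ (univ.filter fun y => l y ≠ 0).card ≤ c ∧ v ∈ X.poly (fun y => (l y : ℝ))

/-- SPN: completing a subspace by few generators.
Proof. Induction on `k`: if `W ≠ ⊤` some `e i` is not in `W`; replace `W` by `W ⊔ span {e i}`, whose
finrank is larger. -/
def Stmt_SPN : Prop := ∀ {E ι : Type} [AddCommGroup E] [Module ℝ E] [FiniteDimensional ℝ E]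
  [Fintype ι] (e : ι → E) (W : Submodule ℝ E), W ⊔ Submodule.span ℝ (Set.range e) = ⊤ →
  ∀ k : ℕ, Module.finrank ℝ E ≤ Module.finrank ℝ W + k →
  ∃ J : Finset ι, J.card ≤ k ∧ W ⊔ Submodule.span ℝ (e '' (J : Set ι)) = ⊤

/-- GSP: the prime divisors and the line span the ambient space.
Proof. `X.full`: the rays span `Fin m → ℝ`; a contracted ray is `t⁻¹ ∑ deg • vert y (p y)`, and
`(∑ deg • vert y (p y), 0) = ∑ (deg / mu) • gen (inl ⟨y, p y⟩) - T1` (see `inC_ray`, `inC_vert` in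
MldTv/Amb.lean); `(0, e_y) = (1 / mu) • (gen (inl ⟨y, i⟩) - (mu • vert y i, 0))`. -/
def Stmt_GSP : Prop := ∀ {m c : ℕ} (X : TVar m c), Wsp (univ : Finset (Gen X)) = ⊤

/-- INC: a criterion for `QE`.
Proof. `w.2 y > t deg y` for all `y`. Let `t' = t + δ`, `δ > 0` small, `t' deg y ≤ w.2 y`. For small
`d` write `(d, 0) = ∑_{g ∈ S} c g • gen g + c₀ • T1` with small coefficients (a linear right inverse
of the surjective linear map `(c, c₀) ↦ ∑ c g • gen g + c₀ • T1` is continuous): `w + (d, 0) =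
∑ (a g + c g) • gen g + (t + c₀) • T1`, so `w.1 + d` is in the polyhedron of `w.2 - (t + c₀) deg`
(`inP_sum`), which is contained in the one of `w.2 - t' deg` (`poly_mono`). -/
def Stmt_INC : Prop := ∀ {m c : ℕ} (X : TVar m c) (S : Finset (Gen X)) (a : Gen X → ℝ) (t : ℝ)
  (w : Amb X), (∀ g ∈ S, 0 < a g) → (∀ y, ∃ i, (Sum.inl ⟨y, i⟩ : Gen X) ∈ S) →
  w = ∑ g ∈ S, a g • gen g + t • T1 X → Wsp S = ⊤ → QE w

/-- REP: representations.
Proof. Each `p i` is `∑ a_i g • gen g - t_i • T1` with `a_i, t_i ≥ 0` (definition of `inC`);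
`a = ∑ c i a_i`, `S` = the support of `a`, which contains the supports of the `a_i` since `c i > 0`. -/
def Stmt_REP : Prop := ∀ {m c : ℕ} (X : TVar m c) {ι : Type} [Fintype ι] (w : Amb X)
  (p : ι → Amb X) (b : ι → ℝ), (∀ i, 0 < b i) → (∀ i, inC (p i)) → w = ∑ i, b i • p i →
  ∃ (S : Finset (Gen X)) (a : Gen X → ℝ) (t : ℝ), (∀ g ∈ S, 0 < a g) ∧ 0 ≤ t ∧
    w = ∑ g ∈ S, a g • gen g - t • T1 X ∧ ∀ i, p i ∈ Wsp S

/-- DIM: dimensions.
Proof. The projection `W → (X.Y → ℝ)` to the second component is onto (the images of the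
`gen (inl ⟨y, p y⟩)` are `mu e_y`), its kernel contains `D`: first part (rank-nullity). Second part:
`q = ∑ deg • vert y (p y)`: `(q, 0) = ∑ (deg / mu) • gen (inl ⟨y, p y⟩) - T1` is in `W`; apply the
first part to `D ⊔ span {q}`. -/
def Stmt_DIM : Prop := ∀ {m c : ℕ} (X : TVar m c) (D : Submodule ℝ (Fin m → ℝ))
  (W : Submodule ℝ (Amb X)) (p : ∀ y, X.I y), (∀ d ∈ D, ((d, 0) : Amb X) ∈ W) →
  (∀ y, gen (Sum.inl ⟨y, p y⟩ : Gen X) ∈ W) →
  Module.finrank ℝ D + Fintype.card X.Y ≤ Module.finrank ℝ W ∧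
  (T1 X ∈ W → ∑ y, (X.deg y : ℝ) • X.vert y (p y) ∉ D →
    Module.finrank ℝ D + Fintype.card X.Y + 1 ≤ Module.finrank ℝ W)

/-- ADD: adding prime divisors, and the shift by the line.
Proof. `PE (gen g) = 1 - bG ≤ 1` (`PE_gen`, `bG_nonneg`), the second coordinates stay nonnegative (the
minima are `0`), and `ordE A (w + ∑ gen g) ≥ ordE A w` because `evE f (gen g) ≥ 0` (`evE_gen`) and
the values are bounded below (`evE_nonneg`, `inC w`). Second part: `PE_T1`, `ordE_T1`, the minima are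
`0`. -/
def Stmt_ADD : Prop := ∀ {m c : ℕ} (X : TVar m c) (T : Triple X) (w : Amb X),
  (∀ y, 0 ≤ w.2 y) → inC w → (∀ J : Finset (Gen X),
    G0 T (w + ∑ g ∈ J, gen g) ≤ G0 T w + J.card) ∧
  ((∀ y, (X.deg y : ℝ) ≤ w.2 y) → G0 T (w - T1 X) = G0 T w - (∑ y, (X.deg y : ℝ) - X.idx))

/-- PI1: `mld ≤ G0` at the lattice points of the ambient cone.
Proof. `pia` with `t = 0`, `C = {(0, 0)}` (`isMon_zero`), `μ = T.mld` (`mld_le`, `LC.plc`). -/
def Stmt_PI1 : Prop := ∀ {m c : ℕ} (X : TVar m c) (T : Triple X), T.LC → ∀ p : ∀ y, X.I y,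
  0 < T.ψ (∑ y, (X.deg y : ℝ) • X.vert y (p y)) → ∀ w : Amb X, w.1 ∈ X.N →
  (∀ y, ∃ k : ℤ, w.2 y = k) → QE w → T.mld ≤ G0 T w

/-- CI: the first case. `ε` as in the statement.
Proof. `w = (v, l)`, `D` has a basis `d_i`; a positive combination of `(v, l + ε deg) ∈ inC` and of the
points `(v ± ε_i d_i, l) ∈ inC` (`inC_of_poly`) with sum of coefficients `1` and with the coefficient
`b₀ > 0` of the first is `w + b₀ ε T1` (for the same `ε_i` on both sides use convexity of the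
polyhedron). `REP`: `w + b₀ ε T1 = ∑_S a g • gen g - t T1`. For all `y`: `∑_S a g (gen g).2 y = l y +
(b₀ ε + t) deg y > 0`, so `S` meets all fibres, in `p y` say; `Wsp S` contains `D × 0` and the
`gen (inl ⟨y, p y⟩)`, so `DIM`: `finrank D + |Y| ≤ finrank (Wsp S)`, and `finrank (Amb X) = m + |Y|`.
`SPN` and `GSP`: `J` with `card ≤ k`, `Wsp S ⊔ span (gen '' J) = ⊤`. `w' = w + ∑_{g ∈ J} gen g`: `INC` with
`S ∪ J` gives `QE w'`. `PI1`, `ADD`, `G0 T w = T.ldisc v l` (`G0_central`). -/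
def Stmt_CI : Prop := ∀ {m c : ℕ} (X : TVar m c) (T : Triple X), T.LC → ∀ p : ∀ y, X.I y,
  0 < T.ψ (∑ y, (X.deg y : ℝ) • X.vert y (p y)) → ∀ (v : Fin m → ℝ) (l : X.Y → ℕ), IsV X v l →
  ∀ (D : Submodule ℝ (Fin m → ℝ)) (k : ℕ), Dir X v (fun y => (l y : ℝ)) D →
  m ≤ Module.finrank ℝ D + k → ∀ ε : ℝ, 0 < ε → v ∈ X.poly (fun y => (l y : ℝ) + ε * X.deg y) →
  T.mld ≤ T.ldisc v l + k

/-- CII: the second case, complexity one, all degrees one.
Proof. As in `CI` a positive combination with sum of coefficients `1` of the points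
`(v ± ε_i d_i, l)` (and `(v, l)`) is `w = (v, l) = ∑_S a g • gen g - t T1`, `t ≥ 0`; `t = 0`, otherwise
`w + t T1 = ∑_S a g • gen g` is in `inP` (`inP_sum`) against the hypothesis. First part, `l y₀ ≠ 0`: `S`
contains a vertex `p y₀` over `y₀`. Choose any vertices `p y` for `y ≠ y₀` and let `S' = S ∪ {p y}`,
`w₁ = w + ∑_{y ≠ y₀} gen (inl ⟨y, p y⟩)`. `q = ∑ vert y (p y)` is not in `D`: otherwise
`v - ε q ∈ X.poly l` for a small `ε > 0`, and `v = (v - ε q) + ε q ∈ X.poly (l + ε)`. `DIM`, second part: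
`finrank D + |Y| + 1 ≤ finrank (Wsp S')`, so `k ≥ 1` and `SPN` gives `J`, `card ≤ k - 1`. `w' = w₁ +
∑_J gen g`: `QE w'` (`INC`), `w'.2 y ≥ 1` for all `y`, and `QE (w' - T1)` (`QE.shift`). `PI1`, `ADD`:
`mld ≤ G0 T (w' - T1) ≤ ldisc v l + (|Y| - 1) + (k - 1) - (|Y| - idx)`, `idx ≤ 2`. Second part: if `l = 0` the
same with all vertices, `w₁ = w + ∑_y gen (inl ⟨y, p y⟩)`, one more generator. (`2 ≤ |Y|`:
`X.card_Y`.) -/
def Stmt_CII : Prop := ∀ {m : ℕ} (X : TVar m 1) (T : Triple X), (∀ y, X.deg y = 1) → T.LC →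
  ∀ p : ∀ y, X.I y, 0 < T.ψ (∑ y, (X.deg y : ℝ) • X.vert y (p y)) →
  ∀ (v : Fin m → ℝ) (l : X.Y → ℕ), IsV X v l →
  ∀ (D : Submodule ℝ (Fin m → ℝ)) (k : ℕ), Dir X v (fun y => (l y : ℝ)) D →
  m ≤ Module.finrank ℝ D + k →
  (∀ ε : ℝ, 0 < ε → v ∉ X.poly (fun y => (l y : ℝ) + ε)) →
  ((∃ y, l y ≠ 0) → T.mld ≤ T.ldisc v l + k) ∧ T.mld ≤ T.ldisc v l + (k + 1)

/-- CY1: the interior of the cone over one fibre. `y₀` is a fibre, `l` is supported at `y₀`.
Proof. `l y₀ ≠ 0`: in `(Fin m → ℝ) × ℝ` the vectors `(ray j, 0)`, `(mu • vert y₀ i, mu)` span everything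
(`X.full`); the positive combination of the `(v ± ε_i d_i, l y₀)` equal to `(v, l y₀)` has a
representation with support `S`, whose span contains `D × 0` and `(v, l y₀)`: dimension
`≥ finrank D + 1`; `SPN`: at most `k` further generators `J`, and `(v, l y₀) + ∑_J` is an interior point of
the cone, so its first component is an interior point of the slice. `l = 0`: the same in
`Fin m → ℝ` with the rays only. The result is given by numbers `x j`, `z i` (the multiplicities of the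
rays and vertices added), `∑ x + ∑ z ≤ k`. -/
def Stmt_CY1 : Prop := ∀ {m c : ℕ} (X : TVar m c) [DecidableEq X.Y] (y₀ : X.Y) (v : Fin m → ℝ)
  (s : ℕ) (D : Submodule ℝ (Fin m → ℝ)) (k : ℕ),
  v ∈ X.poly (fun y => if y = y₀ then (s : ℝ) else 0) →
  Dir X v (fun y => if y = y₀ then (s : ℝ) else 0) D → m ≤ Module.finrank ℝ D + k →
  ∃ (x : X.R → ℕ) (z : X.I y₀ → ℕ), ∑ j, x j + ∑ i, z i ≤ k ∧ (s = 0 → ∀ i, z i = 0) ∧
    v + ∑ j, (x j : ℝ) • X.ray j + ∑ i, ((z i : ℝ) * X.mu y₀ i) • X.vert y₀ i ∈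
      interior (X.poly (fun y => if y = y₀ then ((s + ∑ i, z i * X.mu y₀ i : ℕ) : ℝ) else 0))

/-- CY: the log Calabi-Yau case.
Proof. `l` is supported at one fibre `y₀` (`IsV` with `c = 1`; any `y₀` if `l = 0`). `CY1`; the result
`(v', l')` is central. For a contracted ray `ψ (ray j) = 0`: `t ψ (ray j) = ψ (∑ deg • vert)`, which is `≤ 0` by
hypothesis and `≥ 0` (`psi_sum_nonneg`, `LC.plc`). For the other rays `ψ = 1 - b ≤ 1`, for the vertices
`ψ (mu • vert) + α mu = 1 - b ≤ 1`. The linear functions of the ideals are nonnegative on the added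
vectors (`evE_nonneg`, `inC_ray`, `inC_vert`), so the orders do not decrease. `mld_le`. -/
def Stmt_CY : Prop := ∀ {m : ℕ} (X : TVar m 1) (T : Triple X), T.LC →
  (∀ p : ∀ y, X.I y, T.ψ (∑ y, (X.deg y : ℝ) • X.vert y (p y)) ≤ 0) →
  ∀ (v : Fin m → ℝ) (l : X.Y → ℕ), IsV X v l →
  ∀ (D : Submodule ℝ (Fin m → ℝ)) (k : ℕ), Dir X v (fun y => (l y : ℝ)) D →
  m ≤ Module.finrank ℝ D + k → T.mld ≤ T.ldisc v l + k

/-- CBA: all cases. -/
def Stmt_CBA : Prop := ∀ {m : ℕ} (X : TVar m 1) (T : Triple X), (∀ y, X.deg y = 1) → T.LC →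
  ∀ (v : Fin m → ℝ) (l : X.Y → ℕ), IsV X v l →
  ∀ (D : Submodule ℝ (Fin m → ℝ)) (k : ℕ), Dir X v (fun y => (l y : ℝ)) D →
  m ≤ Module.finrank ℝ D + k →
  (((∃ y, l y ≠ 0) ∨ ∃ ε : ℝ, 0 < ε ∧ v ∈ X.poly (fun y => (l y : ℝ) + ε)) →
    T.mld ≤ T.ldisc v l + k) ∧ T.mld ≤ T.ldisc v l + (k + 1)

theorem t_CBA (hCI : Stmt_CI) (hCII : Stmt_CII) (hCY : Stmt_CY) : Stmt_CBA := by
  intro m X T hdeg hLC v l hV D k hD hk
  by_cases hp : ∃ p : ∀ y, X.I y, 0 < T.ψ (∑ y, (X.deg y : ℝ) • X.vert y (p y))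
  · obtain ⟨p, hp⟩ := hp
    by_cases he : ∃ ε : ℝ, 0 < ε ∧ v ∈ X.poly (fun y => (l y : ℝ) + ε)
    · obtain ⟨ε, h0, he⟩ := he
      have h1 := hCI X T hLC p hp v l hV D k hD hk ε h0 (by
        simpa only [hdeg, Nat.cast_one, mul_one] using he)
      exact ⟨fun _ => h1, by linarith⟩
    · push Not at he
      obtain ⟨h1, h2⟩ := hCII X T hdeg hLC p hp v l hV D k hD hk he
      refine ⟨fun h => h.elim h1 fun h3 => ?_, h2⟩
      obtain ⟨ε, h0, h4⟩ := h3
      exact absurd h4 (he ε h0)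
  · push Not at hp
    have h1 := hCY X T hLC hp v l hV D k hD hk
    exact ⟨fun _ => h1, by linarith⟩

end

end LSCM
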