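import Pool.Agent.LSCM.StA
import Pool.Agent.MldGeo.CMB
import Pool.Agent.MldG.StmtsZ

/-!
# Lower semicontinuity in complexity one: geometry

`DepOn v G d`: any `d + 1` elements of `G` are algebraically dependent at the valuation `v`;
`DimLE X v d`: the centre of `v` has dimension at most `d`.
-/

set_option autoImplicit false

namespace LSCM

open MldGap MldGeo MvPolynomial

noncomputable section

/-- any `d + 1` elements of `G` have algebraically dependent residues at `v` -/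
def DepOn {n : ℕ} {K : Type} [Field K] [Algebra ℂ K] (v : DivVal n K) (G : Set K) (d : ℕ) : Prop :=
  ∀ r : Fin (d + 1) → K, (∀ i, r i ∈ G) →
    ∃ p : MvPolynomial (Fin (d + 1)) ℂ, p ≠ 0 ∧ (aeval r p = 0 ∨ 0 < v.ord (aeval r p))

/-- the centre of `v` on `X` has dimension at most `d` -/
def DimLE {n : ℕ} (X : Germ n) (v : DivVal n X.K) (d : ℕ) : Prop :=
  DepOn v {a : X.K | a ∈ X.R} d

/-- the inequality of lower semicontinuity: `mld_x ≤ disc v + dim (centre of v)` for all divisorial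
valuations whose centre contains `x` -/
def Amb {n : ℕ} {X : Germ n} (T : Triple X) : Prop :=
  ∀ v, X.Through v → ∀ d : ℕ, DimLE X v d → T.mld ≤ T.disc v + d

/-- the rank of the vectors `u i`, `i ∈ I` -/
def rkI {m N : ℕ} (u : Fin N → Fin m → ℤ) (I : Set (Fin N)) : ℕ :=
  Module.finrank ℝ (Submodule.span ℝ ((fun i => toR (u i)) '' I))

/-! ### valuations and forms -/

/-- RES: the order of a logarithmic form, refined.
Proof. Induction on `J.card`. If `J.card ≤ d` this is `FDL`. Otherwise let `J0 ⊆ J` be a maximal subset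
whose residues are algebraically independent (`v.ord (aeval a p) = 0` and `aeval a p ≠ 0` for all
polynomials `p ≠ 0` in the variables of `J0`); `J0.card ≤ d`. Let `j ∈ J \ J0`. Among the polynomials
`p ≠ 0` in the variables of `J0 ∪ {j}` with `aeval a p = 0` or `0 < v.ord (aeval a p)` choose one of
least degree in the variable `j`; this degree is positive and `p' = pderiv j p ≠ 0` has smaller degree
in `j`, so `aeval a p' ≠ 0`, `v.ord (aeval a p') = 0`. `φ = aeval a p`: `D φ = ∑ (aeval a (pderiv i p)) D (a i)`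
(`i ∈ J0 ∪ {j}`), hence `φ • dlogs (update a j φ) = (a j * aeval a p') • dlogs a` (multilinear and
alternating; if `φ = 0` then `D (a j)` is a combination of the other `D (a i)` and `dlogs a = 0`). So
`dlogs (update a j φ) ≠ 0` and, by `FSM`, `v.logOrd (dlogs a) = v.ord φ + v.logOrd (dlogs (update a j φ))`,
`1 ≤ v.ord φ`. Induction for `update a j φ` and `J.erase j`. -/
def Stmt_RES : Prop := ∀ {n : ℕ} {K : Type} [Field K] [Algebra ℂ K],
  Algebra.trdeg ℂ K = (n : Cardinal) → ∀ (v : DivVal n K) (a : Fin n → K) (J : Finset (Fin n))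
  (d : ℕ), 0 < n → (∀ i, a i ≠ 0) → dlogs a ≠ 0 → (∀ j ∈ J, v.ord (a j) = 0) →
  DepOn v (a '' (J : Set (Fin n))) d → (J.card : ℤ) - d ≤ v.logOrd (dlogs a)

/-- FOR: changing the first coordinate.
Proof. Mapping `KaehlerDifferential.D ℂ K0 t = D t • KaehlerDifferential.D ℂ K0 s` to `Ω[K⁄ℂ]`:
`dlog (t : K) = (s * D t / t) • dlog (s : K)`; multilinearity in the first vector (see LGO.lean). -/
def Stmt_FOR : Prop := ∀ {m : ℕ} {K : Type} [Field K] [Algebra ℂ K] (K0 : IntermediateField ℂ K)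
  (χ : (Fin m → ℤ) → K) (s t : K0), s ≠ 0 → t ≠ 0 → ∀ D : Derivation ℂ K0 K0, D t ≠ 0 →
  (D s = 1 ∧ ∀ t : K0, KaehlerDifferential.D ℂ K0 t = D t • KaehlerDifferential.D ℂ K0 s) →
  (∀ b : K0, ∃ c : K, KaehlerDifferential.D ℂ K (b : K) = c • KaehlerDifferential.D ℂ K (t : K)) ∧
  dlogs (Fin.cons (s : K) fun i => χ (Pi.single i 1)) =
    ((t / (s * D t) : K0) : K) • dlogs (Fin.cons (t : K) fun i => χ (Pi.single i 1))

/-- DET: changing the other coordinates.
Proof. Choose `σ` injective with the minor `det (z j (σ j'))` not zero (the rows `z j` are independent: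
extend them by unit vectors `e_i`, `i ∉ range σ`, to a basis of `ℚ^m`). `g (σ j) = b j χ (z j)`,
`g i = χ (e_i)` for `i ∉ range σ`. `dlog (χ u) = ∑ u i • dlog (χ e_i)` (additivity of `dlog`, `χ (u + w) = χ u χ w`),
`dlog (b j)` is a multiple of `dlog t`, which does not matter in the exterior product with `dlog t`
(alternating); the alternating map of a matrix times a family is the determinant times the
alternating map of the family. The integer `N` is the determinant of the matrix. -/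
def Stmt_DET : Prop := ∀ {m : ℕ} {K : Type} [Field K] [Algebra ℂ K] (K0 : IntermediateField ℂ K)
  (χ : (Fin m → ℤ) → K), χ 0 = 1 → (∀ u w, χ (u + w) = χ u * χ w) → ∀ t : K0, t ≠ 0 →
  (∀ b : K0, ∃ c : K, KaehlerDifferential.D ℂ K (b : K) = c • KaehlerDifferential.D ℂ K (t : K)) →
  ∀ (k : ℕ) (b : Fin k → K0) (z : Fin k → Fin m → ℤ), (∀ j, b j ≠ 0) → LinearIndependent ℤ z →
  ∃ (g : Fin m → K) (σ : Fin k → Fin m) (N : ℤ), N ≠ 0 ∧ Function.Injective σ ∧
    (∀ j, g (σ j) = (b j : K) * χ (z j)) ∧ (∀ i, g i ≠ 0) ∧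
    dlogs (Fin.cons (t : K) g) = (N : K) • dlogs (Fin.cons (t : K) fun i => χ (Pi.single i 1))

/-- STA: the invariant form. `K0` is the field of invariants (a function field of one variable), `χ` a
splitting, `v` is given by `(w, l, y)` on homogeneous functions, `G` contains the functions
`b j χ (z j)`, which have order `0` and independent weights.
Proof. (1) `l > 0`: `t : K0` with `y.ord t = 1` (`y.unif`), `l = 0`: `t = s`. `D t ≠ 0` (`D s = 1`; for `l > 0`
see LGO.lean, `DLO`), `y.ord (D t) = -κ y` for `l > 0`. `FOR`, `FSM`: `logOrd (form s) = l (1 - y.ord s + κ y) +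
logOrd (form t)` (the factor is in `K0`, its order is `l` times the order at `y`, so `0` for `l = 0`).
`DET` for `t`: `logOrd (form t) = logOrd (dlogs (cons t g))` (the order of `N` is `0`), and `RES` for
`cons t g` and `J` = the image of `succ ∘ σ`: it is at least `k - d`.
(2) `x = b0 ^ N * (∏ b j ^ c j)⁻¹` is transcendental, so `D x ≠ 0` (`KaehlerDifferential.D ℂ K0 x ≠ 0` in
characteristic zero); `FOR` with `t = x` (the factor has order `0`), `DET` with `t = x`;
`x = (b0 χ z0) ^ N * ∏ (b j χ (z j)) ^ (-c j)`, so `dlog x = N dlog (b0 χ z0) - ∑ c j dlog (g (σ j))` and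
`dlogs (cons x g) = N • dlogs (cons (b0 χ z0) g)`; `RES` with `J` = the image of `succ ∘ σ` and `0`, `k + 1`
functions. -/
def Stmt_STA : Prop := ∀ {m : ℕ} {K : Type} [Field K] [Algebra ℂ K],
  Algebra.trdeg ℂ K = ((m + 1 : ℕ) : Cardinal) → ∀ (K0 : IntermediateField ℂ K)
  (χ : (Fin m → ℤ) → K), IsCurve K0 → χ 0 = 1 → (∀ u w, χ (u + w) = χ u * χ w) →
  ∀ s : K0, Transcendental ℂ s → dlogs (Fin.cons (s : K) fun i => χ (Pi.single i 1)) ≠ 0 →
  ∀ D : Derivation ℂ K0 K0,
  (D s = 1 ∧ ∀ t : K0, KaehlerDifferential.D ℂ K0 t = D t • KaehlerDifferential.D ℂ K0 s) →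
  ∀ κ : DivVal 1 K0 → ℤ, (∀ (y : DivVal 1 K0) (t : K0), y.ord t = 1 → y.ord (D t) = - κ y) →
  ∀ (v : DivVal (m + 1) K) (w : Fin m → ℤ) (l : ℤ) (y : DivVal 1 K0), 0 ≤ l →
  (∀ (b : K0) (u : Fin m → ℤ), b ≠ 0 → v.ord ((b : K) * χ u) = l * y.ord b + ip w u) →
  ∀ (G : Set K) (d : ℕ), DepOn v G d →
  ∀ (k : ℕ) (b : Fin k → K0) (z : Fin k → Fin m → ℤ), (∀ j, b j ≠ 0) →
  (∀ j, (b j : K) * χ (z j) ∈ G) → (∀ j, l * y.ord (b j) + ip w (z j) = 0) →
  LinearIndependent ℤ z →
  l * (1 - y.ord s + κ y) + (k - d) ≤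
      v.logOrd (dlogs (Fin.cons (s : K) fun i => χ (Pi.single i 1))) ∧
  (l = 0 → ∀ (b0 : K0) (z0 : Fin m → ℤ), b0 ≠ 0 → (b0 : K) * χ z0 ∈ G → ip w z0 = 0 →
    ∀ (N : ℤ) (c : Fin k → ℤ), N ≠ 0 → N • z0 = ∑ j, c j • z j →
    Transcendental ℂ (b0 ^ N * (∏ j, b j ^ c j)⁻¹) →
    (k : ℤ) + 1 - d ≤ v.logOrd (dlogs (Fin.cons (s : K) fun i => χ (Pi.single i 1))))

/-- RDA: the log discrepancies of all valuations (attractive fixed point).
Proof. Copy of `t_RD1` (MldGeo/RD1.lean): the formula `hkey` there and the definition of `α`. -/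
def Stmt_RDA : Prop :=
  ∀ {m : ℕ} {X : Germ (m + 1)} {A : MldGeo.TorusAction X m} (S : MldGeo.Splitting A) (s : A.K0),
    Transcendental ℂ s → ∀ D : Derivation ℂ A.K0 A.K0,
    (D s = 1 ∧ ∀ t : A.K0, KaehlerDifferential.D ℂ A.K0 t = D t • KaehlerDifferential.D ℂ A.K0 s) →
    ∀ κ : DivVal 1 A.K0 →₀ ℤ, (∀ (y : DivVal 1 A.K0) (t : A.K0), y.ord t = 1 →
      y.ord (D t) = - κ y) →
    ∀ T : Triple X, A.InvTriple T →
    ∃ (ψ : Fin m → ℝ) (α : DivVal 1 A.K0 → ℝ) (P : Finset (DivVal 1 A.K0)),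
      (∀ y, y ∉ P → α y = 1) ∧ ∑ y ∈ P, (1 - α y) = - (deg κ : ℝ) ∧
      (∀ v w l y, 0 ≤ l → MldGeo.IsTor S v w l y → X.Through v →
        T.logDisc v = ∑ i, ψ i * w i + l * α y) ∧
      ∀ v w l y, 0 ≤ l → MldGeo.Along S v w l y → X.Through v →
        T.logDisc v = ∑ i, ψ i * w i + l * α y +
          ((v.logOrd (MldGeo.form0 S s) - l * (1 - y.ord s + κ y) : ℤ) : ℝ)

/-- RDB: the same for arbitrary torus actions.
Proof. Copy of `t_RD1` (MldG/RD1.lean). -/
def Stmt_RDB : Prop :=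
  ∀ {m : ℕ} {X : Germ (m + 1)} {A : MldG.TorusAction X m} (S : MldG.Splitting A) (s : A.K0),
    Transcendental ℂ s → ∀ D : Derivation ℂ A.K0 A.K0,
    (D s = 1 ∧ ∀ t : A.K0, KaehlerDifferential.D ℂ A.K0 t = D t • KaehlerDifferential.D ℂ A.K0 s) →
    ∀ κ : DivVal 1 A.K0 →₀ ℤ, (∀ (y : DivVal 1 A.K0) (t : A.K0), y.ord t = 1 →
      y.ord (D t) = - κ y) →
    ∀ T : Triple X, A.InvTriple T →
    ∃ (ψ : Fin m → ℝ) (α : DivVal 1 A.K0 → ℝ) (P : Finset (DivVal 1 A.K0)),
      (∀ y, y ∉ P → α y = 1) ∧ ∑ y ∈ P, (1 - α y) = - (deg κ : ℝ) ∧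
      (∀ v w l y, 0 ≤ l → MldG.IsTor S v w l y → X.Through v →
        T.logDisc v = ∑ i, ψ i * w i + l * α y) ∧
      ∀ v w l y, 0 ≤ l → MldG.Along S v w l y → X.Through v →
        T.logDisc v = ∑ i, ψ i * w i + l * α y +
          ((v.logOrd (MldG.form0 S s) - l * (1 - y.ord s + κ y) : ℤ) : ℝ)

/-- SEL: a basis among the vectors, and the remaining vectors.
Proof. Choose `f` such that the `u (f j)` are a maximal linearly independent subfamily of the `u i`,
`i ∈ I` (over `ℤ`, equivalently over `ℚ` or `ℝ`; `toR`); for `i ∈ I` some multiple `N • u i`, `N ≠ 0`, is an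
integral combination. -/
def Stmt_SEL : Prop := ∀ {m N : ℕ} (u : Fin N → Fin m → ℤ) (I : Set (Fin N)),
  ∃ f : Fin (rkI u I) → Fin N, (∀ j, f j ∈ I) ∧ LinearIndependent ℤ (fun j => u (f j)) ∧
    ∀ i ∈ I, ∃ (M : ℤ) (c : Fin (rkI u I) → ℤ), M ≠ 0 ∧ M • u i = ∑ j, c j • u (f j)

/-! ### attractive fixed points -/

/-- the generators which do not vanish at the centre of `(w, l, y)` -/
def I0 {m : ℕ} {X : Germ (m + 1)} {T : Triple X} (d : Dat T) (w : Fin m → ℤ) (l : ℤ)
    (y : d.Y) : Set (Fin d.N) := {i | l * d.e i y + ip w (d.u i) = 0}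

/-- the orders of the coefficients are linear in the weights -/
def LinOn {m : ℕ} {X : Germ (m + 1)} {T : Triple X} (d : Dat T) (I : Set (Fin d.N)) : Prop :=
  ∃ L : d.Y → Fin m → ℝ, ∀ i ∈ I, ∀ y, pr (L y) (d.u i) = -(d.e i y : ℝ)

/-- Combinatorial data with the refined lower bound. -/
structure DatP {m : ℕ} {X : Germ (m + 1)} (T : Triple X) where
  dat : Dat T
  lowp : ∀ v, X.Through v → ∀ k : ℕ, DimLE X v k → ∃ (w : Fin m → ℤ) (l : ℤ) (y : dat.Y), 0 ≤ l ∧
    (∀ i, 0 ≤ l * dat.e i y + ip w (dat.u i)) ∧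
    CMB.DD dat w l y + rkI dat.u (I0 dat w l y) ≤ T.disc v + k ∧
    (¬ (0 < l ∨ LinOn dat (I0 dat w l y)) →
      CMB.DD dat w l y + rkI dat.u (I0 dat w l y) + 1 ≤ T.disc v + k)

/-- DTP: the data exist.
Proof. Copy of `t_DAT` (MldGeo/DAT.lean) with `RDA` in place of `RD1`; `lowp`: `RSV` gives `(w, l, y)`. With
`SEL` for the generators of order `0` and `STA` (1) (`G = X.R`; `b i χ (u i)` regular) and `RDA`:
`ψ w + l α y + rkI - k ≤ logDisc v`. If `y ∈ Q` and not (`0 < l` or `LinOn`): `l = 0`, and for some `i ∈ I0` the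
integers `M • e i - ∑ c j • e (f j)` (of `SEL`) are not all zero (otherwise `L y' = ` the vector with
`pr (L y') (u (f j)) = -e (f j) y'` shows `LinOn`), so `b i ^ M * (∏ b (f j) ^ c j)⁻¹` is not constant:
`STA` (2). If `y ∉ Q`: as in `DAT` take `(w, 0, y0)`, `α y = 1`; if `l ≥ 1` this gains `1`. -/
def Stmt_DTP : Prop :=
  ∀ {m : ℕ} {X : Germ (m + 1)} (A : MldGeo.TorusAction X m) (T : Triple X), A.InvTriple T →
    Nonempty (DatP T)

/-- CM2: the triple of the combinatorial data.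
Proof. This is what the proof of `t_CMB` (MldGeo/CMB.lean) shows (`CMB.tri`, `hLC'`, `hmld`,
`CMB.ldisc_sg`); copy. -/
def Stmt_CM2 : Prop :=
  ∀ {m : ℕ} {X : Germ (m + 1)} {T : Triple X} (d : Dat T), T.Effective → T.LC →
    ∃ (X' : MldTv.TVar m 1) (φ : X'.Y ≃ d.Y) (T' : MldTv.Triple X'), (∀ y, X'.deg y = 1) ∧
      (∀ w : Fin m → ℝ, w ∈ X'.N ↔ ∃ z : Fin m → ℤ, w = toR z) ∧
      (∀ (y : d.Y) (k : ℝ), 0 ≤ k → ∀ w : Fin m → ℝ,
        w ∈ X'.poly (fun y' => if φ y' = y then k else 0) ↔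
          ∀ i, 0 ≤ pr w (d.u i) + k * d.e i y) ∧
      T'.LC ∧ T'.mld = T.mld ∧
      ∀ (w : Fin m → ℤ) (k : ℕ) (y : d.Y), T'.ldisc (toR w) (CMB.sg d φ k y) = CMB.DD d w k y

/-- CLA: the combinatorial inequality for the data.
Proof. `CM2`, `CBA` with `D = {x | ∀ i ∈ I0, pr x (u i) = 0}`, `finrank D = m - rkI` (duality), `l` a natural
number, `sg`. Directions: for small `ε` the inequalities with `i ∉ I0` (positive) persist. If `l = 0` and
`LinOn` with `L`: `w` is positive on the `u i`, `i ∉ I0`, so `L y + c w` satisfies all inequalities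
`0 ≤ pr _ (u i) + e i y` for large `c`; for small `ε > 0` the vector `w - ε ∑_y (L y + c w)` satisfies
`0 ≤ pr _ (u i)` (for `i ∈ I0` it is `ε ∑ e i y = 0`: `sum_e`); sum up with `poly_add`:
`w ∈ X'.poly (ε)`, the second alternative of `CBA`. -/
def Stmt_CLA : Prop :=
  ∀ {m : ℕ} {X : Germ (m + 1)} {T : Triple X} (d : Dat T), T.Effective → T.LC →
    ∀ (w : Fin m → ℤ) (l : ℤ) (y : d.Y), 0 ≤ l → (∀ i, 0 ≤ l * d.e i y + ip w (d.u i)) →
    ((0 < l ∨ LinOn d (I0 d w l y)) →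
      T.mld ≤ CMB.DD d w l y + rkI d.u (I0 d w l y)) ∧
    T.mld ≤ CMB.DD d w l y + rkI d.u (I0 d w l y) + 1

/-! ### nonconstant invariant functions -/

/-- the combinatorial log discrepancy, toric case -/
def DZ {m : ℕ} {X : Germ (m + 1)} {T : Triple X} (d : MldG.Daz T) (w : Fin (m + 1) → ℤ) : ℝ :=
  ∑ i, d.ψ i * w i - ∑ j, T.r j * MldG.minz (d.z j) w

/-- Combinatorial data with the refined lower bound, toric case. -/
structure DazP {m : ℕ} {X : Germ (m + 1)} (T : Triple X) where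
  dat : MldG.Daz T
  lowp : ∀ v, X.Through v → ∀ k : ℕ, DimLE X v k → ∃ w : Fin (m + 1) → ℤ,
    (∀ i, 0 ≤ ip w (dat.U i)) ∧
    DZ dat w + rkI dat.U {i | ip w (dat.U i) = 0} ≤ T.disc v + k

/-- DZP: the data exist.
Proof. Copy of `t_DAZ` (MldG/DAZ.lean) with `RDB` in place of `RD1`. `lowp`: `THZ` gives `(w', l)`,
`w = cons l w'`, `U i = cons (y₀.ord (b i)) (u i)`. `I` = the generators of order `0`. `rkI u I ≤ rkI U I ≤
rkI u I + 1`. If `rkI U I = rkI u I`: `SEL` for `u`, `STA` (1). Otherwise `l = 0` (if `l ≠ 0` the vectors `U i`,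
`i ∈ I`, are in the hyperplane `w⊥`, on which the projection to the last `m` coordinates is injective) and
for some `i ∈ I` the integer `M * y₀.ord (b i) - ∑ c j * y₀.ord (b (f j))` (of `SEL`) is not zero, so
`b i ^ M * (∏ b (f j) ^ c j)⁻¹` is not constant: `STA` (2). -/
def Stmt_DZP : Prop :=
  ∀ {m : ℕ} {X : Germ (m + 1)} (A : MldG.TorusAction X m) (T : Triple X), A.InvTriple T →
    MldG.Fixed A → (∃ a ∈ A.gr 0, ∀ c : ℂ, a ≠ algebraMap ℂ X.R c) → Nonempty (DazP T)

/-- CLZ: the combinatorial inequality, toric case.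
Proof. As in CMZ.lean (`CONE`, `NRG`, `ray`): the cone `σ = {x | ∀ i, 0 ≤ pr x (U i)}` is full dimensional and
strongly convex with primitive integral ray generators `r j`, each of which is a prime divisor:
`∑ ψ i * r j i = 1 - b ≤ 1` (`ray`, `Effective`). `w` is in the relative interior of the face with the
`i ∈ I` (`ip w (U i) = 0`), whose span has codimension `rkI U I`; choose at most `rkI U I` rays `r j` which
together with the face span everything; `w' = w + ∑ r j` is in the interior of `σ` (`0 < ip w' (U i)`: a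
linear form `U i ≠ 0`, nonnegative on `σ`, does not vanish on a spanning set of vectors of `σ` with positive
coefficients). The linear forms `z j k` are nonnegative on `σ` (`reg`), so `DZ w' ≤ DZ w + rkI`; `tor` for the
primitive vector `w' / g` and `LC` as in `CMB.exists_val`. -/
def Stmt_CLZ : Prop :=
  ∀ {m : ℕ} {X : Germ (m + 1)} {T : Triple X} (d : MldG.Daz T), T.Effective → T.LC →
    ∀ w : Fin (m + 1) → ℤ, (∀ i, 0 ≤ ip w (d.U i)) →
    T.mld ≤ DZ d w + rkI d.U {i | ip w (d.U i) = 0}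

end

end LSCM
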