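import Pool.Agent.LSCM.StB
import Pool.Agent.MldG.StmtsF

/-!
# Lower semicontinuity in complexity one: reduction to fixed points

The operations of `MldG` (localization, roots of units, replacing `ℂ^*` by the affine line) respect the
log discrepancies and the dimensions of the centres.
-/

set_option autoImplicit false

namespace LSCM

open MldGap MldGeo MldG MvPolynomial

noncomputable section

theorem amb_of_iso {n : ℕ} {X X' : Germ n} (j : X'.K ≃ₐ[ℂ] X.K) (T : Triple X) (T' : Triple X')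
    (h1 : ∀ v : DivVal n X.K, X.Through v → X'.Through (comap j v))
    (h2 : ∀ v : DivVal n X.K, X.Through v → T'.disc (comap j v) = T.disc v)
    (h3 : ∀ (v : DivVal n X.K) (d : ℕ), X.Through v → DimLE X v d → DimLE X' (comap j v) d)
    (h4 : T'.mld = T.mld) (h : Amb T') : Amb T := by
  intro v hv d hd
  rw [← h4, ← h2 v hv]
  exact h _ (h1 v hv) d (h3 v d hv hd)

/-- FRC: fractions of regular functions.
Proof. `P` = the ideal of the `a` with `a = 0` or `0 < v.ord a` is prime; `DimLE` says that any `d + 1`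
elements of `R ⧸ P` are algebraically dependent over `ℂ`, so `trdeg ≤ d` for `R ⧸ P` and its fraction field
(`Algebra.trdeg`, algebraic extension; or elementary). For `z i * s i = r i` some `p ≠ 0` kills the `r i / s i`
in the fraction field of `R ⧸ P`; with `N` large `aeval z p * ∏ s i ^ N` is an element of `R` in `P`. -/
def Stmt_FRC : Prop := ∀ {n : ℕ} (X : Germ n) (v : DivVal n X.K) (d : ℕ),
  (∀ a : X.R, 0 ≤ v.ord a) → DimLE X v d →
  DepOn v {z : X.K | ∃ r s : X.R, (s : X.K) ≠ 0 ∧ v.ord (s : X.K) = 0 ∧ z * (s : X.K) = r} d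

/-- LCP: localization.
Proof. Copy of the proof of `t_LCZ` (MldG/LCZ.lean, the helper lemmas can be imported);
`amb_of_iso` with `j = refl`, the functions on `LCZ.locG` are `b / f ^ k`, `v.ord f = 0` for `v` through the
point: `FRC`. -/
def Stmt_LCP : Prop :=
  ∀ {n m : ℕ} {X : Germ n} (A : MldG.TorusAction X m) (T : Triple X) (S : Set ℝ), 0 < n →
    Good A T S → ∃ (X' : Germ n) (A' : MldG.TorusAction X' m) (T' : Triple X'),
      Good A' T' S ∧ T'.mld = T.mld ∧ (Amb T' → Amb T) ∧ ClosedOrbit A'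

/-- CVD: covers.
Proof. Some extension `v''` of `v` to the cover exists (`EXT`); it is nonnegative on `k.X'.R` (integral over
`X.R`), and `IsExt v'' v 1` by `KUV` (first part, uniqueness of the restriction). Its centre `P''` lies over
the centre `P ≤ X.m` of `v`; by going up there is a maximal ideal `m'' ≥ P''` over `X.m`; the Galois group
(`k.conj`) is transitive on the maximal ideals over `X.m` (see the proof for `At` in KUV.lean), so `σ m'' =
k.X'.m` for some `σ` and `v' = v'' ∘ σ⁻¹` is through the point. Dimension: `k.X'.R ⧸ P'` is integral over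
`X.R ⧸ P`, so the transcendence degrees are equal. -/
def Stmt_CVD : Prop :=
  ∀ {n : ℕ} (X : Germ n) (p : ℕ) (g : X.R), 0 < n → p.Prime → IsUnit g →
    ∀ (k : RootCover X p g) (v : DivVal n X.K), X.Through v →
    ∃ v' : DivVal n k.X'.K, IsExt v' v 1 ∧ k.X'.Through v' ∧
      ∀ d : ℕ, DimLE X v d → DimLE k.X' v' d

/-- KMP: one step of the saturation. Proof. Copy of `t_KM1` (MldG/KM1.lean) and `CVD`. -/
def Stmt_KMP : Prop :=
  ∀ {n m : ℕ} {X : Germ n} (A : MldG.TorusAction X m) (T : Triple X) (S : Set ℝ), 0 < n →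
    Good A T S → ClosedOrbit A → ∀ (p : ℕ) (u : Fin m → ℤ), p.Prime → ¬ UnitWt A u →
    UnitWt A ((p : ℤ) • u) → ∃ (X' : Germ n) (A' : MldG.TorusAction X' m) (T' : Triple X'),
      Good A' T' S ∧ T'.mld = T.mld ∧ (Amb T' → Amb T) ∧ ClosedOrbit A' ∧
        ∀ w, UnitWt A' w ↔ ∃ i : ℤ, UnitWt A (w - i • u)

/-- KSP: saturation. Proof. Copy of `t_KMS` (MldG/KMS.lean). -/
def Stmt_KSP : Prop :=
  ∀ {n m : ℕ} {X : Germ n} (A : MldG.TorusAction X m) (T : Triple X) (S : Set ℝ), 0 < n →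
    Good A T S → ClosedOrbit A → ∃ (X' : Germ n) (A' : MldG.TorusAction X' m) (T' : Triple X'),
      Good A' T' S ∧ T'.mld = T.mld ∧ (Amb T' → Amb T) ∧ ClosedOrbit A' ∧ Sat A'

/-- AXP: replacing a factor `ℂ^*` by the affine line; `j` maps regular functions to regular functions.
Proof. Copy of `t_AFX` (MldG/AFX.lean); the last clause is `hτ` there. -/
def Stmt_AXP : Prop :=
  ∀ {n m : ℕ} {X : Germ n} (A : MldG.TorusAction X m) (φ : (Fin m → ℤ) →+ ℤ) (u : Fin m → ℤ)
    (g : X.R), 0 < n → IsUnit g → g ∈ A.gr u → φ u = 1 → ClosedOrbit A → Sat A →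
    ∃ (X' : Germ n) (j : X'.K ≃ₐ[ℂ] X.K) (A' : MldG.TorusAction X' m),
      (∀ v : DivVal n X.K, X.Through v ↔ X'.Through (comap j v)) ∧
      (∀ v : DivVal n X.K, X.At v ↔ X'.At (comap j v)) ∧
      (∀ (v : DivVal n X.K) (P' : Ideal X'.R), X.Through v → X'.IsOrdAlong (comap j v) P' →
        ∃ P : Ideal X.R, X.IsOrdAlong v P) ∧
      (∀ (w : Fin m → ℤ) (a : X.R), φ w = 0 → a ∈ A.gr w →
        ∃ h : j.symm (a : X.K) ∈ X'.R, (⟨j.symm (a : X.K), h⟩ : X'.R) ∈ A'.gr w) ∧
      ClosedOrbit A' ∧ Sat A' ∧ (∀ w, UnitWt A' w ↔ UnitWt A w ∧ φ w = 0) ∧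
      ∀ a' : X'.R, j (a' : X'.K) ∈ X.R

/-- APP: one step. Proof. Copy of `t_AF1` (MldG/AF1.lean), `amb_of_iso`. -/
def Stmt_APP : Prop :=
  ∀ {n m : ℕ} {X : Germ n} (A : MldG.TorusAction X m) (T : Triple X) (S : Set ℝ), 0 < n →
    Good A T S → ClosedOrbit A → Sat A → ∀ (φ : (Fin m → ℤ) →+ ℤ) (u : Fin m → ℤ),
    UnitWt A u → φ u = 1 → ∃ (X' : Germ n) (A' : MldG.TorusAction X' m) (T' : Triple X'),
      Good A' T' S ∧ T'.mld = T.mld ∧ (Amb T' → Amb T) ∧ ClosedOrbit A' ∧ Sat A' ∧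
        ∀ w, UnitWt A' w ↔ UnitWt A w ∧ φ w = 0

/-- FXQ: one may assume that `x` is a fixed point. Proof. Copy of `t_FXP` (MldG/FXP.lean). -/
def Stmt_FXQ : Prop :=
  ∀ {n m : ℕ} {X : Germ n} (A : MldG.TorusAction X m) (T : Triple X) (S : Set ℝ), 0 < n →
    Good A T S → ∃ (X' : Germ n) (A' : MldG.TorusAction X' m) (T' : Triple X'),
      Good A' T' S ∧ T'.mld = T.mld ∧ (Amb T' → Amb T) ∧ Fixed A'

/-- LOW: dimension one. Proof. `v` through `x` is at `x` (`HT1`; `R` has dimension one), `mld ≤ disc v` (`LC`);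
`mld ≤ disc (ord_x) ≤ 1` as `B ≥ 0` and the orders of the ideals are `≥ 0` (see DM1.lean). -/
def Stmt_ON1 : Prop :=
  ∀ {X : Germ 1} (T : Triple X), T.Effective → T.LC → Amb T ∧ T.mld ≤ 1

/-- LSC: the theorem for the old forms of the definitions. -/
def Stmt_LSC : Prop :=
  ∀ {n m : ℕ} {X : Germ n} (A : MldG.TorusAction X m) (T : Triple X), n ≤ m + 1 →
    A.InvTriple T → T.Effective → T.LC → Amb T ∧ T.mld ≤ n

end

end LSCM
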