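import Pool.Agent.LSCM.StD

/-!
# Lower semicontinuity in complexity one: valuations whose centres meet a neighbourhood

The same statements as in `StB`, `StD`, for all valuations whose centres meet a neighbourhood of `x`.
-/

set_option autoImplicit false

namespace LSCM

open MldGap MldGeo MldG MvPolynomial

noncomputable section

/-- `v` has a centre on `X`, and it meets the neighbourhood `g ≠ 0` of the point (`g ∉ X.m`) -/
def Near {n : ℕ} (X : Germ n) (g : X.R) (v : DivVal n X.K) : Prop :=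
  (∀ a : X.R, 0 ≤ v.ord a) ∧ v.ord g = 0

theorem near_of_through {n : ℕ} {X : Germ n} {g : X.R} (hg : g ∉ X.m) {v : DivVal n X.K}
    (hv : X.Through v) : Near X g v := ⟨hv.1, hv.2 g hg⟩

theorem near_mul {n : ℕ} {X : Germ n} {g h : X.R} (hg : g ∉ X.m) (hh : h ∉ X.m)
    {v : DivVal n X.K} (hv : Near X (g * h) v) : Near X g v ∧ Near X h v := by
  have h1 : (g : X.K) ≠ 0 := fun h0 => hg (by
    have : g = 0 := Subtype.ext h0
    rw [this]; exact X.m.zero_mem)
  have h2 : (h : X.K) ≠ 0 := fun h0 => hh (by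
    have : h = 0 := Subtype.ext h0
    rw [this]; exact X.m.zero_mem)
  have h3 : v.ord (g : X.K) + v.ord (h : X.K) = 0 := by
    rw [← v.ord_mul _ _ h1 h2]
    exact hv.2
  have h4 := hv.1 g
  have h5 := hv.1 h
  exact ⟨⟨hv.1, by omega⟩, ⟨hv.1, by omega⟩⟩

theorem mul_notMem {n : ℕ} {X : Germ n} {g h : X.R} (hg : g ∉ X.m) (hh : h ∉ X.m) :
    g * h ∉ X.m := fun hm => (X.max.isPrime.mem_or_mem hm).elim hg hh

/-- the inequality of lower semicontinuity in a neighbourhood: `mld_x ≤ disc v + dim (centre of v)` for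
all divisorial valuations whose centre meets the neighbourhood -/
def AmbN {n : ℕ} {X : Germ n} (T : Triple X) : Prop :=
  ∃ g : X.R, g ∉ X.m ∧ ∀ v, Near X g v → ∀ d : ℕ, DimLE X v d → T.mld ≤ T.disc v + d

theorem amb_of_ambN {n : ℕ} {X : Germ n} {T : Triple X} (h : AmbN T) : Amb T := by
  obtain ⟨g, hg, h⟩ := h
  exact fun v hv d hd => h v (near_of_through hg hv) d hd

/-! ### general facts -/

/-- UNN: an `ℝ`-divisor `∑ c_i div (f_i)` which is zero at `x` is zero in a neighbourhood.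
Proof. `RED.lin_comb` (MldGeo/RED.lean) gives `l k`, `h k` with `∑ c_i v(f_i) = ∑ l_k v(h_k)` for all `v`, the
`l k` linearly independent over `ℤ`. So `v.ord (h k) = 0` for all `v` through the point, in particular for the
orders along the prime divisors through the point; `LOC` for `h k` and `(h k)⁻¹`: `h k * s = r`,
`(h k)⁻¹ * s' = r'`, `s, s' ∉ X.m`; then `r * r' = s * s' ∉ X.m`, so `r ∉ X.m`. `g` = the product of all
`r * s`: `near_mul`. -/
def Stmt_UNN : Prop := ∀ {n : ℕ} (X : Germ n) {ι : Type} [Fintype ι] (f : ι → X.K) (c : ι → ℝ),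
  (∀ i, f i ≠ 0) → (∀ v, X.Through v → ∑ i, c i * v.ord (f i) = 0) →
  ∃ g : X.R, g ∉ X.m ∧ ∀ v, Near X g v → ∑ i, c i * v.ord (f i) = 0

/-- LDN: a formula for the log discrepancies at `x` holds in a neighbourhood.
Proof. `T.ω = b • dlogs a` with `b ≠ 0` (the space of forms has dimension one: `FRM.exists_smul`, `TBAS` as in
RED.lean), so `T.logDisc v = v.logOrd (dlogs a) + v.ord b + ∑ c_i v.ord (f_i)` for all `v` (`TXT`, `FSM`, see
`hdisc` in RED.lean); `UNN` with the index type `Option T.I ⊕ Fin q`. -/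
def Stmt_LDN : Prop := ∀ {n : ℕ} {X : Germ n} (T : Triple X) (a : Fin n → X.K), 0 < n →
  dlogs a ≠ 0 → ∀ (q : ℕ) (l : Fin q → ℝ) (H : Fin q → X.K), (∀ k, H k ≠ 0) →
  (∀ v, X.Through v → T.logDisc v = v.logOrd (dlogs a) + ∑ k, l k * v.ord (H k)) →
  ∃ g : X.R, g ∉ X.m ∧ ∀ v, Near X g v →
    T.logDisc v = v.logOrd (dlogs a) + ∑ k, l k * v.ord (H k)

/-- RNA: the log discrepancies of all valuations near `x` (attractive fixed point).
Proof. Copy of `t_RDA` (LSCM/RDA.lean) with `LDN` after `RED` (`g` = the one of `LDN`). -/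
def Stmt_RNA : Prop :=
  ∀ {m : ℕ} {X : Germ (m + 1)} {A : MldGeo.TorusAction X m} (S : MldGeo.Splitting A) (s : A.K0),
    Transcendental ℂ s → ∀ D : Derivation ℂ A.K0 A.K0,
    (D s = 1 ∧ ∀ t : A.K0, KaehlerDifferential.D ℂ A.K0 t = D t • KaehlerDifferential.D ℂ A.K0 s) →
    ∀ κ : DivVal 1 A.K0 →₀ ℤ, (∀ (y : DivVal 1 A.K0) (t : A.K0), y.ord t = 1 →
      y.ord (D t) = - κ y) →
    ∀ T : Triple X, A.InvTriple T →
    ∃ (ψ : Fin m → ℝ) (α : DivVal 1 A.K0 → ℝ) (P : Finset (DivVal 1 A.K0)) (g : X.R), g ∉ X.m ∧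
      (∀ y, y ∉ P → α y = 1) ∧ ∑ y ∈ P, (1 - α y) = - (deg κ : ℝ) ∧
      (∀ v w l y, 0 ≤ l → MldGeo.IsTor S v w l y → Near X g v →
        T.logDisc v = ∑ i, ψ i * w i + l * α y) ∧
      ∀ v w l y, 0 ≤ l → MldGeo.Along S v w l y → Near X g v →
        T.logDisc v = ∑ i, ψ i * w i + l * α y +
          ((v.logOrd (MldGeo.form0 S s) - l * (1 - y.ord s + κ y) : ℤ) : ℝ)

/-- RNB: the same for arbitrary torus actions. Proof. Copy of `t_RDB` (LSCM/RDB.lean) with `LDN`. -/
def Stmt_RNB : Prop :=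
  ∀ {m : ℕ} {X : Germ (m + 1)} {A : MldG.TorusAction X m} (S : MldG.Splitting A) (s : A.K0),
    Transcendental ℂ s → ∀ D : Derivation ℂ A.K0 A.K0,
    (D s = 1 ∧ ∀ t : A.K0, KaehlerDifferential.D ℂ A.K0 t = D t • KaehlerDifferential.D ℂ A.K0 s) →
    ∀ κ : DivVal 1 A.K0 →₀ ℤ, (∀ (y : DivVal 1 A.K0) (t : A.K0), y.ord t = 1 →
      y.ord (D t) = - κ y) →
    ∀ T : Triple X, A.InvTriple T →
    ∃ (ψ : Fin m → ℝ) (α : DivVal 1 A.K0 → ℝ) (P : Finset (DivVal 1 A.K0)) (g : X.R), g ∉ X.m ∧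
      (∀ y, y ∉ P → α y = 1) ∧ ∑ y ∈ P, (1 - α y) = - (deg κ : ℝ) ∧
      (∀ v w l y, 0 ≤ l → MldG.IsTor S v w l y → Near X g v →
        T.logDisc v = ∑ i, ψ i * w i + l * α y) ∧
      ∀ v w l y, 0 ≤ l → MldG.Along S v w l y → Near X g v →
        T.logDisc v = ∑ i, ψ i * w i + l * α y +
          ((v.logOrd (MldG.form0 S s) - l * (1 - y.ord s + κ y) : ℤ) : ℝ)

/-- AVO: avoiding finitely many points of the curve of the invariants.
Proof. Let `y' ∈ Q`, `y' ≠ y₀`. By `Centre.unique` some regular `b : A.K0` has `y'.ord b < 0` (then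
`v.ord b = l * y'.ord b < 0` is impossible, the factor is `1`), or some regular `b ∉ X.m` has
`y'.ord b ≠ 0`, so `0 < y'.ord b`, `v.ord b = l * y'.ord b > 0` is impossible for `v` near `b`. `g` = the
product of these `b` over `Q.erase y₀` (`near_mul`, or induction on `Q`). -/
def Stmt_AVO : Prop :=
  ∀ {m : ℕ} {X : Germ (m + 1)} (A : MldG.TorusAction X m) (S : MldG.Splitting A)
    (y₀ : DivVal 1 A.K0), MldG.Centre A y₀ → ∀ Q : Finset (DivVal 1 A.K0),
    ∃ g : X.R, g ∉ X.m ∧ ∀ (v : DivVal (m + 1) X.K) (w : Fin m → ℤ) (l : ℤ) (y : DivVal 1 A.K0),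
      0 < l → MldG.Along S v w l y → Near X g v → y ∈ Q → y = y₀

/-! ### attractive fixed points -/

/-- Combinatorial data with the refined lower bound in a neighbourhood. -/
structure DatN {m : ℕ} {X : Germ (m + 1)} (T : Triple X) where
  dat : Dat T
  lown : ∃ g : X.R, g ∉ X.m ∧ ∀ v, Near X g v → ∀ k : ℕ, DimLE X v k →
    ∃ (w : Fin m → ℤ) (l : ℤ) (y : dat.Y), 0 ≤ l ∧
    (∀ i, 0 ≤ l * dat.e i y + ip w (dat.u i)) ∧
    CMB.DD dat w l y + rkI dat.u (I0 dat w l y) ≤ T.disc v + k ∧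
    (¬ (0 < l ∨ LinOn dat (I0 dat w l y)) →
      CMB.DD dat w l y + rkI dat.u (I0 dat w l y) + 1 ≤ T.disc v + k)

/-- DTN: the data exist. Proof. Copy of `t_DTP` (LSCM/DTP.lean) with `RNA` in place of `RDA`; only the
nonnegativity of `v` on the regular functions is used besides the formula of `RNA`. -/
def Stmt_DTN : Prop :=
  ∀ {m : ℕ} {X : Germ (m + 1)} (A : MldGeo.TorusAction X m) (T : Triple X), A.InvTriple T →
    Nonempty (DatN T)

/-! ### nonconstant invariant functions -/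

/-- Combinatorial data with the refined lower bound in a neighbourhood, toric case. -/
structure DazN {m : ℕ} {X : Germ (m + 1)} (T : Triple X) where
  dat : MldG.Daz T
  lown : ∃ g : X.R, g ∉ X.m ∧ ∀ v, Near X g v → ∀ k : ℕ, DimLE X v k → ∃ w : Fin (m + 1) → ℤ,
    (∀ i, 0 ≤ ip w (dat.U i)) ∧
    DZ dat w + rkI dat.U {i | ip w (dat.U i) = 0} ≤ T.disc v + k

/-- DZN: the data exist.
Proof. Copy of `t_DZP` (LSCM/DZP.lean) with `RNB` in place of `RDB`. `lown`: `g` = the product of the `g` of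
`RNB` and the `g` of `AVO` for `Q = P ∪` the supports of all `b i` and of all `c j k` (`PRF`). Let `v` be near
`g`. `RSV` gives `(w', l, y)`, `0 ≤ l * y.ord b + ip w' u` for all `b χ^u` regular. If `l = 0` one may
replace `y` by `y₀` (`Along` for `l = 0` does not depend on `y`). If `0 < l` and `y = y₀`: as in `t_DZP`, with
the vector `cons l w'`. If `0 < l` and `y ≠ y₀`, then `y ∉ Q` (`AVO`), so `α y = 1`, `y.ord (b i) = 0`,
`y.ord (c j k) = 0`: take the vector `cons 0 w'`. All inequalities `0 ≤ ip w' (u i)` hold,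
`DZ (cons 0 w') + l ≤ T.disc v - (logOrd - …)`, the generators of order `0` are the same, `rkI U I ≤ rkI u I +
1` and `1 ≤ l`; `STA` (1) with `SEL` for `u`. -/
def Stmt_DZN : Prop :=
  ∀ {m : ℕ} {X : Germ (m + 1)} (A : MldG.TorusAction X m) (T : Triple X), A.InvTriple T →
    MldG.Fixed A → (∃ a ∈ A.gr 0, ∀ c : ℂ, a ≠ algebraMap ℂ X.R c) → Nonempty (DazN T)

/-! ### reduction -/

/-- LCN: localization. Proof. Copy of `t_LCP` (LSCM/LCP.lean); if `f' = b / f ^ k ∉ X'.m` then take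
`g = f * b`: `v` near `g` has `v.ord f = 0`, `v.ord b = 0`, so `v` is near `f'`. -/
def Stmt_LCN : Prop :=
  ∀ {n m : ℕ} {X : Germ n} (A : MldG.TorusAction X m) (T : Triple X) (S : Set ℝ), 0 < n →
    Good A T S → ∃ (X' : Germ n) (A' : MldG.TorusAction X' m) (T' : Triple X'),
      Good A' T' S ∧ T'.mld = T.mld ∧ (AmbN T' → AmbN T) ∧ ClosedOrbit A'

/-- CVN: covers.
Proof. Let `σ i` be the conjugations (`k.conj`, `p` of them; the Galois group of `K' / K`), they map `k.X'.R`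
to itself. The polynomial `∏ (T - σ i f')` has coefficients in `X.R` (invariant and integral, `X.normal`). If all
its coefficients (except the leading one) were in `X.m`, then `f' ^ p ∈ X.m * k.X'.R ≤ k.X'.m`,
contradiction; so one coefficient `f ∉ X.m`. It is a sum of products of functions `σ i f'`. Let `v` be near
`f`; `v''` an extension (`EXT`), nonnegative on `k.X'.R` (integral over `X.R`), `IsExt v'' v 1` (first part
of `KUV`: `v''.ord a = e v.ord a = v1.ord a`, so `e = 1`, see CVD.lean). As `v''.ord f = 0` some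
`σ i f'` has order `0` at `v''`: `v' = v'' ∘ σ i`. Dimension: as in CVD.lean. -/
def Stmt_CVN : Prop :=
  ∀ {n : ℕ} (X : Germ n) (p : ℕ) (g : X.R), 0 < n → p.Prime → IsUnit g →
    ∀ (k : RootCover X p g) (f' : k.X'.R), f' ∉ k.X'.m → ∃ f : X.R, f ∉ X.m ∧
      ∀ v : DivVal n X.K, Near X f v → ∃ v' : DivVal n k.X'.K, IsExt v' v 1 ∧
        Near k.X' f' v' ∧ ∀ d : ℕ, DimLE X v d → DimLE k.X' v' d

/-- KMN: one step of the saturation. Proof. Copy of `t_KMP` (LSCM/KMP.lean) with `CVN`. -/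
def Stmt_KMN : Prop :=
  ∀ {n m : ℕ} {X : Germ n} (A : MldG.TorusAction X m) (T : Triple X) (S : Set ℝ), 0 < n →
    Good A T S → ClosedOrbit A → ∀ (p : ℕ) (u : Fin m → ℤ), p.Prime → ¬ UnitWt A u →
    UnitWt A ((p : ℤ) • u) → ∃ (X' : Germ n) (A' : MldG.TorusAction X' m) (T' : Triple X'),
      Good A' T' S ∧ T'.mld = T.mld ∧ (AmbN T' → AmbN T) ∧ ClosedOrbit A' ∧
        ∀ w, UnitWt A' w ↔ ∃ i : ℤ, UnitWt A (w - i • u)

/-- KSN: saturation. Proof. Copy of `t_KSP` (LSCM/KSP.lean). -/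
def Stmt_KSN : Prop :=
  ∀ {n m : ℕ} {X : Germ n} (A : MldG.TorusAction X m) (T : Triple X) (S : Set ℝ), 0 < n →
    Good A T S → ClosedOrbit A → ∃ (X' : Germ n) (A' : MldG.TorusAction X' m) (T' : Triple X'),
      Good A' T' S ∧ T'.mld = T.mld ∧ (AmbN T' → AmbN T) ∧ ClosedOrbit A' ∧ Sat A'

/-- APN: one step. Proof. Copy of `t_APP` (LSCM/APP.lean), with `AXP`. The equality `T'.disc (comap j v) =
T.disc v` holds for all `v` which are nonnegative on `X.R` (`AF1.ord_eq` uses only the nonnegativity and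
`v.ord h = 0` for units `h`, which follows from it). Neighbourhoods: for `f' ∉ X'.m` the function `j f' ∈ X.R`
is not in `X.m`, because some valuation `v` is at the point of `X` (`EXP` for `X.m ≠ ⊥`), then `comap j v` is at
the point of `X'` and `v.ord (j f') = 0` by `ATH`; `g = j f'`. -/
def Stmt_APN : Prop :=
  ∀ {n m : ℕ} {X : Germ n} (A : MldG.TorusAction X m) (T : Triple X) (S : Set ℝ), 0 < n →
    Good A T S → ClosedOrbit A → Sat A → ∀ (φ : (Fin m → ℤ) →+ ℤ) (u : Fin m → ℤ),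
    UnitWt A u → φ u = 1 → ∃ (X' : Germ n) (A' : MldG.TorusAction X' m) (T' : Triple X'),
      Good A' T' S ∧ T'.mld = T.mld ∧ (AmbN T' → AmbN T) ∧ ClosedOrbit A' ∧ Sat A' ∧
        ∀ w, UnitWt A' w ↔ UnitWt A w ∧ φ w = 0

/-- FXN: one may assume that `x` is a fixed point. Proof. Copy of `t_FXQ` (LSCM/FXQ.lean). -/
def Stmt_FXN : Prop :=
  ∀ {n m : ℕ} {X : Germ n} (A : MldG.TorusAction X m) (T : Triple X) (S : Set ℝ), 0 < n →
    Good A T S → ∃ (X' : Germ n) (A' : MldG.TorusAction X' m) (T' : Triple X'),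
      Good A' T' S ∧ T'.mld = T.mld ∧ (AmbN T' → AmbN T) ∧ Fixed A'

/-- ONN: curves. Proof. `A.gr _ = ⊤` (there is one weight). `X.R` is not `ℂ` because `trdeg X.K = 1`. All
functions are semi-invariant, so all ideals are invariant. -/
def Stmt_ONN : Prop := ∀ X : Germ (0 + 1), ∃ A : MldG.TorusAction X 0, MldG.Fixed A ∧
  (∃ a ∈ A.gr 0, ∀ c : ℂ, a ≠ algebraMap ℂ X.R c) ∧ ∀ T : Triple X, A.InvTriple T

/-! ### existence of valuations, dimensions -/

/-- EXP: every subvariety `≠ X` is the centre of a divisorial valuation.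
Proof. `P = (a_1, …, a_r)`, `a_i ≠ 0`. There is a valuation ring `V` of `X.K` which dominates `X.R_P` (Mathlib:
`LocalSubring.exists_le_valuationSubring` or similar). Let `a_i` have the largest value (smallest order) at `V`, so
`a_j / a_i ∈ V` for all `j`. `R'` = the subalgebra generated by `X.R` and the `a_j / a_i`, `R''` = its integral
closure in `X.K`; it is a finitely generated algebra (Noether normalization of `R'` and
`IsIntegralClosure.finite` or what MldG/KUX.lean, MldGeo use; `R'' ⊆ V`). Let `M` be the prime `R'' ∩ 𝔪_V`, it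
contains `a_i` and `M ∩ X.R = P`; `Q` a minimal prime over `(a_i)` with `Q ≤ M`; `Q.height = 1` (Krull, `a_i ≠
0`). `P ≤ Q ∩ X.R` because `a_j = a_i * (a_j / a_i)`, and `Q ∩ X.R ≤ P`. `DIV` for the germ of `R''` (at any
maximal ideal) and `Q`. -/
def Stmt_EXP : Prop := ∀ {n : ℕ} (X : Germ n) (P : Ideal X.R), P.IsPrime → P ≠ ⊥ →
  ∃ v : DivVal n X.K, (∀ a : X.R, 0 ≤ v.ord a) ∧ ∀ a : X.R, a ∈ P ↔ a = 0 ∨ 0 < v.ord a

/-- DML: the dimension of the centre. Proof. `d + 1` elements of `X.R ⧸ P` are algebraically dependent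
(`AlgebraicIndependent.lift_cardinalMk_le_trdeg` or similar): some `p ≠ 0` with `aeval r p ∈ P`. -/
def Stmt_DML : Prop := ∀ {n : ℕ} (X : Germ n) (P : Ideal X.R) (v : DivVal n X.K) (d : ℕ),
  (∀ a ∈ P, a = 0 ∨ 0 < v.ord a) → Algebra.trdeg ℂ (X.R ⧸ P) = d → DimLE X v d

/-- LSN: the theorem for the old forms of the definitions. -/
def Stmt_LSN : Prop :=
  ∀ {n m : ℕ} {X : Germ n} (A : MldG.TorusAction X m) (T : Triple X), n ≤ m + 1 →
    A.InvTriple T → T.Effective → T.LC → AmbN T ∧ T.mld ≤ n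

end

end LSCM
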